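import Mathlib.Tactic.NoncommRing
import Mathlib.Tactic.Monotonicity.Lemmas
import Mathlib.Analysis.Normed.Order.Lattice
import Mathlib.Algebra.Order.Star.Real
import Mathlib.Algebra.Ring.IsFormallyReal
import Mathlib.Combinatorics.SimpleGraph.Basic
import Mathlib.Data.Finsupp.Pointwise
import Mathlib.GroupTheory.Nilpotent
import Mathlib.RingTheory.PiTensorProduct
import Mathlib.RingTheory.TotallySplit
import Mathlib.RingTheory.Etale.Weakly
import Pool.Agent.MP_983df8_al.ch.TOP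

-- ======== part 0: formerly Pool.Agent.MP_983df8_al.ch.UF0
section MrgPart0

/-! The calculus of leading terms. -/

namespace Pool.Agent.MP_983df8_al.CH

open Subgroup Module

namespace U0

variable {ι Λ R V : Type} [AddCommGroup Λ] [CommRing R] [LieRing V] [LieAlgebra R V] {D : RD ι Λ}
  (C : CL D R V) {η : Λ →+ ℤ} {m m' : ℤ} {y z : (End R V)ˣ} {a b : V} {A : Set Λ} {f g : End R V}

theorem ad_e (c : ι) : LieAlgebra.ad R V (C.e c) ∈ C.sp {D.rt c} := C.ad_mem (Vs.basis rfl)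

theorem x_sp (hA : ∀ a ∈ A, ∀ b ∈ A, a + b ∈ A) {c : ι} (h : D.rt c ∈ A) (t : R) :
    (C.x c t).1 - 1 ∈ C.sp A := by
  have e : (C.x c t).1 - 1 = t • LieAlgebra.ad R V (C.e c) + t ^ 2 • C.d2 c + t ^ 3 • C.d3 c := by
    rw [C.x_val]; abel
  rw [e]
  refine add_mem (add_mem ?_ ?_) ?_ <;> refine Submodule.smul_mem _ _ ?_
  · exact Sp.mono (ad_e C c) (by rintro _ rfl; exact h)
  · exact Sp.mono (C.d2_sp c) (by rintro _ rfl; rw [two_smul]; exact hA _ h _ h)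
  · refine Sp.mono (C.d3_sp c) ?_
    rintro _ rfl
    rw [show (3 : ℤ) • D.rt c = D.rt c + D.rt c + D.rt c by module]
    exact hA _ (hA _ h _ h) _ h

variable {C}

theorem mul_sp (hA : ∀ a ∈ A, ∀ b ∈ A, a + b ∈ A) (h : f - 1 ∈ C.sp A) (h' : g - 1 ∈ C.sp A) :
    f * g - 1 ∈ C.sp A := by
  rw [show f * g - 1 = (f - 1) * (g - 1) + (f - 1) + (g - 1) by noncomm_ring]
  exact add_mem (add_mem (Sp.mul h h' hA) h) h'

theorem ux_sp {Ψ : Set ι} (hA : ∀ a ∈ A, ∀ b ∈ A, a + b ∈ A) (h : ∀ a ∈ Ψ, D.rt a ∈ A)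
    (hy : y ∈ C.Ux Ψ) : y.1 - 1 ∈ C.sp A :=
  C.Ux_induction (p := fun y => y.1 - 1 ∈ C.sp A) hy (by simp) (fun a b t => x_sp C hA (h a b) t)
    fun _ _ => mul_sp hA

theorem dmul {k : ℤ} (h : f ∈ C.sp {l | m ≤ η l}) (h' : g ∈ C.sp {l | m' ≤ η l}) (e : k ≤ m + m') :
    f * g ∈ C.sp {l | k ≤ η l} :=
  Sp.mul h h' fun c a c' b => by simp only [Set.mem_setOf_eq, map_add] at *; omega

theorem dmono (h : f ∈ C.sp {l | m ≤ η l}) (e : m' ≤ m) : f ∈ C.sp {l | m' ≤ η l} :=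
  Sp.mono h fun _ a => e.trans a

theorem done : (1 : End R V) ∈ C.sp {l | 0 ≤ η l} := Sp.one (by simp)

theorem dzero (h : f - 1 ∈ C.sp {l | m ≤ η l}) (e : 0 ≤ m) : f ∈ C.sp {l | 0 ≤ η l} := by
  simpa using add_mem (dmono h e) done

theorem dpow (h : f ∈ C.sp {l | 1 ≤ η l}) (k : ℕ) : f ^ k ∈ C.sp {l | (k : ℤ) ≤ η l} := by
  induction k with
  | zero => simpa using done
  | succ k ih => rw [pow_succ]; exact dmul ih h (by simp)

theorem dad (h : a ∈ C.vs {l | η l = m}) : LieAlgebra.ad R V a ∈ C.sp {l | m ≤ η l} :=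
  Sp.mono (C.ad_mem h) fun _ e => e.ge

theorem big (C : CL D R V) (η : Λ →+ ℤ) : ∃ M : ℕ, ∀ f ∈ C.sp {l | (M : ℤ) ≤ η l}, f = 0 := by
  have := D.fin
  obtain ⟨M, hM⟩ := (Set.finite_range fun p : (D.Δ ⊕ ι) × (D.Δ ⊕ ι) =>
    η (D.wt p.1 - D.wt p.2)).bddAbove
  refine ⟨M.natAbs + 1, fun f h => Sp.eq_zero h fun i j e => ?_⟩
  have := hM ⟨(i, j), rfl⟩
  simp only [Set.mem_setOf_eq] at e this
  omega

theorem inv_zero (hm : 1 ≤ m) (h : C.Fl η m y) : (y⁻¹).1 ∈ C.sp {l | 0 ≤ η l} := by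
  obtain ⟨M, hM⟩ := big C η
  have h1 : 1 - y.1 ∈ C.sp {l | 1 ≤ η l} := by simpa using neg_mem (dmono h hm)
  have e : y.1 * ∑ i ∈ Finset.range M, (1 - y.1) ^ i = 1 := by
    simpa [hM _ (dpow h1 M)] using mul_neg_geom_sum (1 - y.1) M
  rw [← mul_one (y⁻¹).1, ← e, ← mul_assoc, Units.inv_mul, one_mul]
  exact sum_mem fun i _ => dmono (dpow h1 i) (by simp)

theorem fl_inv (hm : 1 ≤ m) (h : C.Fl η m y) : C.Fl η m y⁻¹ := by
  have := neg_mem (dmul (k := m) (inv_zero hm h) h (by simp))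
  rwa [mul_sub, Units.inv_mul, mul_one, neg_sub] at this

theorem ld_fl (h : C.Ld η m y a) : C.Fl η m y := by
  simpa [CL.Fl] using add_mem (dmono h.2 (m' := m) (by simp)) (dad h.1)

theorem repr_lie (F : RDF D) (c : ι) {φ : V →ₗ[R] R} (h1 : φ (C.h c) = 1)
    (h2 : ∀ d, φ (C.e d) = 0) {v : V} (hv : v ∈ C.vs {l | l ≠ 0}) :
    φ ⁅v, C.e (D.ng c)⁆ = C.B.repr v (.inr c) := by
  classical
  refine Vs.induction (p := fun v => φ ⁅v, C.e (D.ng c)⁆ = C.B.repr v (.inr c)) hv (by simp) ?_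
    fun u v a b => by simp only [add_lie, map_add, a, b, Finsupp.add_apply]
  rintro (i | d) r e
  · simp at e
  simp only [smul_lie, map_smul, Basis.repr_self, Finsupp.smul_apply, Finsupp.single_apply,
    Sum.inr.injEq]
  congr 1
  split_ifs with e'
  · rw [e', C.eng, h1]
  by_cases e2 : ∃ d', D.rt d' = D.rt (D.ng c) + D.rt d
  · obtain ⟨d', e2⟩ := e2
    rw [C.ee _ _ _ e2, map_smul, h2, smul_zero]
  · rw [C.e0 _ _ (fun e3 => e' (by rw [← D.ng_ng d, ← e3, D.ng_ng])) fun d' e3 => e2 ⟨d', e3⟩,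
      map_zero]

theorem phi_zero {φ : V →ₗ[R] R} (h2 : ∀ d, φ (C.e d) = 0) {v : V} (hv : v ∈ C.vs {l | l ≠ 0}) :
    φ v = 0 :=
  Vs.induction (p := fun v => φ v = 0) hv (by simp) (by
    rintro (i | d) r e
    · simp at e
    · simp [h2]) fun u v a b => by simp [a, b]

/-- coefficient extraction -/
theorem extract (F : RDF D) (hm : 1 ≤ m) (ha : a ∈ C.vs {l | η l = m})
    (h : f - LieAlgebra.ad R V a ∈ C.sp {l | m + 1 ≤ η l}) (hf : f ∈ C.sp A) (c : ι)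
    (e : C.B.repr a (.inr c) ≠ 0) : D.rt c ∈ A := by
  by_contra e'
  obtain ⟨φ, h1, h2⟩ := C.prim c
  have e1 : η (D.rt c) = m := ha _ e
  have k1 := phi_zero h2 (Vs.mono (C' := {l | l ≠ 0}) (Sp.basis h (.inr (D.ng c))) (by
    rintro l b rfl
    simp [D.rt_ng, e1] at b))
  have k2 := phi_zero h2 (Vs.mono (C' := {l | l ≠ 0}) (Sp.basis hf (.inr (D.ng c))) (by
    rintro l b rfl
    simp [D.rt_ng, e'] at b))
  rw [LinearMap.sub_apply, map_sub, k2, zero_sub, neg_eq_zero, LieAlgebra.ad_apply,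
    repr_lie F c h1 h2 (Vs.mono ha (by rintro l b rfl; simp at b; omega))] at k1
  exact e k1

theorem ld_uniq (F : RDF D) (hm : 1 ≤ m) (h : C.Ld η m y a) (h' : C.Ld η m y b) : a = b := by
  refine sub_eq_zero.1 (C.B.ext_elem ?_)
  have ha := sub_mem h.1 h'.1
  rintro (i | c)
  · rw [Vs.coord ha (by simp; omega)]; simp
  · by_contra e
    refine extract (A := ∅) (f := 0) F hm ha ?_ (zero_mem _) c (by simpa using e)
    convert sub_mem h.2 h'.2 using 1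
    rw [map_sub]; abel

theorem ld_mul (hm : 1 ≤ m) (h : C.Ld η m y a) (h' : C.Ld η m z b) : C.Ld η m (y * z) (a + b) := by
  refine ⟨add_mem h.1 h'.1, ?_⟩
  convert add_mem (add_mem h.2 h'.2) (dmul (k := m + 1) (ld_fl h) (ld_fl h') (by omega)) using 1
  rw [map_add, Units.val_mul]; noncomm_ring

theorem ld_inv (hm : 1 ≤ m) (h : C.Ld η m y a) : C.Ld η m y⁻¹ (-a) := by
  refine ⟨neg_mem h.1, ?_⟩
  convert neg_mem (add_mem h.2 (dmul (k := m + 1) (fl_inv hm (ld_fl h)) (ld_fl h) (by omega)))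
    using 1
  rw [map_neg, sub_mul, mul_sub, Units.inv_mul]; noncomm_ring

theorem ld_comm (hm : 1 ≤ m) (hm' : 1 ≤ m') (h : C.Ld η m y a) (h' : C.Ld η m' z b) :
    C.Ld η (m + m') (y * z * y⁻¹ * z⁻¹) ⁅a, b⁆ := by
  refine ⟨C.lie_mem h.1 h'.1 fun c e c' e' => by
    simp only [Set.mem_setOf_eq, map_add] at *; omega, ?_⟩
  have a1 := ld_fl h
  have a2 := ld_fl h'
  have e : (y * z * y⁻¹ * z⁻¹).1 - 1 =
      ((y.1 - 1) * (z.1 - 1) - (z.1 - 1) * (y.1 - 1)) * ((y⁻¹).1 * (z⁻¹).1) := by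
    have : z.1 * y.1 * ((y⁻¹).1 * (z⁻¹).1) = 1 := by
      simp only [← Units.val_mul]
      simp
    rw [show (y.1 - 1) * (z.1 - 1) - (z.1 - 1) * (y.1 - 1) = y.1 * z.1 - z.1 * y.1 by noncomm_ring,
      sub_mul, this]
    simp only [Units.val_mul, mul_assoc]
  have a3 : (y⁻¹).1 * (z⁻¹).1 - 1 ∈ C.sp {l | 1 ≤ η l} :=
    mul_sp (fun c e c' e' => by simp only [Set.mem_setOf_eq, map_add] at *; omega)
      (dmono (fl_inv hm a1) hm) (dmono (fl_inv hm' a2) hm')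
  rw [e, show LieAlgebra.ad R V ⁅a, b⁆ = LieAlgebra.ad R V a * LieAlgebra.ad R V b -
    LieAlgebra.ad R V b * LieAlgebra.ad R V a from LinearMap.ext fun v => lie_lie a b v]
  convert add_mem (dmul (k := m + m' + 1) (sub_mem (dmul a1 a2 le_rfl)
    (dmul (k := m + m') a2 a1 (by omega))) a3 le_rfl) (sub_mem
    (add_mem (dmul (k := m + m' + 1) h.2 a2 (by omega)) (dmul (dad h.1) h'.2 (by omega)))
    (add_mem (dmul (k := m + m' + 1) h'.2 a1 (by omega)) (dmul (dad h'.1) h.2 (by omega)))) using 1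
  noncomm_ring

theorem ld_x (hm : 1 ≤ m) {c : ι} (e : η (D.rt c) = m) (t : R) :
    C.Ld η m (C.x c t) (t • C.e c) := by
  refine ⟨Submodule.smul_mem _ _ (Vs.basis e), ?_⟩
  rw [show (C.x c t).1 - 1 - LieAlgebra.ad R V (t • C.e c) = t ^ 2 • C.d2 c + t ^ 3 • C.d3 c by
    rw [C.x_val, map_smul]; abel]
  refine add_mem ?_ ?_ <;> refine Submodule.smul_mem _ _ ?_
  · exact Sp.mono (C.d2_sp c) (by rintro _ rfl; simp [e]; omega)
  · exact Sp.mono (C.d3_sp c) (by rintro _ rfl; simp [e]; omega)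

theorem ld_one : C.Ld η m 1 0 := ⟨zero_mem _, by simp⟩

theorem ld_surj {Ψ : Set ι} (hm : 1 ≤ m) (ha : a ∈ C.vs {l | η l = m})
    (h : ∀ c, C.B.repr a (.inr c) ≠ 0 → c ∈ Ψ) :
    ∃ y ∈ C.Ux {c | c ∈ Ψ ∧ η (D.rt c) = m}, C.Ld η m y a := by
  refine Vs.induction (B := C.B) (wt := D.wt) (C := {l | η l = m ∧ ∀ c, D.rt c = l → c ∈ Ψ})
    (p := fun a => ∃ y ∈ C.Ux {c | c ∈ Ψ ∧ η (D.rt c) = m}, C.Ld η m y a) (v := a) ?_
    ⟨1, one_mem _, ld_one⟩ ?_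
    fun u v ⟨y, y1, y2⟩ ⟨z, z1, z2⟩ => ⟨_, mul_mem y1 z1, ld_mul hm y2 z2⟩
  · rintro (i | c) e
    · exact ⟨ha _ e, fun c e' => (D.rt_ne c e').elim⟩
    · exact ⟨ha _ e, fun d e' => D.inj e' ▸ h c e⟩
  · rintro (i | c) r e
    · have := e.1
      simp at this
      omega
    · exact ⟨_, C.x_mem (And.intro (e.2 c rfl) e.1 :) r, ld_x hm e.1 r⟩

theorem lie (h : y ∈ C.Ux Set.univ) (u v : V) : y.1 ⁅u, v⁆ = ⁅y.1 u, y.1 v⁆ :=
  C.Ux_induction (p := fun y => ∀ u v, y.1 ⁅u, v⁆ = ⁅y.1 u, y.1 v⁆) h (fun _ _ => rfl)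
    (fun a _ t => C.x_lie a t) (fun y z a b u v => by simp [a, b]) u v

theorem fl_conj {u : (End R V)ˣ} (h1 : u.1 ∈ C.sp {l | 0 ≤ η l})
    (h2 : (u⁻¹).1 ∈ C.sp {l | 0 ≤ η l}) (h : f ∈ C.sp {l | m ≤ η l}) :
    u.1 * f * (u⁻¹).1 ∈ C.sp {l | m ≤ η l} :=
  dmul (dmul (k := m) h1 h (by simp)) h2 (by simp)

theorem ld_conj {t : (End R V)ˣ} (ht : t ∈ C.Ux Set.univ) (h1 : t.1 ∈ C.sp {0})
    (h2 : (t⁻¹).1 ∈ C.sp {0}) (h : C.Ld η m y a) : C.Ld η m (t * y * t⁻¹) (t.1 a) := by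
  refine ⟨Sp.apply h1 h.1 (by rintro _ rfl _ e; simpa using e), ?_⟩
  convert fl_conj (Sp.mono h1 (by rintro _ rfl; simp)) (Sp.mono h2 (by rintro _ rfl; simp)) h.2
    using 1
  have : LieAlgebra.ad R V (t.1 a) = t.1 * LieAlgebra.ad R V a * (t⁻¹).1 := LinearMap.ext fun v => by
    have : t.1 ((t⁻¹).1 v) = v := by rw [← End.mul_apply, Units.mul_inv]; rfl
    simp [lie ht, this]
  simp [this, mul_sub, sub_mul]

end U0

open U0 in
theorem uf0 : S_UF0 := fun ι Λ R V _ _ _ _ D C F =>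
  have ue : ∀ η, ∀ y ∈ C.Ue η, C.Fl η 1 y := fun η y h => ux_sp
    (fun c e c' e' => by simp only [Set.mem_setOf_eq, map_add] at *; omega) (fun _ e => e) h
  { lie := fun _ => lie
    ux_sp := fun _ _ a b _ => ux_sp a b
    ue_fl := ue
    fl_mono := fun _ _ _ _ a b => dmono b a
    fl_mul := fun η m y z a => mul_sp fun c e c' e' => by
      simp only [Set.mem_setOf_eq, map_add] at *; omega
    fl_inv := fun _ _ _ => fl_inv
    fl_conj := fun η m y u a b c => by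
      simpa [CL.Fl, mul_sub, sub_mul] using fl_conj a b c
    big := fun η => (big C η).elim fun M h => ⟨M, fun y e => Units.ext (sub_eq_zero.1 (h _ e))⟩
    ld_fl := fun _ _ _ _ => ld_fl
    ld_zero := fun η m y => by simp [CL.Ld, CL.Fl]
    coef := fun _ _ _ _ _ a b c => extract F a b.1 b.2 c
    ld_uniq := fun _ _ _ _ _ => ld_uniq F
    ld_mul := fun _ _ _ _ _ _ => ld_mul
    ld_inv := fun _ _ _ _ => ld_inv
    ld_comm := fun _ _ _ _ _ _ _ => ld_comm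
    ld_x := fun _ _ _ t a b => ld_x a b t
    ld_surj := fun _ _ _ _ => ld_surj
    ld_conj := fun _ _ _ _ _ => ld_conj
    disj := fun η y a b => Units.ext (sub_eq_zero.1 (Sp.eq_zero (Sp.inter (ue _ _ a) (ue _ _ b))
      fun i j e => by
        have := e.1
        have := e.2
        simp only [Set.mem_setOf_eq, AddMonoidHom.neg_apply] at *
        omega))
    one_root := fun a y => ⟨fun h => C.Ux_induction (p := fun y => ∃ t, y = C.x a t) h
      ⟨0, (C.x_zero a).symm⟩ (fun b e t => ⟨t, by rw [Set.mem_singleton_iff.1 e]⟩)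
      (fun _ _ ⟨t, e⟩ ⟨u, e'⟩ => ⟨t + u, by rw [e, e', C.x_add]⟩),
      fun ⟨t, e⟩ => by rw [e]; exact C.x_mem (Set.mem_singleton a) t⟩
    x_inj := fun a t u h => by
      obtain ⟨η, e⟩ := F.prim a
      have k := ld_x (C := C) le_rfl e u
      rw [← h] at k
      simpa using congrArg (fun v => C.B.repr v (.inr a)) (ld_uniq F le_rfl (ld_x le_rfl e t) k) }

theorem uf1 : S_UF1 := fun ι Λ K V _ _ _ _ D C F =>
  { F with
    aut := fun y h => ⟨F.lie y h, C.Ux_induction (p := fun y => ∀ u v, C.g (y.1 u) (y.1 v) = C.g u v)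
      h (fun _ _ => rfl) (fun a _ t => C.g_x a t) fun y z a b u v => by simp [a, b]⟩
    pgroup := fun p _ _ η y => by
      obtain ⟨M, hM⟩ := U0.big C.toCL η
      have : Nontrivial V := ⟨_, _, C.B.ne_zero (.inr C.o)⟩
      have : CharP (End K V) p := charP_of_injective_algebraMap (algebraMap K _).injective p
      refine ⟨M, Subtype.ext (Units.ext (sub_eq_zero.1 (hM _ ?_)))⟩
      have := U0.dpow (F.ue_fl η _ y.2) (p ^ M)
      rw [sub_pow_char_pow_of_commute _ _ (Commute.one_right _), one_pow] at this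
      exact U0.dmono this (by exact_mod_cast (Nat.lt_pow_self (Fact.out : p.Prime).one_lt).le) }

end Pool.Agent.MP_983df8_al.CH

end MrgPart0

-- ======== part 1: formerly Pool.Agent.MP_983df8_al.ch.Rig
section MrgPart1

/-! Long root elements: dimension and rigidity. -/

noncomputable section

namespace Pool.Agent.MP_983df8_al.CH

open Subgroup Module

namespace RIG

variable {ι Λ K V : Type} [AddCommGroup Λ] [Field K] [LieRing V] [LieAlgebra K V] {D : RD ι Λ}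
  {C : CG D K V}

theorem g_zero {A A' : Set Λ} {u v : V} (hu : u ∈ C.vs A) (hv : v ∈ C.vs A')
    (e : ∀ a ∈ A, ∀ b ∈ A', a + b ≠ 0) : C.g u v = 0 :=
  Vs.induction (p := fun u => C.g u v = 0) hu (by simp)
    (fun i c hi => Vs.induction (p := fun v => C.g (c • C.B i) v = 0) hv (by simp)
      (fun j c' hj => by
        have : C.g (C.B i) (C.B j) = 0 := not_not.1 fun f => e _ hi _ hj (C.g_wt i j f)
        simp [this])
      fun a b ha hb => by rw [map_add, ha, hb, add_zero])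
    fun a b ha hb => by rw [map_add, LinearMap.add_apply, ha, hb, add_zero]

theorem g_coord (v : V) (c : ι) :
    C.g v (C.e (D.ng c)) = C.B.repr v (.inr c) * C.g (C.e c) (C.e (D.ng c)) := by
  classical
  have : C.g.flip (C.e (D.ng c)) = C.g (C.e c) (C.e (D.ng c)) • C.B.coord (.inr c) := by
    refine C.B.ext fun j => ?_
    by_cases e : j = .inr c
    · simp [e]
    have : C.g (C.B j) (C.e (D.ng c)) = 0 := not_not.1 fun f => by
      have := C.g_wt _ _ f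
      rw [RD.wt_inr, D.rt_ng, add_neg_eq_zero] at this
      rcases j with i | a
      · exact D.rt_ne c this.symm
      · exact e (congrArg _ (D.inj this))
    simp [this, e]
  simpa [mul_comm] using LinearMap.congr_fun this v

theorem e_ne (a : ι) : C.e a ≠ 0 := C.B.ne_zero _

theorem g_oo : C.g (C.e C.o) (C.e (D.ng C.o)) = -1 := by
  have := C.g_o (C.e (D.ng C.o))
  rw [C.d2_ng, ← neg_one_smul K] at this
  exact (smul_left_injective K (e_ne C.o) this).symm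

theorem g_hh (a c : ι) :
    C.g (C.h a) (C.h c) = (D.cv c (D.rt a) : K) * C.g (C.e a) (C.e (D.ng a)) := by
  rw [← C.eng a, C.g_inv, ← lie_skew, C.he, D.rt_ng]
  simp

theorem g_cc {c : ι} (e : D.cv C.o (D.rt c) = 1) :
    C.g (C.e c) (C.e (D.ng c)) = -(D.cv c (D.rt C.o) : K) := by
  have := g_hh (C := C) c C.o
  rw [C.g_symm, g_hh, g_oo, e] at this
  simpa using this.symm

variable (R : RF C)
include R

theorem wt_le {j : D.Δ ⊕ ι} (e : j ≠ .inr C.o) : D.cv C.o (D.wt j) ≤ 1 := by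
  rcases j with i | c
  · simp
  · exact R.t.le_one c fun f => e (congrArg _ f)

theorem wt_ge {j : D.Δ ⊕ ι} (e : j ≠ .inr (D.ng C.o)) : -1 ≤ D.cv C.o (D.wt j) := by
  rcases j with i | c
  · simp
  · exact R.t.ge_one c fun f => e (congrArg _ f)

theorem wt_bd (j : D.Δ ⊕ ι) : -2 ≤ D.cv C.o (D.wt j) ∧ D.cv C.o (D.wt j) ≤ 2 := by
  constructor
  · by_cases e : j = .inr (D.ng C.o)
    · simp [e, D.rt_ng, D.two]
    · linarith [wt_ge R e]
  · by_cases e : j = .inr C.o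
    · simp [e, D.two]
    · linarith [wt_le R e]

theorem top2 {v : V} (h : v ∈ C.vs {l | 2 ≤ D.cv C.o l}) : ∃ k : K, v = k • C.e C.o := by
  classical
  refine ⟨C.B.repr v (.inr C.o), C.B.ext_elem fun j => ?_⟩
  by_cases e : j = .inr C.o
  · simp [e]
  have := Vs.coord h (j := j) (by have := wt_le R e; simp; omega)
  simp [this, Ne.symm e]

theorem x_o (t : K) (v : V) :
    (C.x C.o t).1 v = v + t • ⁅C.e C.o, v⁆ + (t ^ 2 * C.g (C.e C.o) v) • C.e C.o := by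
  have : C.d3 C.o = 0 := Sp.eq_zero (C.d3_sp _) fun i j e => by
    have h := congrArg (D.cv C.o) (Set.mem_singleton_iff.1 e)
    rw [map_sub, map_zsmul, D.two] at h
    have := wt_bd R i
    have := wt_bd R j
    simp at h
    omega
  simp [C.x_val, this, C.g_o, smul_smul]

theorem τ_o : C.τ C.o = C.o := R.s.top _ C.top

theorem inv : C.Inv (D.cv C.o) := fun a => by
  have := C.sym.cv C.o a
  rwa [τ_o R] at this

theorem ue_le : C.Ue (D.cv C.o) ≤ C.U := C.Ux_mono fun a (h : 1 ≤ D.cv C.o (D.rt a)) => by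
  by_contra e
  have := R.t.nonneg _ ((R.r.pos_ng a).2 e)
  rw [D.rt_ng, map_neg] at this
  omega

theorem key {t t' : K} (e : t * t' = -1) {q : (End K V)ˣ} {a : V} (h : C.Ld (D.cv C.o) 1 q a) :
    ∃ k : K, ⁅t • C.e C.o, q.1 (t' • C.e (D.ng C.o))⁆ - ⁅t • C.e C.o, t' • C.e (D.ng C.o)⁆ =
      a + k • C.e C.o := by
  have hx : t • C.e C.o ∈ C.vs {l | D.cv C.o l = 2} :=
    Submodule.smul_mem _ _ (Vs.basis (D.two _))
  have hy : t' • C.e (D.ng C.o) ∈ C.vs {l | D.cv C.o l = -2} :=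
    Submodule.smul_mem _ _ (Vs.basis (by simp [D.rt_ng, D.two]))
  have h1 := Sp.apply (A' := {l | 0 ≤ D.cv C.o l}) h.2 hy fun c a l b => by
    simp at a b ⊢; omega
  obtain ⟨k, h2⟩ := top2 R (C.lie_mem hx h1 fun c a l b => by simp at a b ⊢; omega)
  have h3 : ⁅t • C.e C.o, a⁆ = 0 :=
    Vs.eq_zero (C.lie_mem (A'' := {l | D.cv C.o l = 3}) hx h.1 fun c a l b => by
      simp at a b ⊢; omega) fun j f => by have := wt_bd R j; simp at f; omega
  have h4 : ⁅C.h C.o, a⁆ = a := Vs.induction (p := fun a => ⁅C.h C.o, a⁆ = a) h.1 (by simp)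
    (fun j c f => by
      rcases j with i | d
      · simp at f
      · rw [lie_smul, C.he, show D.cv C.o (D.rt d) = 1 from f]; simp)
    fun a b ha hb => by rw [lie_add, ha, hb]
  have h5 : ⁅t • C.e C.o, t' • C.e (D.ng C.o)⁆ = -C.h C.o := by
    rw [smul_lie, lie_smul, smul_smul, e, C.eng, neg_one_smul]
  refine ⟨k, ?_⟩
  rw [← h2]
  simp only [LinearMap.sub_apply, End.one_apply, LieAlgebra.ad_apply, lie_sub]
  rw [leibniz_lie, h3, h5, zero_lie, zero_add, lie_neg, ← lie_skew a, h4]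
  abel

variable (F : UF1 C)
include F

theorem ht_fix {u : (End K V)ˣ} (h : u ∈ C.U) (t : K) :
    u.1 (t • C.e C.o) = t • C.e C.o := by
  have := Vs.eq_zero (Sp.apply (A' := {l | D.ht (D.rt C.o) + 1 ≤ D.ht l}) (F.ue_fl _ u h)
    (Vs.basis (B := C.B) (j := .inr C.o) (C := {D.rt C.o}) rfl) fun c a l b => by
      simp at a b ⊢; rw [b]; omega) (by
    rintro (i | c) f
    · have : 1 ≤ D.ht (D.rt C.o) := R.t.pos
      simp at f; omega
    · have := C.top c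
      simp at f; omega)
  rw [LinearMap.sub_apply, sub_eq_zero] at this
  rw [map_smul, this]; rfl

omit R F in
theorem U_G1 {u : (End K V)ˣ} (h : u ∈ C.U) (h' : u ∈ C.Fix) : u ∈ C.G1 :=
  mem_sup_left (mem_inf.2 ⟨h, h'⟩)

omit R F in
theorem lr_o {t : K} (h : C.s (t • C.e C.o) = t • C.e C.o) : t • C.e C.o ∈ LR C :=
  ⟨h, 1, one_mem _, t, rfl⟩

omit R F in
theorem cl_fix {v : V} (h : v ∈ AddSubgroup.closure (LR C)) : C.s v = v := by
  induction h using AddSubgroup.closure_induction with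
  | mem v h => exact h.1
  | zero => simp
  | add a b _ _ ha hb => simp [ha, hb]
  | neg a _ ha => simp [ha]

variable (B : BF2 C)
include B

omit R F in
theorem lr_act {y : (End K V)ˣ} (hy : y ∈ C.G1) {v : V} (h : v ∈ LR C) : y.1 v ∈ LR C := by
  obtain ⟨h, z, hz, t, rfl⟩ := h
  exact ⟨by rw [← C.mem_Fix'.1 (B.G1_le y hy).2, h], y * z, mul_mem hy hz, t, rfl⟩

omit R F in
theorem cl_act {y : (End K V)ˣ} (hy : y ∈ C.G1) {v : V} (h : v ∈ AddSubgroup.closure (LR C)) :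
    y.1 v ∈ AddSubgroup.closure (LR C) := by
  induction h using AddSubgroup.closure_induction with
  | mem v h => exact AddSubgroup.subset_closure (lr_act B hy h)
  | zero => simp
  | add a b _ _ ha hb => rw [map_add]; exact add_mem ha hb
  | neg a _ ha => rw [map_neg]; exact neg_mem ha

omit R F B in
theorem cl_of {a b : V} {k : K} (ha : C.s a = a) (hb : b ∈ AddSubgroup.closure (LR C))
    (e : b = a + k • C.e C.o) : a ∈ AddSubgroup.closure (LR C) := by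
  have h := cl_fix hb
  rw [e, map_add, ha, add_right_inj] at h
  rw [eq_sub_of_add_eq e.symm]
  exact sub_mem hb (AddSubgroup.subset_closure (lr_o h))

omit F in
theorem cl_lie {t : K} (h : C.s (t • C.e C.o) = t • C.e C.o) {v : V}
    (hv : v ∈ AddSubgroup.closure (LR C)) : ⁅t • C.e C.o, v⁆ ∈ AddSubgroup.closure (LR C) := by
  have e : C.ε C.o * C.θ t = t := by
    rw [C.s_smul, C.s_e, τ_o R, smul_smul, mul_comm] at h
    exact smul_left_injective K (e_ne _) h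
  have hx : C.x C.o t ∈ C.G1 := U_G1 (C.x_mem R.t.pos t) (by rw [C.mem_Fix, C.σ_x, τ_o R, e])
  refine cl_of (k := t ^ 2 * C.g (C.e C.o) v) (by rw [C.s_lie, h, cl_fix hv])
    (sub_mem (cl_act B hx hv) hv) ?_
  rw [x_o R, smul_lie]
  abel

variable (N : BF1 C)
include N

omit F B in
theorem pair : ∃ t t' : K, t * t' = -1 ∧ t • C.e C.o ∈ LR C ∧ t' • C.e (D.ng C.o) ∈ LR C ∧
    ∃ n ∈ C.G1, C.Mon n (D.sr C.o) := by
  obtain ⟨t, h, e⟩ := N.fixr _ (τ_o R)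
  have hn := N.fix_n _ t (τ_o R) e
  obtain ⟨k, k0, k1, -⟩ := (N.mon_n C.o t h).2 C.o
  rw [RD.sr_apply, R.r.rf_self] at k1
  refine ⟨t, -t⁻¹, by simp [h], lr_o ?_, ⟨?_, _, hn, -t⁻¹ * k⁻¹, ?_⟩, _, hn, N.mon_n _ t h⟩
  · rw [C.s_smul, C.s_e, τ_o R, smul_smul, mul_comm, e]
  · rw [C.s_smul, C.s_e, R.s.ng, τ_o R, smul_smul, C.ε_ng, map_neg, map_inv₀]
    congr 1
    rcases C.ε_val C.o with f | f <;> rw [f] at e ⊢
    · rw [one_mul] at e; rw [e, mul_one]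
    · rw [neg_one_mul, neg_eq_iff_eq_neg] at e; rw [e]; simp
  · rw [map_smul, k1, smul_smul, inv_mul_cancel_right₀ k0]

variable (U : UF2 C)
include U

omit F in
theorem deg_one {a : V} (h : a ∈ C.vs {l | D.cv C.o l = 1}) (e : C.s a = a) :
    a ∈ AddSubgroup.closure (LR C) := by
  obtain ⟨t, t', e1, hx, hy, -⟩ := pair R N
  obtain ⟨q, q1, q2, q3⟩ := U.lift _ 1 a (inv R) le_rfl h e
  obtain ⟨k, e2⟩ := key R e1 q3
  have hy := AddSubgroup.subset_closure hy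
  exact cl_of e (sub_mem (cl_lie R B hx.1 (cl_act B (U_G1 (ue_le R q1) q2) hy))
    (cl_lie R B hx.1 hy)) e2

omit F in
theorem tr_mem {c : ι} (e : D.cv C.o (D.rt c) = 1) (t : K) :
    C.tr (t • C.e c) ∈ C.vs {l | D.cv C.o l = 1} ∧
      C.tr (t • C.e c) ∈ AddSubgroup.closure (LR C) :=
  have h := U.tr_vs _ 1 (t • C.e c) (inv R) (Submodule.smul_mem _ _ (Vs.basis e))
  ⟨h, deg_one R B N U h (U.tr_fix _)⟩

omit F in
theorem sep {v : V} (h : ∀ w ∈ AddSubgroup.closure (LR C), C.g v w = 0) {c : ι}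
    (e : D.cv C.o (D.rt c) = 1) : C.g v (C.e (D.ng c)) = 0 := by
  obtain ⟨-, -, -, -, -, n, n1, n2⟩ := pair R N
  obtain ⟨k, k0, k1, -⟩ := n2.2 (D.rf C.o (D.ng c))
  have e' : D.cv C.o (D.rt (D.rf C.o (D.ng c))) = 1 := by simp [D.rt_rf, D.rt_ng, D.two, e]
  have := U.tr_sep (C.g v ∘ₗ n.1) _ fun t => h _ (cl_act B n1 (tr_mem R B N U e' t).2)
  rw [LinearMap.comp_apply, k1, RD.sr_apply, D.rf_rf, map_smul] at this
  exact (smul_eq_zero.1 this).resolve_left k0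

omit U in
theorem cell {t : K} {y : V} (hy : y ∈ LR C) (e : C.g (t • C.e C.o) y = 1) :
    ∃ u ∈ C.U, u ∈ C.Fix ∧ ∃ t', t * t' = -1 ∧ y = u.1 (t' • C.e (D.ng C.o)) := by
  obtain ⟨-, m, hm, r, rfl⟩ := hy
  obtain ⟨u, u1, n, n1, u', u2, -, rfl⟩ := B.bruhat1 m hm
  obtain ⟨w, -, hw⟩ := N.N_mon n n1.1
  obtain ⟨k, -, k1, -⟩ := hw.2 C.o
  have e1 : (u * n * u').1 (r • C.e C.o) = u.1 ((r * k) • C.e (w C.o)) := by
    simp only [Units.val_mul, End.mul_apply, ht_fix R F u2.1]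
    rw [map_smul n.1, k1, smul_smul]
  rw [e1, ← ht_fix R F u1.1 t, (F.aut u (C.Ux_mono (fun _ _ => trivial) u1.1)).2] at e
  have e2 : w C.o = D.ng C.o := D.inj (by
    have := C.g_wt (.inr C.o) (.inr (w C.o)) fun f => by simp [f] at e
    rw [D.rt_ng]
    exact eq_neg_of_add_eq_zero_right this)
  rw [e2] at e e1
  refine ⟨u, u1.1, u1.2, r * k, ?_, e1⟩
  simp only [map_smul, LinearMap.smul_apply, g_oo, smul_eq_mul] at e
  linear_combination -e

omit B N in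
theorem cell' {u : (End K V)ˣ} (h : u ∈ C.U) :
    ∃ q ∈ C.Ue (D.cv C.o), u.1 (C.e (D.ng C.o)) = q.1 (C.e (D.ng C.o)) := by
  obtain ⟨q, q1, l, l1, rfl⟩ := U.fac _ (fun a => 1 ≤ D.cv C.o (D.rt a)) u h
  refine ⟨q, C.Ux_mono (fun a h => h.2) q1, ?_⟩
  have := Vs.eq_zero (Sp.apply
    (A' := {l | D.cv C.o l = -2 ∧ D.ht (D.rt (D.ng C.o)) + 1 ≤ D.ht l})
    (F.ux_sp {l | D.cv C.o l = 0 ∧ 1 ≤ D.ht l} _ (fun a a' b b' => by simp at a' b' ⊢; omega)
      (fun a h => ⟨by have := R.t.nonneg a h.1; have := h.2; simp at this; omega, h.1⟩) l l1)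
    (Vs.basis (B := C.B) (j := .inr (D.ng C.o)) (C := {D.rt (D.ng C.o)}) rfl) fun c a l b => by
      simp at a b ⊢; rw [b]; simp [D.rt_ng, D.two]; omega) fun j f => by
    by_cases e : j = .inr (D.ng C.o)
    · simp [e] at f
    · have := wt_ge R e
      have := f.1
      omega
  rw [LinearMap.sub_apply, sub_eq_zero] at this
  rw [Units.val_mul, End.mul_apply, this]; rfl

theorem core (h2 : (2 : K) ≠ 0) (hc : ∀ c, D.cv C.o (D.rt c) = 1 → (D.cv c (D.rt C.o) : K) ≠ 0)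
    {t t' : K} (e : t * t' = -1) (hy : t' • C.e (D.ng C.o) ∈ LR C) {z : V} (hz : z ∈ LR C)
    (e' : C.g (t • C.e C.o) z = 1) (h : ∀ w ∈ AddSubgroup.closure (LR C),
      C.g (⁅t • C.e C.o, t' • C.e (D.ng C.o)⁆ - ⁅t • C.e C.o, z⁆) w = 0) :
    t' • C.e (D.ng C.o) = z := by
  have t0 : t ≠ 0 := fun f => by simp [f] at e
  obtain ⟨u, u1, -, r, e1, rfl⟩ := cell R F B N hz e'
  obtain rfl : r = t' := mul_left_cancel₀ t0 (e1.trans e.symm)
  obtain ⟨q, q1, e2⟩ := cell' R F U u1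
  rw [map_smul u.1, e2, ← map_smul q.1] at h ⊢
  obtain ⟨a, ha⟩ := C.lead _ 1 q le_rfl q1 (F.ue_fl _ q q1)
  obtain ⟨k, e3⟩ := key R e ha
  obtain rfl : a = 0 := C.B.ext_elem fun j => by
    rw [map_zero, Finsupp.zero_apply]
    by_contra f
    have f1 := ha.1 j f
    rcases j with i | c
    · simp at f1
    have f2 := sep R B N U h f1
    rw [← neg_sub, e3, map_neg, LinearMap.neg_apply, neg_eq_zero, map_add, LinearMap.add_apply,
      g_coord a, g_cc f1, g_zero (A := {l | D.cv C.o l = 2}) (A' := {l | D.cv C.o l = -1})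
        (u := k • C.e C.o) (v := C.e (D.ng c)) (Submodule.smul_mem _ _ (Vs.basis (D.two _)))
        (Vs.basis (by simpa [D.rt_ng] using f1)) fun a a' b b' g => by
          have := congrArg (D.cv C.o) g
          simp at a' b' this; omega] at f2
    simp [f, hc c f1] at f2
  obtain ⟨s, rfl⟩ := (F.one_root C.o q).1 (C.Ux_mono (fun a h => by
    by_contra f
    have := R.t.le_one a f
    have := h.2
    simp at this; omega) (U.sup _ {l | 1 + 1 ≤ D.cv C.o l} (fun a a' b b' => by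
      simp at a' b' ⊢; omega) q q1 ((F.ld_zero _ 1 q).1 ha)))
  have e4 := h _ (AddSubgroup.subset_closure hy)
  rw [x_o R, lie_add, lie_add, smul_lie, smul_lie, smul_lie, lie_smul s, C.d2_two, C.g_o] at e4
  simp [g_oo, h2, t0, show r ≠ 0 from fun f => by simp [f] at e] at e4
  simp [e4, C.x_zero]

end RIG

open RIG in
theorem rig : S_RIG := by
  intro ι Λ K V _ _ _ _ D C R F U N B h2 hc
  have ne : ∀ m : ℤ, 1 + m ≠ 0 → ∀ a ∈ {l | D.cv C.o l = 1}, ∀ b ∈ {l | D.cv C.o l = m},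
      a + b ≠ 0 := fun m f a a' b b' g => by
    have := congrArg (D.cv C.o) g
    simp at a' b' this; omega
  constructor
  · obtain ⟨t, t', e, hx, hy, -⟩ := pair R N
    obtain ⟨c, e1⟩ := R.t.ex_one
    have h1 : t • C.e C.o ∈ C.vs {l | D.cv C.o l = 2} :=
      Submodule.smul_mem _ _ (Vs.basis (D.two _))
    have h2 : t' • C.e (D.ng C.o) ∈ C.vs {l | D.cv C.o l = -2} :=
      Submodule.smul_mem _ _ (Vs.basis (by simp [D.rt_ng, D.two]))
    refine ⟨_, hx, _, hy, by simp [g_oo]; linear_combination -e, ?_⟩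
    by_contra f
    push Not at f
    refine hc c e1 (neg_eq_zero.1 ((g_cc e1).symm.trans (U.tr_sep (C.g.flip _) _ fun r => ?_)))
    obtain ⟨h3, h4⟩ := tr_mem R B N U e1 r
    refine sep R B N U (fun w hw => not_not.1 fun g => f _ h4 w hw g (g_zero h3 h1 (ne 2 (by omega)))
      (g_zero h3 h2 (ne _ (by omega))) (g_zero h3 (C.lie_mem h1 h2 fun c a l b => ?_)
        (ne 0 (by omega)))) e1
    simp at a b ⊢; omega
  have mv : ∀ m ∈ C.G1, ∀ x y z, (∀ w ∈ AddSubgroup.closure (LR C), C.g (⁅x, y⁆ - ⁅x, z⁆) w = 0) →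
      ∀ w ∈ AddSubgroup.closure (LR C), C.g (⁅m.1 x, m.1 y⁆ - ⁅m.1 x, m.1 z⁆) w = 0 :=
    fun m hm x y z h w hw => by
      obtain ⟨a1, a2⟩ := F.aut m (B.G1_le m hm).1
      rw [← a1, ← a1, ← map_sub, ← h _ (cl_act B (inv_mem hm) hw), ← a2 _ ((m⁻¹).1 w)]
      simp [← End.mul_apply]
  have cn : ∀ (m : (End K V)ˣ) v, (m⁻¹).1 (m.1 v) = v := fun m v => by simp [← End.mul_apply]
  have inj : ∀ (m : (End K V)ˣ) y z, (m⁻¹).1 y = (m⁻¹).1 z → y = z := fun m y z e => by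
    simpa [← End.mul_apply] using congrArg m.1 e
  have H : ∀ t : K, t • C.e C.o ∈ LR C → ∀ y ∈ LR C, ∀ z ∈ LR C, C.g (t • C.e C.o) y = 1 →
      (∀ w ∈ AddSubgroup.closure (LR C), C.g (⁅t • C.e C.o, y⁆ - ⁅t • C.e C.o, z⁆) w = 0) →
      y = z := fun t hx y hy z hz e h => by
    have e' : C.g (t • C.e C.o) z = 1 := by
      have k : ∀ v, C.g ⁅t • C.e C.o, v⁆ ⁅t • C.e C.o, y⁆ = -2 * C.g (t • C.e C.o) v := fun v => by
        rw [← lie_skew, map_neg, LinearMap.neg_apply, C.g_inv, smul_lie, smul_lie, lie_smul,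
          C.d2_two, C.g_o, C.g_symm v]
        simp only [map_smul, LinearMap.smul_apply, smul_eq_mul] at e ⊢
        linear_combination (-2 * t * C.g (C.e C.o) v) * e
      have := h _ (cl_lie R B hx.1 (AddSubgroup.subset_closure hy))
      rw [map_sub, LinearMap.sub_apply, k, k, e] at this
      exact mul_left_cancel₀ h2 (by linear_combination this)
    obtain ⟨u, u1, u2, t', e1, rfl⟩ := cell R F B N hy e
    have hu := inv_mem (U_G1 u1 u2)
    have h' := mv _ hu _ _ _ h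
    have hy' := lr_act B hu hy
    rw [← (F.aut _ (B.G1_le _ hu).1).2, ht_fix R F (inv_mem u1)] at e'
    rw [ht_fix R F (inv_mem u1), cn] at h'
    rw [cn] at hy'
    exact inj u _ _ ((cn _ _).trans (core R F B N U h2 hc e1 hy' (lr_act B hu hz) e' h'))
  intro x hx y hy z hz e h
  obtain ⟨-, m, hm, t, e1⟩ := id hx
  have hm := inv_mem hm
  have h' := mv _ hm _ _ _ h
  have hx' := lr_act B hm hx
  rw [← (F.aut _ (B.G1_le _ hm).1).2] at e
  rw [e1, cn] at h' hx' e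
  exact inj m _ _ (H t hx' _ (lr_act B hm hy) _ (lr_act B hm hz) e h')

end Pool.Agent.MP_983df8_al.CH

end

end MrgPart1

-- ======== part 2: formerly Pool.Agent.MP_983df8_al.ch.Spec3
section MrgPart2

/-! Chevalley groups are of characteristic `p` type: row statements. -/

noncomputable section

namespace Pool.Agent.MP_983df8_al.CH

open Subgroup Module

universe u

/-- all facts proved so far -/
structure AF {ι Λ K V : Type} [AddCommGroup Λ] [Field K] [LieRing V] [LieAlgebra K V] {D : RD ι Λ}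
    (C : CG D K V) : Prop where
  r : RF C
  u1 : UF1 C
  u2 : UF2 C
  b1 : BF1 C
  b2 : BF2 C
  t : TF C

/-- invariant, dominant, nonzero functionals -/
structure Dom {ι Λ K V : Type} [AddCommGroup Λ] [Field K] [LieRing V] [LieAlgebra K V] {D : RD ι Λ}
    (C : CG D K V) (ζ : Λ →+ ℤ) : Prop where
  inv : C.Inv ζ
  nonneg : ∀ a, D.pos a → 0 ≤ ζ (D.rt a)
  ex : ∃ a, 1 ≤ ζ (D.rt a)

/-- the theorem of Borel and Tits -/
def S_KBT : Prop := AllC fun {_ _ K V} _ _ _ _ _ C => AF C →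
  ∀ R : Subgroup (End K V)ˣ, R ≤ C.U ⊓ C.Fix → R ≠ ⊥ → ∃ g ∈ C.G1, ∃ ζ, Dom C ζ ∧
    (∀ r ∈ R, g⁻¹ * r * g ∈ C.Ue ζ) ∧ ∀ y ∈ C.G1, (∀ r ∈ R, y⁻¹ * r * y ∈ R) →
      ∀ z ∈ C.Ue ζ, g⁻¹ * y * g * z * (g⁻¹ * y * g)⁻¹ ∈ C.Ue ζ

/-- unipotent radicals contain their centralisers -/
def S_KC : Prop := AllC fun C => AF C → ∀ ζ, Dom C ζ →
  (∀ u ∈ C.U, ∀ z ∈ C.Ue ζ, u * z * u⁻¹ ∈ C.Ue ζ) ∧
    ∀ y ∈ C.G1, (∀ z ∈ C.Ue ζ ⊓ C.Fix, Commute y z) → y ∈ C.Ue ζ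

/-- automorphisms that fix a Sylow subgroup elementwise -/
def S_KU : Prop := AllC fun {_ _ K _} _ _ _ _ _ C => AF C →
  (∀ y ∈ C.G1, (∀ z ∈ C.U ⊓ C.Fix, Commute y z) → y ∈ C.U) →
  ∀ (S : Type u) [Group S] [Finite S] (f : S →* _), Emb C f → ∀ (p : ℕ) [Fact p.Prime] [CharP K p]
    (β : MulAut S), ¬ p ∣ orderOf β → (∀ s, f s ∈ C.U → β s = s) → β = 1

/-- pure group theory -/
def S_KG : Prop := ∀ (S : Type u) [Group S] [Finite S] (p : ℕ), p.Prime →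
  (∀ R : Subgroup S, R ≠ ⊥ → IsPGroup p R → ∃ Q : Subgroup S, IsPGroup p Q ∧ R ≤ Q ∧
    normalizer (R : Set S) ≤ normalizer (Q : Set S) ∧
    ∀ β : MulAut S, ¬ p ∣ orderOf β → (∀ x ∈ Q, β x = x) → β = 1) → IsChar p S

/-- characteristic `p` type -/
def S_KA : Prop := AllC fun {_ _ K _} _ _ _ _ _ C => AF C →
  ∀ (S : Type u) [Group S] [Finite S] (f : S →* _), Emb C f → ∀ (p : ℕ) [Fact p.Prime] [CharP K p],
    IsChar p S

/-- the field with two elements -/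
def S_KN : Prop := AllC fun {_ _ K _} _ _ _ _ _ C => AF C → C.q ≤ 2 →
  ∀ (S : Type u) [Group S] [Finite S] (f : S →* _), Emb C f → ∀ π : Set ℕ, 2 ∉ π → 3 ∉ π →
    ringChar K = 2 ∧ NoInv π S

end Pool.Agent.MP_983df8_al.CH

end

end MrgPart2

-- ======== part 3: formerly Pool.Agent.MP_983df8_al.ch.Pst
section MrgPart3

/-! Automorphisms of odd order keep the class of long root subgroups. -/

noncomputable section

namespace Pool.Agent.MP_983df8_al.CH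

open Subgroup Module
open scoped Pointwise

universe u

namespace Pst

section Abs

variable {S : Type u} [Group S]

/-- `n` normalises `U` -/
def Nm (U : Subgroup S) (n : S) : Prop := ∀ u ∈ U, n * u * n⁻¹ ∈ U

/-- `z` is central in `U` -/
def Ce (U : Subgroup S) (z : S) : Prop := z ∈ U ∧ ∀ u ∈ U, u * z = z * u

/-- nontrivial invariant subgroups of the centre -/
def Iv (U M : Subgroup S) : Prop :=
  M ≠ ⊥ ∧ (∀ z ∈ M, Ce U z) ∧ ∀ n, Nm U n → ∀ z ∈ M, n * z * n⁻¹ ∈ M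

/-- the minimal ones -/
def Mi (U M : Subgroup S) : Prop := Iv U M ∧ ∀ M', Iv U M' → M' ≤ M → M' = M

theorem iv_smul {U M : Subgroup S} {α : MulAut S} (hα : α • U = U) (h : Iv U M) :
    Iv U (α • M) := by
  have h1 : ∀ x, α x ∈ U ↔ x ∈ U := fun x => by
    conv_lhs => rw [← hα]
    exact smul_mem_pointwise_smul_iff
  refine ⟨fun e => h.1 ?_, fun z hz => ?_, fun n hn z hz => ?_⟩
  · rw [← inv_smul_smul α M, e, smul_bot]
  · obtain ⟨y, hy, rfl⟩ := (mem_smul_pointwise_iff_exists _ _ _).1 hz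
    refine ⟨(h1 y).2 (h.2.1 y hy).1, fun u hu => ?_⟩
    obtain ⟨u, rfl⟩ := α.surjective u
    have := congrArg α ((h.2.1 y hy).2 u ((h1 u).1 hu))
    simpa only [map_mul, MulAut.smul_def] using this
  · obtain ⟨y, hy, rfl⟩ := (mem_smul_pointwise_iff_exists _ _ _).1 hz
    obtain ⟨n, rfl⟩ := α.surjective n
    have h2 : Nm U n := fun u hu => (h1 _).1 (by
      simpa only [map_mul, map_inv] using hn (α u) ((h1 u).2 hu))
    refine (mem_smul_pointwise_iff_exists _ _ _).2 ⟨_, h.2.2 n h2 y hy, ?_⟩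
    simp only [MulAut.smul_def, map_mul, map_inv]

theorem mi_smul {U M : Subgroup S} {α : MulAut S} (hα : α • U = U) (h : Mi U M) :
    Mi U (α • M) := by
  refine ⟨iv_smul hα h.1, fun M' h1 h2 => ?_⟩
  have h3 : α⁻¹ • U = U := by rw [inv_smul_eq_iff, hα]
  have h4 : α⁻¹ • M' ≤ M := by
    rw [← pointwise_smul_le_pointwise_smul_iff (a := α), smul_inv_smul]
    exact h2
  rw [← h.2 _ (iv_smul h3 h1) h4, smul_inv_smul]

theorem smul_conj (α : MulAut S) (s : S) (M : Subgroup S) :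
    α • MulAut.conj s • M = MulAut.conj (α s) • α • M := by
  rw [← mul_smul, ← mul_smul]
  congr 1
  ext x
  simp

theorem conj_conj (s t : S) (M : Subgroup S) :
    MulAut.conj s • MulAut.conj t • M = MulAut.conj (s * t) • M := by
  rw [← mul_smul, map_mul]

theorem conj_inv {s : S} {M M' : Subgroup S} (h : M = MulAut.conj s • M') :
    M' = MulAut.conj s⁻¹ • M := by
  rw [h, conj_conj, inv_mul_cancel, map_one, one_smul]

theorem final [Finite S] {p : ℕ} [Fact p.Prime] (U : Sylow p S) {X Y : Subgroup S}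
    (hX : Mi U X) (h2 : ∀ M, Mi U M → M = X ∨ M = Y) (β : MulAut S)
    (hβ : Odd (orderOf β) ∨ Y = X) : ∃ s : S, β • X = MulAut.conj s • X := by
  have st : ∀ α : MulAut S, (∃ s : S, α • X = MulAut.conj s • X) ∨
      ∃ s : S, α • X = MulAut.conj s • Y := fun α => by
    obtain ⟨s, hs⟩ := MulAction.exists_smul_eq S (α • U) U
    have h3 : (MulAut.conj s * α) • (U : Subgroup S) = U := by
      rw [mul_smul, ← Sylow.pointwise_smul_def, ← Sylow.coe_subgroup_smul, hs]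
    rcases h2 _ (mi_smul h3 hX) with e | e <;> rw [mul_smul] at e
    · exact Or.inl ⟨_, conj_inv e.symm⟩
    · exact Or.inr ⟨_, conj_inv e.symm⟩
  rcases hβ with hβ | rfl
  swap
  · exact (st β).elim id id
  rcases st β with h | ⟨s, hs⟩
  · exact h
  rcases st β⁻¹ with ⟨t, ht⟩ | ⟨t, ht⟩
  · rw [inv_smul_eq_iff, smul_conj] at ht
    exact ⟨_, conj_inv ht⟩
  rw [inv_smul_eq_iff, smul_conj] at ht
  have h3 : (β * β) • X = MulAut.conj (β s * (β t)⁻¹) • X := by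
    rw [mul_smul, hs, smul_conj, conj_inv ht, conj_conj]
  have h4 : ∀ k : ℕ, ∃ r : S, (β * β) ^ k • X = MulAut.conj r • X := fun k => by
    induction k with
    | zero => exact ⟨1, by simp⟩
    | succ k ih =>
      obtain ⟨r, hr⟩ := ih
      exact ⟨_, by rw [pow_succ, mul_smul, h3, smul_conj, hr, conj_conj]⟩
  obtain ⟨k, hk⟩ := hβ
  have h5 : (β * β) ^ (k + 1) = β := by
    rw [← sq, ← pow_mul, show 2 * (k + 1) = orderOf β + 1 by omega, pow_succ, pow_orderOf_eq_one,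
      one_mul]
  exact h5 ▸ h4 (k + 1)

theorem sylow [Finite S] {p : ℕ} [Fact p.Prime] (U : Subgroup S) (h1 : IsPGroup p U)
    (h2 : ∀ q, Nm U q → ∃ u ∈ U, ∀ k : ℕ, (u⁻¹ * q) ^ p ^ k = 1 → u⁻¹ * q = 1) :
    ∃ P : Sylow p S, (P : Subgroup S) = U := by
  refine ⟨⟨U, h1, fun {Q} hQ hle => ?_⟩, rfl⟩
  by_contra ne
  have := hQ.isNilpotent
  have h3 : U.subgroupOf Q < ⊤ := lt_top_iff_ne_top.2 fun e =>
    ne (le_antisymm (subgroupOf_eq_top.1 e) hle)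
  obtain ⟨q, hq, hq'⟩ := SetLike.exists_of_lt (Group.normalizerCondition_of_isNilpotent _ h3)
  obtain ⟨u, hu, h4⟩ := h2 q fun u hu => (mem_normalizer_iff.1 hq ⟨u, hle hu⟩).1 hu
  obtain ⟨k, hk⟩ := hQ ((⟨u, hle hu⟩ : Q)⁻¹ * q)
  have h5 := h4 k (congrArg Subtype.val hk)
  exact hq' (mem_subgroupOf.2 (inv_mul_eq_one.1 h5 ▸ hu))

end Abs

theorem irr {K : Type} [Field K] [Finite K] (θ : RingAut K) (A : AddSubgroup K)
    (h : ∀ l, θ l = l → l ≠ 0 → ∀ k ∈ A, l * l * k ∈ A) {ε k k' : K} (hk : k ∈ A) (h0 : k ≠ 0)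
    (e : ε * θ k = k) (e' : ε * θ k' = k') : k' ∈ A := by
  have h1 : ∀ l, θ l = l → l * l * k ∈ A := fun l hl => by
    by_cases c : l = 0
    · simp [c]
    · exact h l hl c k hk
  have h2 : θ (k' / k) = k' / k := by
    have : ε ≠ 0 := fun c => h0 (by rw [← e, c, zero_mul])
    rw [map_div₀, ← mul_div_mul_left _ _ this, e, e']
  rw [← div_mul_cancel₀ k' h0]
  generalize k' / k = l at h2
  by_cases c : (2 : K) = 0
  · have : CharP K 2 := CharTwo.of_one_ne_zero_of_two_eq_zero one_ne_zero c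
    obtain ⟨r, rfl⟩ := isSquare_of_charTwo' l
    refine h1 r ?_
    rw [map_mul] at h2
    have h3 : (θ r - r) ^ 2 = 0 := by linear_combination h2 + (r * r - θ r * r) * c
    exact sub_eq_zero.1 (pow_eq_zero_iff two_ne_zero |>.1 h3)
  · have h3 := A.sub_mem (h1 ((l + 1) / 2) (by simp [h2, map_ofNat]))
      (h1 ((l - 1) / 2) (by simp [h2, map_ofNat]))
    convert h3 using 1
    field_simp
    ring

theorem exists_mu {K : Type} [Field K] [Finite K] (θ : RingAut K)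
    (h : 2 < Nat.card {t // θ t = t}) : ∃ μ : K, θ μ = μ ∧ μ ≠ 0 ∧ μ ≠ 1 := by
  have := Fintype.ofFinite {t // θ t = t}
  rw [Nat.card_eq_fintype_card] at h
  obtain ⟨μ, h1, h2⟩ := (Fintype.two_lt_card_iff.1 h : ∃ a b c : {t // θ t = t}, _) |> fun H =>
    show ∃ μ : {t // θ t = t}, μ.1 ≠ 0 ∧ μ.1 ≠ 1 by
      by_contra! c
      obtain ⟨a, b, d, h1, h2, h3⟩ := H
      have key : ∀ x : {t // θ t = t}, x.1 = 0 ∨ x.1 = 1 := fun x => or_iff_not_imp_left.2 (c x)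
      rw [Ne, Subtype.ext_iff] at h1 h2 h3
      rcases key a with e1 | e1 <;> rcases key b with e2 | e2 <;> rcases key d with e3 | e3 <;>
        simp_all
  exact ⟨μ.1, μ.2, h1, h2⟩

section Lie

variable {ι Λ K V : Type} [AddCommGroup Λ] [Field K] [LieRing V] [LieAlgebra K V] {D : RD ι Λ}
  {C : CG D K V}

/-- central elements of the group of fixed points -/
def Zc (C : CG D K V) (z : (End K V)ˣ) : Prop :=
  z ∈ C.U ∧ ∀ u ∈ C.U, u ∈ C.Fix → u * z = z * u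

theorem fl_one (η : Λ →+ ℤ) (m : ℤ) : C.Fl η m 1 := by simp [CL.Fl]

theorem split_off (b : V) (c : ι) :
    b - C.B.repr b (.inr c) • C.e c ∈ C.vs {l | l ≠ D.rt c} := by
  rintro (i | d) hj
  · exact (D.rt_ne c).symm
  · intro e
    obtain rfl : d = c := D.inj e
    exact hj (by simp)

theorem exc (hR : RF C) (h1 : UF1 C) (h2 : UF2 C) (p : ℕ) [CharP K p] {z : (End K V)ˣ} {m : ℤ}
    {b : V} {c : ι} (hz : Zc C z) (hm : 1 ≤ m) (hb : C.Ld D.ht m z b)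
    (hc : C.B.repr b (.inr c) ≠ 0) : c = C.o ∨ D.Exc p C.o c := by
  refine or_iff_not_imp_left.2 fun e => ⟨?_, e, fun a d ha hd => ?_⟩
  · exact hm.trans (hb.1 _ hc : D.ht (D.rt c) = m).ge
  have inv : C.Inv D.ht := hR.s.ht
  have h3 : (C.B.coord (.inr d) ∘ₗ LieAlgebra.ad K V b) (C.e a) = 0 := h2.tr_sep _ _ fun t => by
    have hv : t • C.e a ∈ C.vs {l | D.ht l = D.ht (D.rt a)} :=
      Submodule.smul_mem _ _ (Vs.basis rfl)
    obtain ⟨y, y1, y2, y3⟩ := h2.lift D.ht _ _ inv ha (h2.tr_vs _ _ _ inv hv) (h2.tr_fix _)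
    have h4 := h1.ld_comm _ _ _ _ _ _ _ hm ha hb y3
    rw [← hz.2 y y1 y2, mul_inv_cancel_right, mul_inv_cancel] at h4
    have ha' : 1 ≤ D.ht (D.rt a) := ha
    have h5 := h1.ld_uniq _ _ _ _ _ (by omega) h4 ((h1.ld_zero _ _ _).2 (fl_one _ _))
    simp [h5]
  have h4 : ⁅C.e a, b - C.B.repr b (.inr c) • C.e c⁆ ∈ C.vs {l | l ≠ D.rt d} :=
    C.lie_mem (A := {D.rt a}) (Vs.basis rfl) (split_off b c) (by
      rintro _ rfl l hl e
      exact hl (add_right_cancel (e.trans hd)))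
  have h5 := Vs.coord h4 (j := .inr d) (by simp)
  have h6 : C.B.repr ⁅C.e a, b⁆ (.inr d) = 0 := by
    rw [← lie_skew, map_neg, Finsupp.neg_apply, neg_eq_zero]
    exact h3
  rw [lie_sub, lie_smul, C.ee a c d hd] at h5
  have h7 : (C.N a c : K) = 0 := by simpa [h6, hc] using h5
  rw [← C.N_abs a c d hd]
  exact Int.natCast_dvd.1 ((CharP.intCast_eq_zero_iff K p _).1 h7)

theorem lead_eq (hR : RF C) (h1 : UF1 C) (h2 : UF2 C) (p : ℕ) [CharP K p] {z : (End K V)ˣ}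
    {m : ℤ} (c : ι) (hz : Zc C z) (hm : 1 ≤ m) (hF : C.Fl D.ht m z)
    (h : ∀ d, D.ht (D.rt d) = m → d = C.o ∨ D.Exc p C.o d → d = c) :
    ∃ k : K, C.Ld D.ht m z (k • C.e c) ∧ (D.ht (D.rt c) ≠ m → k = 0) := by
  obtain ⟨b, hb⟩ := C.lead D.ht m z hm hz.1 hF
  refine ⟨C.B.repr b (.inr c), ?_, fun e => not_not.1 fun e' => e (hb.1 _ e')⟩
  convert hb
  refine C.B.ext_elem ?_
  rintro (i | d)
  · rw [Vs.coord hb.1 (j := .inl i) (by simp; omega)]
    simp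
  · by_cases e : d = c
    · simp [e]
    · have : C.B.repr b (.inr d) = 0 :=
        not_not.1 fun e' => e (h d (hb.1 _ e') (exc hR h1 h2 p hz hm hb e'))
      simp [this, Ne.symm e]

theorem climb (hR : RF C) (h1 : UF1 C) (h2 : UF2 C) (p : ℕ) [CharP K p] {z : (End K V)ˣ}
    {m m' : ℤ} (hz : Zc C z) (hm : 1 ≤ m) (hm' : m ≤ m') (hF : C.Fl D.ht m z)
    (h0 : m' ≤ D.ht (D.rt C.o))
    (h : ∀ d, m ≤ D.ht (D.rt d) → D.ht (D.rt d) < m' → ¬ D.Exc p C.o d) : C.Fl D.ht m' z := by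
  induction m', hm' using Int.leInduction with
  | base => exact hF
  | succ n hn ih =>
    obtain ⟨k, k1, k2⟩ := lead_eq hR h1 h2 p C.o hz (hm.trans hn)
      (ih (by omega) fun d a b => h d a (by omega)) fun d e e' =>
        e'.resolve_right (h d (by omega) (by omega))
    rw [k2 (by omega), zero_smul] at k1
    exact (h1.ld_zero _ _ _).1 k1

theorem top (hR : RF C) (h2 : UF2 C) {z : (End K V)ˣ} (hz : z ∈ C.U)
    (hF : C.Fl D.ht (D.ht (D.rt C.o)) z) : z ∈ C.Ux {C.o} := by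
  have h0 : 1 ≤ D.ht (D.rt C.o) := hR.t.pos
  refine C.Ux_mono (fun a ha => hR.t.uniq a (le_antisymm (C.top a) ha.2))
    (h2.sup D.ht {l | D.ht (D.rt C.o) ≤ D.ht l} (fun a ha b hb => ?_) z hz hF)
  simp only [Set.mem_ofPred_eq, map_add] at ha hb ⊢
  omega

theorem xo_comm (hR : RF C) (h2 : UF2 C) (t : K) {u : (End K V)ˣ} (hu : u ∈ C.U) :
    u * C.x C.o t = C.x C.o t * u := by
  refine C.Ux_induction (p := fun u => Commute u (C.x C.o t)) hu (Commute.one_left _)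
    (fun a ha r => h2.comm D.ht a C.o r t ha hR.t.pos fun d i j hi hj e => ?_)
    fun y z => Commute.mul_left
  have h3 := C.top d
  have h0 : 1 ≤ D.ht (D.rt C.o) := hR.t.pos
  have ha' : 1 ≤ D.ht (D.rt a) := ha
  rw [e, map_add, map_zsmul, map_zsmul, smul_eq_mul, smul_eq_mul] at h3
  nlinarith

theorem tor (h3 : BF1 C) {c : ι} (hc : C.τ c = c) {l : K} (hl : C.θ l = l) (h0 : l ≠ 0) :
    ∃ t ∈ C.T, t ∈ C.G1 ∧ ∀ d, t.1 (C.e d) = l ^ D.cv c (D.rt d) • C.e d := by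
  obtain ⟨t, t0, t1⟩ := h3.fixr c hc
  obtain ⟨a, b⟩ := h3.tor c t l t0 h0
  refine ⟨_, a, mul_mem (h3.fix_n c _ hc ?_) (inv_mem (h3.fix_n c t hc t1)), b⟩
  rw [map_mul, hl, mul_left_comm, t1]

variable {S : Type u} [Group S] {f : S →* (End K V)ˣ}

theorem pull (hf : Emb C f) {y : (End K V)ˣ} (hy : y ∈ C.G1) : ∃ s, f s = y := by
  rwa [← hf.range] at hy

theorem pullU (hf : Emb C f) {y : (End K V)ˣ} (hy : y ∈ C.U) (hy' : y ∈ C.Fix) : ∃ s, f s = y :=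
  pull hf (mem_sup_left ⟨hy, hy'⟩)

theorem g1 (hf : Emb C f) (s : S) : f s ∈ C.G1 := hf.range ▸ ⟨s, rfl⟩

theorem zc (hf : Emb C f) {z : S} (h : Ce (C.U.comap f) z) : Zc C (f z) :=
  ⟨h.1, fun u a b => by
    obtain ⟨u, rfl⟩ := pullU hf a b
    rw [← map_mul, ← map_mul, h.2 u a]⟩

theorem nm_T (h3 : BF1 C) {t : S} (ht : f t ∈ C.T) : Nm (C.U.comap f) t := fun u hu => by
  rw [mem_comap, map_mul, map_mul, map_inv]
  exact h3.mon_conj _ 1 _ _ ht.2 (fun a ha => ha) _ hu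

theorem nm_split (h4 : BF2 C) (h5 : TF C) (hf : Emb C f) {q : S} (h : Nm (C.U.comap f) q) :
    ∃ u ∈ C.U.comap f, f (u⁻¹ * q) ∈ C.T := by
  obtain ⟨u, hu, t, ht, e⟩ := h4.mem_B1 _ (g1 hf q) (h5.norm _ (g1 hf q) fun u hu => by
    obtain ⟨u, rfl⟩ := pullU hf hu.1 hu.2
    have := h u hu.1
    rwa [mem_comap, map_mul, map_mul, map_inv] at this)
  obtain ⟨u, rfl⟩ := pullU hf hu.1 hu.2
  refine ⟨u, hu.1, ?_⟩
  rw [map_mul, map_inv, e, inv_mul_cancel_left]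
  exact ht.1

/-- the leading term of `z` is `k` times the root vector of `c` -/
def P (C : CG D K V) (f : S →* (End K V)ˣ) (c : ι) (z : S) (k : K) : Prop :=
  C.Ld D.ht (D.ht (D.rt c)) (f z) (k • C.e c)

theorem P.mul (h1 : UF1 C) {c : ι} (hc : D.pos c) {z z' : S} {k k' : K} (h : P C f c z k)
    (h' : P C f c z' k') : P C f c (z * z') (k + k') := by
  rw [P, map_mul, add_smul]
  exact h1.ld_mul _ _ _ _ _ _ hc h h'

theorem P.inv (h1 : UF1 C) {c : ι} (hc : D.pos c) {z : S} {k : K} (h : P C f c z k) :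
    P C f c z⁻¹ (-k) := by
  rw [P, map_inv, neg_smul]
  exact h1.ld_inv _ _ _ _ hc h

theorem P.conj (h1 : UF1 C) (h3 : BF1 C) {c : ι} {z t : S} {k l : K} (h : P C f c z k)
    (ht : f t ∈ C.T) (e : (f t).1 (C.e c) = l • C.e c) : P C f c (t * z * t⁻¹) (l * k) := by
  have := h1.ld_conj _ _ _ _ (f t) (h3.N_le _ ht.1) (h3.T_sp _ ht) (h3.T_sp _ (inv_mem ht)) h
  rw [map_smul, e, smul_smul, mul_comm k] at this
  rwa [P, map_mul, map_mul, map_inv]

theorem P.uniq (h1 : UF1 C) {c : ι} (hc : D.pos c) {z : S} {k k' : K} (h : P C f c z k)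
    (h' : P C f c z k') : k = k' :=
  smul_left_injective K (C.B.ne_zero _) (h1.ld_uniq _ _ _ _ _ hc h h')

theorem P.fix (hR : RF C) (h1 : UF1 C) (h2 : UF2 C) (h4 : BF2 C) (hf : Emb C f) {c : ι}
    (hc : D.pos c) (hτ : C.τ c = c) {z : S} {k : K} (h : P C f c z k) : C.ε c * C.θ k = k := by
  have := h2.ld_σ _ _ _ _ hR.s.ht h
  rw [C.mem_Fix.1 (h4.G1_le _ (g1 hf z)).2, C.s_smul, C.s_e, hτ, smul_smul, mul_comm] at this
  exact P.uniq h1 hc this h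

theorem fill (hR : RF C) (h1 : UF1 C) (h2 : UF2 C) (h3 : BF1 C) (h4 : BF2 C) (hf : Emb C f)
    {c : ι} (hc : D.pos c) (hτ : C.τ c = c) {M : Subgroup S} (hM : Iv (C.U.comap f) M)
    {z z' : S} {k k' : K} (hz : z ∈ M) (h : P C f c z k) (h0 : k ≠ 0) (h' : P C f c z' k') :
    ∃ y ∈ M, P C f c y k' := by
  have := C.fin
  let A : AddSubgroup K :=
    { carrier := {k | ∃ y ∈ M, P C f c y k}
      zero_mem' := ⟨1, one_mem _, by
        rw [P, map_one, zero_smul]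
        exact (h1.ld_zero _ _ _).2 (fl_one _ _)⟩
      add_mem' := fun ⟨y, a, b⟩ ⟨y', a', b'⟩ => ⟨_, mul_mem a a', b.mul h1 hc b'⟩
      neg_mem' := fun ⟨y, a, b⟩ => ⟨_, inv_mem a, b.inv h1 hc⟩ }
  refine irr C.θ A (fun l hl l0 k ⟨y, a, b⟩ => ?_) ⟨z, hz, h⟩ h0 (h.fix hR h1 h2 h4 hf hc hτ)
    (h'.fix hR h1 h2 h4 hf hc hτ)
  obtain ⟨t, t1, t2, t3⟩ := tor h3 hτ hl l0
  obtain ⟨t, rfl⟩ := pull hf t2
  exact ⟨_, hM.2.2 t (nm_T h3 t1) y a, b.conj h1 h3 t1 (by rw [t3, D.two, zpow_two])⟩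

theorem mi_X (hR : RF C) (h1 : UF1 C) (h2 : UF2 C) (h3 : BF1 C) (h4 : BF2 C) (h5 : TF C)
    (hf : Emb C f) : Mi (C.U.comap f) ((C.Ux {C.o}).comap f) := by
  have hτ : C.τ C.o = C.o := hR.s.top _ C.top
  have hle : C.Ux {C.o} ≤ C.U := C.Ux_mono (by rintro _ rfl; exact hR.t.pos)
  have hce : ∀ z ∈ (C.Ux {C.o}).comap f, Ce (C.U.comap f) z := fun z hz =>
    ⟨hle hz, fun u hu => hf.inj (by
      obtain ⟨t, e⟩ := (h1.one_root _ _).1 hz
      rw [map_mul, map_mul, e, xo_comm hR h2 t hu])⟩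
  have hP : ∀ {z : S} {k : K}, f z = C.x C.o k → P C f C.o z k := fun e => by
    rw [P, e]
    exact h1.ld_x _ _ _ _ hR.t.pos rfl
  refine ⟨⟨fun e => ?_, hce, fun n hn z hz => ?_⟩, fun M hM le => le_antisymm le fun z' hz' => ?_⟩
  · obtain ⟨t, t0, t1⟩ := h3.fixr _ hτ
    have a : C.x C.o t ∈ C.Ux {C.o} := C.x_mem (Set.mem_singleton _) t
    obtain ⟨y, hy⟩ := pullU hf (hle a) (by rw [C.mem_Fix, C.σ_x, hτ, t1])
    have b0 : y ∈ (C.Ux {C.o}).comap f := by rwa [mem_comap, hy]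
    have b : y = 1 := by rwa [e, mem_bot] at b0
    rw [b, map_one, ← C.x_zero C.o] at hy
    exact t0 (h1.x_inj _ _ _ hy).symm
  · obtain ⟨u, hu, ht⟩ := nm_split h4 h5 hf hn
    have a : u⁻¹ * n * z * (u⁻¹ * n)⁻¹ ∈ (C.Ux {C.o}).comap f := by
      rw [mem_comap, map_mul, map_mul f _ z, map_inv]
      exact h3.mon_conj _ 1 _ _ ht.2 (fun a ha => ha) _ hz
    have b := (hce _ a).2 u hu
    rw [← mul_inv_eq_iff_eq_mul] at b
    rw [← b] at a
    convert a using 1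
    group
  · obtain ⟨⟨z, hz⟩, z1⟩ := ne_bot_iff_exists_ne_one.1 hM.1
    obtain ⟨k, e⟩ := (h1.one_root _ _).1 (le hz)
    obtain ⟨k', e'⟩ := (h1.one_root _ _).1 hz'
    obtain ⟨y, hy, y1⟩ := fill hR h1 h2 h3 h4 hf hR.t.pos hτ hM hz (hP e) (fun k0 => z1
      (Subtype.ext (hf.inj (by rw [e, k0, C.x_zero]; exact (map_one f).symm)))) (hP e')
    obtain ⟨k'', e''⟩ := (h1.one_root _ _).1 (le hy)
    rw [(hP e'').uniq h1 hR.t.pos y1, ← e'] at e''
    exact hf.inj e'' ▸ hy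

theorem two (hR : RF C) (h1 : UF1 C) (h2 : UF2 C) (h3 : BF1 C) (h4 : BF2 C) (h5 : TF C)
    (hq : 2 < C.q) (hf : Emb C f) (p : ℕ) [hp : Fact p.Prime] [CharP K p] {γ : ι}
    (hγ : D.Exc p C.o γ) :
    ∃ Y : Subgroup S, ∀ M, Mi (C.U.comap f) M → M = (C.Ux {C.o}).comap f ∨ M = Y := by
  have := C.fin
  have hX := mi_X hR h1 h2 h3 h4 h5 hf
  have un := fun d (h : D.Exc p C.o d) => hR.t.exc_uniq p hp.1 d γ h hγ
  have hτ : C.τ γ = γ := un _ (hR.s.exc _ _ _ C.top hγ)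
  have hτ' : C.τ C.o = C.o := hR.s.top _ C.top
  have g0 : 1 ≤ D.ht (D.rt γ) := hγ.1
  have g1 : D.ht (D.rt γ) < D.ht (D.rt C.o) :=
    lt_of_le_of_ne (C.top γ) fun e => hγ.2.1 (hR.t.uniq γ e)
  have hasP : ∀ z, Ce (C.U.comap f) z → ∃ k, P C f γ z k := fun z hz => by
    obtain ⟨k, hk, -⟩ := lead_eq hR h1 h2 p γ (zc hf hz) g0
      (climb hR h1 h2 p (zc hf hz) le_rfl g0 (h1.ue_fl _ _ hz.1) g1.le fun d _ b e =>
        b.ne (by rw [un d e])) fun d e e' => e'.elim (fun a => (g1.ne (by rw [← e, a])).elim) (un d)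
    exact ⟨k, hk⟩
  have kerP : ∀ z, Ce (C.U.comap f) z → P C f γ z 0 → z ∈ (C.Ux {C.o}).comap f := fun z hz h => by
    rw [P, zero_smul] at h
    exact top hR h2 hz.1 (climb hR h1 h2 p (zc hf hz) (by omega) (by omega)
      ((h1.ld_zero _ _ _).1 h) le_rfl fun d a _ e => by rw [un d e] at a; omega)
  obtain ⟨μ, m1, m2, m3⟩ := exists_mu C.θ hq
  obtain ⟨t1, a1, a2, a3⟩ := tor h3 hτ' (l := μ⁻¹ * μ⁻¹) (by rw [map_mul, map_inv₀, m1])
    (by simpa using m2)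
  obtain ⟨t2, b1, b2, b3⟩ := tor h3 hτ m1 m2
  obtain ⟨t, ht⟩ := pull hf (mul_mem a2 b2)
  have tT : f t ∈ C.T := ht ▸ mul_mem a1 b1
  obtain ⟨v1, v2⟩ := hR.t.exc_val p hp.1 γ hγ
  have e1 : (f t).1 (C.e γ) = (1 : K) • C.e γ := by
    rw [ht, Units.val_mul, End.mul_apply, b3, map_smul, a3, smul_smul, v1, D.two, zpow_two,
      zpow_one]
    congr 1
    field_simp
  have e2 : (f t).1 (C.e C.o) = (μ ^ p * (μ⁻¹ * μ⁻¹ * (μ⁻¹ * μ⁻¹))) • C.e C.o := by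
    rw [ht, Units.val_mul, End.mul_apply, b3, map_smul, a3, smul_smul, v2, D.two, zpow_two,
      zpow_natCast]
  have e3 : μ ^ p * (μ⁻¹ * μ⁻¹ * (μ⁻¹ * μ⁻¹)) ≠ 1 := fun e => by
    have c1 := (hR.r.bound γ C.o).2
    have c2 := hp.1.two_le
    rw [v2] at c1
    obtain rfl | rfl : p = 2 ∨ p = 3 := by omega
    · have c3 : (2 : K) = 0 := CharP.cast_eq_zero K 2
      field_simp at e
      have c4 : (μ - 1) ^ 2 = 0 := by linear_combination -e + (1 - μ) * c3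
      exact m3 (sub_eq_zero.1 (pow_eq_zero_iff two_ne_zero |>.1 c4))
    · field_simp at e
      exact m3 e.symm
  refine ⟨C.U.comap f ⊓ centralizer (C.U.comap f) ⊓ centralizer {t}, fun M hM =>
    or_iff_not_imp_left.2 fun ne => ?_⟩
  have dis : ∀ z ∈ M, z ∈ (C.Ux {C.o}).comap f → z = 1 := fun z a b => by
    by_contra z1
    have := hM.2 (M ⊓ (C.Ux {C.o}).comap f) ⟨ne_bot_iff_exists_ne_one.2 ⟨⟨z, a, b⟩, fun e =>
      z1 (congrArg Subtype.val e)⟩, fun y hy => hM.1.2.1 y hy.1, fun n hn y hy =>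
      ⟨hM.1.2.2 n hn y hy.1, hX.1.2.2 n hn y hy.2⟩⟩ inf_le_left
    exact ne (hX.2 M hM.1 (inf_eq_left.1 this))
  have le : M ≤ C.U.comap f ⊓ centralizer (C.U.comap f) ⊓ centralizer {t} := fun z hz => by
    refine ⟨hM.1.2.1 z hz, ?_⟩
    obtain ⟨k, hk⟩ := hasP z (hM.1.2.1 z hz)
    have a := mul_mem (hM.1.2.2 t (nm_T h3 tT) z hz) (inv_mem hz)
    have b := (hk.conj h1 h3 tT e1).mul h1 g0 (hk.inv h1 g0)
    rw [one_mul, add_neg_cancel] at b
    have c := dis _ a (kerP _ (hM.1.2.1 _ a) b)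
    rintro _ rfl
    rwa [mul_inv_eq_one, mul_inv_eq_iff_eq_mul] at c
  refine le_antisymm le fun z' hz' => ?_
  obtain ⟨⟨z, hz⟩, z1⟩ := ne_bot_iff_exists_ne_one.1 hM.1.1
  obtain ⟨k, hk⟩ := hasP z (hM.1.2.1 z hz)
  obtain ⟨k', hk'⟩ := hasP z' hz'.1
  obtain ⟨y, hy, y1⟩ := fill hR h1 h2 h3 h4 hf g0 hτ hM.1 hz hk (fun k0 => z1 (Subtype.ext
    (dis z hz (kerP z (hM.1.2.1 z hz) (k0 ▸ hk))))) hk'
  have a := mul_mem hz' (inv_mem (le hy))
  have b := hk'.mul h1 g0 (y1.inv h1 g0)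
  rw [add_neg_cancel] at b
  obtain ⟨r, e⟩ := (h1.one_root _ _).1 (kerP _ a.1 b)
  have c := h3.T_x _ tT _ _ r e2
  rw [← e, ← map_mul, a.2 t rfl, map_mul, mul_inv_cancel_right, e] at c
  have d : r = 0 := by
    by_contra r0
    exact e3 (mul_right_cancel₀ r0 ((h1.x_inj _ _ _ c).symm.trans (one_mul r).symm))
  rw [d, C.x_zero, ← map_one f] at e
  exact mul_inv_eq_one.1 (hf.inj e) ▸ hy

end Lie

end Pst

open Pst in
theorem pst : S_PST.{u} := by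
  intro ι Λ K V _ _ _ _ D C hR h1 h2 h3 h4 h5 hq S _ _ f hf p hp _ β hβ
  have hX := mi_X hR h1 h2 h3 h4 h5 hf
  obtain ⟨U, hU⟩ := sylow (p := p) (C.U.comap f) ((h1.pgroup p _).comap_of_injective f hf.inj)
    fun q hq => by
      obtain ⟨u, hu, ht⟩ := nm_split h4 h5 hf hq
      refine ⟨u, hu, fun k hk => ?_⟩
      induction k with
      | zero => simpa only [pow_zero, pow_one] using hk
      | succ k ih =>
        refine ih (hf.inj ?_)
        rw [map_one, map_pow]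
        refine h3.T_pow p _ (pow_mem ht _) ?_
        rw [← pow_mul, ← pow_succ, ← map_pow, hk, map_one]
  have key : ∃ s : S, β • (C.Ux {C.o}).comap f = MulAut.conj s • (C.Ux {C.o}).comap f := by
    by_cases e : ∃ c, D.Exc p C.o c
    · obtain ⟨γ, hγ⟩ := e
      obtain ⟨Y, hY⟩ := two hR h1 h2 h3 h4 h5 hq hf p hγ
      exact final U (hU ▸ hX) (hU ▸ hY) β (Or.inl (hβ.resolve_right fun h => h γ hγ))
    · refine final U (hU ▸ hX) (fun M hM => Or.inl ?_) β (Or.inr rfl)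
      rw [hU] at hM
      refine hX.2 M hM.1 fun z hz => ?_
      have a := hM.1.2.1 z hz
      exact top hR h2 a.1 (climb hR h1 h2 p (zc hf a) le_rfl hR.t.pos (h1.ue_fl _ _ a.1) le_rfl
        fun d _ _ h => e ⟨d, h⟩)
  obtain ⟨s, hs⟩ := key
  have e : X0 C f = ((C.Ux {C.o}).comap f : Subgroup S) := Set.ext fun y => (h1.one_root _ _).symm
  exact ⟨s, e ▸ congrArg SetLike.coe hs⟩

end Pool.Agent.MP_983df8_al.CH

end

end MrgPart3

-- ======== part 4: formerly Pool.Agent.MP_983df8_al.ch.KBT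
section MrgPart4

/-! The theorem of Borel and Tits by a shortest real functional. -/

noncomputable section

namespace Pool.Agent.MP_983df8_al.CH

open Subgroup Module

namespace KBT

variable {ι Λ K V : Type} [AddCommGroup Λ] [Field K] [LieRing V] [LieAlgebra K V] {D : RD ι Λ}
  {C : CG D K V}

/-- functions on the roots that come from a real functional -/
def Lin (D : RD ι Λ) (x : ι → ℝ) : Prop := ∃ η : Λ →+ ℝ, ∀ a, x a = η (D.rt a)

theorem lin_iff {x : ι → ℝ} :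
    Lin D x ↔ ∀ a, x a = ∑ i ∈ D.Δ, (D.co i (D.rt a) : ℝ) * x i := by
  constructor
  · rintro ⟨η, h⟩ a
    conv_lhs => rw [h, ← D.sum (D.rt a), map_sum]
    exact Finset.sum_congr rfl fun i _ => by rw [map_zsmul, h, zsmul_eq_mul]
  · exact fun h => ⟨AddMonoidHom.mk' (fun l => ∑ i ∈ D.Δ, (D.co i l : ℝ) * x i)
      (fun a b => by simp [add_mul, Finset.sum_add_distrib]), h⟩

theorem ht_apply (l : Λ) : D.ht l = ∑ i ∈ D.Δ, D.co i l := by
  simp [RD.ht, AddMonoidHom.finsetSum_apply]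

theorem pos_of (h : RDF D) {η : Λ →+ ℝ} (hη : ∀ a, D.pos a → 0 ≤ η (D.rt a)) {a : ι}
    (ha : 0 < η (D.rt a)) : D.pos a := by
  by_contra c
  have := hη _ ((h.pos_ng a).2 c)
  rw [D.rt_ng, map_neg] at this
  linarith

theorem ux_sp (h : AF C) (η : Λ →+ ℝ) {t : ℝ} (ht : 0 ≤ t) {Ψ : Set ι}
    (hΨ : ∀ a ∈ Ψ, t ≤ η (D.rt a)) {y : (End K V)ˣ} (hy : y ∈ C.Ux Ψ) :
    y.1 - 1 ∈ C.sp {l | t ≤ η l} :=
  h.u1.ux_sp _ Ψ (fun a (ha : t ≤ η a) b (hb : t ≤ η b) => show t ≤ η (a + b) by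
    rw [map_add]; linarith) hΨ y hy

theorem sup (h : AF C) (η : Λ →+ ℝ) {y : (End K V)ˣ} (hy : y ∈ C.U)
    (hs : y.1 - 1 ∈ C.sp {l | 1 ≤ η l}) : y ∈ C.Ux {a | 1 ≤ η (D.rt a)} :=
  C.Ux_mono (fun _ ha => ha.2) (h.u2.sup D.ht _
    (fun a (ha : 1 ≤ η a) b (hb : 1 ≤ η b) => show 1 ≤ η (a + b) by rw [map_add]; linarith) y hy hs)

theorem le_U (h : AF C) {η : Λ →+ ℝ} (hη : ∀ a, D.pos a → 0 ≤ η (D.rt a)) :
    C.Ux {a | 1 ≤ η (D.rt a)} ≤ C.U :=
  C.Ux_mono fun _ ha => pos_of h.r.r hη (lt_of_lt_of_le one_pos ha)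

/-- the positive unipotent group normalises the group of a dominant functional -/
theorem norm (h : AF C) {η : Λ →+ ℝ} (hη : ∀ a, D.pos a → 0 ≤ η (D.rt a)) {u z : (End K V)ˣ}
    (hu : u ∈ C.U) (hz : z ∈ C.Ux {a | 1 ≤ η (D.rt a)}) :
    u * z * u⁻¹ ∈ C.Ux {a | 1 ≤ η (D.rt a)} := by
  have a : ∀ v ∈ C.U, v.1 ∈ C.sp {l | 0 ≤ η l} := fun v hv => by
    have := add_mem (ux_sp h η le_rfl hη hv) (Sp.one (B := C.B) (wt := D.wt)
      (C := {l | 0 ≤ η l}) (by simp))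
    rwa [sub_add_cancel] at this
  refine sup h η (mul_mem (mul_mem hu (le_U h hη hz)) (inv_mem hu)) ?_
  have e : (u * z * u⁻¹).1 - 1 = u.1 * (z.1 - 1) * (u⁻¹).1 := by
    simp [mul_sub, sub_mul]
  rw [e]
  refine Sp.mul (C := {l | 1 ≤ η l}) (Sp.mul (a u hu)
    (ux_sp h η zero_le_one (fun _ ha => ha) hz) ?_) (a _ (inv_mem hu)) ?_ <;>
  · intro c hc c' hc'
    simp only [Set.mem_ofPred_eq, map_add] at *
    linarith

/-- admissible pairs -/
structure P (C : CG D K V) (R : Subgroup (End K V)ˣ) (g : (End K V)ˣ) (x : ι → ℝ) : Prop where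
  mem : g ∈ C.G1
  lin : Lin D x
  inv : ∀ a, x (C.τ a) = x a
  ux : ∀ r ∈ R, g⁻¹ * r * g ∈ C.Ux {a | 1 ≤ x a}

variable {R : Subgroup (End K V)ˣ} {g : (End K V)ˣ} {x : ι → ℝ}

theorem P.move (h : AF C) (p : P C R g x) {n : (End K V)ˣ} {w : Equiv.Perm ι} (hn : n ∈ C.G1)
    (hw : w ∈ D.W) (m : C.Mon n w) : P C R (g * n) (fun a => x (w a)) where
  mem := mul_mem p.mem hn
  lin := by
    obtain ⟨η, e⟩ := p.lin
    obtain ⟨φ, f⟩ := h.r.r.W_lin w hw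
    exact ⟨η.comp φ, fun a => by simp [e, f]⟩
  inv a := by rw [h.b1.fix_comm n w (h.b2.G1_le n hn).2 m, p.inv]
  ux r hr := by
    have := h.b1.mon_conj n⁻¹ w⁻¹ _ {a | 1 ≤ x (w a)} m.inv (fun a ha => by simpa using ha) _
      (p.ux r hr)
    simpa [mul_assoc] using this

theorem ex_min [Fintype ι] (h : AF C) (hR : R ≤ C.U) :
    ∃ g x, P C R g x ∧ ∀ g' x', P C R g' x' → ∑ a, x a ^ 2 ≤ ∑ a, x' a ^ 2 := by
  set x0 : ι → ℝ := fun a => D.ht (D.rt a) with hx0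
  have p0 : P C R 1 x0 := ⟨one_mem _, ⟨(Int.castAddHom ℝ).comp D.ht, fun a => rfl⟩,
    fun a => by simp [hx0, h.r.s.ht], fun r hr => by
      simpa using C.Ux_mono (fun a (ha : 1 ≤ D.ht (D.rt a)) =>
        show a ∈ {a | 1 ≤ x0 a} from show (1 : ℝ) ≤ D.ht (D.rt a) by exact_mod_cast ha) (hR hr)⟩
  have hq : Continuous fun x : ι → ℝ => ∑ a, x a ^ 2 := by fun_prop
  have c1 : IsClosed {x : ι → ℝ | ∃ g, P C R g x} := by
    have e : {x : ι → ℝ | ∃ g, P C R g x} = ⋃ Ψ : {Ψ : Set ι // ∃ g ∈ C.G1,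
        ∀ r ∈ R, g⁻¹ * r * g ∈ C.Ux Ψ}, (⋂ a, {x | x a = ∑ i ∈ D.Δ, (D.co i (D.rt a) : ℝ) * x i}) ∩
          (⋂ a, {x | x (C.τ a) = x a}) ∩ ⋂ a ∈ Ψ.1, {x | 1 ≤ x a} := by
      ext x
      simp only [Set.mem_ofPred_eq, Set.mem_iUnion, Set.mem_inter_iff, Set.mem_iInter]
      constructor
      · rintro ⟨g, p⟩
        exact ⟨⟨{a | 1 ≤ x a}, g, p.mem, p.ux⟩, ⟨lin_iff.1 p.lin, p.inv⟩, fun a ha => ha⟩
      · rintro ⟨⟨Ψ, g, hg, hu⟩, ⟨a, b⟩, c⟩
        exact ⟨g, hg, lin_iff.2 a, b, fun r hr => C.Ux_mono c (hu r hr)⟩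
    rw [e]
    refine isClosed_iUnion_of_finite fun Ψ => ((isClosed_iInter fun a => ?_).inter
      (isClosed_iInter fun a => ?_)).inter (isClosed_biInter fun a _ => ?_)
    · exact isClosed_eq (by fun_prop) (by fun_prop)
    · exact isClosed_eq (by fun_prop) (by fun_prop)
    · exact isClosed_le (by fun_prop) (by fun_prop)
  set M := ∑ a, x0 a ^ 2 with hM
  have c2 : IsCompact ({x : ι → ℝ | ∃ g, P C R g x} ∩ {x | ∑ a, x a ^ 2 ≤ M}) := by
    refine (isCompact_Icc (a := fun _ => -(M + 1)) (b := fun _ => M + 1)).of_isClosed_subset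
      (c1.inter (isClosed_le hq continuous_const)) fun x hx => ?_
    have b : ∀ a, x a ^ 2 ≤ M := fun a =>
      (Finset.single_le_sum (f := fun a => x a ^ 2) (fun i _ => sq_nonneg _)
        (Finset.mem_univ a)).trans hx.2
    exact ⟨fun a => by nlinarith [b a, sq_nonneg (x a + 1)],
      fun a => by nlinarith [b a, sq_nonneg (x a - 1)]⟩
  obtain ⟨x, ⟨⟨g, p⟩, hx⟩, hm⟩ := c2.exists_isMinOn ⟨x0, ⟨1, p0⟩, hM.ge⟩ hq.continuousOn
  refine ⟨g, x, p, fun g' x' p' => ?_⟩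
  by_cases c : ∑ a, x' a ^ 2 ≤ M
  · exact hm ⟨⟨g', p'⟩, c⟩
  · exact le_trans hx (not_le.1 c).le

theorem val_zt (h : AF C) (p : P C R g x) {a c : ι} (hc : D.zt C.τ a (D.rt c) = 0) :
    x c = D.ht (D.rt c) * x a := by
  rw [lin_iff.1 p.lin c, ht_apply, Int.cast_sum, Finset.sum_mul]
  refine Finset.sum_congr rfl fun i hi => ?_
  by_cases e : D.co i (D.rt c) = 0
  · simp [e]
  rcases (h.r.s.zt_zero a c).1 hc i hi e with rfl | rfl | rfl <;> simp [p.inv]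

open Classical in
/-- a simple reflection raises the sum over the positive roots -/
theorem raise [Fintype ι] (h : AF C) (p : P C R g x) {a : ι} (ha : a ∈ D.Δ) (hx : x a < 0) :
    ∃ n ∈ C.G1, ∃ w ∈ D.W, C.Mon n w ∧
      ∑ c, (if D.pos c then x c else 0) < ∑ c, if D.pos c then x (w c) else 0 := by
  obtain ⟨-, -, y, hy, -, h1, -⟩ := h.t.orb a ha
  obtain ⟨-, -, r, -, -, ⟨-, hr, w, hw, m, z1, z2⟩, -⟩ := h.t.low a ha y hy h1
  refine ⟨r, hr, w, hw, m, ?_⟩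
  have sp : ∀ f : ι → ℝ, ∑ c, (if D.pos c then f c else 0) =
      ∑ c, (if 0 < D.zt C.τ a (D.rt c) then f c else 0) +
        ∑ c, if c ∈ D.PJ C.τ a then f c else 0 := fun f => by
    rw [← Finset.sum_add_distrib]
    refine Finset.sum_congr rfl fun c _ => ?_
    by_cases e : D.pos c
    · rcases (h.r.s.zt_pos a c e).eq_or_lt with e' | e'
      · simp [e, RD.PJ, ← e']
      · simp [e, RD.PJ, e', e'.ne']
    · simp [e, RD.PJ, (h.r.s.zt_neg a c e).not_gt]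
  rw [sp, sp fun c => x (w c)]
  have e : ∑ c, (if 0 < D.zt C.τ a (D.rt c) then x (w c) else 0) =
      ∑ c, if 0 < D.zt C.τ a (D.rt c) then x c else 0 := by
    rw [← Equiv.sum_comp w fun c => if 0 < D.zt C.τ a (D.rt c) then x c else 0]
    simp only [z1]
  rw [e, add_lt_add_iff_left]
  have lt : ∀ c ∈ D.PJ C.τ a, x c < x (w c) := fun c hc => by
    have a1 : (1 : ℝ) ≤ D.ht (D.rt c) := by exact_mod_cast hc.1
    have a2 : (1 : ℝ) ≤ -D.ht (D.rt (w c)) := by exact_mod_cast (h.r.r.neg_ht _).2 (z2 c hc)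
    rw [val_zt h p hc.2, val_zt h p ((z1 c).trans hc.2)]
    nlinarith
  have ma : a ∈ D.PJ C.τ a :=
    ⟨((h.r.r.ht_one a).2 ha).ge, (h.r.s.zt_simple a a ha).2 (.inl rfl)⟩
  refine Finset.sum_lt_sum (fun c _ => ?_) ⟨a, Finset.mem_univ _, by simpa [ma] using lt a ma⟩
  split_ifs with hc
  exacts [(lt c hc).le, le_rfl]

theorem ex_dom [Fintype ι] (h : AF C) (hR : R ≤ C.U) :
    ∃ g x, P C R g x ∧ (∀ i ∈ D.Δ, 0 ≤ x i) ∧
      ∀ g' x', P C R g' x' → ∑ a, x a ^ 2 ≤ ∑ a, x' a ^ 2 := by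
  classical
  obtain ⟨g, x, p, hm⟩ := ex_min h hR
  obtain ⟨w, ⟨g1, p1⟩, hw⟩ := Set.exists_max_image
    {w : Equiv.Perm ι | ∃ g, P C R g fun a => x (w a)}
    (fun w => ∑ c, if D.pos c then x (w c) else 0) (Set.toFinite _) ⟨1, g, p⟩
  refine ⟨g1, _, p1, fun i hi => not_lt.1 fun c => ?_, fun g' x' p' => ?_⟩
  · obtain ⟨n, hn, v, hv, m, lt⟩ := raise h p1 hi c
    exact (hw (w * v) ⟨_, p1.move h hn hv m⟩).not_gt lt
  · rw [Equiv.sum_comp w fun a => x a ^ 2]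
    exact hm g' x' p'

theorem dom_pos (h : AF C) (p : P C R g x) (hx : ∀ i ∈ D.Δ, 0 ≤ x i) {a : ι} (ha : D.pos a) :
    0 ≤ x a := by
  rw [lin_iff.1 p.lin a]
  exact Finset.sum_nonneg fun i hi =>
    mul_nonneg (by exact_mod_cast (h.r.r.pos_iff a).1 ha i hi) (hx i hi)

/-- the Weyl part of an element that normalises `R` keeps a shortest dominant functional -/
theorem keep [Fintype ι] (h : AF C) (p : P C R g x) (hx : ∀ i ∈ D.Δ, 0 ≤ x i)
    (hm : ∀ g' x', P C R g' x' → ∑ a, x a ^ 2 ≤ ∑ a, x' a ^ 2) {y u n u' : (End K V)ˣ}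
    {w : Equiv.Perm ι} (hy : ∀ r ∈ R, y⁻¹ * r * y ∈ R) (hu : u ∈ C.U ⊓ C.Fix) (hu' : u' ∈ C.U)
    (hn : n ∈ C.G1) (hw : w ∈ D.W) (m : C.Mon n w) (e : g⁻¹ * y * g = u * n * u') (a : ι) :
    x (w a) = x a := by
  have p' := p.move h (inv_mem hn) (inv_mem hw) m.inv
  obtain ⟨η, hη⟩ := p.lin
  obtain ⟨η', hη'⟩ : ∃ η' : Λ →+ ℝ, ∀ a, x (w⁻¹ a) = η' (D.rt a) := p'.lin
  have d : ∀ a, D.pos a → 0 ≤ η (D.rt a) := fun a ha => hη a ▸ dom_pos h p hx ha
  have ux : ∀ r ∈ R, g⁻¹ * r * g ∈ C.Ux {a | 1 ≤ η (D.rt a)} := fun r hr => by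
    simpa only [hη] using p.ux r hr
  have pm : P C R (g * u) fun a => (x a + x (w⁻¹ a)) / 2 := by
    have l : ∀ a, (x a + x (w⁻¹ a)) / 2 = ((1 / 2 : ℝ) • (η + η')) (D.rt a) := fun a => by
      rw [hη a, hη' a]; simp; ring
    refine ⟨mul_mem p.mem (mem_sup_left hu), ⟨_, l⟩, fun a => by rw [p.inv, p'.inv], fun r hr => ?_⟩
    have a1 := norm h d (inv_mem hu.1) (ux r hr)
    have a2 := h.b1.mon_conj n w _ {a | 1 ≤ η' (D.rt a)} m (fun a ha => by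
      simpa [← hη', ← hη] using ha) _ (norm h d hu' (ux _ (hy r hr)))
    have e1 : (g * u)⁻¹ * r * (g * u) = u⁻¹ * (g⁻¹ * r * g) * u⁻¹⁻¹ := by group
    have e2 : n * (u' * (g⁻¹ * (y⁻¹ * r * y) * g) * u'⁻¹) * n⁻¹ = u⁻¹ * (g⁻¹ * r * g) * u⁻¹⁻¹ := by
      have : y = g * (u * n * u') * g⁻¹ := by rw [← e]; group
      rw [this]; group
    rw [e2] at a2
    simp only [e1, l]
    refine sup h _ (le_U h d a1) (Sp.mono (Sp.inter (ux_sp h η zero_le_one (fun _ ha => ha) a1)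
      (ux_sp h η' zero_le_one (fun _ ha => ha) a2)) fun l hl => ?_)
    obtain ⟨b1, b2⟩ : 1 ≤ η l ∧ 1 ≤ η' l := hl
    simp only [Set.mem_ofPred_eq, AddMonoidHom.smul_apply, AddMonoidHom.add_apply, smul_eq_mul]
    linarith
  have q := hm _ _ pm
  have q' : ∑ a, x (w⁻¹ a) ^ 2 = ∑ a, x a ^ 2 := Equiv.sum_comp w⁻¹ fun a => x a ^ 2
  have q2 : ∑ a, (x a - x (w⁻¹ a)) ^ 2 = 2 * ∑ a, x a ^ 2 + 2 * ∑ a, x (w⁻¹ a) ^ 2 -
      4 * ∑ a, ((x a + x (w⁻¹ a)) / 2) ^ 2 := by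
    simp only [Finset.mul_sum, ← Finset.sum_add_distrib, ← Finset.sum_sub_distrib]
    exact Finset.sum_congr rfl fun a _ => by ring
  have q3 : (x (w a) - x (w⁻¹ (w a))) ^ 2 ≤ ∑ a, (x a - x (w⁻¹ a)) ^ 2 :=
    Finset.single_le_sum (f := fun a => (x a - x (w⁻¹ a)) ^ 2) (fun i _ => sq_nonneg _)
      (Finset.mem_univ (w a))
  rw [show w⁻¹ (w a) = a by simp] at q3
  exact sub_eq_zero.1 (pow_eq_zero_iff two_ne_zero |>.1 (le_antisymm (by linarith) (sq_nonneg _)))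

/-- an integral functional with the same positive roots -/
theorem ex_zeta (h : AF C) (p : P C R g x) (hx : ∀ i ∈ D.Δ, 0 ≤ x i) :
    ∃ ζ : Λ →+ ℤ, C.Inv ζ ∧ (∀ a, D.pos a → 0 ≤ ζ (D.rt a)) ∧ ∀ a, 1 ≤ ζ (D.rt a) ↔ 0 < x a := by
  classical
  have ev : ∀ l, (∑ i ∈ D.Δ.filter fun i => 0 < x i, D.co i) l =
      ∑ i ∈ D.Δ.filter fun i => 0 < x i, D.co i l := fun l => AddMonoidHom.finsetSum_apply _ _ _
  refine ⟨∑ i ∈ D.Δ.filter fun i => 0 < x i, D.co i, fun a => ?_, fun a ha => ?_, fun a => ?_⟩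
  · obtain ⟨φ, f1, f2⟩ := h.r.s.lin
    rw [ev, ev, f1]
    refine (Finset.sum_equiv C.τ (fun i => ?_) fun i hi => (f2 i (Finset.mem_filter.1 hi).1 _).symm).symm
    simp only [Finset.mem_filter, p.inv, ← h.r.r.ht_one, h.r.s.ht]
  · rw [ev]
    exact Finset.sum_nonneg fun i hi => (h.r.r.pos_iff a).1 ha i (Finset.mem_filter.1 hi).1
  rw [ev, lin_iff.1 p.lin a]
  rcases D.sgn a with s | s
  · rw [← zero_add (1 : ℤ), ← Int.lt_iff_add_one_le,
      Finset.sum_pos_iff_of_nonneg fun i hi => s i (Finset.mem_filter.1 hi).1,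
      Finset.sum_pos_iff_of_nonneg fun i hi => mul_nonneg (by exact_mod_cast s i hi) (hx i hi)]
    constructor
    · rintro ⟨i, hi, c⟩
      exact ⟨i, (Finset.mem_filter.1 hi).1, mul_pos (by exact_mod_cast c) (Finset.mem_filter.1 hi).2⟩
    · rintro ⟨i, hi, c⟩
      have a1 : (0 : ℝ) ≤ D.co i (D.rt a) := by exact_mod_cast s i hi
      exact ⟨i, Finset.mem_filter.2 ⟨hi, pos_of_mul_pos_right c a1⟩, by
        exact_mod_cast pos_of_mul_pos_left c (hx i hi)⟩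
  · have a1 := Finset.sum_nonpos fun i (hi : i ∈ D.Δ.filter fun i => 0 < x i) =>
      s i (Finset.mem_filter.1 hi).1
    have a2 := Finset.sum_nonpos fun i (hi : i ∈ D.Δ) => mul_nonpos_of_nonpos_of_nonneg
      (show (D.co i (D.rt a) : ℝ) ≤ 0 by exact_mod_cast s i hi) (hx i hi)
    exact ⟨fun c => by omega, fun c => by linarith⟩

end KBT

open KBT in
theorem kbt : S_KBT := by
  intro ι Λ K V _ _ _ _ D C h R hR hne
  have := D.fin
  have := Fintype.ofFinite ι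
  obtain ⟨g, x, p, hx, hm⟩ := ex_dom h (hR.trans inf_le_left)
  obtain ⟨ζ, z1, z2, z3⟩ := ex_zeta h p hx
  have hU : ∀ r ∈ R, g⁻¹ * r * g ∈ C.Ue ζ := fun r hr =>
    C.Ux_mono (fun a ha => (z3 a).2 (lt_of_lt_of_le one_pos ha)) (p.ux r hr)
  have nm : ∀ u ∈ C.U, ∀ z ∈ C.Ue ζ, u * z * u⁻¹ ∈ C.Ue ζ := fun u hu z hz => by
    have e : C.Ue ζ = C.Ux {a | 1 ≤ (Int.castAddHom ℝ).comp ζ (D.rt a)} :=
      congrArg C.Ux (Set.ext fun a => (Int.cast_le (R := ℝ)).symm.trans (by simp))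
    rw [e] at hz ⊢
    exact norm h (fun a ha => by simpa using z2 a ha) hu hz
  refine ⟨g, p.mem, ζ, ⟨z1, z2, ?_⟩, hU, fun y hy hn z hz => ?_⟩
  · by_contra c
    refine hne ((eq_bot_iff_forall _).2 fun r hr => ?_)
    have : g⁻¹ * r * g = 1 := C.Ux_induction (p := fun y => y = 1) (hU r hr) rfl
      (fun a ha => (c ⟨a, ha⟩).elim) fun a b ha hb => by rw [ha, hb, one_mul]
    calc r = g * (g⁻¹ * r * g) * g⁻¹ := by group
      _ = 1 := by rw [this]; group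
  obtain ⟨u, hu, n, hn', u', hu', -, e⟩ :=
    h.b2.bruhat1 _ (mul_mem (mul_mem (inv_mem p.mem) hy) p.mem)
  obtain ⟨w, hw, m⟩ := h.b1.N_mon n hn'.1
  have k := keep h p hx hm hn hu hu'.1 hn'.2 hw m e
  have := nm u hu.1 _ (h.b1.mon_conj n w _ {a | 1 ≤ ζ (D.rt a)} m
    (fun a ha => (z3 _).2 (by rw [k]; exact (z3 a).1 ha)) _ (nm u' hu'.1 z hz))
  rw [e]
  simpa [mul_assoc] using this

end Pool.Agent.MP_983df8_al.CH

end

end MrgPart4

-- ======== part 5: formerly Pool.Agent.MP_983df8_al.ch.KC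
section MrgPart5

/-! Unipotent radicals contain their centralisers. -/

namespace Pool.Agent.MP_983df8_al.CH

open Subgroup Module

namespace KC

variable {ι Λ K V : Type} [AddCommGroup Λ] [Field K] [LieRing V] [LieAlgebra K V] {D : RD ι Λ}
  {C : CG D K V} {ζ : Λ →+ ℤ} {n y u : (End K V)ˣ} {w : Equiv.Perm ι} {c d : ι}

theorem cl (η : Λ →+ ℤ) {m : ℤ} (h : 0 ≤ m) :
    ∀ a ∈ {l | m ≤ η l}, ∀ b ∈ {l | m ≤ η l}, a + b ∈ {l | m ≤ η l} := fun a e b e' => by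
  simp only [Set.mem_ofPred_eq, map_add] at *; omega

theorem pos_of (F : RDF D) (Z : Dom C ζ) (h : 1 ≤ ζ (D.rt c)) : D.pos c := by
  by_contra e
  have := Z.nonneg _ ((F.pos_ng c).2 e)
  rw [D.rt_ng, map_neg] at this
  omega

theorem ue_le (F : RDF D) (Z : Dom C ζ) : C.Ue ζ ≤ C.U := C.Ux_mono fun _ h => pos_of F Z h

theorem U_sp (Z : Dom C ζ) (hu : u ∈ C.U) : u.1 ∈ C.sp {l | 0 ≤ ζ l} :=
  U0.dzero (U0.ux_sp (cl ζ le_rfl) (fun a h => Z.nonneg a h) hu) le_rfl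

theorem norm (H : AF C) (Z : Dom C ζ) : ∀ u ∈ C.U, ∀ z ∈ C.Ue ζ, u * z * u⁻¹ ∈ C.Ue ζ :=
  fun u hu z hz => C.Ux_mono (fun _ h => h.2) (H.u2.sup D.ht {l | 1 ≤ ζ l} (cl ζ zero_le_one) _
    (mul_mem (mul_mem hu (ue_le H.r.r Z hz)) (inv_mem hu))
    (H.u1.fl_conj ζ 1 z u (U_sp Z hu) (U_sp Z (inv_mem hu)) (H.u1.ue_fl ζ z hz)))

theorem probe (H : AF C) (Z : Dom C ζ) (hc : 1 ≤ ζ (D.rt c)) (φ : V →ₗ[K] K)
    (h : ∀ z ∈ C.Ue ζ ⊓ C.Fix, ∀ a, C.Ld ζ (ζ (D.rt c)) z a → φ a = 0) : φ (C.e c) = 0 :=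
  H.u2.tr_sep φ _ fun t => by
    obtain ⟨z, z1, z2, z3⟩ := H.u2.lift ζ _ (C.tr (t • C.e c)) Z.inv hc
      (H.u2.tr_vs ζ _ _ Z.inv (Submodule.smul_mem _ _ (Vs.basis rfl))) (H.u2.tr_fix _)
    exact h z ⟨z1, z2⟩ _ z3

theorem keep (H : AF C) (Z : Dom C ζ) (hw : w ∈ D.W) (M : C.Mon n w)
    (h : ∀ q ∈ C.Ue ζ ⊓ C.Fix, n * q * n⁻¹ ∈ C.Ue ζ) (c : ι) (hc : 1 ≤ ζ (D.rt c)) :
    1 ≤ ζ (D.rt (w c)) := by
  obtain ⟨φ, hφ⟩ := H.r.r.W_lin w hw
  by_contra e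
  have := probe H Z hc (C.B.coord (.inr c)) fun z hz a ha => by
    by_contra e'
    have k : z ∈ C.Ux {a | 1 ≤ ζ (D.rt (w a))} := by
      simpa [mul_assoc] using H.b1.mon_conj n⁻¹ w⁻¹ _ {a | 1 ≤ ζ (D.rt (w a))} M.inv
        (fun a h => by simpa using h) _ (h z hz)
    exact e (hφ c ▸ H.u1.coef ζ _ z a {l | 1 ≤ (ζ.comp φ) l} hc ha
      (U0.ux_sp (cl _ zero_le_one) (fun a h => by simpa [hφ] using h) k) c e')
  simp at this

theorem ord_pos (D : RD ι Λ) (w : Equiv.Perm ι) : 0 < orderOf w := by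
  have := D.fin
  exact orderOf_pos w

/-- averaging over the powers of an element of the Weyl group -/
theorem avg (F : RDF D) (Z : Dom C ζ) (hw : w ∈ D.W) (hτ : ∀ a, w (C.τ a) = C.τ (w a))
    (h : ∀ c, 1 ≤ ζ (D.rt c) → 1 ≤ ζ (D.rt (w c))) : ∃ η, Dom C η ∧
      (∀ c, 1 ≤ η (D.rt c) ↔ 1 ≤ ζ (D.rt c)) ∧ ∀ c, η (D.rt (w c)) = η (D.rt c) := by
  choose φ hφ using fun k : ℕ => F.W_lin (w ^ k) (pow_mem hw k)
  have N := ord_pos D w
  obtain ⟨η, hη⟩ : ∃ η : Λ →+ ℤ, ∀ c, η (D.rt c) =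
      ∑ k ∈ Finset.range (orderOf w), ζ (D.rt ((w ^ k) c)) :=
    ⟨∑ k ∈ Finset.range (orderOf w), ζ.comp (φ k), fun c => by simp [hφ]⟩
  have a1 : ∀ (k : ℕ) c, 1 ≤ ζ (D.rt c) → 1 ≤ ζ (D.rt ((w ^ k) c)) := fun k c e => by
    induction k with
    | zero => exact e
    | succ k ih => rw [pow_succ']; exact h _ ih
  have a2 : ∀ c, ¬ 1 ≤ ζ (D.rt c) → η (D.rt c) ≤ 0 := fun c e => by
    rw [hη]
    refine Finset.sum_nonpos fun k hk => ?_
    by_contra e'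
    have := a1 (orderOf w - k) ((w ^ k) c) (by omega)
    rw [← Equiv.Perm.mul_apply, ← pow_add, Nat.sub_add_cancel (Finset.mem_range.1 hk).le,
      pow_orderOf_eq_one] at this
    exact e this
  have a3 : ∀ c, 1 ≤ ζ (D.rt c) → 1 ≤ η (D.rt c) := fun c e => by
    rw [hη]
    exact Finset.sum_pos (f := fun k => ζ (D.rt ((w ^ k) c))) (fun k _ => a1 k c e)
      ⟨0, Finset.mem_range.2 N⟩
  have a4 : ∀ (k : ℕ) a, (w ^ k) (C.τ a) = C.τ ((w ^ k) a) := fun k a => by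
    induction k with
    | zero => rfl
    | succ k ih => rw [pow_succ', Equiv.Perm.mul_apply, ih, hτ, Equiv.Perm.mul_apply]
  refine ⟨η, ⟨fun a => ?_, fun a e => ?_, Z.ex.imp a3⟩,
    fun c => ⟨fun e => not_not.1 fun e' => by have := a2 c e'; omega, a3 c⟩, fun c => ?_⟩
  · simp only [hη, a4, Z.inv _]
  · have := Z.nonneg a e
    have := a2 (D.ng a) (by rw [D.rt_ng, map_neg]; omega)
    rw [D.rt_ng, map_neg] at this
    omega
  · have := Finset.sum_range_succ' (fun k => ζ (D.rt ((w ^ k) c))) (orderOf w)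
    rw [Finset.sum_range_succ, pow_orderOf_eq_one, pow_zero, add_left_inj] at this
    simp only [hη, this, pow_succ, Equiv.Perm.mul_apply]

theorem mon_sp (M : C.Mon n w) (h : ∀ a, ζ (D.rt (w a)) = ζ (D.rt a)) :
    n.1 ∈ C.sp {l | 0 ≤ ζ l} := by
  rintro i (j | c) e
  · rw [C.h_B, M.1] at e
    have : D.wt i = 0 := C.h_mem _ i e
    simp [this]
  · obtain ⟨k, -, k2, -⟩ := M.2 c
    rw [k2] at e
    have : D.wt i = D.rt (w c) :=
      Submodule.smul_mem (C.vs {D.rt (w c)}) k (Vs.basis (B := C.B) (j := .inr (w c)) (by simp)) i e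
    simp [this, h]

theorem adc (F : RDF D) {b : V} {A : Set Λ} (hb : b ∈ C.vs {l | l ≠ 0})
    (h : LieAlgebra.ad K V b ∈ C.sp A) (e : D.rt d ∉ A) : C.B.repr b (.inr d) = 0 := by
  obtain ⟨φ, h1, h2⟩ := C.prim d
  rw [← U0.repr_lie F d h1 h2 hb]
  exact U0.phi_zero h2 (Vs.mono (Sp.basis h (.inr (D.ng d))) (by
    rintro l b rfl
    simp [D.rt_ng, e] at b))

/-- the action on the graded pieces is trivial -/
theorem lead (H : AF C) (Z : Dom C ζ) (hy : y ∈ C.G) (h1 : y.1 ∈ C.sp {l | 0 ≤ ζ l})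
    (h2 : (y⁻¹).1 ∈ C.sp {l | 0 ≤ ζ l}) (h : ∀ z ∈ C.Ue ζ ⊓ C.Fix, Commute y z) (c : ι)
    (hc : 1 ≤ ζ (D.rt c)) : y.1 (C.e c) - C.e c ∈ C.vs {l | ζ (D.rt c) + 1 ≤ ζ l} := by
  have k : ∀ a ∈ C.vs {l | ζ l = ζ (D.rt c)}, y.1 a - a ∈ C.vs {l | ζ (D.rt c) ≤ ζ l} :=
    fun a ha => sub_mem (Sp.apply h1 ha fun l e l' e' => by
      simp only [Set.mem_ofPred_eq, map_add] at *; omega) (Vs.mono ha fun _ e => e.ge)
  rintro (i | d) e
  · have := k _ (Vs.basis (B := C.B) (j := .inr c) (by simp)) _ e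
    simp at this
    omega
  by_contra e'
  refine e (probe H Z hc (C.B.coord (.inr d) ∘ₗ (y.1 - 1)) fun z hz a ha => ?_)
  refine adc (b := y.1 a - a) H.r.r (Vs.mono (k a ha.1) ?_) ?_ e'
  · rintro l b rfl
    simp at b
    omega
  have a1 : LieAlgebra.ad K V (y.1 a) = y.1 * LieAlgebra.ad K V a * (y⁻¹).1 :=
    LinearMap.ext fun v => by
      have : y.1 ((y⁻¹).1 v) = v := by rw [← End.mul_apply, Units.mul_inv]; rfl
      simp [U0.lie hy, this]
  have a2 : y.1 * z.1 * (y⁻¹).1 = z.1 := by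
    rw [← Units.val_mul, ← Units.val_mul, (h z hz).eq, mul_inv_cancel_right]
  convert sub_mem ha.2 (U0.fl_conj h1 h2 ha.2) using 1
  rw [map_sub, a1, mul_sub, mul_sub, sub_mul, sub_mul, a2, mul_one, Units.mul_inv]
  abel

theorem mon_repr (M : C.Mon n w) {k : K} (e : n.1 (C.e c) = k • C.e (w c)) (v : V) :
    C.B.repr (n.1 v) (.inr (w c)) = k * C.B.repr v (.inr c) := by
  classical
  refine LinearMap.congr_fun (f := C.B.coord (.inr (w c)) ∘ₗ n.1) (g := k • C.B.coord (.inr c))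
    (C.B.ext ?_) v
  rintro (i | d)
  · have := Vs.coord (C.h_mem (w i)) (j := .inr (w c)) (D.rt_ne _)
    rw [← M.1, ← C.h_B] at this
    simpa using this
  by_cases e' : d = c
  · subst e'
    simp [e]
  · obtain ⟨l, -, l2, -⟩ := M.2 d
    simp [l2, e']

theorem U_e (H : AF C) (hu : u ∈ C.U) (c : ι) :
    u.1 (C.e c) - C.e c ∈ C.vs {l | D.ht (D.rt c) + 1 ≤ D.ht l} :=
  Vs.mono (Sp.basis (H.u1.ue_fl _ u hu) (.inr c)) fun l e => by
    simp only [Set.mem_ofPred_eq, map_sub, RD.wt_inr] at *; omega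

theorem U_self (H : AF C) (hu : u ∈ C.U) (c : ι) : C.B.repr (u.1 (C.e c)) (.inr c) = 1 := by
  simpa [sub_eq_zero] using Vs.coord (U_e H hu c) (j := .inr c) (by simp)

theorem fix_pos (H : AF C) (Z : Dom C ζ) {u' : (End K V)ˣ} (hu : u ∈ C.U) (hu' : u' ∈ C.U)
    (M : C.Mon n w) (hw : ∀ a, ζ (D.rt (w a)) = ζ (D.rt a))
    (h : ∀ c, 1 ≤ ζ (D.rt c) →
      (u * n * u').1 (C.e c) - C.e c ∈ C.vs {l | ζ (D.rt c) + 1 ≤ ζ l}) (c : ι)
    (hc : 1 ≤ ζ (D.rt c)) : w c = c ∧ n.1 (C.e c) = C.e c := by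
  classical
  have a1 : ∀ c k, 1 ≤ ζ (D.rt c) → n.1 (C.e c) = k • C.e (w c) →
      k = C.B.repr ((u⁻¹).1 (C.e c)) (.inr (w c)) := fun c k hc e => by
    have := Vs.coord (j := .inr (w c)) (Sp.apply (A' := {l | ζ (D.rt c) + 1 ≤ ζ l})
      (U_sp Z (inv_mem hu)) (h c hc) fun l e l' e' => by
        simp only [Set.mem_ofPred_eq, map_add] at *; omega) (by simp [hw])
    rw [map_sub, ← End.mul_apply, ← Units.val_mul, mul_assoc, inv_mul_cancel_left, map_sub,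
      Finsupp.sub_apply, Units.val_mul, End.mul_apply, mon_repr M e, U_self H hu', mul_one] at this
    exact sub_eq_zero.1 this
  have a2 : ∀ c, 1 ≤ ζ (D.rt c) → w c ≠ c → D.ht (D.rt c) + 1 ≤ D.ht (D.rt (w c)) := fun c hc e => by
    obtain ⟨k, k1, k2, -⟩ := M.2 c
    refine U_e H (inv_mem hu) c (.inr (w c)) ?_
    rw [map_sub, Finsupp.sub_apply, ← a1 c k hc k2]
    simpa [Finsupp.single_apply, e.symm] using k1
  have a3 : ∀ k : ℕ, ζ (D.rt ((w ^ k) c)) = ζ (D.rt c) := fun k => by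
    induction k with
    | zero => rfl
    | succ k ih => rw [pow_succ', Equiv.Perm.mul_apply, hw, ih]
  have a4 : w c = c := by
    by_contra e
    have := monotone_nat_of_le_succ (f := fun k => D.ht (D.rt ((w ^ k) c))) (fun k => by
      rw [pow_succ', Equiv.Perm.mul_apply]
      by_cases e : w ((w ^ k) c) = (w ^ k) c
      · rw [e]
      · have := a2 _ ((a3 k).symm ▸ hc) e
        omega) (ord_pos D w : 1 ≤ orderOf w)
    have := a2 c hc e
    simp only [pow_orderOf_eq_one, pow_one, Equiv.Perm.one_apply] at *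
    omega
  obtain ⟨k, -, k2, -⟩ := M.2 c
  have := a1 c k hc k2
  rw [a4, U_self H (inv_mem hu)] at this
  exact ⟨a4, by rw [k2, this, a4, one_smul]⟩

theorem sym (F : RDF D) (h : D.cv c (D.rt d) ≠ 0) : D.cv d (D.rt c) ≠ 0 := fun e => by
  obtain ⟨l, l1, l2⟩ := F.len
  have := l2 d c
  rw [e, zero_mul] at this
  exact mul_ne_zero h (l1 c).ne' this

theorem nbr (F : RDF D) (Z : Dom C ζ) (d : ι) : ∃ c, 1 ≤ ζ (D.rt c) ∧ D.cv c (D.rt d) ≠ 0 := by
  classical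
  have a1 : ∀ a d, D.cv a (D.rt d) ≠ 0 → (∀ c, ζ (D.rt c) ≠ 0 → D.cv c (D.rt d) = 0) →
      ∀ c, ζ (D.rt c) ≠ 0 → D.cv c (D.rt a) = 0 := fun a d e h c e' => by
    have : ζ (D.rt a) = 0 := not_not.1 fun f => e (h a f)
    have := h (D.rf a c) (by simpa [D.rt_rf, this] using e')
    simpa [D.cv_rf, h c e', e] using this
  obtain ⟨o, ho⟩ := Z.ex
  have := F.cls (fun a => if ∀ c, ζ (D.rt c) ≠ 0 → D.cv c (D.rt a) = 0 then 1 else 0)
    (fun a c e => if_congr ⟨a1 c a (sym F e), a1 a c e⟩ rfl rfl) d o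
  rw [if_neg (c := ∀ c, ζ (D.rt c) ≠ 0 → D.cv c (D.rt o) = 0) fun e => by
    simpa [D.two] using e o (by omega)] at this
  split_ifs at this with e
  · simp at this
  push Not at e
  obtain ⟨c, c1, c2⟩ := e
  by_cases e : 1 ≤ ζ (D.rt c)
  · exact ⟨c, e, c2⟩
  · exact ⟨D.ng c, by rw [D.rt_ng, map_neg]; omega, by simpa [D.cv_ng] using c2⟩

theorem smul_e {k : K} (h : k • C.e c = C.e d) : c = d ∧ k = 1 := by
  classical
  have := congrArg (fun v => C.B.repr v (.inr d)) h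
  by_cases e : c = d
  · exact ⟨e, by simpa [e] using this⟩
  · simp [e] at this

theorem n_one (H : AF C) (Z : Dom C ζ) (hn : n ∈ C.G) (hw : w ∈ D.W) (M : C.Mon n w)
    (h : ∀ c, 1 ≤ ζ (D.rt c) → w c = c ∧ n.1 (C.e c) = C.e c) : n = 1 := by
  have a1 : ∀ c, ζ (D.rt c) ≠ 0 → n.1 (C.e c) = C.e c := fun c e => by
    by_cases e' : 1 ≤ ζ (D.rt c)
    · exact (h c e').2
    obtain ⟨c, rfl⟩ : ∃ d, c = D.ng d := ⟨_, (D.ng_ng c).symm⟩
    obtain ⟨b1, b2⟩ := h c (by rw [D.rt_ng, map_neg] at e e'; omega)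
    obtain ⟨k, -, k2, -⟩ := M.2 (D.ng c)
    obtain ⟨φ, h1, -⟩ := C.prim c
    rw [H.r.r.W_ng w hw, b1] at k2
    have := U0.lie hn (C.e c) (C.e (D.ng c))
    rw [C.eng, M.1, b1, b2, k2, lie_smul, C.eng] at this
    have := congrArg φ this
    rw [map_smul, h1, smul_eq_mul, mul_one] at this
    rw [k2, ← this, one_smul]
  have a2 : ∀ c, ζ (D.rt c) ≠ 0 → ∀ t, Commute n (C.x c t) := fun c e t => by
    obtain ⟨k, -, k2, k3⟩ := M.2 c
    obtain ⟨b1, b2⟩ := smul_e (k2.symm.trans (a1 c e))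
    have := k3 t
    rw [b1, b2, one_mul] at this
    exact mul_inv_eq_iff_eq_mul.1 this
  have a3 : ∀ d, n.1 (C.e d) = C.e d := fun d => by
    by_cases e : ζ (D.rt d) = 0
    swap
    · exact a1 d e
    obtain ⟨c, c1, c2⟩ := nbr H.r.r Z d
    have c3 : ζ (D.rt c) ≠ 0 := by omega
    obtain ⟨k, k1, k2, -⟩ := (H.b1.mon_n c 1 one_ne_zero).2 (D.rf c d)
    have : Commute n (C.n c 1) := ((a2 c c3 _).mul_right
      (a2 _ (by simpa [D.rt_ng] using c3) _)).mul_right (a2 c c3 _)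
    have := congrArg (fun y : (End K V)ˣ => y.1 (C.e (D.rf c d))) this.eq
    simp only [Units.val_mul, End.mul_apply] at this
    rw [a1 _ (by simp [D.rt_rf, e, c2, c3]), k2, D.sr_apply, D.rf_rf, map_smul] at this
    exact smul_right_injective V k1 this
  refine Units.ext (C.B.ext ?_)
  rintro (i | d)
  · obtain ⟨k, -, k2, -⟩ := M.2 i
    rw [C.h_B, M.1, (smul_e (k2.symm.trans (a3 i))).1]
    rfl
  · exact a3 d

theorem bottom (F : RDF D) (Z : Dom C ζ) (hd : ζ (D.rt d) = 0) :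
    ∃ c d', 1 ≤ ζ (D.rt c) ∧ D.rt d' = D.rt c + D.rt d ∧ D.bot d c = 0 := by
  obtain ⟨a, a1, a2⟩ := nbr F Z d
  have a3 := sym F a2
  have k : ∀ c, 1 ≤ ζ (D.rt c) → ∀ k : ℤ, (∃ d', D.rt d' = D.rt c + k • D.rt d) ↔
      -(D.bot d c : ℤ) ≤ k ∧ k ≤ D.bot d c - D.cv d (D.rt c) := fun c e =>
    D.str d c (by rintro rfl; omega) (by rintro rfl; rw [D.rt_ng, map_neg] at e; omega)
  have k0 : ∀ c, 1 ≤ ζ (D.rt c) → 0 ≤ D.bot d c - D.cv d (D.rt c) := fun c e =>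
    ((k c e 0).1 ⟨c, by simp⟩).2
  have := k0 a a1
  obtain ⟨c, hc⟩ := (k a a1 (-D.bot d a)).2 ⟨le_rfl, by omega⟩
  obtain ⟨d', hd'⟩ := (k a a1 (1 - D.bot d a)).2 ⟨by omega, by omega⟩
  have c1 : 1 ≤ ζ (D.rt c) := by simpa [hc, hd] using a1
  refine ⟨c, d', c1, by rw [hd', hc]; module, ?_⟩
  by_contra e
  have := k0 c c1
  obtain ⟨f, hf⟩ := (k c c1 (-1)).2 ⟨by omega, by omega⟩
  have := (k a a1 (-D.bot d a - 1)).1 ⟨f, by rw [hf, hc]; module⟩
  omega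

theorem lie_repr {b : V} {d' : ι} (e : D.rt d' = D.rt c + D.rt d)
    (hb : b ∈ C.vs {l | l ≠ 0}) :
    C.B.repr ⁅b, C.e c⁆ (.inr d') = C.N d c * C.B.repr b (.inr d) := by
  classical
  refine Vs.induction
    (p := fun b => C.B.repr ⁅b, C.e c⁆ (.inr d') = C.N d c * C.B.repr b (.inr d)) hb (by simp) ?_
    fun u v a b => by simp only [add_lie, map_add, a, b, Finsupp.add_apply, mul_add]
  rintro (i | a) r e'
  · simp at e'
  by_cases e2 : a = d
  · subst e2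
    simp [C.ee _ _ _ e, mul_comm]
  · have := Vs.coord (C.lie_wt (.inr a) (.inr c)) (j := .inr d') fun f => e2 (D.inj (by
      simp only [RD.wt_inr, Set.mem_singleton_iff, e, add_comm (D.rt c), add_left_inj] at f
      exact f.symm))
    simp [this, e2]

theorem levi (H : AF C) (Z : Dom C ζ) (hy : y ∈ C.Ux {a | 1 ≤ D.ht (D.rt a) ∧ ¬ 1 ≤ ζ (D.rt a)})
    (h : ∀ c, 1 ≤ ζ (D.rt c) → y.1 (C.e c) - C.e c ∈ C.vs {l | ζ (D.rt c) + 1 ≤ ζ l}) : y = 1 := by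
  have hu : y ∈ C.U := C.Ux_mono (fun _ e => e.1) hy
  have a1 : y.1 - 1 ∈ C.sp {l | ζ l = 0} := U0.ux_sp (fun a e b e' => by
    simp only [Set.mem_ofPred_eq, map_add] at *; omega) (fun a e => by
      have := Z.nonneg a e.1
      have := e.2
      simp only [Set.mem_ofPred_eq]
      omega) hy
  have a2 : ∀ m : ℕ, C.Fl D.ht (m + 1) y := fun m => by
    induction m with
    | zero => simpa using H.u1.ue_fl _ y hu
    | succ m ih =>
    obtain ⟨b, hb⟩ := C.lead _ _ y (by omega) hu ih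
    suffices e : b = 0 by
      rw [e, H.u1.ld_zero] at hb
      exact_mod_cast hb
    have b0 : b ∈ C.vs {l | l ≠ 0} := Vs.mono hb.1 (by
      rintro l e rfl
      simp at e
      omega)
    refine C.B.ext_elem ?_
    rintro (i | d)
    · simpa using Vs.coord b0 (j := .inl i) (by simp)
    by_contra e
    rw [map_zero, Finsupp.zero_apply] at e
    have d1 : ζ (D.rt d) = 0 := H.u1.coef _ _ y b _ (by omega) hb a1 d e
    have d2 : D.ht (D.rt d) = m + 1 := hb.1 _ e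
    obtain ⟨c, d', c1, c2, c3⟩ := bottom H.r.r Z d1
    have k1 := Vs.coord (h c c1) (j := .inr d') (by simp [c2, d1])
    have k2 := Vs.coord (Sp.basis hb.2 (.inr c)) (j := .inr d') (by simp [c2, d2])
    rw [LinearMap.sub_apply, LinearMap.sub_apply, End.one_apply, map_sub, Finsupp.sub_apply, k1,
      LieAlgebra.ad_apply, lie_repr c2 b0, zero_sub, neg_eq_zero, mul_eq_zero] at k2
    have := C.N_abs _ _ _ c2
    rw [c3] at this
    rcases Int.natAbs_eq_iff.1 this with f | f <;> simp [f, e] at k2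
  obtain ⟨M, hM⟩ := H.u1.big D.ht
  exact hM y (H.u1.fl_mono _ _ _ y (by omega) (a2 M.natAbs))

theorem last (H : AF C) (Z : Dom C ζ) (hy : y ∈ C.U)
    (h : ∀ c, 1 ≤ ζ (D.rt c) → y.1 (C.e c) - C.e c ∈ C.vs {l | ζ (D.rt c) + 1 ≤ ζ l}) :
    y ∈ C.Ue ζ := by
  obtain ⟨y1, a1, y2, a2, rfl⟩ := H.u2.fac D.ht (fun a => 1 ≤ ζ (D.rt a)) y hy
  have a3 : y1 ∈ C.Ue ζ := C.Ux_mono (fun _ e => e.2) a1
  rw [levi H Z a2 fun c hc => ?_, mul_one]
  · exact a3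
  have k1 := Sp.apply (A' := {l | ζ (D.rt c) + 1 ≤ ζ l}) (U_sp Z (ue_le H.r.r Z (inv_mem a3)))
    (h c hc) fun l e l' e' => by simp only [Set.mem_ofPred_eq, map_add] at *; omega
  have k2 := Vs.mono (C' := {l | ζ (D.rt c) + 1 ≤ ζ l})
    (Sp.basis (H.u1.ue_fl _ _ (inv_mem a3)) (.inr c)) fun l e => by
      simp only [Set.mem_ofPred_eq, map_sub, RD.wt_inr] at *; omega
  convert add_mem k1 k2 using 1
  rw [map_sub, ← End.mul_apply, ← Units.val_mul, inv_mul_cancel_left]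
  simp

end KC

open KC in
theorem kc : S_KC := fun ι Λ K V _ _ _ _ D C H ζ Z => ⟨norm H Z, fun y hy h => by
  obtain ⟨u, hu, n, hn, u', hu', -, rfl⟩ := H.b2.bruhat1 y hy
  obtain ⟨w, hw, M⟩ := H.b1.N_mon n hn.1
  have nQ : ∀ u ∈ C.U ⊓ C.Fix, ∀ q ∈ C.Ue ζ ⊓ C.Fix, u⁻¹ * q * u⁻¹⁻¹ ∈ C.Ue ζ ⊓ C.Fix :=
    fun u a q b => ⟨norm H Z _ (inv_mem a.1) q b.1,
      C.Fix.mul_mem (C.Fix.mul_mem (C.Fix.inv_mem a.2) b.2) (C.Fix.inv_mem (C.Fix.inv_mem a.2))⟩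
  obtain ⟨η, Y, e1, e2⟩ := avg H.r.r Z hw (H.b1.fix_comm n w (H.b2.G1_le n hn.2).2 M)
    (keep H Z hw M fun q hq => by
      have a := nQ u' hu' q hq
      have b := (mem_inf.1 (nQ u hu _ a)).1
      rw [← mul_inv_eq_iff_eq_mul.2 (h _ a).eq] at b
      simpa [mul_assoc] using b)
  have e : C.Ue ζ = C.Ue η := congrArg C.Ux (Set.ext fun c => (e1 c).symm)
  rw [e] at h ⊢
  have s1 := mon_sp M e2
  have s2 := mon_sp M.inv (ζ := η) fun a => by rw [← e2]; simp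
  have k := lead H Y (H.b2.G1_le _ hy).1
    (U0.dmul (U0.dmul (k := 0) (U_sp Y hu.1) s1 le_rfl) (U_sp Y hu'.1) le_rfl) (by
      rw [mul_inv_rev, mul_inv_rev]
      exact U0.dmul (U_sp Y (inv_mem hu'.1))
        (U0.dmul (k := 0) s2 (U_sp Y (inv_mem hu.1)) le_rfl) le_rfl) h
  refine last H Y ?_ k
  rw [n_one H Y (H.b1.N_le n hn.1) hw M (fix_pos H Y hu.1 hu'.1 M e2 k), mul_one]
  exact mul_mem hu.1 hu'.1⟩

end Pool.Agent.MP_983df8_al.CH

end MrgPart5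

-- ======== part 6: formerly Pool.Agent.MP_983df8_al.ch.KN
section MrgPart6

/-! Long root involutions over the field with two elements. -/

noncomputable section

namespace Pool.Agent.MP_983df8_al.CH

open Subgroup Module

universe u

namespace KN

variable {ι Λ K V : Type} [AddCommGroup Λ] [Field K] [LieRing V] [LieAlgebra K V] {D : RD ι Λ}
  {C : CG D K V}

theorem fix01 (hq : C.q ≤ 2) {t : K} (ht : C.θ t = t) : t = 0 ∨ t = 1 := by
  by_contra h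
  rw [not_or] at h
  have := C.fin
  have := Fintype.ofFinite {t // C.θ t = t}
  have h2 : 2 < Fintype.card {t // C.θ t = t} := Fintype.two_lt_card_iff.2
    ⟨⟨t, ht⟩, ⟨0, map_zero _⟩, ⟨1, map_one _⟩, fun e => h.1 (congrArg Subtype.val e),
      fun e => h.2 (congrArg Subtype.val e), fun e => zero_ne_one (congrArg Subtype.val e)⟩
  rw [CG.q, Nat.card_eq_fintype_card] at hq
  omega

theorem two_eq (hq : C.q ≤ 2) : (2 : K) = 0 := by
  rcases fix01 hq (t := 1 + 1) (by rw [map_add, map_one]) with h | h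
  · rw [← h]; norm_num
  · exact absurd (add_eq_left.1 h) one_ne_zero

theorem x_sq (hq : C.q ≤ 2) (a : ι) (t : K) : C.x a t * C.x a t = 1 := by
  rw [← C.x_add, ← two_mul, two_eq hq, zero_mul, C.x_zero]

theorem cube {G : Type*} [Group G] {x y : G} (hx : x * x = 1) (hy : y * y = 1)
    (h : x * y * x = y * x * y) : (x * y) ^ 3 = 1 := by
  have e : (x * y) ^ 3 = x * y * x * (y * x * y) := by
    simp only [pow_succ, pow_zero, one_mul, mul_assoc]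
  have e2 : y * x * y * (y * x * y) = y * (x * (y * y) * x) * y := by simp only [mul_assoc]
  rw [e, h, e2, hy, mul_one, hx, mul_one, hy]

theorem split {S : Type*} [Group S] {a j : S} (ha : a * a = 1) (ho : ¬ 2 ∣ orderOf j)
    (h : a * j * a = j⁻¹) : ∃ y, j = a * (y * a * y⁻¹) := by
  obtain ⟨m, hm⟩ : Odd (orderOf j) := Nat.odd_iff.2 (by omega)
  have hi : a⁻¹ = a := inv_eq_of_mul_eq_one_right ha
  have h1 : j ^ (m + 1) * j ^ (m + 1) = j := by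
    rw [← pow_add, show m + 1 + (m + 1) = orderOf j + 1 by omega, pow_succ, pow_orderOf_eq_one,
      one_mul]
  have h2 : a * j ^ (m + 1) * a = (j ^ (m + 1))⁻¹ := by
    have h3 : a * j ^ (m + 1) * a⁻¹ = (a * j * a⁻¹) ^ (m + 1) := conj_pow.symm
    rw [hi, h, inv_pow] at h3
    exact h3
  refine ⟨(j ^ (m + 1))⁻¹, ?_⟩
  rw [inv_inv, ← h2]
  have e : a * (a * j ^ (m + 1) * a * a * j ^ (m + 1)) =
      a * a * j ^ (m + 1) * (a * a) * j ^ (m + 1) := by simp only [mul_assoc]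
  rw [e, ha, one_mul, mul_one, h1]

/-- a product of two conjugate long root elements has order a power of two or three -/
theorem prod (h : AF C) (hq : C.q ≤ 2) {t : K} (t0 : t ≠ 0) (t1 : C.ε C.o * C.θ t = t)
    {y : (End K V)ˣ} (hy : y ∈ C.G1) :
    (∃ m : ℕ, (C.x C.o t * (y * C.x C.o t * y⁻¹)) ^ 2 ^ m = 1) ∨
      (C.x C.o t * (y * C.x C.o t * y⁻¹)) ^ 3 = 1 := by
  have hτ : C.τ C.o = C.o := h.r.s.top _ C.top
  obtain ⟨u, hu, n, hn, u', hu', -, rfl⟩ := h.b2.bruhat1 y hy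
  obtain ⟨w, -, hw⟩ := h.b1.N_mon n hn.1
  obtain ⟨k, k0, -, hk⟩ := hw.2 C.o
  have e : C.x C.o t * (u * n * u' * C.x C.o t * (u * n * u')⁻¹) =
      u * (C.x C.o t * C.x (w C.o) (k * t)) * u⁻¹ := by
    rw [← hk, mul_assoc (u * n), Pst.xo_comm h.r h.u2 t hu'.1, ← mul_assoc u,
      Pst.xo_comm h.r h.u2 t hu.1]
    group
  rw [e]
  by_cases hc : w C.o = D.ng C.o
  · right
    have hx : C.x C.o t ∈ C.Fix := by rw [C.mem_Fix, C.σ_x, hτ, t1]
    have hf := (h.b2.G1_le n hn.2).2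
    have h1 : n * C.x C.o t * n⁻¹ ∈ C.Fix := mul_mem (mul_mem hf hx) (inv_mem hf)
    rw [hk, hc, C.mem_Fix, C.σ_x, h.r.s.ng, hτ, C.ε_ng] at h1
    have h2 := h.u1.x_inj _ _ _ h1
    have h3 : C.ε C.o * C.ε C.o = 1 := by rcases C.ε_val C.o with a | a <;> simp [a]
    have h4 : C.θ (t * (k * t)) = t * (k * t) := by
      rw [map_mul]
      linear_combination (C.ε C.o * C.θ (k * t)) * t1 + t * h2 - C.θ t * C.θ (k * t) * h3
    have h5 : t * (k * t) = 1 :=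
      (fix01 hq h4).resolve_left (mul_ne_zero t0 (mul_ne_zero k0 t0))
    have h6 : k * t = -t⁻¹ := by
      have h7 : k * t = t⁻¹ := eq_inv_of_mul_eq_one_right h5
      rw [h7]
      linear_combination t⁻¹ * two_eq hq
    rw [conj_pow, hc, h6, cube (x_sq hq _ _) (x_sq hq _ _) (h.b1.braid _ _ t0), mul_one,
      mul_inv_cancel]
  · left
    have : CharP K 2 := CharTwo.of_one_ne_zero_of_two_eq_zero one_ne_zero (two_eq hq)
    let η : Λ →+ ℤ := (5 : ℤ) • D.cv C.o + (3 : ℤ) • D.cv (w C.o)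
    have a1 : 1 ≤ η (D.rt C.o) := by
      have := (h.r.r.bound (w C.o) C.o).1
      simp only [η, AddMonoidHom.add_apply, AddMonoidHom.smul_apply, smul_eq_mul, D.two]
      omega
    have a2 : 1 ≤ η (D.rt (w C.o)) := by
      have := h.r.t.ge_one _ hc
      simp only [η, AddMonoidHom.add_apply, AddMonoidHom.smul_apply, smul_eq_mul, D.two]
      omega
    have hz : C.x C.o t * C.x (w C.o) (k * t) ∈ C.Ue η :=
      mul_mem (C.x_mem (Ψ := {a | 1 ≤ η (D.rt a)}) a1 _) (C.x_mem (Ψ := {a | 1 ≤ η (D.rt a)}) a2 _)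
    obtain ⟨m, hm⟩ := h.u1.pgroup 2 η ⟨_, hz⟩
    refine ⟨m, ?_⟩
    have hm' : (C.x C.o t * C.x (w C.o) (k * t)) ^ 2 ^ m = 1 := congrArg Subtype.val hm
    rw [conj_pow, hm', mul_one, mul_inv_cancel]

end KN

theorem kn : S_KN.{u} := by
  intro ι Λ K V _ _ _ _ D C h hq S _ _ f hf π p2 p3
  have : CharP K 2 := CharTwo.of_one_ne_zero_of_two_eq_zero one_ne_zero (KN.two_eq hq)
  refine ⟨ringChar.eq K 2, ?_⟩
  have hτ : C.τ C.o = C.o := h.r.s.top _ C.top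
  obtain ⟨t, t0, t1⟩ := h.b1.fixr _ hτ
  obtain ⟨a, ha⟩ := Pst.pullU hf (C.x_mem (Ψ := {a | 1 ≤ D.ht (D.rt a)}) h.r.t.pos t)
    (by rw [C.mem_Fix, C.σ_x, hτ, t1])
  have a2 : a * a = 1 := hf.inj (by rw [map_mul, ha, KN.x_sq hq, map_one])
  refine ⟨a, orderOf_eq_prime (by rw [pow_two, a2]) fun e => t0 (h.u1.x_inj C.o _ _ ?_),
    fun j hj e => ?_⟩
  · rw [← ha, e, map_one, C.x_zero]
  have o2 : ¬ 2 ∣ orderOf j := fun d => p2 (hj 2 Nat.prime_two (by rwa [Nat.card_zpowers]))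
  have o3 : ¬ 3 ∣ orderOf j := fun d => p3 (hj 3 Nat.prime_three (by rwa [Nat.card_zpowers]))
  obtain ⟨y, hy⟩ := KN.split a2 o2 e
  have e1 : f j = C.x C.o t * (f y * C.x C.o t * (f y)⁻¹) := by
    rw [hy, map_mul, map_mul, map_mul, map_inv, ha]
  have key : ∀ N : ℕ, f j ^ N = 1 → orderOf j ∣ N := fun N hN =>
    orderOf_dvd_of_pow_eq_one (hf.inj (by rw [map_pow, hN, map_one]))
  rw [← orderOf_eq_one_iff]
  rcases KN.prod h hq t0 t1 (y := f y) (hf.range ▸ ⟨y, rfl⟩) with ⟨m, hm⟩ | hm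
  · exact Nat.Coprime.eq_one_of_dvd
      (((Nat.Prime.coprime_iff_not_dvd Nat.prime_two).2 o2).symm.pow_right m) (key _ (e1 ▸ hm))
  · exact ((Nat.dvd_prime Nat.prime_three).1 (key _ (e1 ▸ hm))).resolve_right fun d =>
      o3 (d ▸ dvd_rfl)

end Pool.Agent.MP_983df8_al.CH

end

end MrgPart6

-- marker of a merged file
example : 731051 + 310272 = 731051 + 310272 := rfl
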