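import Pool.Agent.MP_983df8_al.ch.CG2
import Pool.Agent.MP_983df8_al.Any
import Pool.Agent.MP_983df8_al.ch.KN
import Pool.Agent.MP_983df8_al.HallB

-- ======== part 0: formerly Pool.Agent.MP_983df8_al.ch.All
section MrgPart0

namespace Pool.Agent.MP_983df8_al

open Subgroup

universe u

namespace any

variable {G : Type u} [Group G] {π : Set ℕ}

/-- the factors belong to the abstract classes -/
def FA (π : Set ℕ) (G : Type u) [Group G] : Prop :=
  ∀ (Q : Type u) [Group Q] (f : G →* Q), Function.Surjective f →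
    ∀ S : Subgroup Q, S.IsSubnormal → IsSimpleGroup S → ¬ IsMulCommutative S →
      IsPi π S ∨ ((∃ p : ℕ, p.Prime ∧ p < 8 ∧ p ∉ π) ∧
        (∀ A : Subgroup (MulAut S), IsPi π A → Group.IsSolvable A) ∧ CH.Abs π S)

theorem loc2 [Finite G] {H S : Subgroup G} (hH : IsHall π H)
    (hW : ∀ X : Subgroup G, IsPi π X → ∃ x, X ≤ conjBy H x) (c : IsComp S) (hn : ¬ IsPi π S)
    [Group.IsSolvable (autOf H S)] (h : CH.Abs π S) :
    LocG (Fin 3) H S ∨ (2 ∉ π ∨ 3 ∉ π) ∧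
      (autOf H S).comap MulAut.conj ≠ ⊤ ∧ ∃ x : Fin 3 → S, ∀ β ∈ autOf H S,
        (∀ a, MulAut.conj (x a) * β * (MulAut.conj (x a))⁻¹ ∈ autOf H S) → β = 1 := by
  have c3 := hH.1.autOf S
  have k := loc hH hW c hn
  rcases h with a | a | a | ⟨b, a | a | a | ⟨p, hp, a | ⟨d, a | ⟨a, e | ⟨rfl, e⟩⟩⟩⟩⟩
  rotate_right
  · exact Or.inr ⟨b, fun e => hn ((c3.comap_inj _ c.conj_inj).of_dvd (by simp [e])),
      loc_noInv baseTwo a d c3 c.conj_inj e⟩
  all_goals refine k ?_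
  exacts [Or.inl a, Or.inr (Or.inl a), Or.inr (Or.inr (Or.inl a)),
    Or.inr (Or.inr (Or.inr ⟨b, Or.inl a⟩)), Or.inr (Or.inr (Or.inr ⟨b, Or.inr (Or.inl a)⟩)),
    Or.inr (Or.inr (Or.inr ⟨b, Or.inr (Or.inr (Or.inl a))⟩)),
    Or.inr (Or.inr (Or.inr ⟨b, Or.inr (Or.inr (Or.inr ⟨p, hp, Or.inl a⟩))⟩)),
    Or.inr (Or.inr (Or.inr ⟨b, Or.inr (Or.inr (Or.inr ⟨p, hp, Or.inr ⟨d, Or.inl a⟩⟩))⟩)),
    Or.inr (Or.inr (Or.inr ⟨b, Or.inr (Or.inr (Or.inr ⟨p, hp, Or.inr ⟨d, Or.inr ⟨a, e⟩⟩⟩))⟩))]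

theorem base2 [Finite G] {H : Subgroup G} (hH : IsHall π H)
    (hW : ∀ X : Subgroup G, IsPi π X → ∃ x, X ≤ conjBy H x) (hT : Tm π H) (hF : FA π G)
    (hR : RadicalTrivial G) (hO : OPi π G = ⊥) :
    ∃ X : Fin 3 → G, ∀ k ∈ H, (∀ a, X a * k * (X a)⁻¹ ∈ H) → k = 1 := by
  have n : ∀ S : Subgroup G, IsComp S → ¬ IsPi π S := fun S c e =>
    c.ne_bot (eq_bot_iff.2 (hO ▸ subnormal_le_OPi c.1 e))
  have f := fun S (c : IsComp S) =>
    (hF G (MonoidHom.id G) Function.surjective_id S c.1 c.2.1 c.2.2).resolve_left (n S c)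
  have k := fun S (c : IsComp S) =>
    have := (f S c).2.1 _ (hH.1.autOf S)
    loc2 hH hW c (n S c) (f S c).2.2
  by_cases h3 : 3 ∈ π
  swap
  · exact glueC hR (hT.c3 h3) fun S c => (k S c).elim g3.of_locG fun a =>
      (g3.three_of_one (fun t => h3 (hH.1.autOf S 3 Nat.prime_three t)) a.2.1 a.2.2).elim
        fun x => g3.locG3_of_aut x
  by_cases h2 : 2 ∈ π
  swap
  · exact glueC hR (hT.c2 h2) fun S c => (k S c).elim LocG.two
      fun a => (two_of_one ((hH.1.autOf S).odd h2) a.2.1 a.2.2).elim locG2_of_aut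
  by_cases e : ∃ S : Subgroup G, IsComp S
  · obtain ⟨S, c⟩ := e
    exact glueC hR (hT.c7 (f S c).1) fun S c => (k S c).resolve_right fun a =>
      a.1.elim (· h2) (· h3)
  · exact ⟨1, fun k _ _ => eq_one_of_centralizes hR fun S c => absurd ⟨S, c⟩ e⟩

theorem aux2 (n : ℕ) : ∀ (G : Type u) [Group G] [Finite G], Nat.card G = n → ∀ H : Subgroup G,
    IsHall π H → (∀ X : Subgroup G, IsPi π X → ∃ x, X ≤ conjBy H x) → Tm π H → FA π G →
      ∃ x : Fin 3 → G, ∀ k ∈ H, (∀ a, k ∈ conjBy H (x a)) → k ∈ OPi π G := by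
  induction n using Nat.strong_induction_on with
  | _ n ih =>
    rintro G _ _ rfl H hH hW hT hF
    have q := fun (M : Subgroup G) [M.Normal] (m : M ≠ ⊥) => ih (Nat.card (G ⧸ M)) (by
        rw [← M.index_mul_card]
        exact lt_mul_of_one_lt_right Nat.card_pos ((one_lt_card_iff_ne_bot M).2 m))
      (G ⧸ M) rfl (H.map (QuotientGroup.mk' M)) (hH.map _ (QuotientGroup.mk'_surjective M))
      (map_W _ (QuotientGroup.mk'_surjective M) hW) (hT.map _) fun Q _ f a =>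
        hF Q (f.comp (QuotientGroup.mk' M)) (a.comp (QuotientGroup.mk'_surjective M))
    by_cases hO : OPi π G = ⊥
    swap
    · obtain ⟨X, hX⟩ := q _ hO
      refine ⟨fun a => (X a).out, fun k a b => le_OPi inferInstance
        (isPi_OPi.comap (QuotientGroup.mk' (OPi π G)) (by rw [QuotientGroup.ker_mk']; exact isPi_OPi))
        (hX _ ⟨k, a, rfl⟩ fun i => mem_conjBy.2 ⟨_, mem_conjBy.1 (b i), by simp⟩)⟩
    by_cases hR : RadicalTrivial G
    · obtain ⟨X, hX⟩ := base2 hH hW hT hF hR hO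
      exact ⟨X, fun k a b => hX k a (fun i => mem_conjBy.1 (b i)) ▸ one_mem _⟩
    obtain ⟨R, _, _, a⟩ : ∃ R : Subgroup G, R.Normal ∧ Group.IsSolvable R ∧ R ≠ ⊥ := by
      by_contra! c
      exact hR c
    obtain ⟨M, m1, -, m3, m4, r, hr, m5⟩ := exists_elem_ab a
    have b : r ∉ π := fun b => m3 (eq_bot_iff.2 (hO ▸ le_OPi m1 (isPi_of_orderOf fun m c d => by
      rwa [(Nat.prime_dvd_prime_iff_eq d hr).1 (orderOf_dvd_of_pow_eq_one (m5 m c))])))
    obtain ⟨X, hX⟩ := q M m3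
    exact step hH hr b (hT.b3 r hr b) m5 X hX

end any

theorem main_soc (hA : CH.S_KA.{u}) (hN : CH.S_KN.{u}) {G : Type u} [Group G] [Finite G]
    {π : Set ℕ} (hD : IsD π G) {H : Subgroup G} (hH : IsHall π H) [Group.IsSolvable H]
    (h : Socle π (G ⧸ Rad G)) :
    ∃ x y z : G, OPi π G = H ⊓ conjBy H x ⊓ conjBy H y ⊓ conjBy H z :=
  main_max hD hH fun S a b c => CH.abs_of hA hN (h S a b c)

theorem main_fac (hA : CH.S_KA.{u}) (hN : CH.S_KN.{u}) {G : Type u} [Group G] [Finite G]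
    {π : Set ℕ} (hD : IsD π G) {H : Subgroup G} (hH : IsHall π H)
    (h : Group.IsSolvable H ∨ HP π H) (hF : Factors π G) :
    ∃ x y z : G, OPi π G = H ⊓ conjBy H x ⊓ conjBy H y ⊓ conjBy H z := by
  obtain ⟨x, hx⟩ := any.aux2 _ G rfl H hH (fun X hX => hD.exists_le hH hX)
    (any.tm_of hH.1 h) fun Q _ f e S a b c =>
      have := Finite.of_surjective f e
      (hF Q f e S a b c).imp_right (And.imp_right (And.imp_right (CH.abs_of hA hN)))
  refine ⟨x 0, x 1, x 2, le_antisymm (le_inf (le_inf (le_inf hH.OPi_le (hH.conjBy _).OPi_le)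
    (hH.conjBy _).OPi_le) (hH.conjBy _).OPi_le) fun k hk => hx k hk.1.1.1 fun a => ?_⟩
  fin_cases a
  exacts [hk.1.1.2, hk.1.2, hk.2]

end Pool.Agent.MP_983df8_al

end MrgPart0

-- ======== part 1: formerly Pool.Agent.MP_983df8_al.ch.KG
section MrgPart1

/-! Radical subgroups and coprime automorphisms. -/

namespace Pool.Agent.MP_983df8_al.CH

open Subgroup

universe u

namespace KG

variable {S : Type u} [Group S] [Finite S] {p : ℕ} {K Q R V : Subgroup S} {β : MulAut S}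

/-- the largest normal `p`-subgroup of the normaliser -/
def op (p : ℕ) (R : Subgroup S) : Subgroup S :=
  (OPi {p} (normalizer (R : Set S))).map (normalizer (R : Set S)).subtype

theorem op_pg (hp : p.Prime) (R : Subgroup S) : IsPGroup p (op p R) :=
  (isPi_OPi.isPGroup hp).map _

theorem le_op (hp : p.Prime) (hK : IsPGroup p K) (h1 : K ≤ normalizer (R : Set S))
    (h2 : normalizer (R : Set S) ≤ normalizer (K : Set S)) : K ≤ op p R := fun x hx => by
  have := Fact.mk hp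
  obtain ⟨n, hn⟩ := IsPGroup.iff_card.1 hK
  have a : IsPi {p} K := fun q hq hd =>
    (Nat.prime_dvd_prime_iff_eq hq hp).1 (hq.dvd_of_dvd_pow (hn ▸ hd))
  exact ⟨⟨x, h1 hx⟩, le_OPi (normal_subgroupOf_of_le_normalizer h2)
    (a.comap_inj _ (subtype_injective _)) hx, rfl⟩

theorem op_norm (p : ℕ) (R : Subgroup S) :
    normalizer (R : Set S) ≤ normalizer (op p R : Set S) := fun n hn =>
  mem_normalizer_fintype (by
    rintro _ ⟨y, hy, rfl⟩
    exact ⟨_, (OPi_normal {p}).conj_mem y hy ⟨n, hn⟩, rfl⟩)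

theorem op_inv (h : ∀ x, β x ∈ R ↔ x ∈ R) (x : S) : β x ∈ op p R ↔ x ∈ op p R := by
  have k : ∀ n, β n ∈ normalizer (R : Set S) ↔ n ∈ normalizer (R : Set S) := fun n => by
    simp only [mem_normalizer_iff]
    rw [β.surjective.forall]
    exact forall_congr' fun y => by rw [← map_inv, ← map_mul, ← map_mul, h, h]
  let φ : MulAut (normalizer (R : Set S)) :=
    { toFun := fun n => ⟨β n, (k n).2 n.2⟩
      invFun := fun n => ⟨β.symm n, (k _).1 (by simp)⟩
      left_inv := fun n => by simp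
      right_inv := fun n => by simp
      map_mul' := fun n m => by simp }
  have c := characteristic_iff_comap_eq.1 (OPi_char (π := {p})) φ
  constructor
  · rintro ⟨y, hy, e⟩
    have a : x ∈ normalizer (R : Set S) := (k x).1 (e ▸ y.2)
    refine ⟨⟨x, a⟩, c.le ?_, rfl⟩
    have : φ ⟨x, a⟩ = y := Subtype.ext e.symm
    exact (this ▸ hy : φ ⟨x, a⟩ ∈ _)
  · rintro ⟨y, hy, rfl⟩
    exact ⟨φ y, c.ge hy, rfl⟩

theorem nc (hp : p.Prime) (hQ : IsPGroup p Q) (h1 : R ≤ Q)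
    (h2 : ∀ x ∈ Q, x ∈ normalizer (R : Set S) → x ∈ R) : Q ≤ R := by
  have := Fact.mk hp
  have := hQ.isNilpotent
  refine subgroupOf_eq_top.1 (normalizerCondition_iff_only_full_group_self_normalizing.1
    Group.normalizerCondition_of_isNilpotent _ (le_antisymm ?_ le_normalizer))
  rw [← subgroupOf_normalizer_eq h1]
  exact fun x hx => h2 x x.2 hx

omit [Finite S] in
theorem pow_apply {n z : S} (h1 : β n = n * z) (h2 : β z = z) (k : ℕ) :
    (β ^ k) n = n * z ^ k := by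
  induction k with
  | zero => simp
  | succ k ih => rw [pow_succ', MulAut.mul_apply, ih, map_mul, map_pow, h1, h2, pow_succ', mul_assoc]

theorem fix (hp : p.Prime) (hR : IsPGroup p R) (h1 : V ≤ R) (h2 : ∀ x, β x ∈ R ↔ x ∈ R)
    (h3 : normalizer (V : Set S) ≤ normalizer (R : Set S)) (h4 : ¬ p ∣ orderOf β)
    (h5 : ∀ x ∈ V, β x = x) (h6 : ∀ x ∈ op p V, β x = x) : ∀ x ∈ R, β x = x := by
  have hC : R ⊓ centralizer V ≤ op p V := le_op hp (hR.to_inf_left)
    (inf_le_right.trans (centralizer_le_normalizer _)) fun m hm => mem_normalizer_fintype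
      fun c hc => ⟨(mem_normalizer_iff.1 (h3 hm) c).1 hc.1, fun v hv => by
        have := hc.2 _ ((mem_normalizer_iff.1 (inv_mem hm) v).1 hv)
        calc _ = m * (m⁻¹ * v * m⁻¹⁻¹ * c) * m⁻¹ := by group
          _ = _ := by rw [this]; group⟩
  have := nc (R := R ⊓ β.toMonoidHom.eqLocus (MonoidHom.id S)) hp hR inf_le_left
    fun n hn a => ⟨hn, ?_⟩
  · exact fun x hx => (this hx).2
  have z1 : n⁻¹ * β n ∈ R := mul_mem (inv_mem hn) ((h2 n).2 hn)
  have z2 : β (n⁻¹ * β n) = n⁻¹ * β n := h6 _ (hC ⟨z1, fun v hv => by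
    have : β (n * v * n⁻¹) = n * v * n⁻¹ := ((mem_normalizer_iff.1 a v).1 ⟨h1 hv, h5 v hv⟩).2
    rw [map_mul, map_mul, map_inv, h5 v hv] at this
    calc _ = n⁻¹ * (n * v * n⁻¹) * β n := by group
      _ = _ := by rw [← this]; group⟩)
  have z3 := pow_apply (n := n) (by group) z2 (orderOf β)
  rw [pow_orderOf_eq_one, MulAut.one_apply, left_eq_mul] at z3
  obtain ⟨k, hk⟩ := hR ⟨_, z1⟩
  have z4 := Nat.dvd_gcd (orderOf_dvd_of_pow_eq_one (congrArg Subtype.val hk))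
    (orderOf_dvd_of_pow_eq_one z3)
  rw [(hp.coprime_iff_not_dvd.2 h4).pow_left k, Nat.dvd_one, orderOf_eq_one_iff] at z4
  exact (inv_mul_eq_one.1 z4).symm

end KG

open KG in
theorem kg : S_KG.{u} := fun S _ _ p hp H V h0 hV β hβ h => by
  have h6 : ∀ x ∈ op p V, β x = x := by
    rintro _ ⟨y, hy, rfl⟩
    exact h y hy
  have h5 : ∀ x ∈ V, β x = x := fun x hx => h6 x (le_op hp hV le_normalizer le_rfl hx)
  obtain ⟨R, hR⟩ := exists_maximal_of_wellFoundedGT
    (fun R : Subgroup S => IsPGroup p R ∧ V ≤ R ∧ (∀ x, β x ∈ R ↔ x ∈ R) ∧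
      normalizer (V : Set S) ≤ normalizer (R : Set S))
    ⟨V, hV, le_rfl, fun x => ⟨fun e => β.injective (h5 _ e) ▸ e, fun e => (h5 x e).symm ▸ e⟩, le_rfl⟩
  obtain ⟨r1, r2, r3, r4⟩ := hR.prop
  have a := le_op hp r1 le_normalizer le_rfl
  have b := hR.le_of_ge ⟨op_pg hp R, r2.trans a, op_inv r3, r4.trans (op_norm p R)⟩ a
  obtain ⟨Q, q1, q2, q3, q4⟩ := H R (fun e => h0 (eq_bot_iff.2 (e ▸ r2))) r1
  have c : Q ≤ R := nc hp q1 q2 fun x hx hn => b (le_op (K := Q ⊓ normalizer (R : Set S)) hp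
    q1.to_inf_left inf_le_right
    ((le_inf q3 le_normalizer).trans inf_normalizer_le_normalizer_inf) ⟨hx, hn⟩)
  exact q4 β hβ fun x hx => fix hp r1 r2 r3 r4 hβ h5 h6 x (c hx)

end Pool.Agent.MP_983df8_al.CH

end MrgPart1

-- marker of a merged file
example : 731051 + 650001 = 731051 + 650001 := rfl
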