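import Mathlib.LinearAlgebra.Basis.Defs
import Mathlib.LinearAlgebra.DFinsupp
import Mathlib.Algebra.Notation.Lemmas
import Mathlib.GroupTheory.GroupAction.Ring

/-! Root data, supports of endomorphisms. -/

namespace Pool.Agent.MP_983df8_al.CH

open Subgroup Module

/-- an irreducible reduced root system of rank at least two with a base, in coordinates -/
structure RD (ι Λ : Type) [AddCommGroup Λ] where
  rt : ι → Λ
  cv : ι → Λ →+ ℤ
  Δ : Finset ι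
  co : ι → Λ →+ ℤ
  ng : ι → ι
  rf : ι → ι → ι
  bot : ι → ι → ℕ
  fin : Finite ι
  inj : Function.Injective rt
  rt_ng : ∀ a, rt (ng a) = -rt a
  cv_ng : ∀ a, cv (ng a) = -cv a
  two : ∀ a, cv a (rt a) = 2
  rt_rf : ∀ a c, rt (rf a c) = rt c - cv a (rt c) • rt a
  cv_rf : ∀ a c, cv (rf a c) = cv c - cv c (rt a) • cv a
  sum : ∀ l, ∑ i ∈ Δ, co i l • rt i = l
  co_self : ∀ i ∈ Δ, co i (rt i) = 1
  co_ne : ∀ i ∈ Δ, ∀ j ∈ Δ, i ≠ j → co i (rt j) = 0
  sgn : ∀ a, (∀ i ∈ Δ, 0 ≤ co i (rt a)) ∨ ∀ i ∈ Δ, co i (rt a) ≤ 0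
  nd : ∀ l, (∀ i ∈ Δ, cv i l = 0) → l = 0
  nd' : ∀ f : ι → ℤ, ∑ i ∈ Δ, f i • cv i = 0 → ∀ i ∈ Δ, f i = 0
  pair : ∀ a c, c ≠ a → c ≠ ng a → (cv a (rt c), cv c (rt a)) ∈
    ({(0, 0), (1, 1), (-1, -1), (1, 2), (2, 1), (-1, -2), (-2, -1), (1, 3), (3, 1), (-1, -3),
      (-3, -1)} : Set (ℤ × ℤ))
  str : ∀ a c, c ≠ a → c ≠ ng a → ∀ k : ℤ,
    (∃ d, rt d = rt c + k • rt a) ↔ -(bot a c : ℤ) ≤ k ∧ k ≤ bot a c - cv a (rt c)
  conn : ∀ p : ι → Prop, ∀ i ∈ Δ, p i →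
    (∀ i ∈ Δ, ∀ j ∈ Δ, p i → cv i (rt j) ≠ 0 → p j) → ∀ j ∈ Δ, p j
  rank : 1 < Δ.card

namespace RD

variable {ι Λ : Type} [AddCommGroup Λ] (D : RD ι Λ)

/-- the height -/
noncomputable def ht : Λ →+ ℤ := ∑ i ∈ D.Δ, D.co i

/-- positive roots -/
def pos (a : ι) : Prop := 1 ≤ D.ht (D.rt a)

/-- weights of the basis vectors -/
def wt : D.Δ ⊕ ι → Λ := Sum.elim 0 D.rt

@[simp] theorem wt_inl (i : D.Δ) : D.wt (.inl i) = 0 := rfl

@[simp] theorem wt_inr (a : ι) : D.wt (.inr a) = D.rt a := rfl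

theorem rf_rf (a c : ι) : D.rf a (D.rf a c) = c := D.inj (by
  simp only [D.rt_rf, map_sub, map_zsmul, D.two, smul_eq_mul]
  module)

theorem ng_ng (a : ι) : D.ng (D.ng a) = a := D.inj (by simp [D.rt_ng])

theorem rt_ne (a : ι) : D.rt a ≠ 0 := fun e => by simpa [e] using D.two a

/-- a reflection -/
def sr (a : ι) : Equiv.Perm ι := ⟨D.rf a, D.rf a, D.rf_rf a, D.rf_rf a⟩

@[simp] theorem sr_apply (a c : ι) : D.sr a c = D.rf a c := rfl

/-- the Weyl group -/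
def W : Subgroup (Equiv.Perm ι) := closure (D.sr '' D.Δ)

/-- a diagram symmetry -/
structure Sym (τ : Equiv.Perm ι) : Prop where
  mem : ∀ i ∈ D.Δ, τ i ∈ D.Δ
  cv : ∀ a c, D.cv (τ a) (D.rt (τ c)) = D.cv a (D.rt c)

open Classical in
/-- the sum of the coordinates outside the orbit of `a` -/
noncomputable def zt (τ : Equiv.Perm ι) (a : ι) : Λ →+ ℤ :=
  ∑ i ∈ D.Δ.filter fun i => i ≠ a ∧ i ≠ τ a ∧ i ≠ τ (τ a), D.co i

/-- positive roots in the span of the orbit of `a` -/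
def PJ (τ : Equiv.Perm ι) (a : ι) : Set ι := {c | D.pos c ∧ D.zt τ a (D.rt c) = 0}

/-- negative roots in the span of the orbit of `a` -/
def NJ (τ : Equiv.Perm ι) (a : ι) : Set ι := {c | ¬ D.pos c ∧ D.zt τ a (D.rt c) = 0}

/-- a root of greatest height -/
def Top (o : ι) : Prop := ∀ c, D.ht (D.rt c) ≤ D.ht (D.rt o)

/-- positive roots all of whose structure constants with positive roots vanish modulo `p` -/
def Exc (p : ℕ) (o c : ι) : Prop :=
  D.pos c ∧ c ≠ o ∧ ∀ a d, D.pos a → D.rt d = D.rt c + D.rt a → p ∣ D.bot a c + 1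

end RD

section Sp

variable {J Λ R V : Type} [AddCommGroup Λ] [CommRing R] [AddCommGroup V] [Module R V]
  (B : Basis J R V) (wt : J → Λ)

/-- vectors with weights in `C` -/
def Vs (C : Set Λ) : Submodule R V where
  carrier := {v | ∀ j, B.repr v j ≠ 0 → wt j ∈ C}
  zero_mem' := by simp
  add_mem' {a b} ha hb j e := by
    by_cases c : B.repr a j = 0
    · exact hb j (by simpa [c] using e)
    · exact ha j c
  smul_mem' c a ha j e := ha j fun f => e (by simp [f])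

/-- endomorphisms with degrees in `C` -/
def Sp (C : Set Λ) : Submodule R (End R V) where
  carrier := {f | ∀ i j, B.repr (f (B j)) i ≠ 0 → wt i - wt j ∈ C}
  zero_mem' := by simp
  add_mem' {a b} ha hb i j e := by
    by_cases c : B.repr (a (B j)) i = 0
    · exact hb i j (by simpa [c] using e)
    · exact ha i j c
  smul_mem' c a ha i j e := ha i j fun f => e (by simp [f])

variable {B wt} {A A' C C' C'' : Set Λ} {v : V} {f g : End R V}

theorem mem_Vs : v ∈ Vs B wt C ↔ ∀ j, B.repr v j ≠ 0 → wt j ∈ C := Iff.rfl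

theorem mem_Sp : f ∈ Sp B wt C ↔ ∀ i j, B.repr (f (B j)) i ≠ 0 → wt i - wt j ∈ C := Iff.rfl

theorem Vs.mono (h : v ∈ Vs B wt C) (s : ∀ l ∈ C, l ∈ C') : v ∈ Vs B wt C' :=
  fun j e => s _ (h j e)

theorem Sp.mono (h : f ∈ Sp B wt C) (s : ∀ l ∈ C, l ∈ C') : f ∈ Sp B wt C' :=
  fun i j e => s _ (h i j e)

theorem Vs.basis {j : J} (h : wt j ∈ C) : B j ∈ Vs B wt C := fun i e => by
  classical
  rw [B.repr_self, Finsupp.single_apply] at e
  split_ifs at e with c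
  exacts [c ▸ h, (e rfl).elim]

theorem Vs.coord (h : v ∈ Vs B wt C) {j : J} (e : wt j ∉ C) : B.repr v j = 0 :=
  not_not.1 fun c => e (h j c)

theorem Vs.eq_zero (h : v ∈ Vs B wt C) (e : ∀ j, wt j ∉ C) : v = 0 :=
  B.ext_elem fun j => by simp [Vs.coord h (e j)]

theorem Vs.inter (h : v ∈ Vs B wt C) (h' : v ∈ Vs B wt C') : v ∈ Vs B wt (C ∩ C') :=
  fun j e => ⟨h j e, h' j e⟩

theorem Vs.induction {p : V → Prop} (h : v ∈ Vs B wt C) (h0 : p 0)
    (h1 : ∀ j (c : R), wt j ∈ C → p (c • B j)) (h2 : ∀ a b, p a → p b → p (a + b)) : p v := by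
  rw [← B.linearCombination_repr v, Finsupp.linearCombination_apply, Finsupp.sum]
  exact Finset.sum_induction _ p h2 h0 fun j e => h1 j _ (h j (Finsupp.mem_support_iff.1 e))

theorem Sp.basis (h : f ∈ Sp B wt C) (j : J) : f (B j) ∈ Vs B wt {l | l - wt j ∈ C} :=
  fun i e => h i j e

theorem Sp.apply (h : f ∈ Sp B wt C) (hv : v ∈ Vs B wt A) (s : ∀ c ∈ C, ∀ a ∈ A, a + c ∈ A') :
    f v ∈ Vs B wt A' :=
  Vs.induction (p := fun v => f v ∈ Vs B wt A') hv (by simp)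
    (fun j c e => by
      rw [map_smul]
      exact Submodule.smul_mem _ c (Vs.mono (Sp.basis h j) fun l a => by simpa using s _ a _ e))
    fun a b ha hb => by rw [map_add]; exact add_mem ha hb

theorem Sp.mul (h : f ∈ Sp B wt C) (h' : g ∈ Sp B wt C') (s : ∀ c ∈ C, ∀ c' ∈ C', c + c' ∈ C'') :
    f * g ∈ Sp B wt C'' := fun i j =>
  Sp.apply (A' := {l | l - wt j ∈ C''}) h (Sp.basis h' j) (fun c a l b => by
    have := s c a _ b
    rwa [add_comm, sub_add_eq_add_sub] at this) i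

theorem Sp.one (h : (0 : Λ) ∈ C) : (1 : End R V) ∈ Sp B wt C := fun i j =>
  Vs.basis (B := B) (C := {l | l - wt j ∈ C}) (j := j) (by simpa using h) i

theorem Sp.eq_zero (h : f ∈ Sp B wt C) (e : ∀ i j, wt i - wt j ∉ C) : f = 0 :=
  B.ext fun j => Vs.eq_zero (Sp.basis h j) fun i => e i j

theorem Sp.inter (h : f ∈ Sp B wt C) (h' : f ∈ Sp B wt C') : f ∈ Sp B wt (C ∩ C') :=
  fun i j e => ⟨h i j e, h' i j e⟩

end Sp

end Pool.Agent.MP_983df8_al.CH
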