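import Mathlib.Topology.Sheaves.Presheaf
import Mathlib.Algebra.Lie.BaseChange
import Mathlib.Data.Int.Star
import Mathlib.Algebra.Order.Ring.Star
import Mathlib.Analysis.Normed.Ring.Lemmas
import Mathlib.Tactic.Bound
import Mathlib.RingTheory.SimpleRing.Principal
import Mathlib.RingTheory.Henselian
import Mathlib.RingTheory.RegularLocalRing.Defs
import Pool.Agent.MP_983df8_al.ch.Base
import Pool.Agent.MP_983df8_al.Defs12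

-- ======== part 0: formerly Pool.Agent.MP_983df8_al.ch.Spec
section MrgPart0

/-! Chevalley groups: structures and statements. -/

noncomputable section

namespace Pool.Agent.MP_983df8_al.CH

open Subgroup Module TensorProduct

universe u

variable {ι Λ : Type} [AddCommGroup Λ]

/-- facts on root data -/
structure RDF (D : RD ι Λ) : Prop where
  ng_ne : ∀ a, D.ng a ≠ a
  rf_self : ∀ a, D.rf a a = D.ng a
  rf_ng : ∀ a c, D.rf a (D.ng c) = D.ng (D.rf a c)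
  pos_iff : ∀ a, D.pos a ↔ ∀ i ∈ D.Δ, 0 ≤ D.co i (D.rt a)
  pos_ng : ∀ a, D.pos (D.ng a) ↔ ¬ D.pos a
  neg_ht : ∀ a, 1 ≤ (-D.ht) (D.rt a) ↔ ¬ D.pos a
  ht_one : ∀ a, D.ht (D.rt a) = 1 ↔ a ∈ D.Δ
  pos_rf : ∀ i ∈ D.Δ, ∀ a, D.pos a → a ≠ i → D.pos (D.rf i a)
  ind : ∀ p : ι → Prop, (∀ i ∈ D.Δ, p i) → (∀ j ∈ D.Δ, ∀ a, p a → p (D.rf j a)) → ∀ a, p a
  ind_add : ∀ p : ι → Prop, (∀ i ∈ D.Δ, p i) →
    (∀ j ∈ D.Δ, ∀ a d, D.rt d = D.rt a + D.rt j → p a → p d) → ∀ a, D.pos a → p a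
  bound : ∀ a c, -3 ≤ D.cv a (D.rt c) ∧ D.cv a (D.rt c) ≤ 3
  sub_root : ∀ a c, 0 < D.cv a (D.rt c) → c ≠ a → ∃ d, D.rt d = D.rt c - D.rt a
  add_root : ∀ a c, D.cv a (D.rt c) < 0 → c ≠ D.ng a → ∃ d, D.rt d = D.rt c + D.rt a
  prim : ∀ a, ∃ η : Λ →+ ℤ, η (D.rt a) = 1
  len : ∃ l : ι → ℤ, (∀ a, 0 < l a) ∧ ∀ a c, D.cv c (D.rt a) * l c = D.cv a (D.rt c) * l a
  cls : ∀ f : ι → ℤ, (∀ a c, D.cv a (D.rt c) ≠ 0 → f a = f c) → ∀ a c, f a = f c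
  sr_mem : ∀ a, D.sr a ∈ D.W
  W_lin : ∀ w ∈ D.W, ∃ φ : Λ →+ Λ, ∀ a, D.rt (w a) = φ (D.rt a)
  W_ng : ∀ w ∈ D.W, ∀ a, w (D.ng a) = D.ng (w a)
  W_one : ∀ w ∈ D.W, (∀ i ∈ D.Δ, D.pos (w i)) → w = 1
  W_pos : ∀ w ∈ D.W, ∀ a, D.pos a → (∀ i ∈ D.Δ, D.co i (D.rt a) ≠ 0 → D.pos (w i)) → D.pos (w a)
  W_neg : ∀ w ∈ D.W, ∀ a, D.pos a → (∀ i ∈ D.Δ, D.co i (D.rt a) ≠ 0 → ¬ D.pos (w i)) →
    ¬ D.pos (w a)
  perm_eq : ∀ (w : Equiv.Perm ι) (ζ : Λ →+ ℤ), (∀ a, ζ (D.rt a) ≤ ζ (D.rt (w a))) →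
    ∀ a, ζ (D.rt (w a)) = ζ (D.rt a)
  top : ∃ o, D.Top o

/-- facts on the highest root -/
structure TopF (D : RD ι Λ) (o : ι) : Prop where
  pos : D.pos o
  uniq : ∀ c, D.ht (D.rt c) = D.ht (D.rt o) → c = o
  le_one : ∀ c, c ≠ o → D.cv o (D.rt c) ≤ 1
  ge_one : ∀ c, c ≠ D.ng o → -1 ≤ D.cv o (D.rt c)
  nonneg : ∀ c, D.pos c → 0 ≤ D.cv o (D.rt c)
  ex_one : ∃ c, D.cv o (D.rt c) = 1
  dual : ∀ c, D.cv o (D.rt c) = 1 → 0 < D.cv c (D.rt o)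
  long : ∀ l : ι → ℤ, (∀ a, 0 < l a) → (∀ a c, D.cv c (D.rt a) * l c = D.cv a (D.rt c) * l a) →
    ∀ a, l a ∣ l o
  exc_uniq : ∀ p : ℕ, p.Prime → ∀ c c', D.Exc p o c → D.Exc p o c' → c = c'
  exc_val : ∀ p : ℕ, p.Prime → ∀ c, D.Exc p o c → D.cv o (D.rt c) = 1 ∧ D.cv c (D.rt o) = p

/-- facts on a diagram symmetry of order at most three -/
structure SymF (D : RD ι Λ) (τ : Equiv.Perm ι) : Prop where
  ng : ∀ a, τ (D.ng a) = D.ng (τ a)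
  lin : ∃ φ : Λ →+ Λ, (∀ a, D.rt (τ a) = φ (D.rt a)) ∧ ∀ i ∈ D.Δ, ∀ l, D.co (τ i) (φ l) = D.co i l
  ht : ∀ a, D.ht (D.rt (τ a)) = D.ht (D.rt a)
  add : ∀ a c d, D.rt d = D.rt c + D.rt a → D.rt (τ d) = D.rt (τ c) + D.rt (τ a)
  top : ∀ o, D.Top o → τ o = o
  exc : ∀ p o c, D.Top o → D.Exc p o c → D.Exc p o (τ c)
  zt : ∀ a ∈ D.Δ, ∀ c, D.zt τ a (D.rt (τ c)) = D.zt τ a (D.rt c)
  zt_pos : ∀ a c, D.pos c → 0 ≤ D.zt τ a (D.rt c)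
  zt_neg : ∀ a c, ¬ D.pos c → D.zt τ a (D.rt c) ≤ 0
  zt_zero : ∀ a c, D.zt τ a (D.rt c) = 0 ↔
    ∀ i ∈ D.Δ, D.co i (D.rt c) ≠ 0 → i = a ∨ i = τ a ∨ i = τ (τ a)
  zt_simple : ∀ a, ∀ i ∈ D.Δ, D.zt τ a (D.rt i) = 0 ↔ i = a ∨ i = τ a ∨ i = τ (τ a)
  orb : ∀ a ∈ D.Δ, ((∀ c ∈ D.PJ τ a, c = a ∨ c = τ a ∨ c = τ (τ a)) ∧
      (τ a ≠ a → D.cv a (D.rt (τ a)) = 0 ∧ D.cv (τ a) (D.rt a) = 0)) ∨
    (τ a ≠ a ∧ τ (τ a) = a ∧ D.cv a (D.rt (τ a)) = -1 ∧ D.cv (τ a) (D.rt a) = -1 ∧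
      ∃ d, D.rt d = D.rt (τ a) + D.rt a ∧ ∀ c ∈ D.PJ τ a, c = a ∨ c = τ a ∨ c = d)
  nbr : ∀ a ∈ D.Δ, τ a ≠ a → D.cv a (D.rt (τ a)) ≠ 0 → 2 < D.Δ.card → ∃ c ∈ D.Δ, τ c ≠ c ∧
    τ (τ c) = c ∧ D.cv c (D.rt (τ c)) = 0 ∧ D.cv c (D.rt a) = -1 ∧ D.cv (τ c) (D.rt a) = 0

/-- a Lie algebra with a Chevalley basis and its root elements -/
structure CL (D : RD ι Λ) (R V : Type) [CommRing R] [LieRing V] [LieAlgebra R V] where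
  B : Basis (D.Δ ⊕ ι) R V
  h : ι → V
  N : ι → ι → ℤ
  d2 : ι → End R V
  d3 : ι → End R V
  x : ι → R → (End R V)ˣ
  h_B : ∀ i : D.Δ, B (.inl i) = h i
  h_mem : ∀ a, h a ∈ Vs B D.wt {0}
  hh : ∀ a c, ⁅h a, h c⁆ = 0
  he : ∀ a c, ⁅h a, B (.inr c)⁆ = (D.cv a (D.rt c) : R) • B (.inr c)
  eng : ∀ a, ⁅B (.inr a), B (.inr (D.ng a))⁆ = h a
  ee : ∀ a c d, D.rt d = D.rt c + D.rt a → ⁅B (.inr a), B (.inr c)⁆ = (N a c : R) • B (.inr d)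
  N_abs : ∀ a c d, D.rt d = D.rt c + D.rt a → (N a c).natAbs = D.bot a c + 1
  e0 : ∀ a c, c ≠ D.ng a → (∀ d, D.rt d ≠ D.rt c + D.rt a) → ⁅B (.inr a), B (.inr c)⁆ = 0
  prim : ∀ a, ∃ φ : V →ₗ[R] R, φ (h a) = 1 ∧ ∀ c, φ (B (.inr c)) = 0
  x_val : ∀ a t, (x a t).1 = 1 + t • LieAlgebra.ad R V (B (.inr a)) + t ^ 2 • d2 a + t ^ 3 • d3 a
  d2_sp : ∀ a, d2 a ∈ Sp B D.wt {(2 : ℤ) • D.rt a}
  d3_sp : ∀ a, d3 a ∈ Sp B D.wt {(3 : ℤ) • D.rt a}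
  d2_ng : ∀ a, d2 a (B (.inr (D.ng a))) = -B (.inr a)
  d2_two : ∀ a v, ⁅B (.inr a), ⁅B (.inr a), v⁆⁆ = (2 : R) • d2 a v
  d2_lie : ∀ a u v, d2 a ⁅u, v⁆ = ⁅d2 a u, v⁆ + ⁅⁅B (.inr a), u⁆, ⁅B (.inr a), v⁆⁆ + ⁅u, d2 a v⁆
  x_add : ∀ a t u, x a (t + u) = x a t * x a u
  x_lie : ∀ a t u v, (x a t).1 ⁅u, v⁆ = ⁅(x a t).1 u, (x a t).1 v⁆
  mon_h : ∀ a c, (x a 1 * x (D.ng a) (-1) * x a 1).1 (h c) = h (D.rf a c)
  mon_e : ∀ a c, ∃ k : R, k * k = 1 ∧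
    (x a 1 * x (D.ng a) (-1) * x a 1).1 (B (.inr c)) = k • B (.inr (D.rf a c)) ∧
    ∀ t, x a 1 * x (D.ng a) (-1) * x a 1 * x c t = x (D.rf a c) (k * t) *
      (x a 1 * x (D.ng a) (-1) * x a 1)

namespace CL

variable {D : RD ι Λ} {R V : Type} [CommRing R] [LieRing V] [LieAlgebra R V] (C : CL D R V)

/-- root vectors -/
abbrev e (a : ι) : V := C.B (.inr a)

/-- vectors with weights in a set -/
abbrev vs (A : Set Λ) : Submodule R V := Vs C.B D.wt A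

/-- endomorphisms with degrees in a set -/
abbrev sp (A : Set Λ) : Submodule R (End R V) := Sp C.B D.wt A

/-- the group generated by root elements -/
def Ux (Ψ : Set ι) : Subgroup (End R V)ˣ := closure {y | ∃ a ∈ Ψ, ∃ t, y = C.x a t}

/-- the unipotent group of a functional -/
def Ue (η : Λ →+ ℤ) : Subgroup (End R V)ˣ := C.Ux {a | 1 ≤ η (D.rt a)}

/-- the filtration -/
def Fl (η : Λ →+ ℤ) (m : ℤ) (y : (End R V)ˣ) : Prop := y.1 - 1 ∈ C.sp {l | m ≤ η l}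

/-- leading terms -/
def Ld (η : Λ →+ ℤ) (m : ℤ) (y : (End R V)ˣ) (a : V) : Prop :=
  a ∈ C.vs {l | η l = m} ∧ y.1 - 1 - LieAlgebra.ad R V a ∈ C.sp {l | m + 1 ≤ η l}

/-- existence of leading terms -/
def Lead : Prop :=
  ∀ (η : Λ →+ ℤ) (m : ℤ) (y : (End R V)ˣ), 1 ≤ m → y ∈ C.Ue η → C.Fl η m y → ∃ a, C.Ld η m y a

theorem x_mem {Ψ : Set ι} {a : ι} (h : a ∈ Ψ) (t : R) : C.x a t ∈ C.Ux Ψ :=
  subset_closure ⟨a, h, t, rfl⟩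

theorem Ux_mono {Ψ Ψ' : Set ι} (h : ∀ a ∈ Ψ, a ∈ Ψ') : C.Ux Ψ ≤ C.Ux Ψ' :=
  closure_mono fun _ ⟨a, b, c⟩ => ⟨a, h a b, c⟩

theorem x_zero (a : ι) : C.x a 0 = 1 := Units.ext (by simp [C.x_val])

theorem x_neg (a : ι) (t : R) : C.x a (-t) = (C.x a t)⁻¹ :=
  eq_inv_of_mul_eq_one_left (by rw [← C.x_add, neg_add_cancel, C.x_zero])

theorem Ux_induction {Ψ : Set ι} {p : (End R V)ˣ → Prop} {y : (End R V)ˣ} (h : y ∈ C.Ux Ψ)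
    (h1 : p 1) (hx : ∀ a ∈ Ψ, ∀ t, p (C.x a t)) (hm : ∀ y z, p y → p z → p (y * z)) : p y := by
  induction h using closure_induction'' with
  | mem s hs => obtain ⟨a, b, t, rfl⟩ := hs; exact hx a b t
  | inv_mem s hs => obtain ⟨a, b, t, rfl⟩ := hs; exact C.x_neg a t ▸ hx a b _
  | one => exact h1
  | mul a b _ _ ha hb => exact hm a b ha hb

theorem h_ng (a : ι) : C.h (D.ng a) = -C.h a := by
  rw [← C.eng, D.ng_ng, ← lie_skew, C.eng]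

theorem lie_wt (i j : D.Δ ⊕ ι) : ⁅C.B i, C.B j⁆ ∈ C.vs {D.wt i + D.wt j} := by
  rcases i with i | a <;> rcases j with j | c
  · simp [C.h_B, C.hh]
  · rw [C.h_B, C.he]
    exact Submodule.smul_mem _ _ (Vs.basis (by simp))
  · rw [← lie_skew, C.h_B, C.he]
    exact neg_mem (Submodule.smul_mem _ _ (Vs.basis (by simp)))
  by_cases e : c = D.ng a
  · rw [e, C.eng]
    simpa [D.rt_ng] using C.h_mem a
  by_cases e' : ∃ d, D.rt d = D.rt c + D.rt a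
  · obtain ⟨d, e'⟩ := e'
    rw [C.ee a c d e']
    exact Submodule.smul_mem _ _ (Vs.basis (by simp [e', add_comm]))
  · simp [C.e0 a c e fun d f => e' ⟨d, f⟩]

theorem ad_mem {A : Set Λ} {a : V} (h : a ∈ C.vs A) : LieAlgebra.ad R V a ∈ C.sp A :=
  Vs.induction (p := fun a => LieAlgebra.ad R V a ∈ C.sp A) h (by simp)
    (fun j c e => by
      rw [map_smul]
      refine Submodule.smul_mem _ c fun i k f => ?_
      rw [show D.wt i = D.wt j + D.wt k from C.lie_wt j k i f]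
      simpa using e)
    fun a b ha hb => by rw [map_add]; exact add_mem ha hb

theorem lie_mem {A A' A'' : Set Λ} {u v : V} (h : u ∈ C.vs A) (h' : v ∈ C.vs A')
    (s : ∀ c ∈ A, ∀ a ∈ A', a + c ∈ A'') : ⁅u, v⁆ ∈ C.vs A'' :=
  Sp.apply (C.ad_mem h) h' s

end CL

/-- a Chevalley group over a finite field with an invariant form and a twisting map -/
structure CG (D : RD ι Λ) (K V : Type) [Field K] [LieRing V] [LieAlgebra K V]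
    extends CL D K V where
  fin : Finite K
  lead : toCL.Lead
  o : ι
  top : D.Top o
  g : V →ₗ[K] V →ₗ[K] K
  g_symm : ∀ u v, g u v = g v u
  g_inv : ∀ u v w, g ⁅u, v⁆ w = g u ⁅v, w⁆
  g_wt : ∀ i j, g (B i) (B j) ≠ 0 → D.wt i + D.wt j = 0
  g_x : ∀ a t u v, g ((x a t).1 u) ((x a t).1 v) = g u v
  g_o : ∀ v, d2 o v = g (B (.inr o)) v • B (.inr o)
  θ : RingAut K
  τ : Equiv.Perm ι
  s : V ≃+ V
  ε : ι → K
  dd : ℕ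
  sym : D.Sym τ
  s_smul : ∀ (c : K) v, s (c • v) = θ c • s v
  s_e : ∀ a, s (B (.inr a)) = ε a • B (.inr (τ a))
  s_h : ∀ a, s (h a) = h (τ a)
  s_lie : ∀ u v, s ⁅u, v⁆ = ⁅s u, s v⁆
  s_g : ∀ u v, g (s u) (s v) = θ (g u v)
  s_x : ∀ a t v, (x (τ a) (ε a * θ t)).1 (s v) = s ((x a t).1 v)
  ε_val : ∀ a, ε a = 1 ∨ ε a = -1
  ε_ng : ∀ a, ε (D.ng a) = ε a
  ε_one : ∀ i ∈ D.Δ, ε i = 1
  dd_val : dd = 1 ∨ dd = 2 ∨ dd = 3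
  θ_ord : orderOf θ = dd
  τ_pow : τ ^ dd = 1
  s_pow : ∀ v, s^[dd] v = v

namespace CG

variable {D : RD ι Λ} {K V : Type} [Field K] [LieRing V] [LieAlgebra K V] (C : CG D K V)

theorem s_symm_smul (c : K) (v : V) : C.s.symm (c • v) = C.θ.symm c • C.s.symm v :=
  C.s.injective (by simp [C.s_smul])

/-- conjugation by the twisting map -/
def σe : End K V →* End K V where
  toFun f :=
    { toFun := fun v => C.s (f (C.s.symm v))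
      map_add' := by simp
      map_smul' := fun c v => by simp [C.s_symm_smul, C.s_smul] }
  map_one' := LinearMap.ext fun v => by simp
  map_mul' f g := LinearMap.ext fun v => by simp

/-- the twisting automorphism -/
def σ : (End K V)ˣ →* (End K V)ˣ := Units.map C.σe

theorem σ_apply (y : (End K V)ˣ) (v : V) : (C.σ y).1 (C.s v) = C.s (y.1 v) := by
  simp [σ, σe]

/-- fixed points -/
def Fix : Subgroup (End K V)ˣ := C.σ.eqLocus (MonoidHom.id _)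

theorem mem_Fix {y : (End K V)ˣ} : y ∈ C.Fix ↔ C.σ y = y := Iff.rfl

theorem mem_Fix' {y : (End K V)ˣ} : y ∈ C.Fix ↔ ∀ v, y.1 (C.s v) = C.s (y.1 v) :=
  ⟨fun h v => by rw [← C.σ_apply, C.mem_Fix.1 h], fun h => Units.ext (LinearMap.ext fun v => by
    obtain ⟨v, rfl⟩ := C.s.surjective v
    rw [C.σ_apply]
    exact (h v).symm)⟩

theorem σ_x (a : ι) (t : K) : C.σ (C.x a t) = C.x (C.τ a) (C.ε a * C.θ t) :=
  Units.ext (LinearMap.ext fun v => by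
    obtain ⟨v, rfl⟩ := C.s.surjective v
    rw [C.σ_apply, C.s_x])

/-- the trace of the twisting map -/
def tr (v : V) : V := ∑ i ∈ Finset.range C.dd, C.s^[i] v

/-- positive unipotent group -/
abbrev U : Subgroup (End K V)ˣ := C.Ue D.ht

/-- negative unipotent group -/
abbrev Um : Subgroup (End K V)ˣ := C.Ue (-D.ht)

/-- the Chevalley group -/
abbrev G : Subgroup (End K V)ˣ := C.Ux Set.univ

/-- the twisted group -/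
def G1 : Subgroup (End K V)ˣ := (C.U ⊓ C.Fix) ⊔ (C.Um ⊓ C.Fix)

/-- Weyl elements -/
def n (a : ι) (t : K) : (End K V)ˣ := C.x a t * C.x (D.ng a) (-t⁻¹) * C.x a t

/-- monomial elements -/
def Mon (y : (End K V)ˣ) (w : Equiv.Perm ι) : Prop :=
  (∀ c, y.1 (C.h c) = C.h (w c)) ∧ ∀ c, ∃ k : K, k ≠ 0 ∧ y.1 (C.e c) = k • C.e (w c) ∧
    ∀ t, y * C.x c t * y⁻¹ = C.x (w c) (k * t)

theorem mon_one : C.Mon 1 1 := ⟨fun _ => rfl, fun _ => ⟨1, one_ne_zero, by simp, by simp⟩⟩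

variable {C}

theorem Mon.mul {y z : (End K V)ˣ} {w w' : Equiv.Perm ι} (h : C.Mon y w) (h' : C.Mon z w') :
    C.Mon (y * z) (w * w') :=
  ⟨fun c => by simp [h.1, h'.1], fun c => by
    obtain ⟨k, k1, k2, k3⟩ := h'.2 c
    obtain ⟨l, l1, l2, l3⟩ := h.2 (w' c)
    refine ⟨l * k, mul_ne_zero l1 k1, by simp [k2, l2, smul_smul, mul_comm], fun t => ?_⟩
    rw [mul_assoc l, Equiv.Perm.mul_apply, ← l3, ← k3]
    group⟩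

theorem Mon.inv {y : (End K V)ˣ} {w : Equiv.Perm ι} (h : C.Mon y w) : C.Mon y⁻¹ w⁻¹ := by
  have a : ∀ v, (y⁻¹).1 (y.1 v) = v := fun v => by
    rw [← End.mul_apply, ← Units.val_mul, inv_mul_cancel]; rfl
  refine ⟨fun c => ?_, fun c => ?_⟩ <;> obtain ⟨c, rfl⟩ := w.surjective c
  · rw [← h.1, a]; simp
  obtain ⟨k, k1, k2, k3⟩ := h.2 c
  refine ⟨k⁻¹, inv_ne_zero k1, ?_, fun t => ?_⟩
  · rw [eq_inv_smul_iff₀ k1, ← map_smul, ← k2, a]; simp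
  · rw [← mul_inv_cancel_left₀ k1 t, ← k3]
    simp [mul_assoc, k1]

variable (C)

/-- the monomial group -/
def Nn : Subgroup (End K V)ˣ := closure {y | ∃ a t, t ≠ 0 ∧ y = C.n a t}

/-- the torus -/
def T : Subgroup (End K V)ˣ where
  carrier := {y | y ∈ C.Nn ∧ C.Mon y 1}
  one_mem' := ⟨one_mem _, C.mon_one⟩
  mul_mem' a b := ⟨mul_mem a.1 b.1, by simpa using a.2.mul b.2⟩
  inv_mem' a := ⟨inv_mem a.1, by simpa using a.2.inv⟩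

/-- functionals invariant under the symmetry -/
def Inv (η : Λ →+ ℤ) : Prop := ∀ a, η (D.rt (C.τ a)) = η (D.rt a)

/-- simple reflections of the twisted group -/
def Rf (a : ι) (r : (End K V)ˣ) : Prop :=
  r ∈ C.Nn ∧ r ∈ C.G1 ∧ ∃ w ∈ D.W, C.Mon r w ∧
    (∀ c, D.zt C.τ a (D.rt (w c)) = D.zt C.τ a (D.rt c)) ∧ ∀ c ∈ D.PJ C.τ a, ¬ D.pos (w c)

end CG

end Pool.Agent.MP_983df8_al.CH

end

end MrgPart0

-- ======== part 1: formerly Pool.Agent.MP_983df8_al.ch.Spec2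
section MrgPart1

/-! Chevalley groups: bundles of facts and row statements. -/

noncomputable section

namespace Pool.Agent.MP_983df8_al.CH

open Subgroup Module TensorProduct

universe u

variable {ι Λ : Type} [AddCommGroup Λ] {D : RD ι Λ}

/-- the calculus of leading terms over a commutative ring -/
structure UF0 {R V : Type} [CommRing R] [LieRing V] [LieAlgebra R V] (C : CL D R V) : Prop where
  lie : ∀ y ∈ C.Ux Set.univ, ∀ u v, y.1 ⁅u, v⁆ = ⁅y.1 u, y.1 v⁆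
  ux_sp : ∀ (A : Set Λ) (Ψ : Set ι), (∀ a ∈ A, ∀ b ∈ A, a + b ∈ A) → (∀ a ∈ Ψ, D.rt a ∈ A) →
    ∀ y ∈ C.Ux Ψ, y.1 - 1 ∈ C.sp A
  ue_fl : ∀ η, ∀ y ∈ C.Ue η, C.Fl η 1 y
  fl_mono : ∀ η m m' y, m ≤ m' → C.Fl η m' y → C.Fl η m y
  fl_mul : ∀ η m y z, 0 ≤ m → C.Fl η m y → C.Fl η m z → C.Fl η m (y * z)
  fl_inv : ∀ η m y, 1 ≤ m → C.Fl η m y → C.Fl η m y⁻¹
  fl_conj : ∀ η m y (u : (End R V)ˣ), u.1 ∈ C.sp {l | 0 ≤ η l} → (u⁻¹).1 ∈ C.sp {l | 0 ≤ η l} →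
    C.Fl η m y → C.Fl η m (u * y * u⁻¹)
  big : ∀ η, ∃ M, ∀ y, C.Fl η M y → y = 1
  ld_fl : ∀ η m y a, C.Ld η m y a → C.Fl η m y
  ld_zero : ∀ η m y, C.Ld η m y 0 ↔ C.Fl η (m + 1) y
  coef : ∀ η m y a (A : Set Λ), 1 ≤ m → C.Ld η m y a → y.1 - 1 ∈ C.sp A →
    ∀ c, C.B.repr a (.inr c) ≠ 0 → D.rt c ∈ A
  ld_uniq : ∀ η m y a a', 1 ≤ m → C.Ld η m y a → C.Ld η m y a' → a = a'
  ld_mul : ∀ η m y z a b, 1 ≤ m → C.Ld η m y a → C.Ld η m z b → C.Ld η m (y * z) (a + b)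
  ld_inv : ∀ η m y a, 1 ≤ m → C.Ld η m y a → C.Ld η m y⁻¹ (-a)
  ld_comm : ∀ η m m' y z a b, 1 ≤ m → 1 ≤ m' → C.Ld η m y a → C.Ld η m' z b →
    C.Ld η (m + m') (y * z * y⁻¹ * z⁻¹) ⁅a, b⁆
  ld_x : ∀ η m a t, 1 ≤ m → η (D.rt a) = m → C.Ld η m (C.x a t) (t • C.e a)
  ld_surj : ∀ η m a (Ψ : Set ι), 1 ≤ m → a ∈ C.vs {l | η l = m} →
    (∀ c, C.B.repr a (.inr c) ≠ 0 → c ∈ Ψ) →
    ∃ y ∈ C.Ux {c | c ∈ Ψ ∧ η (D.rt c) = m}, C.Ld η m y a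
  ld_conj : ∀ η m y a (t : (End R V)ˣ), t ∈ C.Ux Set.univ → t.1 ∈ C.sp {0} → (t⁻¹).1 ∈ C.sp {0} →
    C.Ld η m y a → C.Ld η m (t * y * t⁻¹) (t.1 a)
  disj : ∀ η, ∀ y ∈ C.Ue η, y ∈ C.Ue (-η) → y = 1
  one_root : ∀ a y, y ∈ C.Ux {a} ↔ ∃ t, y = C.x a t
  x_inj : ∀ a t u, C.x a t = C.x a u → t = u

section K

variable {K V : Type} [Field K] [LieRing V] [LieAlgebra K V]

/-- the calculus of leading terms -/
structure UF1 (C : CG D K V) : Prop extends UF0 C.toCL where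
  aut : ∀ y ∈ C.G, (∀ u v, y.1 ⁅u, v⁆ = ⁅y.1 u, y.1 v⁆) ∧ ∀ u v, C.g (y.1 u) (y.1 v) = C.g u v
  pgroup : ∀ (p : ℕ) [Fact p.Prime] [CharP K p] η, IsPGroup p (C.Ue η)

/-- supports, factorisations, fixed points -/
structure UF2 (C : CG D K V) : Prop where
  sup : ∀ η (A : Set Λ), (∀ a ∈ A, ∀ b ∈ A, a + b ∈ A) → ∀ y ∈ C.Ue η, y.1 - 1 ∈ C.sp A →
    y ∈ C.Ux {a | 1 ≤ η (D.rt a) ∧ D.rt a ∈ A}
  fac : ∀ η (p : ι → Prop), ∀ y ∈ C.Ue η, ∃ y1 ∈ C.Ux {a | 1 ≤ η (D.rt a) ∧ p a},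
    ∃ y2 ∈ C.Ux {a | 1 ≤ η (D.rt a) ∧ ¬ p a}, y = y1 * y2
  comm : ∀ (η : Λ →+ ℤ) a c t u, 1 ≤ η (D.rt a) → 1 ≤ η (D.rt c) →
    (∀ d (i j : ℤ), 1 ≤ i → 1 ≤ j → D.rt d ≠ i • D.rt a + j • D.rt c) → Commute (C.x a t) (C.x c u)
  comm2 : ∀ (η : Λ →+ ℤ) a c d t u, η (D.rt a) = 1 → η (D.rt c) = 1 → D.rt d = D.rt c + D.rt a →
    (∀ d' (i j : ℤ), 1 ≤ i → 1 ≤ j → D.rt d' = i • D.rt a + j • D.rt c → d' = d) →
    C.x a t * C.x c u * (C.x a t)⁻¹ * (C.x c u)⁻¹ = C.x d (C.N a c * t * u)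
  σ_ux : ∀ Ψ Ψ' : Set ι, (∀ a ∈ Ψ, C.τ a ∈ Ψ') → ∀ y ∈ C.Ux Ψ, C.σ y ∈ C.Ux Ψ'
  s_repr : ∀ v c, C.B.repr (C.s v) (.inr (C.τ c)) = C.ε c * C.θ (C.B.repr v (.inr c))
  s_vs : ∀ η m v, C.Inv η → v ∈ C.vs {l | η l = m} → C.s v ∈ C.vs {l | η l = m}
  ld_σ : ∀ η m y a, C.Inv η → C.Ld η m y a → C.Ld η m (C.σ y) (C.s a)
  θ_tr : ∃ w : K, ∑ i ∈ Finset.range C.dd, (C.θ ^ i) w = 1
  tr_fix : ∀ v, C.s (C.tr v) = C.tr v
  tr_vs : ∀ η m v, C.Inv η → v ∈ C.vs {l | η l = m} → C.tr v ∈ C.vs {l | η l = m}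
  tr_sep : ∀ (φ : V →ₗ[K] K) v, (∀ t : K, φ (C.tr (t • v)) = 0) → φ v = 0
  lift : ∀ η m a, C.Inv η → 1 ≤ m → a ∈ C.vs {l | η l = m} → C.s a = a →
    ∃ y ∈ C.Ue η, y ∈ C.Fix ∧ C.Ld η m y a

/-- monomial elements and the torus -/
structure BF1 (C : CG D K V) : Prop where
  mon_n : ∀ a t, t ≠ 0 → C.Mon (C.n a t) (D.sr a)
  N_le : ∀ y ∈ C.Nn, y ∈ C.G
  N_mon : ∀ y ∈ C.Nn, ∃ w ∈ D.W, C.Mon y w
  mon_uniq : ∀ y w w', C.Mon y w → C.Mon y w' → w = w'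
  mon_conj : ∀ y w (Ψ Ψ' : Set ι), C.Mon y w → (∀ a ∈ Ψ, w a ∈ Ψ') → ∀ u ∈ C.Ux Ψ,
    y * u * y⁻¹ ∈ C.Ux Ψ'
  mon_zeta : ∀ y w (ζ : Λ →+ ℤ), C.Mon y w → y.1 ∈ C.sp {l | 0 ≤ ζ l} →
    ∀ a, ζ (D.rt (w a)) = ζ (D.rt a)
  tor : ∀ a t l, t ≠ 0 → l ≠ 0 → C.n a (l * t) * (C.n a t)⁻¹ ∈ C.T ∧
    ∀ c, (C.n a (l * t) * (C.n a t)⁻¹).1 (C.e c) = l ^ D.cv a (D.rt c) • C.e c
  n_inv : ∀ a t, (C.n a t)⁻¹ = C.n a (-t)
  n_four : ∀ a t, t ≠ 0 → C.n a t ^ 4 = 1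
  braid : ∀ a t, t ≠ 0 → C.n a t = C.x (D.ng a) (-t⁻¹) * C.x a t * C.x (D.ng a) (-t⁻¹)
  T_x : ∀ y ∈ C.T, ∀ c k t, y.1 (C.e c) = k • C.e c → y * C.x c t * y⁻¹ = C.x c (k * t)
  T_comm : ∀ y ∈ C.T, ∀ z ∈ C.T, y * z = z * y
  T_pow : ∀ (p : ℕ) [Fact p.Prime] [CharP K p], ∀ y ∈ C.T, y ^ p = 1 → y = 1
  T_sp : ∀ y ∈ C.T, y.1 ∈ C.sp {0}
  T_norm : ∀ y ∈ C.Nn, ∀ t ∈ C.T, y * t * y⁻¹ ∈ C.T
  σ_N : ∀ y ∈ C.Nn, C.σ y ∈ C.Nn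
  fix_comm : ∀ y w, y ∈ C.Fix → C.Mon y w → ∀ a, w (C.τ a) = C.τ (w a)
  fixr : ∀ c, C.τ c = c → ∃ t, t ≠ 0 ∧ C.ε c * C.θ t = t
  fix_n : ∀ c t, C.τ c = c → C.ε c * C.θ t = t → C.n c t ∈ C.G1

/-- the Bruhat decomposition -/
structure BF2 (C : CG D K V) : Prop where
  UV : ∀ u ∈ C.U, ∀ v ∈ C.Um, u * v ∈ C.Nn → u = 1 ∧ v = 1
  inv_set : ∀ y w, C.Mon y w → ∀ u ∈ C.U, y * u * y⁻¹ ∈ C.Um →
    u ∈ C.Ux {a | D.pos a ∧ ¬ D.pos (w a)}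
  G1_le : ∀ y ∈ C.G1, y ∈ C.G ∧ y ∈ C.Fix
  bruhat : ∀ y ∈ C.G, ∃ u ∈ C.U, ∃ n ∈ C.Nn, ∃ u' ∈ C.U, n * u' * n⁻¹ ∈ C.Um ∧ y = u * n * u'
  uniq : ∀ u ∈ C.U, ∀ n ∈ C.Nn, ∀ u' ∈ C.U, ∀ v ∈ C.U, ∀ m ∈ C.Nn, ∀ v' ∈ C.U,
    n * u' * n⁻¹ ∈ C.Um → m * v' * m⁻¹ ∈ C.Um → u * n * u' = v * m * v' → u = v ∧ n = m ∧ u' = v'
  bruhat1 : ∀ y ∈ C.G1, ∃ u ∈ C.U ⊓ C.Fix, ∃ n ∈ C.Nn ⊓ C.G1, ∃ u' ∈ C.U ⊓ C.Fix,
    n * u' * n⁻¹ ∈ C.Um ∧ y = u * n * u'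
  mem_B : ∀ y, y ∈ C.U ⊔ C.T ↔ ∃ u ∈ C.U, ∃ t ∈ C.T, y = u * t
  mem_B1 : ∀ y ∈ C.G1, y ∈ C.U ⊔ C.T → ∃ u ∈ C.U ⊓ C.Fix, ∃ t ∈ C.T ⊓ C.G1, y = u * t

/-- rank one subgroups of the twisted group -/
structure TF (C : CG D K V) : Prop where
  orb : ∀ a ∈ D.Δ, ∃ x ∈ C.Ux (D.PJ C.τ a) ⊓ C.Fix, ∃ y ∈ C.Ux (D.NJ C.τ a) ⊓ C.Fix,
    x ≠ 1 ∧ y ≠ 1 ∧ x * y * x = y * x * y ∧ x * y * x ∈ C.Nn ∧ (x * y * x) ^ 4 = 1
  tor2 : ∀ a ∈ D.Δ, (C.τ a ≠ a → D.cv a (D.rt (C.τ a)) = 0) → ∀ l : K, l ≠ 0 →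
    (C.τ a = a → C.θ l = l) → ∃ t ∈ C.T ⊓ C.G1, t.1 (C.e a) = (l * l) • C.e a
  tor3 : ∀ c ∈ D.Δ, C.τ c ≠ c → C.τ (C.τ c) = c → D.cv c (D.rt (C.τ c)) = 0 → ∀ l : K, l ≠ 0 →
    ∃ t ∈ C.T ⊓ C.G1, ∀ d, t.1 (C.e d) =
      (l ^ D.cv c (D.rt d) * C.θ l ^ D.cv (C.τ c) (D.rt d)) • C.e d
  low : ∀ a ∈ D.Δ, ∀ v ∈ C.Ux (D.NJ C.τ a) ⊓ C.Fix, v ≠ 1 → ∃ u ∈ C.U ⊓ C.Fix, ∃ r,
    ∃ u' ∈ C.Ux (D.PJ C.τ a) ⊓ C.Fix, C.Rf a r ∧ v = u * r * u'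
  rf_uniq : ∀ a ∈ D.Δ, ∀ r r', C.Rf a r → C.Rf a r' → r * r'⁻¹ ∈ C.T
  rf_inv : ∀ a ∈ D.Δ, ∀ r, C.Rf a r → C.Rf a r⁻¹
  rf_pos : ∀ a ∈ D.Δ, ∀ r, C.Rf a r → ∀ x ∈ C.Ux (D.PJ C.τ a), r * x * r⁻¹ ∈ C.Ux (D.NJ C.τ a)
  rf_neg : ∀ a ∈ D.Δ, ∀ r, C.Rf a r → ∀ v ∈ C.Ux (D.NJ C.τ a), r * v * r⁻¹ ∈ C.Ux (D.PJ C.τ a)
  rf_out : ∀ a ∈ D.Δ, ∀ r, C.Rf a r → ∀ u ∈ C.U, r * u * r⁻¹ ∈ C.U ↔ u ∈ C.Ue (D.zt C.τ a)
  out_le : ∀ a, C.Ue (D.zt C.τ a) ≤ C.U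
  out_norm : ∀ a, ∀ u ∈ C.U, ∀ z ∈ C.Ue (D.zt C.τ a), u * z * u⁻¹ ∈ C.Ue (D.zt C.τ a)
  fac1 : ∀ a ∈ D.Δ, ∀ u ∈ C.U ⊓ C.Fix, ∃ z ∈ C.Ue (D.zt C.τ a) ⊓ C.Fix,
    ∃ x ∈ C.Ux (D.PJ C.τ a) ⊓ C.Fix, u = z * x
  norm : ∀ y ∈ C.G1, (∀ u ∈ C.U ⊓ C.Fix, y * u * y⁻¹ ∈ C.U) → y ∈ C.U ⊔ C.T

/-- all facts on the root datum of `C` -/
structure RF (C : CG D K V) : Prop where
  r : RDF D
  t : TopF D C.o
  s : SymF D C.τ

/-- the size of the fixed field -/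
def CG.q (C : CG D K V) : ℕ := Nat.card {t // C.θ t = t}

/-- the torus acts irreducibly on the coefficient of a simple root -/
def IrrT (C : CG D K V) : Prop :=
  ∀ a ∈ D.Δ, ∀ A : AddSubgroup K,
    (∀ t ∈ C.T ⊓ C.G1, ∀ k, t.1 (C.e a) = k • C.e a → ∀ c ∈ A, k * c ∈ A) →
    ∀ c ∈ A, c ≠ 0 → (C.τ a = a → C.θ c = c) → ∀ c', (C.τ a = a → C.θ c' = c') → c' ∈ A

variable {S : Type u} [Group S]

/-- `f` identifies `S` with the twisted group -/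
structure Emb (C : CG D K V) (f : S →* (End K V)ˣ) : Prop where
  inj : Function.Injective f
  range : f.range = C.G1

/-- representatives of the simple reflections in `S` -/
def RS (C : CG D K V) (f : S →* (End K V)ˣ) : Set S := {r | ∃ a ∈ D.Δ, C.Rf a (f r)}

/-- the long root subgroup of the highest root in `S` -/
def X0 (C : CG D K V) (f : S →* (End K V)ˣ) : Set S := {y | ∃ t, f y = C.x C.o t}

end K

/-- a Lie ring with a Chevalley basis and divided powers -/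
structure ZD (D : RD ι Λ) (L : Type) [LieRing L] where
  B : Basis (D.Δ ⊕ ι) ℤ L
  h : ι → L
  d : ι → ℕ → End ℤ L
  h_B : ∀ i : D.Δ, B (.inl i) = h i
  hh : ∀ a c, ⁅h a, h c⁆ = 0
  he : ∀ a c, ⁅h a, B (.inr c)⁆ = D.cv a (D.rt c) • B (.inr c)
  eng : ∀ a, ⁅B (.inr a), B (.inr (D.ng a))⁆ = h a
  ee : ∀ a c d, D.rt d = D.rt c + D.rt a →
    ∃ n : ℤ, n.natAbs = D.bot a c + 1 ∧ ⁅B (.inr a), B (.inr c)⁆ = n • B (.inr d)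
  fac : ∀ a k, k.factorial • d a k = LieAlgebra.ad ℤ L (B (.inr a)) ^ k

variable {L : Type} [LieRing L]

/-- root elements over the integers -/
def ZD.xz (Z : ZD D L) (a : ι) (t : ℤ) : End ℤ L := ∑ k ∈ Finset.range 4, t ^ k • Z.d a k

/-- Weyl elements over the integers -/
def ZD.nz (Z : ZD D L) (a : ι) : End ℤ L := Z.xz a 1 * Z.xz (D.ng a) (-1) * Z.xz a 1

/-- facts over the integers -/
structure ZF (Z : ZD D L) : Prop where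
  h_mem : ∀ a, Z.h a ∈ Vs Z.B D.wt {0}
  e0 : ∀ a c, c ≠ D.ng a → (∀ d, D.rt d ≠ D.rt c + D.rt a) → ⁅Z.B (.inr a), Z.B (.inr c)⁆ = 0
  lie_wt : ∀ i j, ⁅Z.B i, Z.B j⁆ ∈ Vs Z.B D.wt {D.wt i + D.wt j}
  h_ext : ∀ u ∈ Vs Z.B D.wt {0}, (∀ c, ⁅u, Z.B (.inr c)⁆ = 0) → u = 0
  h_rf : ∀ a c, Z.h (D.rf a c) = Z.h c - D.cv c (D.rt a) • Z.h a
  prim : ∀ a, ∃ φ : L →ₗ[ℤ] ℤ, φ (Z.h a) = 1 ∧ ∀ c, φ (Z.B (.inr c)) = 0
  d_zero : ∀ a, Z.d a 0 = 1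
  d_one : ∀ a, Z.d a 1 = LieAlgebra.ad ℤ L (Z.B (.inr a))
  d_van : ∀ a k, 4 ≤ k → Z.d a k = 0
  d_sp : ∀ a (k : ℕ), Z.d a k ∈ Sp Z.B D.wt {(k : ℤ) • D.rt a}
  d2_ng : ∀ a, Z.d a 2 (Z.B (.inr (D.ng a))) = -Z.B (.inr a)
  d_mul : ∀ a i j, Z.d a i * Z.d a j = (i + j).choose i • Z.d a (i + j)
  d_lie : ∀ a k u v, Z.d a k ⁅u, v⁆ =
    ∑ p ∈ Finset.HasAntidiagonal.antidiagonal k, ⁅Z.d a p.1 u, Z.d a p.2 v⁆
  mon_h : ∀ a c, Z.nz a (Z.h c) = Z.h (D.rf a c)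
  mon_e : ∀ a c, ∃ k : ℤ, k * k = 1 ∧ Z.nz a (Z.B (.inr c)) = k • Z.B (.inr (D.rf a c)) ∧
    ∀ j, Z.nz a * Z.d c j = k ^ j • Z.d (D.rf a c) j * Z.nz a

/-- the normalised invariant form over the integers -/
structure ZG (Z : ZD D L) (o : ι) (g : L →ₗ[ℤ] L →ₗ[ℤ] ℤ) : Prop where
  symm : ∀ u v, g u v = g v u
  inv : ∀ u v w, g ⁅u, v⁆ w = g u ⁅v, w⁆
  wt : ∀ i j, g (Z.B i) (Z.B j) ≠ 0 → D.wt i + D.wt j = 0
  dp : ∀ a k u v, 1 ≤ k → ∑ p ∈ Finset.HasAntidiagonal.antidiagonal k, g (Z.d a p.1 u) (Z.d a p.2 v) = 0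
  top : ∀ v, Z.d o 2 v = g (Z.B (.inr o)) v • Z.B (.inr o)
  aut : ∀ (γ : L ≃ₗ⁅ℤ⁆ L) u v, g (γ u) (γ v) = g u v

/-- a graph automorphism over the integers -/
structure ZS (Z : ZD D L) (τ : Equiv.Perm ι) (γ : L ≃ₗ⁅ℤ⁆ L) (ε : ι → ℤ) : Prop where
  sym : D.Sym τ
  e : ∀ a, γ (Z.B (.inr a)) = ε a • Z.B (.inr (τ a))
  h : ∀ a, γ (Z.h a) = Z.h (τ a)
  val : ∀ a, ε a = 1 ∨ ε a = -1
  ng : ∀ a, ε (D.ng a) = ε a
  one : ∀ i ∈ D.Δ, ε i = 1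
  d : ∀ a k v, γ (Z.d a k v) = ε a ^ k • Z.d (τ a) k (γ v)
  pow : ∀ n : ℕ, τ ^ n = 1 → ∀ v, γ^[n] v = v

/-- `C` is the base change of `Z` -/
structure Rel (Z : ZD D L) {R : Type} [CommRing R] (C : CL D R (R ⊗[ℤ] L)) : Prop where
  B : ∀ j, C.B j = 1 ⊗ₜ Z.B j
  h : ∀ a, C.h a = 1 ⊗ₜ Z.h a
  d2 : ∀ a, C.d2 a = (Z.d a 2).baseChange R
  d3 : ∀ a, C.d3 a = (Z.d a 3).baseChange R
  x : ∀ a t, (C.x a t).1 = xr R (Z.d a) t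
  x' : ∀ a t, (C.x a t).1 = ∑ k ∈ Finset.range 4, t ^ k • (Z.d a k).baseChange R

/-! Row statements. -/

/-- from a root pairing to a root datum -/
def S_RDM : Prop := ∀ (ι M N : Type) [Finite ι] [AddCommGroup M] [Module ℚ M] [AddCommGroup N]
  [Module ℚ N] (P : RootPairing ι ℚ M N) [P.IsCrystallographic] [P.IsRootSystem] [P.IsReduced]
  [P.IsIrreducible] (b : P.Base), 1 < b.support.card →
    ∃ (Λ : Type) (_ : AddCommGroup Λ) (D : RD ι Λ), D.Δ = b.support ∧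
      (∀ a c, D.cv a (D.rt c) = P.pairingIn ℤ c a) ∧ (∀ a c, D.bot a c = P.chainBotCoeff a c) ∧
      (∀ a, D.pos a ↔ b.IsPos a) ∧ (∀ a, P.root (D.ng a) = -P.root a) ∧
      ∀ a c d, D.rt d = D.rt c + D.rt a → P.root d = P.root c + P.root a

def S_RDF : Prop := ∀ (ι Λ : Type) [AddCommGroup Λ] (D : RD ι Λ), RDF D

def S_TOP : Prop := ∀ (ι Λ : Type) [AddCommGroup Λ] (D : RD ι Λ), RDF D → ∀ o, D.Top o → TopF D o

def S_SYM : Prop := ∀ (ι Λ : Type) [AddCommGroup Λ] (D : RD ι Λ), RDF D →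
  (∀ o, D.Top o → TopF D o) → ∀ τ : Equiv.Perm ι, D.Sym τ → τ ^ 2 = 1 ∨ τ ^ 3 = 1 → SymF D τ

def S_ZF : Prop := ∀ (ι Λ L : Type) [AddCommGroup Λ] [LieRing L] (D : RD ι Λ) (Z : ZD D L),
  RDF D → ZF Z

def S_ZG : Prop := ∀ (ι Λ L : Type) [AddCommGroup Λ] [LieRing L] (D : RD ι Λ) (Z : ZD D L),
  RDF D → ZF Z → ∀ o, TopF D o → ∃ g, ZG Z o g

def S_ZS : Prop := ∀ (ι Λ L : Type) [AddCommGroup Λ] [LieRing L] (D : RD ι Λ) (Z : ZD D L)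
  (τ : Equiv.Perm ι) (γ : L ≃ₗ⁅ℤ⁆ L), RDF D → ZF Z →
  (∀ a, γ (Z.B (.inr a)) = Z.B (.inr (τ a)) ∨ γ (Z.B (.inr a)) = -Z.B (.inr (τ a))) →
  (∀ i ∈ D.Δ, τ i ∈ D.Δ ∧ γ (Z.B (.inr i)) = Z.B (.inr (τ i))) → ∃ ε, ZS Z τ γ ε

def S_BC : Prop := ∀ (ι Λ L : Type) [AddCommGroup Λ] [LieRing L] (D : RD ι Λ) (Z : ZD D L),
  ZF Z → ∀ (R : Type) [CommRing R], ∃ C : CL D R (R ⊗[ℤ] L), Rel Z C

def S_UF0 : Prop := ∀ (ι Λ R V : Type) [AddCommGroup Λ] [CommRing R] [LieRing V] [LieAlgebra R V]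
  (D : RD ι Λ) (C : CL D R V), RDF D → UF0 C

def S_LEAD : Prop := ∀ (ι Λ L : Type) [AddCommGroup Λ] [LieRing L] (D : RD ι Λ) (Z : ZD D L),
  RDF D → ZF Z → ∀ (K : Type) [Field K] (C : CL D K (K ⊗[ℤ] L)), Rel Z C → C.Lead

/-- the form and the twisting map after base change -/
def S_MK : Prop := ∀ (ι Λ L K : Type) [AddCommGroup Λ] [LieRing L] [Field K] [Finite K]
  (D : RD ι Λ) (Z : ZD D L) (τ : Equiv.Perm ι) (γ : L ≃ₗ⁅ℤ⁆ L) (ε : ι → ℤ) (θ : RingAut K) (o : ι)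
  (g : L →ₗ[ℤ] L →ₗ[ℤ] ℤ) (C₀ : CL D K (K ⊗[ℤ] L)), ZF Z → ZG Z o g → ZS Z τ γ ε → D.Top o →
  Rel Z C₀ → C₀.Lead → orderOf τ = orderOf θ → orderOf θ ≤ 3 →
    ∃ C : CG D K (K ⊗[ℤ] L), C.toCL = C₀ ∧ C.θ = θ ∧
      ∀ v, C.s v = TensorProduct.map θ.toAddMonoidHom.toIntLinearMap γ.toLinearMap v

/-- from the definition to the structure -/
def S_CG : Prop := ∀ (π : Set ℕ) (S : Type u) [Group S], IsLie π S →
  ∃ (ι Λ K V : Type) (_ : AddCommGroup Λ) (_ : Field K) (_ : LieRing V) (_ : LieAlgebra K V)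
    (D : RD ι Λ) (C : CG D K V) (f : S →* (End K V)ˣ), Emb C f ∧
      (2 < C.q ∨ ringChar K ∈ π ∧ 2 < D.Δ.card) ∧
      (ringChar K ∈ π ∨ 2 ∉ π ∨ 32 < C.q ∧ (ringChar K = 3 → ∀ a c, D.cv a (D.rt c) ≠ 3))

/-- quantification over all Chevalley data -/
def AllC (P : ∀ {ι Λ K V : Type} [AddCommGroup Λ] [Field K] [LieRing V] [LieAlgebra K V]
    {D : RD ι Λ}, CG D K V → Prop) : Prop :=
  ∀ (ι Λ K V : Type) [AddCommGroup Λ] [Field K] [LieRing V] [LieAlgebra K V] (D : RD ι Λ)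
    (C : CG D K V), P C

def S_UF1 : Prop := AllC fun C => UF0 C.toCL → UF1 C

def S_UF2 : Prop := AllC fun C => RF C → UF1 C → UF2 C

def S_BF1 : Prop := AllC fun C => RF C → UF1 C → BF1 C

def S_BF2 : Prop := AllC fun C => RF C → UF1 C → UF2 C → BF1 C → BF2 C

def S_TF : Prop := AllC fun C => RF C → UF1 C → UF2 C → BF1 C → BF2 C → TF C

def S_IRRT : Prop := AllC fun {_ _ _ _} _ _ _ _ D C => RF C → UF1 C → UF2 C → BF1 C → BF2 C →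
  TF C → 2 < C.q ∨ 2 < D.Δ.card → IrrT C

def S_BN : Prop := AllC fun {_ _ K _} _ _ _ _ _ C => RF C → UF1 C → UF2 C → BF1 C → BF2 C → TF C →
  ∀ (S : Type u) [Group S] [Finite S] (f : S →* _), Emb C f → ∀ (p : ℕ) [Fact p.Prime] [CharP K p],
    IsTits ((C.U ⊔ C.T).comap f) (C.Nn.comap f) (RS C f) ∧
    IsSplit p ((C.U ⊔ C.T).comap f) (C.Nn.comap f) (C.U.comap f) ∧
    (C.U ⊔ C.T).comap f ⊓ C.Nn.comap f = C.T.comap f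

def S_IRR : Prop := AllC fun C => RF C → UF1 C → UF2 C → BF1 C → BF2 C → TF C → IrrT C →
  ∀ (S : Type u) [Group S] [Finite S] (f : S →* _), Emb C f →
    (∀ r ∈ RS C f, Irr (C.T.comap f) (C.U.comap f) (C.U.comap f ⊓ conjBy (C.U.comap f) r)) ∧
    Wild (C.U.comap f) (RS C f)

def S_PST : Prop := AllC fun {_ _ K _} _ _ _ _ D C => RF C → UF1 C → UF2 C → BF1 C → BF2 C → TF C →
  2 < C.q → ∀ (S : Type u) [Group S] [Finite S] (f : S →* _), Emb C f →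
    ∀ (p : ℕ) [Fact p.Prime] [CharP K p] (β : MulAut S),
      (Odd (orderOf β) ∨ ∀ c, ¬ D.Exc p C.o c) → ∃ s : S, β '' X0 C f = MulAut.conj s '' X0 C f

/-- passage to the quotient by the radical -/
def S_RTW : Prop := ∀ (π : Set ℕ) (p : ℕ) (S : Type u) [Group S] [IsSimpleGroup S] (K L : Type)
  [Field K] [Finite K] [CharP K p] [LieRing L] [LieAlgebra K L] [Finite L] (g : L →ₗ[K] L →ₗ[K] K)
  (ρ : S →* End K L) (E : Set L), 3 ≤ Nat.card K → (∀ a b, g a b = g b a) →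
  (∀ a b c, g ⁅a, b⁆ c = g a ⁅b, c⁆) → (∀ s a b, ρ s ⁅a, b⁆ = ⁅ρ s a, ρ s b⁆) →
  (∀ s a b, g (ρ s a) (ρ s b) = g a b) →
  (∀ x ∈ E, IsExt g x ∧ (∀ t : K, t • x ∈ E) ∧ (∀ s, ρ s x ∈ E) ∧ ∃ s, ActsExp g ρ s x) →
  (∃ x ∈ E, ∃ y ∈ E, g x y ≠ 0) →
  (p < 5 → ∀ β : MulAut S, IsPi π (zpowers β) → ∀ x ∈ E, ∃ y ∈ E,
    β '' {s | ∃ t : K, ActsExp g ρ s (t • x)} = {s | ∃ t : K, ActsExp g ρ s (t • y)}) →
  (2 ∈ π → 32 < Nat.card K ∧ (2 : K) ≠ 0 ∧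
    (∃ x ∈ E, ∃ y ∈ E, g x y = 1 ∧ ∃ a ∈ Submodule.span K E, ∃ b ∈ Submodule.span K E,
      g a b ≠ 0 ∧ g a x = 0 ∧ g a y = 0 ∧ g a ⁅x, y⁆ = 0) ∧
    (p = 3 → ∀ x ∈ E, ∀ y ∈ E, ∀ z ∈ E, g x y = 1 →
      (∀ w ∈ Submodule.span K E, g (⁅x, y⁆ - ⁅x, z⁆) w = 0) → y = z)) → Rt π p S

/-- long root elements -/
def LR {K V : Type} [Field K] [LieRing V] [LieAlgebra K V] (C : CG D K V) : Set V :=
  {v | C.s v = v ∧ ∃ y ∈ C.G1, ∃ t : K, v = y.1 (t • C.e C.o)}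

/-- rigidity and dimension, upstairs -/
def S_RIG : Prop := AllC fun {_ _ K _} _ _ _ _ D C => RF C → UF1 C → UF2 C → BF1 C → BF2 C →
  (2 : K) ≠ 0 → (∀ c, D.cv C.o (D.rt c) = 1 → (D.cv c (D.rt C.o) : K) ≠ 0) →
    (∃ x ∈ LR C, ∃ y ∈ LR C, C.g x y = 1 ∧ ∃ a ∈ AddSubgroup.closure (LR C),
      ∃ b ∈ AddSubgroup.closure (LR C), C.g a b ≠ 0 ∧ C.g a x = 0 ∧ C.g a y = 0 ∧
        C.g a ⁅x, y⁆ = 0) ∧
    ∀ x ∈ LR C, ∀ y ∈ LR C, ∀ z ∈ LR C, C.g x y = 1 →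
      (∀ w ∈ AddSubgroup.closure (LR C), C.g (⁅x, y⁆ - ⁅x, z⁆) w = 0) → y = z

/-- the characteristic is not in `π` -/
def S_RT : Prop := AllC fun {_ _ K _} _ _ _ _ D C => RF C → UF1 C → UF2 C → BF1 C → BF2 C → TF C →
  2 < C.q → ∀ (S : Type u) [Group S] [Finite S] [IsSimpleGroup S] (f : S →* _), Emb C f →
    ∀ (p : ℕ) [Fact p.Prime] [CharP K p] (π : Set ℕ), p ∉ π →
      (2 ∉ π ∨ 32 < C.q ∧ (p = 3 → ∀ a c, D.cv a (D.rt c) ≠ 3)) → Rt π p S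

end Pool.Agent.MP_983df8_al.CH

end

end MrgPart1

-- ======== part 2: formerly Pool.Agent.MP_983df8_al.ch.TOP
section MrgPart2

/-! The highest root, dominant roots and exceptional roots. -/

namespace Pool.Agent.MP_983df8_al.CH

namespace TOP

variable {ι Λ : Type} [AddCommGroup Λ] {D : RD ι Λ} {a c c' o : ι} {p : ℕ}

theorem pr (h : c ≠ a) (h' : c ≠ D.ng a) {x y : ℤ} (ex : D.cv a (D.rt c) = x)
    (ey : D.cv c (D.rt a) = y) : (x = 0 ∧ y = 0) ∨ (x = 1 ∧ y = 1) ∨ (x = -1 ∧ y = -1) ∨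
      (x = 1 ∧ y = 2) ∨ (x = 2 ∧ y = 1) ∨ (x = -1 ∧ y = -2) ∨ (x = -2 ∧ y = -1) ∨
      (x = 1 ∧ y = 3) ∨ (x = 3 ∧ y = 1) ∨ (x = -1 ∧ y = -3) ∨ (x = -3 ∧ y = -1) := by
  simpa only [ex, ey, Set.mem_insert_iff, Set.mem_singleton_iff, Prod.mk.injEq] using
    D.pair a c h h'

theorem two_ng (a : ι) : D.cv a (D.rt (D.ng a)) = -2 := by rw [D.rt_ng, map_neg, D.two]

theorem sg (a c : ι) : (0 < D.cv a (D.rt c) ↔ 0 < D.cv c (D.rt a)) ∧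
    (D.cv a (D.rt c) < 0 ↔ D.cv c (D.rt a) < 0) := by
  by_cases h : c = a
  · rw [h]; exact ⟨Iff.rfl, Iff.rfl⟩
  by_cases h' : c = D.ng a
  · rw [h', two_ng, D.cv_ng, AddMonoidHom.neg_apply, D.two]; exact ⟨Iff.rfl, Iff.rfl⟩
  have := pr h h' rfl rfl
  omega

theorem expand (f : Λ →+ ℤ) (l : Λ) : f l = ∑ i ∈ D.Δ, D.co i l * f (D.rt i) := by
  conv_lhs => rw [← D.sum l, map_sum]
  simp only [map_zsmul, smul_eq_mul]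

/-- dominant roots -/
def Dom (D : RD ι Λ) (c : ι) : Prop := ∀ j ∈ D.Δ, 0 ≤ D.cv j (D.rt c)

theorem Dom.cv (h : Dom D c) : ∀ j ∈ D.Δ, 0 ≤ D.cv c (D.rt j) := fun j hj => by
  have := sg (D := D) c j
  have := h j hj
  omega

/-- the length of a string -/
theorem str_le (F : RDF D) (h : c ≠ a) (h' : c ≠ D.ng a) :
    2 * (D.bot a c : ℤ) - D.cv a (D.rt c) ≤ 3 := by
  have h0 := (D.str a c h h' 0).1 ⟨c, by simp⟩
  obtain ⟨d, e⟩ := (D.str a c h h' (-D.bot a c)).2 ⟨le_rfl, by omega⟩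
  have := (F.bound a d).1
  rw [e, map_add, map_zsmul, D.two, smul_eq_mul] at this
  omega

variable (F : RDF D)
include F

theorem ht_ne (a : ι) : D.ht (D.rt a) ≠ 0 := fun e => by
  have := F.neg_ht a
  rw [RD.pos, AddMonoidHom.neg_apply, e] at this
  omega

theorem ne_ng (h : D.pos c) (h' : D.pos a) : c ≠ D.ng a := fun e => (F.pos_ng a).1 (e ▸ h) h'

theorem spos (h : a ∈ D.Δ) : D.pos a := ((F.ht_one a).2 h).ge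

theorem simple_le (ha : a ∈ D.Δ) (hc : c ∈ D.Δ) (h : c ≠ a) : D.cv a (D.rt c) ≤ 0 :=
  not_lt.1 fun l => by
    obtain ⟨d, e⟩ := F.sub_root a c l h
    exact ht_ne F d (by rw [e, map_sub, (F.ht_one a).2 ha, (F.ht_one c).2 hc, sub_self])

theorem Dom.nonneg (h : Dom D c) (ha : D.pos a) : 0 ≤ D.cv c (D.rt a) := by
  rw [expand (D := D)]
  exact Finset.sum_nonneg fun j hj => mul_nonneg ((F.pos_iff a).1 ha j hj) (h.cv j hj)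

theorem Dom.pos (h : Dom D c) : D.pos c := not_not.1 fun e => by
  have := h.nonneg F ((F.pos_ng c).2 e)
  rw [two_ng] at this
  omega

theorem Dom.co (h : Dom D c) (ha : a ∈ D.Δ) : 0 < D.co a (D.rt c) := by
  have h0 := (F.pos_iff c).1 (h.pos F)
  refine (h0 a ha).lt_of_ne fun e => D.rt_ne c ?_
  have := D.conn (fun i => D.co i (D.rt c) = 0) a ha e.symm fun i hi j hj e1 e2 => by
    have s : ∀ j ∈ D.Δ, D.co j (D.rt c) * D.cv i (D.rt j) ≤ 0 := fun j hj => by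
      by_cases e : j = i
      · rw [e, e1, zero_mul]
      · exact mul_nonpos_of_nonneg_of_nonpos (h0 j hj) (simple_le F hi hj e)
    have := (Finset.sum_eq_zero_iff_of_nonpos s).1 ((Finset.sum_nonpos s).antisymm
      ((h i hi).trans_eq (expand _ _))) j hj
    exact (mul_eq_zero.1 this).resolve_right e2
  rw [← D.sum (D.rt c)]
  exact Finset.sum_eq_zero fun i hi => by rw [this i hi, zero_smul]

theorem Dom.lt (h : Dom D c) (h' : Dom D c') : 0 < D.cv c (D.rt c') := by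
  refine (h.nonneg F (h'.pos F)).lt_of_ne fun e => ?_
  have h1 := (Finset.sum_eq_zero_iff_of_nonneg fun j hj =>
    mul_nonneg (h'.co F hj).le (h.cv j hj)).1 (e.trans (expand _ _)).symm
  have h2 := D.two c
  rw [expand (D := D), Finset.sum_eq_zero fun j hj => by
    rw [(mul_eq_zero.1 (h1 j hj)).resolve_left (h'.co F hj).ne', mul_zero]] at h2
  omega

theorem dom_top (h : D.Top o) : Dom D o := fun j hj => not_lt.1 fun l => by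
  have e1 := (F.ht_one j).2 hj
  obtain ⟨d, e⟩ := F.add_root j o l (ne_ng F (e1.ge.trans (h j)) e1.ge)
  have := h d
  rw [e, map_add] at this
  omega

theorem uniq (h : D.Top o) (e : D.ht (D.rt c) = D.ht (D.rt o)) : c = o := not_not.1 fun n => by
  obtain ⟨d, e'⟩ := F.sub_root o c ((dom_top F h).lt F (dom_top F fun a => e ▸ h a)) n
  exact ht_ne F d (by rw [e', map_sub, e, sub_self])

theorem le_one (h : D.Top o) (n : c ≠ o) : D.cv o (D.rt c) ≤ 1 := not_lt.1 fun l => by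
  have h1 := h (D.ng (D.rf o c))
  have h2 := (h c).lt_of_ne fun e => n (uniq F h e)
  have h3 : 1 ≤ D.ht (D.rt o) := (dom_top F h).pos F
  rw [D.rt_ng, D.rt_rf, map_neg, map_sub, map_zsmul, smul_eq_mul] at h1
  nlinarith

theorem Dom.one (h : D.Top o) (hc : Dom D c) (n : c ≠ o) : D.cv o (D.rt c) = 1 :=
  (le_one F h n).antisymm ((dom_top F h).lt F hc)

theorem ex_one (h : D.Top o) : ∃ c, D.cv o (D.rt c) = 1 := by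
  have d := dom_top F h
  obtain ⟨j, hj, l⟩ : ∃ j ∈ D.Δ, 0 < D.cv o (D.rt j) := by
    by_contra! e
    have := D.two o
    rw [expand (D := D), Finset.sum_eq_zero fun j hj => by
      rw [(e j hj).antisymm (d.cv j hj), mul_zero]] at this
    omega
  refine ⟨j, (le_one F h ?_).antisymm l⟩
  rintro rfl
  obtain ⟨i, hi, n⟩ := Finset.exists_mem_ne D.rank j
  exact (d.co F hi).ne' (D.co_ne i hi j hj n)

theorem long (h : D.Top o) (l : ι → ℤ)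
    (hl : ∀ a c, D.cv c (D.rt a) * l c = D.cv a (D.rt c) * l a) (a : ι) : l a ∣ l o := by
  have := D.fin
  by_contra n
  obtain ⟨c, n, m⟩ := Set.exists_max_image {c | ¬ l c ∣ l o} (fun c => D.ht (D.rt c))
    (Set.toFinite _) ⟨a, n⟩
  have d : Dom D c := fun j hj => not_lt.1 fun s => by
    have e : l (D.rf j c) = l c := by
      have h1 := hl j (D.rf j c)
      rw [D.cv_rf, D.rt_rf] at h1
      simp only [AddMonoidHom.sub_apply, AddMonoidHom.zsmul_apply, map_sub, map_zsmul, D.two,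
        smul_eq_mul] at h1
      exact mul_left_cancel₀ ((sg j c).2.1 s).ne (by linarith [hl j c])
    have := m (D.rf j c) (by rwa [Set.mem_ofPred_eq, e])
    rw [D.rt_rf, map_sub, map_zsmul, (F.ht_one j).2 hj, smul_eq_mul] at this
    omega
  by_cases e : c = o
  · exact n (e ▸ dvd_rfl)
  · have := hl c o
    rw [d.one F h e, one_mul] at this
    exact n (this ▸ dvd_mul_left _ _)

theorem dom_exc (hp : p.Prime) (h : D.Exc p o c) : Dom D c := fun j hj => not_lt.1 fun s => by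
  obtain ⟨hc, -, h⟩ := h
  have n1 : c ≠ j := fun e => by rw [e, D.two] at s; omega
  have n2 := ne_ng F hc (spos F hj)
  obtain ⟨d, e⟩ := F.add_root j c s n2
  have h1 := h j d (spos F hj) e
  have h2 := str_le F n1 n2
  have h3 : D.bot j c = 1 := by
    have : D.bot j c ≠ 0 := fun z => hp.not_dvd_one (by simpa only [z] using h1)
    omega
  have h4 : D.cv j (D.rt c) = -1 := by omega
  obtain rfl : p = 2 := (Nat.prime_dvd_prime_iff_eq hp Nat.prime_two).1 (by rwa [h3] at h1)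
  obtain ⟨b, eb⟩ := (D.str j c n1 n2 (-1)).2 (by omega)
  have b1 : D.cv j (D.rt b) = -3 := by rw [eb, map_add, map_zsmul, h4, D.two]; rfl
  have b2 : D.cv b (D.rt j) = -1 := by
    have := pr (c := b) (a := j) (fun z => by rw [z, D.two] at b1; omega)
      (fun z => by rw [z, two_ng] at b1; omega) b1 rfl
    omega
  have b3 : D.cv c (D.rt j) = -1 := by
    have u := (F.bound c b).2
    have v := (sg j c).2.1 s
    rw [eb, map_add, map_zsmul, D.two, smul_eq_mul] at u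
    omega
  have e1 : D.rt (D.rf j c) = D.rt c + D.rt j := by rw [D.rt_rf, h4]; module
  have p1 : D.pos (D.rf j c) := F.pos_rf j hj c hc n1
  have n3 : c ≠ D.rf j c := fun z => D.rt_ne j (by rwa [← z, left_eq_add] at e1)
  have n4 := ne_ng F hc p1
  have e2 : D.cv (D.rf j c) (D.rt c) = 1 := by
    rw [D.cv_rf, AddMonoidHom.sub_apply, AddMonoidHom.zsmul_apply, D.two, b3, h4]; rfl
  have h5 := (D.str _ c n3 n4 (-2)).1 ⟨D.ng (D.rf j b), by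
    rw [D.rt_ng, D.rt_rf, b1, eb, e1]; module⟩
  have h6 := str_le F n3 n4
  obtain ⟨d', e'⟩ := (D.str _ c n3 n4 1).2 (by omega)
  have h7 := h _ d' p1 (by rw [e', one_smul])
  omega

theorem exc_val (h : D.Top o) (hp : p.Prime) (hc : D.Exc p o c) :
    D.cv o (D.rt c) = 1 ∧ D.cv c (D.rt o) = p := by
  have h1 := (dom_exc F hp hc).one F h hc.2.1
  obtain ⟨a, ea⟩ : ∃ a, a = D.ng (D.rf o c) := ⟨_, rfl⟩
  have e1 : D.rt o = D.rt c + D.rt a := by rw [ea, D.rt_ng, D.rt_rf, h1]; module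
  have e2 : D.cv a (D.rt o) = D.cv c (D.rt o) := by
    rw [ea, D.cv_ng, D.cv_rf, AddMonoidHom.neg_apply, AddMonoidHom.sub_apply,
      AddMonoidHom.zsmul_apply, D.two, smul_eq_mul]
    ring
  have h2 := (h c).lt_of_ne fun e => hc.2.1 (uniq F h e)
  have p1 : 1 ≤ D.ht (D.rt a) := by rw [e1, map_add] at h2; omega
  have h3 := (F.bound c o).2
  have n1 : c ≠ a := fun z => by rw [e1, ← z, map_add, D.two] at h3; omega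
  have n2 := ne_ng F hc.1 p1
  have h4 := (D.str a c n1 n2 1).1 ⟨o, by rw [e1, one_smul]⟩
  have h5 : ¬ _ := fun z => by
    obtain ⟨d, e⟩ := (D.str a c n1 n2 2).2 z
    have := h d
    rw [e, e1, map_add, map_add, map_zsmul, smul_eq_mul] at this
    omega
  have h6 : D.cv a (D.rt o) = D.cv a (D.rt c) + 2 := by rw [e1, map_add, D.two]
  have h7 := hc.2.2 a o p1 e1
  have h8 := hp.two_le
  have h9 := Nat.le_of_dvd (Nat.succ_pos _) h7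
  refine ⟨h1, ?_⟩
  obtain rfl | rfl : p = 2 ∨ p = 3 := by omega
  all_goals omega

theorem exc_uniq (h : D.Top o) (hp : p.Prime) (hc : D.Exc p o c) (hc' : D.Exc p o c') : c = c' := by
  by_contra n
  obtain ⟨l, l0, hl⟩ := F.len
  have d := dom_exc F hp hc
  have d' := dom_exc F hp hc'
  have e1 := hl c o
  have e2 := hl c' o
  rw [(exc_val F h hp hc).1, (exc_val F h hp hc).2] at e1
  rw [(exc_val F h hp hc').1, (exc_val F h hp hc').2] at e2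
  have e3 := hl c c'
  rw [mul_left_cancel₀ (Int.natCast_ne_zero.2 hp.ne_zero) (e1.symm.trans e2)] at e3
  have e4 := mul_right_cancel₀ (l0 c').ne' e3
  have e5 := d'.lt F d
  have e6 := pr n (ne_ng F hc.1 hc'.1) rfl rfl
  obtain ⟨b, eb⟩ := F.sub_root c' c e5 n
  by_cases q : D.pos b
  · have := d'.nonneg F q
    rw [eb, map_sub, D.two] at this
    omega
  · have := d.nonneg F ((F.pos_ng b).2 q)
    rw [D.rt_ng, eb, map_neg, map_sub, D.two] at this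
    omega

end TOP

open TOP in
theorem topf : S_TOP := fun _ _ _ D F o h =>
  { pos := (dom_top F h).pos F
    uniq := fun _ => uniq F h
    le_one := fun _ => le_one F h
    ge_one := fun c n => by
      have := le_one F h (c := D.ng c) fun e => n (by rw [← e, D.ng_ng])
      rw [D.rt_ng, map_neg] at this
      omega
    nonneg := fun _ => (dom_top F h).nonneg F
    ex_one := ex_one F h
    dual := fun c e => (sg o c).1.1 (by omega)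
    long := fun l _ => long F h l
    exc_uniq := fun _ hp _ _ => exc_uniq F h hp
    exc_val := fun _ hp _ => exc_val F h hp }

end Pool.Agent.MP_983df8_al.CH

end MrgPart2

-- marker of a merged file
example : 731051 + 134222 = 731051 + 134222 := rfl
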