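import Mathlib.Combinatorics.SimpleGraph.Basic
import Mathlib.RingTheory.PiTensorProduct
import Pool.Agent.MP_983df8_al.ch.TOP

/-! Monomial elements, the torus and the braid relation. -/

noncomputable section

namespace Pool.Agent.MP_983df8_al.CH

open Subgroup Module

namespace BFone

variable {ι Λ : Type} [AddCommGroup Λ] {D : RD ι Λ}
  {K V : Type} [Field K] [LieRing V] [LieAlgebra K V] (C : CG D K V)

/-- a diagonal endomorphism -/
def dg (η : Λ →+ ℤ) (l : K) : End K V := C.B.constr K fun j => l ^ η (D.wt j) • C.B j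

theorem dg_B (η : Λ →+ ℤ) (l : K) (j : D.Δ ⊕ ι) :
    dg C η l (C.B j) = l ^ η (D.wt j) • C.B j := by simp [dg]

theorem dg_vs (η : Λ →+ ℤ) (l : K) (μ : Λ) {v : V} (h : v ∈ C.vs {μ}) :
    dg C η l v = l ^ η μ • v :=
  Vs.induction (p := fun v => dg C η l v = l ^ η μ • v) h (by simp)
    (fun j c e => by rw [map_smul, dg_B, show D.wt j = μ from e, smul_comm])
    fun a b ha hb => by rw [map_add, ha, hb, smul_add]

theorem dg_inv (η : Λ →+ ℤ) {l : K} (hl : l ≠ 0) : dg C η l * dg C η l⁻¹ = 1 :=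
  C.B.ext fun j => by
    rw [End.mul_apply, dg_B, map_smul, dg_B, smul_smul, inv_zpow,
      inv_mul_cancel₀ (zpow_ne_zero _ hl), one_smul, End.one_apply]

/-- a diagonal unit -/
def du (η : Λ →+ ℤ) {l : K} (hl : l ≠ 0) : (End K V)ˣ :=
  ⟨dg C η l, dg C η l⁻¹, dg_inv C η hl, by simpa using dg_inv C η (inv_ne_zero hl)⟩

theorem dg_sp (η : Λ →+ ℤ) {l : K} (hl : l ≠ 0) (μ : Λ) {f : End K V} (h : f ∈ C.sp {μ}) :
    dg C η l * f = l ^ η μ • (f * dg C η l) :=
  C.B.ext fun j => by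
    have a : f (C.B j) ∈ C.vs {μ + D.wt j} :=
      Vs.mono (Sp.basis h j) fun m e => by
        have : m - D.wt j = μ := e
        rw [← this]; simp
    rw [End.mul_apply, dg_vs C η l _ a, LinearMap.smul_apply, End.mul_apply, dg_B, map_smul,
      smul_smul, map_add, zpow_add₀ hl]

theorem du_x (η : Λ →+ ℤ) {l : K} (hl : l ≠ 0) (c : ι) (t : K) :
    du C η hl * C.x c t * (du C η hl)⁻¹ = C.x c (l ^ η (D.rt c) * t) := by
  rw [mul_inv_eq_iff_eq_mul]
  refine Units.ext ?_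
  have a1 : LieAlgebra.ad K V (C.B (.inr c)) ∈ C.sp {D.rt c} := C.ad_mem (Vs.basis (by simp))
  show dg C η l * (C.x c t).1 = (C.x c _).1 * dg C η l
  simp only [C.x_val, mul_add, add_mul, mul_smul_comm, smul_mul_assoc, mul_one, one_mul]
  rw [dg_sp C η hl _ a1, dg_sp C η hl _ (C.d2_sp c), dg_sp C η hl _ (C.d3_sp c)]
  rw [map_zsmul, map_zsmul, smul_eq_mul, smul_eq_mul, mul_comm (2 : ℤ), mul_comm (3 : ℤ),
    zpow_mul, zpow_mul, zpow_ofNat, zpow_ofNat]
  module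

theorem du_mon (η : Λ →+ ℤ) {l : K} (hl : l ≠ 0) : C.Mon (du C η hl) 1 :=
  ⟨fun c => by
    show dg C η l _ = _
    rw [dg_vs C η l 0 (C.h_mem c)]; simp,
   fun c => ⟨l ^ η (D.rt c), zpow_ne_zero _ hl, dg_B C η l (.inr c), du_x C η hl c⟩⟩

theorem du_n (η : Λ →+ ℤ) {l : K} (hl : l ≠ 0) {a : ι} (h : η (D.rt a) = 1) (t : K) :
    du C η hl * C.n a t * (du C η hl)⁻¹ = C.n a (l * t) := by
  have e1 := du_x C η hl a t
  have e2 := du_x C η hl (D.ng a) (-t⁻¹)
  rw [h, zpow_one] at e1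
  rw [D.rt_ng, map_neg, h, zpow_neg, zpow_one, mul_neg, ← mul_inv] at e2
  unfold CG.n
  rw [← e1, ← e2]
  group

theorem mon_n1 (a : ι) : C.Mon (C.n a 1) (D.sr a) := by
  have e : C.n a 1 = C.x a 1 * C.x (D.ng a) (-1) * C.x a 1 := by simp [CG.n]
  rw [e]
  refine ⟨C.mon_h a, fun c => ?_⟩
  obtain ⟨k, k1, k2, k3⟩ := C.mon_e a c
  exact ⟨k, fun f => by simp [f] at k1, k2, fun t => mul_inv_eq_iff_eq_mul.2 (k3 t)⟩

theorem mon_n (R : RDF D) (a : ι) (t : K) (ht : t ≠ 0) : C.Mon (C.n a t) (D.sr a) := by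
  obtain ⟨η, h⟩ := R.prim a
  have := ((du_mon C η ht).mul (mon_n1 C a)).mul (du_mon C η ht).inv
  rwa [du_n C η ht h, mul_one, one_mul, inv_one, mul_one] at this

theorem n_mem (a : ι) {t : K} (ht : t ≠ 0) : C.n a t ∈ C.Nn := subset_closure ⟨a, t, ht, rfl⟩

theorem n_G (a : ι) (t : K) : C.n a t ∈ C.G :=
  mul_mem (mul_mem (C.x_mem (Set.mem_univ _) _) (C.x_mem (Set.mem_univ _) _))
    (C.x_mem (Set.mem_univ _) _)

theorem N_mon (R : RDF D) : ∀ y ∈ C.Nn, ∃ w ∈ D.W, C.Mon y w := fun y h => by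
  induction h using closure_induction with
  | mem s hs => obtain ⟨a, t, ht, rfl⟩ := hs; exact ⟨_, R.sr_mem a, mon_n C R a t ht⟩
  | one => exact ⟨1, one_mem _, C.mon_one⟩
  | mul a b _ _ ha hb =>
    obtain ⟨w, w1, w2⟩ := ha
    obtain ⟨v, v1, v2⟩ := hb
    exact ⟨_, mul_mem w1 v1, w2.mul v2⟩
  | inv a _ ha => obtain ⟨w, w1, w2⟩ := ha; exact ⟨_, inv_mem w1, w2.inv⟩

theorem e_inj {a b : ι} {k k' : K} (h : k • C.e a = k' • C.e b) (hk : k ≠ 0) : a = b := by
  by_contra f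
  have := congrArg (fun v => C.B.repr v (.inr a)) h
  simp [Ne.symm f, hk] at this

theorem e_cancel {a : ι} {k k' : K} (h : k • C.e a = k' • C.e a) : k = k' :=
  smul_left_injective K (C.B.ne_zero _) h

theorem T_ext {y z : (End K V)ˣ} (hy : C.Mon y 1) (hz : C.Mon z 1)
    (h : ∀ c, y.1 (C.e c) = z.1 (C.e c)) : y = z :=
  Units.ext (C.B.ext fun j => by
    rcases j with i | c
    · rw [C.h_B, hy.1, hz.1]
    · exact h c)

theorem n_inv (a : ι) (t : K) : (C.n a t)⁻¹ = C.n a (-t) := by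
  simp only [CG.n, inv_neg, C.x_neg, mul_inv_rev, mul_assoc]

theorem tor (R : RDF D) (a : ι) (t l : K) (ht : t ≠ 0) (hl : l ≠ 0) :
    C.n a (l * t) * (C.n a t)⁻¹ ∈ C.T ∧
      ∀ c, (C.n a (l * t) * (C.n a t)⁻¹).1 (C.e c) = l ^ D.cv a (D.rt c) • C.e c := by
  refine ⟨⟨mul_mem (n_mem C a (mul_ne_zero hl ht)) (inv_mem (n_mem C a ht)), ?_⟩, fun c => ?_⟩
  · simpa using (mon_n C R a _ (mul_ne_zero hl ht)).mul (mon_n C R a t ht).inv
  obtain ⟨η, h⟩ := R.prim a
  obtain ⟨k, k1, k2, -⟩ := (mon_n C R a t ht).2 (D.rf a c)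
  rw [RD.sr_apply, D.rf_rf] at k2
  have e1 : ((C.n a t)⁻¹).1 (C.e c) = k⁻¹ • C.e (D.rf a c) := by
    rw [eq_inv_smul_iff₀ k1, ← map_smul, ← k2, ← End.mul_apply, ← Units.val_mul, inv_mul_cancel]
    rfl
  have e2 : ((du C η hl)⁻¹).1 (C.e (D.rf a c)) = l⁻¹ ^ η (D.rt (D.rf a c)) • C.e (D.rf a c) :=
    dg_B C η l⁻¹ (.inr _)
  have e3 : (du C η hl).1 (C.e c) = l ^ η (D.rt c) • C.e c := dg_B C η l (.inr _)
  rw [← du_n C η hl h]
  simp only [Units.val_mul, End.mul_apply, e1, e2, k2, e3, map_smul, smul_smul]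
  congr 1
  rw [D.rt_rf, map_sub, map_zsmul, h, smul_eq_mul, mul_one, inv_zpow, zpow_sub₀ hl]
  have := zpow_ne_zero (η (D.rt c)) hl
  field_simp

theorem n_four (R : RDF D) (a : ι) (t : K) (ht : t ≠ 0) : C.n a t ^ 4 = 1 := by
  obtain ⟨h1, h2⟩ := tor C R a (-t) (-1) (neg_ne_zero.2 ht) (by simp)
  rw [← n_inv, inv_inv, neg_mul_neg, one_mul] at h1 h2
  have e : C.n a t ^ 4 = C.n a t * C.n a t * (C.n a t * C.n a t) := by
    simp only [pow_succ, pow_zero, one_mul, mul_assoc]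
  rw [e]
  refine T_ext C (mul_mem h1 h1).2 C.mon_one fun c => ?_
  rw [Units.val_mul, End.mul_apply, h2, map_smul, h2, smul_smul, ← mul_zpow]
  simp

theorem vs_mul (R : RDF D) (a : ι) (k : ℤ) (hk : 2 ≤ k) {v : V} (h : v ∈ C.vs {k • D.rt a}) :
    v = 0 :=
  Vs.eq_zero h fun j e => by
    have e' := congrArg (D.cv a) (show D.wt j = k • D.rt a from e)
    rw [map_zsmul, D.two, smul_eq_mul] at e'
    rcases j with i | c
    · simp at e'; omega
    · have := (R.bound a c).2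
      rw [RD.wt_inr] at e'; omega

theorem x_self (R : RDF D) (a : ι) (t : K) : (C.x a t).1 (C.e a) = C.e a := by
  have b : C.e a ∈ C.vs {D.rt a} := Vs.basis (by simp)
  have h2 : C.d2 a (C.e a) = 0 := vs_mul C R a 3 (by norm_num)
    (Sp.apply (C.d2_sp a) b (by rintro _ rfl _ rfl; show _ = _; module))
  have h3 : C.d3 a (C.e a) = 0 := vs_mul C R a 4 (by norm_num)
    (Sp.apply (C.d3_sp a) b (by rintro _ rfl _ rfl; show _ = _; module))
  simp [C.x_val, h2, h3]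

theorem x_ng (R : RDF D) (a : ι) (t : K) :
    (C.x a t).1 (C.e (D.ng a)) = C.e (D.ng a) + t • C.h a - t ^ 2 • C.e a := by
  have b : C.e (D.ng a) ∈ C.vs {-D.rt a} := Vs.basis (by simp [D.rt_ng])
  have h3 : C.d3 a (C.e (D.ng a)) = 0 := vs_mul C R a 2 (by norm_num)
    (Sp.apply (C.d3_sp a) b (by rintro _ rfl _ rfl; show _ = _; module))
  simp [C.x_val, h3, C.eng, C.d2_ng, sub_eq_add_neg]

theorem h_coef (a c : ι) : C.B.repr (C.h a) (.inr c) = 0 :=
  Vs.coord (C.h_mem a) (D.rt_ne c)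

theorem braid (R : RDF D) (U : UF0 C.toCL) (a : ι) (t : K) (ht : t ≠ 0) :
    C.n a t = C.x (D.ng a) (-t⁻¹) * C.x a t * C.x (D.ng a) (-t⁻¹) := by
  have M := mon_n C R a t ht
  obtain ⟨k, -, k2, k3⟩ := M.2 a
  obtain ⟨k', -, l2, l3⟩ := M.2 (D.ng a)
  simp only [RD.sr_apply, R.rf_self, R.rf_ng, D.ng_ng] at k2 k3 l2 l3
  have e1 : C.x a t = C.x (D.ng a) t⁻¹ * C.x a (-t) * C.n a t := by
    simp only [CG.n, C.x_neg]; group
  have e2 : (C.x a t).1 (C.e (D.ng a)) = k' • (C.x (D.ng a) t⁻¹).1 (C.e a) := by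
    rw [e1, Units.val_mul, Units.val_mul, End.mul_apply, End.mul_apply, l2, map_smul,
      x_self C R, map_smul]
  have e3 := x_ng C R (D.ng a) t⁻¹
  rw [D.ng_ng] at e3
  rw [e3, x_ng C R] at e2
  have e4 : k' = -t ^ 2 := by
    have := congrArg (fun v => C.B.repr v (.inr a)) e2
    have q : ∀ u : K, (Finsupp.single (.inr (D.ng a)) u : D.Δ ⊕ ι →₀ K) (.inr a) = 0 :=
      fun u => Finsupp.single_eq_of_ne (by simpa using (R.ng_ne a).symm)
    simpa [h_coef, q, eq_comm] using this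
  have e5 : k * k' = 1 := by
    have h := U.lie _ (n_G C a t) (C.e a) (C.e (D.ng a))
    obtain ⟨φ, h1, -⟩ := C.prim a
    rw [C.eng, M.1, k2, l2, RD.sr_apply, R.rf_self, C.h_ng, smul_lie, lie_smul, ← lie_skew,
      C.eng] at h
    have := congrArg φ h
    simpa [h1, eq_comm] using this
  have e6 : k * t = -t⁻¹ := by
    rw [e4] at e5
    field_simp
    linear_combination -e5
  have e7 : k' * -t⁻¹ = t := by rw [e4]; field_simp
  have e8 : C.n a t = C.n a t * (C.x a t * C.x (D.ng a) (-t⁻¹) * C.x a t) * (C.n a t)⁻¹ :=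
    (mul_inv_cancel_right _ _).symm.trans (by rw [CG.n])
  have f1 := k3 t
  have f2 := l3 (-t⁻¹)
  rw [e6] at f1
  rw [e7] at f2
  calc C.n a t = _ := e8
    _ = C.n a t * C.x a t * (C.n a t)⁻¹ * (C.n a t * C.x (D.ng a) (-t⁻¹) * (C.n a t)⁻¹) *
        (C.n a t * C.x a t * (C.n a t)⁻¹) := by group
    _ = _ := by rw [f1, f2]

theorem ε_sq (a : ι) : C.ε a * C.ε a = 1 := by rcases C.ε_val a with e | e <;> simp [e]

theorem ε_ne (a : ι) : C.ε a ≠ 0 := fun f => by simpa [f] using ε_sq C a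

theorem σ_xng (S : SymF D C.τ) (a : ι) (t : K) :
    C.σ (C.x (D.ng a) (-t⁻¹)) = C.x (D.ng (C.τ a)) (-(C.ε a * C.θ t)⁻¹) := by
  rw [C.σ_x, S.ng, C.ε_ng]
  congr 1
  rcases C.ε_val a with e | e <;> simp [e]

theorem σ_n (S : SymF D C.τ) (a : ι) (t : K) :
    C.σ (C.n a t) = C.n (C.τ a) (C.ε a * C.θ t) := by
  simp only [CG.n, map_mul, σ_xng C S, C.σ_x]

theorem fixr (c : ι) (h : C.τ c = c) : ∃ t, t ≠ 0 ∧ C.ε c * C.θ t = t := by
  by_cases e : C.ε c = 1
  · exact ⟨1, one_ne_zero, by simp [e]⟩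
  have e' := (C.ε_val c).resolve_left e
  have s1 : C.s (C.e c) = -C.e c := by rw [C.s_e, h, e', neg_one_smul]
  have s2 : -C.e c ≠ C.e c := fun f => e (e'.trans (e_cancel C (a := c) (by simpa using f)))
  have s3 := C.s_pow (C.e c)
  have o := C.θ_ord
  rcases C.dd_val with d | d | d <;> rw [d] at s3 o
  · exact (s2 (by simpa [s1] using s3)).elim
  · have a : C.θ ≠ 1 := fun f => by simp [f] at o
    obtain ⟨w, hw⟩ : ∃ w, C.θ w ≠ w := by
      by_contra f
      exact a (RingEquiv.ext fun w => not_not.1 fun g => f ⟨w, g⟩)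
    have b : C.θ (C.θ w) = w := by
      have := pow_orderOf_eq_one C.θ
      rw [o, pow_two] at this
      exact congrArg (fun f : RingAut K => f w) this
    exact ⟨w - C.θ w, sub_ne_zero.2 hw.symm, by simp [e', b]⟩
  · exact (s2 (by simpa [s1] using s3)).elim

theorem x_G1 (R : RDF D) (c : ι) (t : K) (h : C.x c t ∈ C.Fix) : C.x c t ∈ C.G1 := by
  by_cases p : D.pos c
  · exact mem_sup_left ⟨C.x_mem p t, h⟩
  · exact mem_sup_right ⟨C.x_mem ((R.neg_ht c).2 p) t, h⟩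

end BFone

open BFone in
theorem bf1 : S_BF1 := by
  intro ι Λ K V _ _ _ _ D C R U
  refine
    { mon_n := mon_n C R.r
      N_le := fun y h => (closure_le C.G).2 (by rintro _ ⟨a, t, -, rfl⟩; exact n_G C a t) h
      N_mon := N_mon C R.r
      mon_uniq := fun y w w' h h' => Equiv.ext fun c => ?_
      mon_conj := fun y w Ψ Ψ' h s u hu => ?_
      mon_zeta := fun y w ζ h s => R.r.perm_eq w ζ fun a => ?_
      tor := tor C R.r
      n_inv := n_inv C
      n_four := n_four C R.r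
      braid := braid C R.r U.toUF0
      T_x := fun y h c k t e => ?_
      T_comm := fun y h z h' => T_ext C (mul_mem h h').2 (mul_mem h' h).2 fun c => ?_
      T_pow := fun p _ _ y h e => T_ext C h.2 C.mon_one fun c => ?_
      T_sp := fun y h i j => ?_
      T_norm := fun y h t ht => ⟨mul_mem (mul_mem h ht.1) (inv_mem h), ?_⟩
      σ_N := fun y h => ?_
      fix_comm := fun y w f h a => ?_
      fixr := fixr C
      fix_n := fun c t h e => ?_ }
  · obtain ⟨k, k1, k2, -⟩ := h.2 c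
    obtain ⟨l, -, l2, -⟩ := h'.2 c
    exact e_inj C (k2.symm.trans l2) k1
  · refine C.Ux_induction (p := fun u => y * u * y⁻¹ ∈ C.Ux Ψ') hu (by simp) (fun a ha t => ?_)
      fun u v a b => ?_
    · obtain ⟨k, -, -, k3⟩ := h.2 a
      rw [k3]
      exact C.x_mem (s a ha) _
    · have := mul_mem a b
      rwa [show y * u * y⁻¹ * (y * v * y⁻¹) = y * (u * v) * y⁻¹ by group] at this
  · obtain ⟨k, k1, k2, -⟩ := h.2 a
    have := s (.inr (w a)) (.inr a) (by rw [k2]; simpa using k1)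
    simpa using this
  · obtain ⟨l, -, l2, l3⟩ := h.2.2 c
    rw [l3, e_cancel C (e.symm.trans l2)]
    rfl
  · obtain ⟨k, -, k2, -⟩ := h.2.2 c
    obtain ⟨l, -, l2, -⟩ := h'.2.2 c
    simp only [Equiv.Perm.one_apply] at k2 l2
    simp only [Units.val_mul, End.mul_apply, k2, l2, map_smul, smul_smul, mul_comm]
  · obtain ⟨k, -, k2, -⟩ := h.2.2 c
    rw [Equiv.Perm.one_apply] at k2
    have a : ∀ m : ℕ, (y ^ m).1 (C.e c) = k ^ m • C.e c := fun m => by
      induction m with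
      | zero => simp
      | succ m ih => rw [pow_succ, Units.val_mul, End.mul_apply, k2, map_smul, ih, smul_smul,
          pow_succ']
    have b : k ^ p = 1 := e_cancel C (a := c) (by rw [← a, e]; simp)
    have d : k = 1 := frobenius_inj K p (by simpa [frobenius_def] using b)
    simp [k2, d]
  · have b : C.B j ∈ C.vs {l | l - D.wt j ∈ ({0} : Set Λ)} := Vs.basis (by simp)
    rcases j with j | c
    · rw [C.h_B] at b ⊢
      rw [h.2.1]
      exact b i
    · obtain ⟨k, -, k2, -⟩ := h.2.2 c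
      rw [k2]
      exact Submodule.smul_mem _ k b i
  · obtain ⟨w, -, hw⟩ := N_mon C R.r y h
    simpa using (hw.mul ht.2).mul hw.inv
  · refine (closure_le (C.Nn.comap C.σ)).2 ?_ h
    rintro _ ⟨a, t, ht, rfl⟩
    show C.σ _ ∈ C.Nn
    rw [σ_n C R.s]
    exact n_mem C _ (mul_ne_zero (ε_ne C a) (by simpa using ht))
  · obtain ⟨k, -, k2, -⟩ := h.2 a
    obtain ⟨l, l1, l2, -⟩ := h.2 (C.τ a)
    have := C.mem_Fix'.1 f (C.e a)
    rw [k2, C.s_smul, C.s_e, C.s_e, map_smul, l2, smul_smul, smul_smul] at this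
    exact e_inj C this (mul_ne_zero (ε_ne C a) l1)
  · have a : C.x c t ∈ C.G1 := x_G1 C R.r c t (by rw [C.mem_Fix, C.σ_x, h, e])
    have b : C.x (D.ng c) (-t⁻¹) ∈ C.G1 :=
      x_G1 C R.r _ _ (by rw [C.mem_Fix, σ_xng C R.s, h, e])
    exact mul_mem (mul_mem a b) a

end Pool.Agent.MP_983df8_al.CH

end
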