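import Pool.Agent.MP_983df8_al.ch.TOP

/-! Chevalley groups: base change of the Chevalley basis and of the root elements. -/

noncomputable section

namespace Pool.Agent.MP_983df8_al.CH

open Subgroup Module TensorProduct

namespace Bc

/-- truncated exponentials are additive -/
theorem exp_add {R A : Type} [CommRing R] [Ring A] [Algebra R A] (E : ℕ → A)
    (hm : ∀ i j, E i * E j = (i + j).choose i • E (i + j)) (hv : ∀ k, 4 ≤ k → E k = 0) (t u : R) :
    ∑ k ∈ Finset.range 4, (t + u) ^ k • E k =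
      (∑ k ∈ Finset.range 4, t ^ k • E k) * ∑ k ∈ Finset.range 4, u ^ k • E k := by
  simp only [Finset.sum_range_succ, Finset.sum_range_zero, zero_add, add_mul, mul_add,
    smul_mul_smul_comm, hm, Nat.reduceAdd, hv 4 (by omega), hv 5 (by omega), hv 6 (by omega),
    smul_zero, add_zero, Nat.choose]
  module

/-- truncated exponentials preserve the bracket -/
theorem exp_lie {R V : Type} [CommRing R] [LieRing V] [LieAlgebra R V] (E : ℕ → End R V)
    (hl : ∀ k u v, E k ⁅u, v⁆ =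
      ∑ p ∈ Finset.HasAntidiagonal.antidiagonal k, ⁅E p.1 u, E p.2 v⁆)
    (hv : ∀ k, 4 ≤ k → E k = 0) (t : R) (u v : V) :
    (∑ k ∈ Finset.range 4, t ^ k • E k) ⁅u, v⁆ =
      ⁅(∑ k ∈ Finset.range 4, t ^ k • E k) u, (∑ k ∈ Finset.range 4, t ^ k • E k) v⁆ := by
  have h0 := hl 0 u v
  have h1 := hl 1 u v
  have h2 := hl 2 u v
  have h3 := hl 3 u v
  have h4 := hl 4 u v
  have h5 := hl 5 u v
  have h6 := hl 6 u v
  simp only [Finset.Nat.sum_antidiagonal_eq_sum_range_succ_mk, Finset.sum_range_succ,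
    Finset.sum_range_zero, zero_add, Nat.reduceSub, hv 4 (by omega), hv 5 (by omega),
    hv 6 (by omega), LinearMap.zero_apply, zero_lie, lie_zero, add_zero] at h0 h1 h2 h3 h4 h5 h6
  simp only [Finset.sum_range_succ, Finset.sum_range_zero, zero_add, LinearMap.add_apply,
    LinearMap.smul_apply, add_lie, lie_add, smul_lie, lie_smul, h0, h1, h2, h3]
  linear_combination (norm := module) t ^ 4 • h4 + t ^ 5 • h5 + t ^ 6 • h6

/-- the Leibniz rule is checked on additive generators -/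
theorem bil {R V : Type} [CommRing R] [LieRing V] [LieAlgebra R V] (E : ℕ → End R V) (k : ℕ)
    (S : Set V)
    (ind : ∀ p : V → Prop, p 0 → (∀ x ∈ S, p x) → (∀ x y, p x → p y → p (x + y)) → ∀ x, p x)
    (h : ∀ u ∈ S, ∀ v ∈ S, E k ⁅u, v⁆ =
      ∑ p ∈ Finset.HasAntidiagonal.antidiagonal k, ⁅E p.1 u, E p.2 v⁆) (u v : V) :
    E k ⁅u, v⁆ = ∑ p ∈ Finset.HasAntidiagonal.antidiagonal k, ⁅E p.1 u, E p.2 v⁆ := by
  revert u
  refine ind _ (by simp) (fun u hu => ?_) fun x y hx hy => by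
    simp only [add_lie, map_add, hx, hy, Finset.sum_add_distrib]
  revert v
  exact ind _ (by simp) (h u hu) fun x y hx hy => by
    simp only [lie_add, map_add, hx, hy, Finset.sum_add_distrib]

variable {ι Λ L : Type} [AddCommGroup Λ] [LieRing L] {D : RD ι Λ} (Z : ZD D L)
  (R : Type) [CommRing R]

/-- the divided powers after base change -/
def E (a : ι) (k : ℕ) : End R (R ⊗[ℤ] L) := (Z.d a k).baseChange R

/-- the root elements after base change -/
def X (a : ι) (t : R) : End R (R ⊗[ℤ] L) := ∑ k ∈ Finset.range 4, t ^ k • E Z R a k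

open Classical in
/-- the structure constants -/
def N (a c : ι) : ℤ :=
  if h : ∃ d, D.rt d = D.rt c + D.rt a then (Z.ee a c h.choose h.choose_spec).choose else 0

theorem N_spec (a c d : ι) (h : D.rt d = D.rt c + D.rt a) : (N Z a c).natAbs = D.bot a c + 1 ∧
    ⁅Z.B (.inr a), Z.B (.inr c)⁆ = N Z a c • Z.B (.inr d) := by
  have h' : ∃ d, D.rt d = D.rt c + D.rt a := ⟨d, h⟩
  have e : d = h'.choose := D.inj (h.trans h'.choose_spec.symm)
  rw [N, dif_pos h', e]
  exact (Z.ee a c h'.choose h'.choose_spec).choose_spec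

variable {Z R}

theorem vs {A : Set Λ} {v : L} (h : v ∈ Vs Z.B D.wt A) :
    (1 : R) ⊗ₜ[ℤ] v ∈ Vs (Z.B.baseChange R) D.wt A := fun j e => h j fun f => e (by
  rw [Basis.baseChange_repr_tmul, f, zero_smul])

theorem sp {A : Set Λ} {f : End ℤ L} (h : f ∈ Sp Z.B D.wt A) :
    f.baseChange R ∈ Sp (Z.B.baseChange R) D.wt A := fun i j e => h i j fun g => e (by
  rw [Basis.baseChange_apply, LinearMap.baseChange_tmul, Basis.baseChange_repr_tmul, g, zero_smul])

theorem one_smul' (n : ℤ) (v : L) : (1 : R) ⊗ₜ[ℤ] (n • v) = (n : R) • (1 : R) ⊗ₜ[ℤ] v := by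
  rw [tmul_smul, Int.cast_smul_eq_zsmul]

theorem br (u v : L) : ⁅(1 : R) ⊗ₜ[ℤ] u, (1 : R) ⊗ₜ[ℤ] v⁆ = (1 : R) ⊗ₜ[ℤ] ⁅u, v⁆ := by
  rw [LieAlgebra.ExtendScalars.bracket_tmul, one_mul]

theorem X_int (a : ι) (n : ℤ) : X Z R a (n : R) = (Z.xz a n).baseChange R := by
  change _ = End.baseChangeHom ℤ R L (Z.xz a n)
  rw [ZD.xz, map_sum]
  refine Finset.sum_congr rfl fun k _ => ?_
  rw [map_zsmul, ← Int.cast_pow]
  exact Int.cast_smul_eq_zsmul R (n ^ k) (E Z R a k)

variable (F : ZF Z)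
include F

theorem E_van (a : ι) (k : ℕ) (h : 4 ≤ k) : E Z R a k = 0 := by
  rw [E, F.d_van a k h, LinearMap.baseChange_zero]

theorem E_zero (a : ι) : E Z R a 0 = 1 := by
  rw [E, F.d_zero, LinearMap.baseChange_one]

theorem E_one (a : ι) : E Z R a 1 = LieAlgebra.ad R (R ⊗[ℤ] L) (1 ⊗ₜ Z.B (.inr a)) := by
  rw [E, F.d_one]
  exact (LieModule.toEnd_baseChange ℤ R L L _).symm

theorem E_mul (a : ι) (i j : ℕ) : E Z R a i * E Z R a j = (i + j).choose i • E Z R a (i + j) := by
  have := congrArg (End.baseChangeHom ℤ R L) (F.d_mul a i j)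
  rw [map_mul, map_nsmul] at this
  exact this

theorem E_lie (a : ι) (k : ℕ) (u v : R ⊗[ℤ] L) : E Z R a k ⁅u, v⁆ =
    ∑ p ∈ Finset.HasAntidiagonal.antidiagonal k, ⁅E Z R a p.1 u, E Z R a p.2 v⁆ := by
  refine bil (E Z R a) k {w | ∃ s u, w = s ⊗ₜ u}
    (fun p h0 h1 h2 w => TensorProduct.induction_on w h0 (fun s u => h1 _ ⟨s, u, rfl⟩) h2) ?_ u v
  rintro _ ⟨s, u, rfl⟩ _ ⟨t, v, rfl⟩
  simp only [E, LieAlgebra.ExtendScalars.bracket_tmul, LinearMap.baseChange_tmul, F.d_lie,
    tmul_sum]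

theorem X_add (a : ι) (t u : R) : X Z R a (t + u) = X Z R a t * X Z R a u :=
  exp_add _ (E_mul F a) (E_van F a) t u

theorem X_val (a : ι) (t : R) : X Z R a t = 1 +
    t • LieAlgebra.ad R (R ⊗[ℤ] L) (1 ⊗ₜ Z.B (.inr a)) + t ^ 2 • E Z R a 2 + t ^ 3 • E Z R a 3 := by
  simp only [X, Finset.sum_range_succ, Finset.sum_range_zero, zero_add, E_zero F, E_one F, pow_zero,
    pow_one, one_smul]

theorem X_zero (a : ι) : X Z R a 0 = 1 := by simp [X_val F]

/-- the root elements as units -/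
def U (a : ι) (t : R) : (End R (R ⊗[ℤ] L))ˣ :=
  ⟨X Z R a t, X Z R a (-t), by rw [← X_add F, add_neg_cancel, X_zero F],
    by rw [← X_add F, neg_add_cancel, X_zero F]⟩

theorem U_n (a : ι) :
    (U F a (1 : R) * U F (D.ng a) (-1) * U F a 1).1 = (Z.nz a).baseChange R := by
  have h1 := X_int (Z := Z) (R := R) a 1
  have h2 := X_int (Z := Z) (R := R) (D.ng a) (-1)
  rw [Int.cast_one] at h1
  rw [Int.cast_neg, Int.cast_one] at h2
  change X Z R a 1 * X Z R (D.ng a) (-1) * X Z R a 1 = _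
  rw [h1, h2, ZD.nz, LinearMap.baseChange_mul, LinearMap.baseChange_mul]

/-- the base change -/
def C : CL D R (R ⊗[ℤ] L) where
  B := Z.B.baseChange R
  h a := 1 ⊗ₜ Z.h a
  N := N Z
  d2 a := E Z R a 2
  d3 a := E Z R a 3
  x := U F
  h_B i := by rw [Basis.baseChange_apply, Z.h_B]
  h_mem a := vs (F.h_mem a)
  hh a c := by rw [br, Z.hh, tmul_zero]
  he a c := by rw [Basis.baseChange_apply, br, Z.he, one_smul']
  eng a := by rw [Basis.baseChange_apply, Basis.baseChange_apply, br, Z.eng]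
  ee a c d h := by
    rw [Basis.baseChange_apply, Basis.baseChange_apply, Basis.baseChange_apply, br,
      (N_spec Z a c d h).2, one_smul']
  N_abs a c d h := (N_spec Z a c d h).1
  e0 a c h h' := by
    rw [Basis.baseChange_apply, Basis.baseChange_apply, br, F.e0 a c h h', tmul_zero]
  prim a := by
    obtain ⟨φ, h1, h2⟩ := F.prim a
    refine ⟨(AlgebraTensorModule.rid ℤ R R).toLinearMap ∘ₗ φ.baseChange R, ?_, fun c => ?_⟩
    · simp [h1]
    · simp [h2]
  x_val a t := by
    rw [Basis.baseChange_apply]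
    exact X_val F a t
  d2_sp a := sp (F.d_sp a 2)
  d3_sp a := sp (F.d_sp a 3)
  d2_ng a := by
    rw [Basis.baseChange_apply, Basis.baseChange_apply, E, LinearMap.baseChange_tmul, F.d2_ng,
      tmul_neg]
  d2_two a v := by
    have := LinearMap.congr_fun (E_mul (R := R) F a 1 1) v
    rw [E_one F] at this
    rw [Basis.baseChange_apply, two_smul]
    simpa [two_smul] using this
  d2_lie a u v := by
    have := E_lie F a 2 u v
    simp only [Finset.Nat.sum_antidiagonal_eq_sum_range_succ_mk, Finset.sum_range_succ,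
      Finset.sum_range_zero, zero_add, Nat.reduceSub, E_zero F, E_one F, End.one_apply,
      LieAlgebra.ad_apply] at this
    rw [Basis.baseChange_apply, this]
    abel
  x_add a t u := Units.ext (X_add F a t u)
  x_lie a t u v := exp_lie _ (E_lie F a) (E_van F a) t u v
  mon_h a c := by rw [U_n, LinearMap.baseChange_tmul, F.mon_h]
  mon_e a c := by
    obtain ⟨k, k1, k2, k3⟩ := F.mon_e a c
    refine ⟨k, by rw [← Int.cast_mul, k1, Int.cast_one], ?_, fun t => Units.ext ?_⟩
    · rw [U_n, Basis.baseChange_apply, Basis.baseChange_apply, LinearMap.baseChange_tmul, k2,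
        one_smul']
    · rw [Units.val_mul, Units.val_mul (U F (D.rf a c) _), U_n]
      change _ * X Z R c t = X Z R (D.rf a c) (k * t) * _
      rw [X, X, Finset.mul_sum, Finset.sum_mul]
      refine Finset.sum_congr rfl fun j _ => ?_
      have := congrArg (End.baseChangeHom ℤ R L) (k3 j)
      rw [map_mul, map_mul, map_zsmul, ← Int.cast_smul_eq_zsmul R, Int.cast_pow] at this
      rw [mul_smul_comm, mul_pow, mul_comm, mul_smul, smul_mul_assoc]
      exact congrArg (t ^ j • ·) this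

end Bc

theorem bc : S_BC := by
  intro _ _ _ _ _ _ Z F R _
  refine ⟨Bc.C F, fun j => Basis.baseChange_apply R Z.B j, fun _ => rfl, fun _ => rfl,
    fun _ => rfl, fun a t => ?_, fun _ _ => rfl⟩
  refine (finsum_eq_sum_of_support_subset (s := Finset.range 4)
    (fun k => t ^ k • (Z.d a k).baseChange R) fun k hk => ?_).symm
  by_contra e
  have := Bc.E_van (R := R) F a k (by simpa using e)
  rw [Bc.E] at this
  exact hk (by simp only [this, smul_zero])

end Pool.Agent.MP_983df8_al.CH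

end
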