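import Mathlib.Tactic.Cases
import Pool.Agent.MP_983df8_al.ch.TOP

/-! Elementary root combinatorics in coordinates. -/

noncomputable section

namespace Pool.Agent.MP_983df8_al.CH

namespace RDFA

variable {ι Λ : Type} [AddCommGroup Λ] (D : RD ι Λ)

theorem cv_ng (a : ι) : D.cv a (D.rt (D.ng a)) = -2 := by rw [D.rt_ng, map_neg, D.two]

theorem ng_ne (a : ι) : D.ng a ≠ a := fun h => by
  have h1 := cv_ng D a
  rw [h, D.two] at h1
  omega

theorem rf_self (a : ι) : D.rf a a = D.ng a := D.inj (by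
  rw [D.rt_rf, D.two, D.rt_ng]; module)

theorem rf_ng (a c : ι) : D.rf a (D.ng c) = D.ng (D.rf a c) := D.inj (by
  simp only [D.rt_rf, D.rt_ng, map_neg]; module)

theorem ht_eq (l : Λ) : D.ht l = ∑ i ∈ D.Δ, D.co i l := by
  rw [RD.ht, AddMonoidHom.finsetSum_apply]

theorem map_eq (f : Λ →+ ℤ) (l : Λ) : f l = ∑ i ∈ D.Δ, D.co i l * f (D.rt i) := by
  conv_lhs => rw [← D.sum l]
  simp [map_sum]

theorem eq_zero {l : Λ} (h : ∀ i ∈ D.Δ, D.co i l = 0) : l = 0 := by
  rw [← D.sum l]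
  exact Finset.sum_eq_zero fun i hi => by rw [h i hi, zero_smul]

theorem ht_ne (a : ι) : D.ht (D.rt a) ≠ 0 := by
  intro h
  rw [ht_eq] at h
  refine D.rt_ne a (eq_zero D ?_)
  rcases D.sgn a with s | s
  · exact (Finset.sum_eq_zero_iff_of_nonneg s).1 h
  · exact (Finset.sum_eq_zero_iff_of_nonpos s).1 h

theorem pos_iff (a : ι) : D.pos a ↔ ∀ i ∈ D.Δ, 0 ≤ D.co i (D.rt a) := by
  have h0 := ht_ne D a
  unfold RD.pos
  rw [ht_eq] at h0 ⊢
  constructor
  · intro h
    rcases D.sgn a with s | s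
    · exact s
    · have := Finset.sum_nonpos s
      omega
  · intro s
    have := Finset.sum_nonneg s
    omega

theorem neg_co {a : ι} (h : ¬ D.pos a) : ∀ i ∈ D.Δ, D.co i (D.rt a) ≤ 0 :=
  (D.sgn a).resolve_left fun s => h ((pos_iff D a).2 s)

theorem pos_ng (a : ι) : D.pos (D.ng a) ↔ ¬ D.pos a := by
  have h0 := ht_ne D a
  unfold RD.pos
  rw [D.rt_ng, map_neg]
  omega

theorem neg_ht (a : ι) : 1 ≤ (-D.ht) (D.rt a) ↔ ¬ D.pos a := by
  have h0 := ht_ne D a
  unfold RD.pos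
  rw [AddMonoidHom.neg_apply]
  omega

theorem bound (a c : ι) : -3 ≤ D.cv a (D.rt c) ∧ D.cv a (D.rt c) ≤ 3 := by
  by_cases h1 : c = a
  · rw [h1, D.two]; omega
  by_cases h2 : c = D.ng a
  · rw [h2, cv_ng]; omega
  have h := D.pair a c h1 h2
  simp only [Set.mem_insert_iff, Set.mem_singleton_iff, Prod.mk.injEq] at h
  omega

theorem pos_pair {a c : ι} (h0 : 0 < D.cv a (D.rt c)) : 0 < D.cv c (D.rt a) := by
  by_cases h1 : c = a
  · rw [h1, D.two]; omega
  by_cases h2 : c = D.ng a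
  · rw [h2, cv_ng] at h0; omega
  have h := D.pair a c h1 h2
  simp only [Set.mem_insert_iff, Set.mem_singleton_iff, Prod.mk.injEq] at h
  omega

theorem sub_root (a c : ι) (h : 0 < D.cv a (D.rt c)) (h1 : c ≠ a) :
    ∃ d, D.rt d = D.rt c - D.rt a := by
  have h2 : c ≠ D.ng a := fun e => by rw [e, cv_ng] at h; omega
  have h3 := (D.str a c h1 h2 0).1 ⟨c, by simp⟩
  obtain ⟨d, hd⟩ := (D.str a c h1 h2 (-1)).2 (by omega)
  exact ⟨d, by rw [hd]; module⟩

theorem add_root (a c : ι) (h : D.cv a (D.rt c) < 0) (h2 : c ≠ D.ng a) :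
    ∃ d, D.rt d = D.rt c + D.rt a := by
  have h1 : c ≠ a := fun e => by rw [e, D.two] at h; omega
  obtain ⟨d, hd⟩ := (D.str a c h1 h2 1).2 (by omega)
  exact ⟨d, by rw [hd, one_smul]⟩

theorem ht_simple {i : ι} (hi : i ∈ D.Δ) : D.ht (D.rt i) = 1 := by
  rw [ht_eq, Finset.sum_eq_single_of_mem i hi fun j hj h => D.co_ne j hj i hi h, D.co_self i hi]

theorem pos_simple {i : ι} (hi : i ∈ D.Δ) : D.pos i := (ht_simple D hi).ge

theorem ex_simple {a : ι} (h : D.pos a) : ∃ j ∈ D.Δ, 0 < D.cv j (D.rt a) := by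
  by_contra hc
  push Not at hc
  have h1 := map_eq D (D.cv a) (D.rt a)
  rw [D.two] at h1
  have h2 : ∑ i ∈ D.Δ, D.co i (D.rt a) * D.cv a (D.rt i) ≤ 0 :=
    Finset.sum_nonpos fun i hi => mul_nonpos_of_nonneg_of_nonpos ((pos_iff D a).1 h i hi)
      (not_lt.1 fun e => absurd (pos_pair D e) (not_lt.2 (hc i hi)))
  omega

theorem ht_one (a : ι) : D.ht (D.rt a) = 1 ↔ a ∈ D.Δ := by
  refine ⟨fun h => ?_, ht_simple D⟩
  obtain ⟨j, hj, h1⟩ := ex_simple D (a := a) h.ge
  by_cases e : a = j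
  · rwa [e]
  obtain ⟨d, hd⟩ := sub_root D j a h1 e
  exact absurd (by rw [hd, map_sub, h, ht_simple D hj, sub_self]) (ht_ne D d)

theorem pos_rf (i : ι) (hi : i ∈ D.Δ) (a : ι) (h : D.pos a) (e : a ≠ i) : D.pos (D.rf i a) := by
  by_contra hc
  have h1 := neg_co D hc
  have h2 := (pos_iff D a).1 h
  have h3 : D.rt a = D.co i (D.rt a) • D.rt i := by
    conv_lhs => rw [← D.sum (D.rt a)]
    refine Finset.sum_eq_single_of_mem i hi fun j hj hji => ?_
    have h4 := h1 j hj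
    rw [D.rt_rf, map_sub, map_zsmul, D.co_ne j hj i hi hji, smul_zero, sub_zero] at h4
    rw [le_antisymm h4 (h2 j hj), zero_smul]
  have h4 := (bound D i a).2
  have h5 := h2 i hi
  rw [h3, map_zsmul, D.two, smul_eq_mul] at h4
  by_cases h6 : D.co i (D.rt a) = 0
  · rw [h6, zero_smul] at h3
    exact D.rt_ne a h3
  · rw [show D.co i (D.rt a) = 1 by omega, one_smul] at h3
    exact e (D.inj h3)

theorem ht_ind (p : ι → Prop)
    (h : ∀ a, D.pos a → (∀ b, D.pos b → D.ht (D.rt b) < D.ht (D.rt a) → p b) → p a) :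
    ∀ a, D.pos a → p a := by
  intro a
  induction' hn : (D.ht (D.rt a)).toNat using Nat.strong_induction_on with n ih generalizing a
  intro ha
  refine h a ha fun b hb hlt => ih _ ?_ b rfl hb
  unfold RD.pos at ha hb
  omega

theorem ind (p : ι → Prop) (h1 : ∀ i ∈ D.Δ, p i) (h2 : ∀ j ∈ D.Δ, ∀ a, p a → p (D.rf j a)) :
    ∀ a, p a := by
  have key : ∀ a, D.pos a → p a ∧ p (D.ng a) := by
    refine ht_ind D _ fun a ha ih => ?_
    obtain ⟨j, hj, h3⟩ := ex_simple D ha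
    by_cases e : a = j
    · subst e
      exact ⟨h1 a hj, rf_self D a ▸ h2 a hj a (h1 a hj)⟩
    have h4 := ih _ (pos_rf D j hj a ha e) (by
      rw [D.rt_rf, map_sub, map_zsmul, ht_simple D hj, smul_eq_mul]; omega)
    have h5 := h2 j hj _ h4.1
    have h6 := h2 j hj _ h4.2
    rw [rf_ng, D.rf_rf] at h6
    rw [D.rf_rf] at h5
    exact ⟨h5, h6⟩
  intro a
  by_cases h : D.pos a
  · exact (key a h).1
  · exact D.ng_ng a ▸ (key _ ((pos_ng D a).2 h)).2

theorem ind_add (p : ι → Prop) (h1 : ∀ i ∈ D.Δ, p i)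
    (h2 : ∀ j ∈ D.Δ, ∀ a d, D.rt d = D.rt a + D.rt j → p a → p d) : ∀ a, D.pos a → p a := by
  refine ht_ind D _ fun a ha ih => ?_
  obtain ⟨j, hj, h3⟩ := ex_simple D ha
  by_cases e : a = j
  · exact e ▸ h1 j hj
  obtain ⟨d, hd⟩ := sub_root D j a h3 e
  have h4 : D.ht (D.rt d) = D.ht (D.rt a) - 1 := by rw [hd, map_sub, ht_simple D hj]
  have h5 := ht_ne D d
  refine h2 j hj d a (by rw [hd, sub_add_cancel]) (ih d ?_ (by omega))
  unfold RD.pos at ha ⊢
  omega

/-- the reflection on the lattice -/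
def rl (j : ι) : Λ →+ Λ where
  toFun l := l - D.cv j l • D.rt j
  map_zero' := by simp
  map_add' x y := by rw [map_add]; module

theorem rl_rt (j c : ι) : rl D j (D.rt c) = D.rt (D.rf j c) := (D.rt_rf j c).symm

theorem prim : ∀ a, ∃ η : Λ →+ ℤ, η (D.rt a) = 1 := by
  refine ind D _ (fun i hi => ⟨D.co i, D.co_self i hi⟩) fun j _ a ⟨η, h⟩ => ⟨η.comp (rl D j), ?_⟩
  rw [AddMonoidHom.comp_apply, rl_rt, D.rf_rf, h]

theorem len : ∃ l : ι → ℤ, (∀ a, 0 < l a) ∧
    ∀ a c, D.cv c (D.rt a) * l c = D.cv a (D.rt c) * l a := by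
  have := D.fin
  have := Fintype.ofFinite ι
  have key : ∀ a c, 2 * ∑ d, D.cv d (D.rt a) * D.cv d (D.rt c) =
      D.cv a (D.rt c) * ∑ d, D.cv d (D.rt a) * D.cv d (D.rt a) := by
    intro a c
    have h := Equiv.sum_comp (D.sr a) fun d => D.cv d (D.rt a) * D.cv d (D.rt c)
    rw [two_mul, Finset.mul_sum]
    nth_rewrite 1 [← h]
    rw [← Finset.sum_add_distrib]
    refine Finset.sum_congr rfl fun d _ => ?_
    simp only [RD.sr_apply, D.cv_rf, AddMonoidHom.sub_apply, AddMonoidHom.smul_apply, D.two,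
      smul_eq_mul]
    ring
  refine ⟨fun a => ∑ d, D.cv d (D.rt a) * D.cv d (D.rt a), fun a => ?_, fun a c => ?_⟩
  · refine Finset.sum_pos' (fun d _ => mul_self_nonneg _) ⟨a, Finset.mem_univ a, ?_⟩
    rw [D.two]; omega
  · rw [← key, ← key]
    exact congrArg _ (Finset.sum_congr rfl fun d _ => mul_comm _ _)

theorem ex_mem : ∃ i, i ∈ D.Δ := Finset.card_pos.1 (lt_trans Nat.one_pos D.rank)

theorem cls (f : ι → ℤ) (h : ∀ a c, D.cv a (D.rt c) ≠ 0 → f a = f c) (a c : ι) : f a = f c := by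
  obtain ⟨i, hi⟩ := ex_mem D
  have h1 := D.conn (fun j => f j = f i) i hi rfl fun j _ k _ e1 e2 => (h j k e2).symm.trans e1
  have h2 : ∀ a, f a = f i := by
    intro a
    by_contra hc
    refine D.rt_ne a (D.nd _ fun j hj => ?_)
    by_contra e
    exact hc ((h j a e).symm.trans (h1 j hj))
  rw [h2 a, h2 c]

theorem rf_conj (j a c : ι) : D.rf j (D.rf a c) = D.rf (D.rf j a) (D.rf j c) := D.inj (by
  simp only [D.rt_rf, D.cv_rf, map_sub, map_zsmul, AddMonoidHom.sub_apply,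
    AddMonoidHom.smul_apply, D.two, smul_eq_mul]
  module)

theorem sr_mem : ∀ a, D.sr a ∈ D.W := by
  have h0 : ∀ i ∈ D.Δ, D.sr i ∈ D.W := fun i hi => Subgroup.subset_closure ⟨i, hi, rfl⟩
  refine ind D _ h0 fun j hj a ha => ?_
  have : D.sr (D.rf j a) = D.sr j * D.sr a * D.sr j := by
    ext c
    simp only [Equiv.Perm.mul_apply, RD.sr_apply]
    rw [rf_conj, D.rf_rf]
  rw [this]
  exact D.W.mul_mem (D.W.mul_mem (h0 j hj) ha) (h0 j hj)

/-- the product of the reflections of a word -/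
def wl (l : List ι) : Equiv.Perm ι := (l.map D.sr).prod

theorem wl_cons (j : ι) (l : List ι) : wl D (j :: l) = D.sr j * wl D l := by simp [wl]

theorem wl_append (l l' : List ι) : wl D (l ++ l') = wl D l * wl D l' := by simp [wl]

theorem ex_word {w : Equiv.Perm ι} (h : w ∈ D.W) : ∃ l : List ι, (∀ i ∈ l, i ∈ D.Δ) ∧ w = wl D l := by
  induction h using Subgroup.closure_induction'' with
  | mem x hx =>
    obtain ⟨i, hi, rfl⟩ := hx
    exact ⟨[i], by simpa using hi, by simp [wl]⟩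
  | inv_mem x hx =>
    obtain ⟨i, hi, rfl⟩ := hx
    exact ⟨[i], by simpa using hi, by simp only [wl, List.map, List.prod_singleton]; rfl⟩
  | one => exact ⟨[], by simp, rfl⟩
  | mul x y _ _ hx hy =>
    obtain ⟨l, h1, rfl⟩ := hx
    obtain ⟨l', h2, rfl⟩ := hy
    refine ⟨l ++ l', fun i hi => ?_, (wl_append D l l').symm⟩
    exact (List.mem_append.1 hi).elim (h1 i) (h2 i)

theorem wl_lin (l : List ι) : ∃ φ : Λ →+ Λ, ∀ a, D.rt (wl D l a) = φ (D.rt a) := by
  induction l with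
  | nil => exact ⟨AddMonoidHom.id Λ, fun a => rfl⟩
  | cons j l ih =>
    obtain ⟨φ, h⟩ := ih
    refine ⟨(rl D j).comp φ, fun a => ?_⟩
    rw [wl_cons, AddMonoidHom.comp_apply, ← h, rl_rt]
    rfl

theorem wl_ng (l : List ι) (a : ι) : wl D l (D.ng a) = D.ng (wl D l a) := by
  induction l with
  | nil => rfl
  | cons j l ih => simp only [wl_cons, Equiv.Perm.mul_apply, RD.sr_apply, ih, rf_ng]

theorem wl_rf (l : List ι) (a c : ι) : wl D l (D.rf a c) = D.rf (wl D l a) (wl D l c) := by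
  induction l with
  | nil => rfl
  | cons j l ih =>
    simp only [wl_cons, Equiv.Perm.mul_apply, RD.sr_apply, ih]
    exact rf_conj D _ _ _

theorem deletion {i : ι} (hi : i ∈ D.Δ) (l : List ι) (hl : ∀ j ∈ l, j ∈ D.Δ)
    (h : ¬ D.pos (wl D l i)) : ∃ l' : List ι, (∀ j ∈ l', j ∈ D.Δ) ∧ l'.length + 1 = l.length ∧
      wl D l * D.sr i = wl D l' := by
  induction l with
  | nil => exact absurd (pos_simple D hi) h
  | cons j l ih =>
    have hj := hl j (by simp)
    have hl0 : ∀ k ∈ l, k ∈ D.Δ := fun k hk => hl k (by simp [hk])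
    by_cases hp : D.pos (wl D l i)
    · have e : wl D l i = j := by
        by_contra e
        exact h (by rw [wl_cons]; exact pos_rf D j hj _ hp e)
      refine ⟨l, hl0, rfl, ?_⟩
      ext c
      simp only [wl_cons, Equiv.Perm.mul_apply, RD.sr_apply]
      rw [wl_rf, e, D.rf_rf]
    · obtain ⟨l', h1, h2, h3⟩ := ih hl0 hp
      refine ⟨j :: l', fun k hk => ?_, by simp [h2], by rw [wl_cons, wl_cons, mul_assoc, h3]⟩
      rcases List.mem_cons.1 hk with rfl | hk
      · exact hj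
      · exact h1 k hk

theorem wl_one (l : List ι) (hl : ∀ j ∈ l, j ∈ D.Δ) (h : ∀ i ∈ D.Δ, D.pos (wl D l i)) :
    wl D l = 1 := by
  induction' hn : l.length using Nat.strong_induction_on with n ih generalizing l
  rcases List.eq_nil_or_concat' l with rfl | ⟨l0, i, rfl⟩
  · rfl
  have hi := hl i (by simp)
  have e : wl D (l0 ++ [i]) = wl D l0 * D.sr i := by rw [wl_append]; simp [wl]
  have h1 := h i hi
  rw [e, Equiv.Perm.mul_apply, RD.sr_apply, rf_self, wl_ng, pos_ng] at h1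
  obtain ⟨l', h2, h3, h4⟩ := deletion D hi l0 (fun k hk => hl k (by simp [hk])) h1
  rw [e, h4] at h ⊢
  refine ih _ ?_ l' h2 h rfl
  rw [← hn, List.length_append]
  omega

theorem ht_W {w : Equiv.Perm ι} (h : w ∈ D.W) (a : ι) :
    D.ht (D.rt (w a)) = ∑ i ∈ D.Δ, D.co i (D.rt a) * D.ht (D.rt (w i)) := by
  obtain ⟨l, _, rfl⟩ := ex_word D h
  obtain ⟨φ, hφ⟩ := wl_lin D l
  simp only [hφ]
  exact map_eq D (D.ht.comp φ) _

end RDFA

open RDFA in
theorem rdf : S_RDF := by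
  intro ι Λ _ D
  have := D.fin
  refine ⟨ng_ne D, rf_self D, rf_ng D, pos_iff D, pos_ng D, neg_ht D, ht_one D, pos_rf D, ind D,
    ind_add D, bound D, sub_root D, add_root D, prim D, len D, cls D, sr_mem D, fun w h => ?_,
    fun w h => ?_, fun w h => ?_, fun w h a ha hw => ?_, fun w h a ha hw => ?_,
    fun w ζ h a => ?_, ?_⟩
  · obtain ⟨l, _, rfl⟩ := ex_word D h
    exact wl_lin D l
  · obtain ⟨l, _, rfl⟩ := ex_word D h
    exact wl_ng D l
  · obtain ⟨l, hl, rfl⟩ := ex_word D h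
    exact wl_one D l hl
  · have h1 : 0 ≤ D.ht (D.rt (w a)) := by
      rw [ht_W D h]
      refine Finset.sum_nonneg fun i hi => ?_
      by_cases e : D.co i (D.rt a) = 0
      · rw [e, zero_mul]
      · exact mul_nonneg ((pos_iff D a).1 ha i hi) (le_trans zero_le_one (hw i hi e))
    have h2 := ht_ne D (w a)
    unfold RD.pos
    omega
  · have h1 : D.ht (D.rt (w a)) ≤ 0 := by
      rw [ht_W D h]
      refine Finset.sum_nonpos fun i hi => ?_
      by_cases e : D.co i (D.rt a) = 0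
      · rw [e, zero_mul]
      · have := hw i hi e
        unfold RD.pos at this
        exact mul_nonpos_of_nonneg_of_nonpos ((pos_iff D a).1 ha i hi) (by omega)
    unfold RD.pos
    omega
  · have := Fintype.ofFinite ι
    exact ((Finset.sum_eq_sum_iff_of_le (s := Finset.univ) fun b _ => h b).1
      (Equiv.sum_comp w fun b => ζ (D.rt b)).symm a (Finset.mem_univ a)).symm
  · obtain ⟨i, _⟩ := ex_mem D
    have : Nonempty ι := ⟨i⟩
    exact Finite.exists_max fun c => D.ht (D.rt c)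

end Pool.Agent.MP_983df8_al.CH
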