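import Mathlib.Data.Finsupp.Pointwise
import Mathlib.RingTheory.PiTensorProduct
import Pool.Agent.MP_983df8_al.ch.TOP

/-! Chevalley bases over the integers. -/

noncomputable section

namespace Pool.Agent.MP_983df8_al.CH

open Module Finset

namespace Zf

theorem tri {M : Type} [AddCommMonoid M] (f : ℕ → ℕ → M) (h1 : ∀ i j, 4 ≤ i → f i j = 0)
    (h2 : ∀ i j, 4 ≤ j → f i j = 0) :
    ∑ k ∈ range 7, ∑ p ∈ antidiagonal k, f p.1 p.2 = ∑ i ∈ range 4, ∑ j ∈ range 4, f i j := by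
  simp only [Finset.Nat.sum_antidiagonal_eq_sum_range_succ_mk]
  simp [sum_range_succ, h1, h2]
  abel

variable {ι Λ L : Type} [AddCommGroup Λ] [LieRing L] {D : RD ι Λ} (Z : ZD D L)

include Z in
theorem cancel {n : ℕ} (hn : n ≠ 0) {u v : L} (h : n • u = n • v) : u = v :=
  Z.B.ext_elem fun j => by
    have := congrArg (fun w => Z.B.repr w j) h
    simpa [hn] using this

include Z in
theorem cancelE {n : ℕ} (hn : n ≠ 0) {f g : End ℤ L} (h : n • f = n • g) : f = g :=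
  LinearMap.ext fun v => cancel Z hn (LinearMap.congr_fun h v)

theorem hB (a : ι) (j : D.Δ ⊕ ι) : ⁅Z.h a, Z.B j⁆ = D.cv a (D.wt j) • Z.B j := by
  rcases j with i | c
  · simp [Z.h_B, Z.hh]
  · exact Z.he a c

theorem repr_h (a : ι) (v : L) (j : D.Δ ⊕ ι) :
    Z.B.repr ⁅Z.h a, v⁆ j = D.cv a (D.wt j) * Z.B.repr v j := by
  classical
  have : (Z.B.coord j).comp (LieAlgebra.ad ℤ L (Z.h a)) = D.cv a (D.wt j) • Z.B.coord j :=
    Z.B.ext fun i => by
      simp only [LinearMap.comp_apply, LieAlgebra.ad_apply, hB, map_smul, Basis.coord_apply,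
        Basis.repr_self, LinearMap.smul_apply, Finsupp.single_apply]
      split_ifs with h
      · rw [h]
      · simp
  exact LinearMap.congr_fun this v

theorem weight {v : L} {l : Λ} (h : ∀ i ∈ D.Δ, ⁅Z.h i, v⁆ = D.cv i l • v) :
    v ∈ Vs Z.B D.wt {l} := fun j e => sub_eq_zero.1 (D.nd _ fun i hi => by
  have h1 := repr_h Z i v j
  rw [h i hi, map_smul, Finsupp.smul_apply, smul_eq_mul] at h1
  rw [map_sub, mul_right_cancel₀ e h1, sub_self])

theorem h_mem (a : ι) : Z.h a ∈ Vs Z.B D.wt {0} := weight Z fun i _ => by simp [Z.hh]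

theorem lie_wt (i j : D.Δ ⊕ ι) : ⁅Z.B i, Z.B j⁆ ∈ Vs Z.B D.wt {D.wt i + D.wt j} :=
  weight Z fun a _ => by rw [leibniz_lie, hB, hB, smul_lie, lie_smul, map_add, add_smul]

theorem e0 (a c : ι) (h : c ≠ D.ng a) (h' : ∀ d, D.rt d ≠ D.rt c + D.rt a) :
    ⁅Z.B (.inr a), Z.B (.inr c)⁆ = 0 := by
  refine Vs.eq_zero (lie_wt Z _ _) ?_
  rintro (i | d) e
  · refine h (D.inj ?_)
    rw [D.rt_ng]
    exact eq_neg_of_add_eq_zero_right (Eq.symm e)
  · exact h' d (Eq.trans e (add_comm _ _))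

theorem h_span {u : L} (h : u ∈ Vs Z.B D.wt {0}) : ∃ f : ι → ℤ, u = ∑ i ∈ D.Δ, f i • Z.h i := by
  classical
  refine Vs.induction (p := fun u => ∃ f : ι → ℤ, u = ∑ i ∈ D.Δ, f i • Z.h i) h ⟨0, by simp⟩ ?_ ?_
  · rintro (i | a) c e
    · exact ⟨Pi.single i.1 c, by simp [Pi.single_apply, Z.h_B, ite_smul]⟩
    · exact (D.rt_ne a e).elim
  · rintro _ _ ⟨f, rfl⟩ ⟨g, rfl⟩
    exact ⟨f + g, by simp [add_smul, sum_add_distrib]⟩

theorem h_ext (u : L) (h : u ∈ Vs Z.B D.wt {0}) (h' : ∀ c, ⁅u, Z.B (.inr c)⁆ = 0) : u = 0 := by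
  obtain ⟨f, rfl⟩ := h_span Z h
  have h1 : ∀ c, (∑ i ∈ D.Δ, f i • D.cv i) (D.rt c) = 0 := fun c => by
    have h2 := congrArg (fun w => Z.B.repr w (.inr c)) (h' c)
    simpa [sum_lie, Z.he] using h2
  have h2 : ∑ i ∈ D.Δ, f i • D.cv i = 0 := AddMonoidHom.ext fun l => by
    rw [← D.sum l, map_sum]
    simp only [map_zsmul, h1, smul_zero, sum_const_zero, AddMonoidHom.zero_apply]
  exact sum_eq_zero fun i hi => by rw [D.nd' f h2 i hi, zero_smul]

theorem h_rf (a c : ι) : Z.h (D.rf a c) = Z.h c - D.cv c (D.rt a) • Z.h a := by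
  refine sub_eq_zero.1 (h_ext Z _ (sub_mem (h_mem Z _) (sub_mem (h_mem Z _)
    (Submodule.smul_mem _ _ (h_mem Z _)))) fun d => ?_)
  simp only [sub_lie, smul_lie, Z.he, D.cv_rf, AddMonoidHom.sub_apply, AddMonoidHom.smul_apply]
  module

theorem h_ng (a : ι) : Z.h (D.ng a) = -Z.h a := by
  rw [← Z.eng, D.ng_ng, ← lie_skew, Z.eng]

theorem prim (F : RDF D) (a : ι) :
    ∃ φ : L →ₗ[ℤ] ℤ, φ (Z.h a) = 1 ∧ ∀ c, φ (Z.B (.inr c)) = 0 := by
  refine F.ind (fun a => ∃ φ : L →ₗ[ℤ] ℤ, φ (Z.h a) = 1 ∧ ∀ c, φ (Z.B (.inr c)) = 0)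
    (fun i hi => ⟨Z.B.coord (.inl ⟨i, hi⟩), ?_, fun c => by simp⟩) ?_ a
  · rw [← Z.h_B ⟨i, hi⟩]
    simp
  · rintro j - a ⟨φ, h1, h2⟩
    refine ⟨φ + φ (Z.h j) • (Z.B.coord (.inr j)).comp (LieAlgebra.ad ℤ L (Z.B (.inr j))), ?_,
      fun c => ?_⟩
    · have h3 := h_rf Z j (D.rf j a)
      rw [D.rf_rf] at h3
      rw [← h1, h3]
      simp only [LinearMap.add_apply, LinearMap.smul_apply, LinearMap.comp_apply,
        LieAlgebra.ad_apply, ← lie_skew (Z.B (.inr j)), Z.he, map_neg, map_smul, map_sub,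
        Basis.coord_apply, Basis.repr_self, Finsupp.single_eq_same, smul_eq_mul]
      ring
    · have h3 : Z.B.repr ⁅Z.B (.inr j), Z.B (.inr c)⁆ (.inr j) = 0 :=
        Vs.coord (lie_wt Z _ _) fun e => D.rt_ne c (left_eq_add.1 e)
      simp [h2, h3]

theorem d_zero (a : ι) : Z.d a 0 = 1 := by simpa using Z.fac a 0

theorem d_one (a : ι) : Z.d a 1 = LieAlgebra.ad ℤ L (Z.B (.inr a)) := by simpa using Z.fac a 1

theorem d_sp (a : ι) (k : ℕ) : Z.d a k ∈ Sp Z.B D.wt {(k : ℤ) • D.rt a} := by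
  have h1 : LieAlgebra.ad ℤ L (Z.B (.inr a)) ∈ Sp Z.B D.wt {D.rt a} := fun i j e =>
    sub_eq_of_eq_add (lie_wt Z (.inr a) j i e)
  have h2 : ∀ k : ℕ, LieAlgebra.ad ℤ L (Z.B (.inr a)) ^ k ∈ Sp Z.B D.wt {(k : ℤ) • D.rt a} := by
    intro k
    induction k with
    | zero => exact Sp.one (by simp)
    | succ k ih =>
      rw [pow_succ]
      refine Sp.mul ih h1 ?_
      rintro _ rfl _ rfl
      simp [add_smul]
  intro i j e
  refine h2 k i j ?_
  rw [← Z.fac]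
  simpa [Nat.factorial_ne_zero] using e

theorem wt_bd (F : RDF D) (a : ι) (j : D.Δ ⊕ ι) :
    -3 ≤ D.cv a (D.wt j) ∧ D.cv a (D.wt j) ≤ 3 := by
  rcases j with i | c
  · simp
  · exact F.bound a c

theorem d_kill (F : RDF D) (a : ι) (k : ℕ) {v : L} {l : Λ} (h : v ∈ Vs Z.B D.wt {l})
    (hl : 3 < D.cv a l + 2 * k) : Z.d a k v = 0 := by
  refine Vs.eq_zero (C := {l + (k : ℤ) • D.rt a}) (Sp.apply (d_sp Z a k) h ?_) fun j e => ?_
  · rintro _ rfl _ rfl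
    rfl
  · have h1 := (wt_bd F a j).2
    rw [show D.wt j = _ from e, map_add, map_zsmul, D.two, smul_eq_mul] at h1
    omega

theorem d_van (F : RDF D) (a : ι) (k : ℕ) (hk : 4 ≤ k) : Z.d a k = 0 :=
  Z.B.ext fun j => d_kill Z F a k (Vs.basis rfl) (by have := (wt_bd F a j).1; omega)

theorem d2_ng (a : ι) : Z.d a 2 (Z.B (.inr (D.ng a))) = -Z.B (.inr a) := by
  refine cancel Z two_ne_zero ?_
  have := LinearMap.congr_fun (Z.fac a 2) (Z.B (.inr (D.ng a)))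
  rw [pow_two, End.mul_apply, LieAlgebra.ad_apply, LieAlgebra.ad_apply, Z.eng, ← lie_skew, Z.he,
    D.two] at this
  rw [smul_neg, ← natCast_zsmul (Z.B _)]
  exact this

theorem d_mul (a : ι) (i j : ℕ) : Z.d a i * Z.d a j = (i + j).choose i • Z.d a (i + j) := by
  refine cancelE Z (mul_ne_zero i.factorial_ne_zero j.factorial_ne_zero) ?_
  rw [← smul_mul_smul_comm, Z.fac, Z.fac, ← pow_add, ← Z.fac, smul_smul,
    ← Nat.add_choose_mul_factorial_mul_factorial, Nat.choose_symm_add]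
  congr 1
  ring

theorem d_lie (a : ι) (k : ℕ) (u v : L) :
    Z.d a k ⁅u, v⁆ = ∑ p ∈ antidiagonal k, ⁅Z.d a p.1 u, Z.d a p.2 v⁆ := by
  refine cancel Z k.factorial_ne_zero ?_
  rw [← LinearMap.smul_apply, Z.fac, LieAlgebra.ad_pow_lie, smul_sum]
  refine sum_congr rfl fun p hp => ?_
  rw [← Z.fac, ← Z.fac, LinearMap.smul_apply, LinearMap.smul_apply, nsmul_lie, lie_nsmul,
    smul_smul, smul_smul, ← mem_antidiagonal.1 hp, ← Nat.add_choose_mul_factorial_mul_factorial,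
    Nat.choose_symm_add]

theorem xz7 (F : RDF D) (a : ι) (t : ℤ) : Z.xz a t = ∑ k ∈ range 7, t ^ k • Z.d a k := by
  simp [ZD.xz, sum_range_succ, d_van Z F a]

theorem xz_lie (F : RDF D) (a : ι) (t : ℤ) (u v : L) :
    Z.xz a t ⁅u, v⁆ = ⁅Z.xz a t u, Z.xz a t v⁆ := by
  have h := tri (fun i j => ⁅t ^ i • Z.d a i u, t ^ j • Z.d a j v⁆)
    (fun i j e => by simp [d_van Z F a i e]) fun i j e => by simp [d_van Z F a j e]
  conv_lhs => rw [xz7 Z F]
  simp only [ZD.xz, LinearMap.sum_apply, LinearMap.smul_apply, sum_lie, lie_sum]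
  rw [sum_comm, ← h]
  refine sum_congr rfl fun k _ => ?_
  rw [d_lie, smul_sum]
  refine sum_congr rfl fun p hp => ?_
  rw [smul_lie, lie_smul, smul_smul, ← pow_add, mem_antidiagonal.1 hp]

theorem xz_add (F : RDF D) (a : ι) (t u : ℤ) : Z.xz a t * Z.xz a u = Z.xz a (t + u) := by
  have h := tri (fun i j => (t ^ i • Z.d a i) * (u ^ j • Z.d a j))
    (fun i j e => by simp [d_van Z F a i e]) fun i j e => by simp [d_van Z F a j e]
  conv_rhs => rw [xz7 Z F]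
  rw [ZD.xz, ZD.xz, sum_mul_sum, ← h]
  refine sum_congr rfl fun k _ => ?_
  rw [(Commute.all t u).add_pow', sum_smul]
  refine sum_congr rfl fun p hp => ?_
  rw [smul_mul_smul_comm, d_mul, mem_antidiagonal.1 hp, smul_comm, smul_assoc]

theorem xz_zero (a : ι) : Z.xz a 0 = 1 := by simp [ZD.xz, sum_range_succ, d_zero]

theorem xz_app (a : ι) (t : ℤ) (v : L) : Z.xz a t v =
    v + t • ⁅Z.B (.inr a), v⁆ + t ^ 2 • Z.d a 2 v + t ^ 3 • Z.d a 3 v := by
  simp only [ZD.xz, sum_range_succ, range_zero, sum_empty, zero_add, d_zero, d_one, pow_zero,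
    pow_one, one_smul, LinearMap.add_apply, LinearMap.smul_apply, End.one_apply,
    LieAlgebra.ad_apply]

theorem xz_h (F : RDF D) (a c : ι) (t : ℤ) :
    Z.xz a t (Z.h c) = Z.h c - (t * D.cv c (D.rt a)) • Z.B (.inr a) := by
  rw [xz_app, d_kill Z F a 2 (h_mem Z c) (by simp), d_kill Z F a 3 (h_mem Z c) (by simp),
    ← lie_skew, Z.he]
  module

theorem xz_e (F : RDF D) (a : ι) (t : ℤ) : Z.xz a t (Z.B (.inr a)) = Z.B (.inr a) := by
  rw [xz_app, d_kill Z F a 2 (Vs.basis rfl) (by simp [D.two]),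
    d_kill Z F a 3 (Vs.basis rfl) (by simp [D.two])]
  simp

theorem xz_ng (F : RDF D) (a : ι) (t : ℤ) : Z.xz (D.ng a) t (Z.B (.inr a)) =
    Z.B (.inr a) - t • Z.h a - t ^ 2 • Z.B (.inr (D.ng a)) := by
  have h1 := d2_ng Z (D.ng a)
  rw [D.ng_ng] at h1
  rw [xz_app, h1, d_kill Z F _ 3 (Vs.basis rfl) (by simp [D.two, D.cv_ng]), ← lie_skew, Z.eng]
  module

theorem mon_h (F : RDF D) (a c : ι) : Z.nz a (Z.h c) = Z.h (D.rf a c) := by
  simp only [ZD.nz, End.mul_apply, xz_h Z F, map_sub, map_smul, xz_ng Z F, xz_e Z F, h_rf, D.two,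
    D.rt_ng, map_neg]
  module

theorem nz_lie (F : RDF D) (a : ι) (u v : L) : Z.nz a ⁅u, v⁆ = ⁅Z.nz a u, Z.nz a v⁆ := by
  simp only [ZD.nz, End.mul_apply, xz_lie Z F]

theorem single {v : L} {d : ι} (h : v ∈ Vs Z.B D.wt {D.rt d}) :
    ∃ k : ℤ, v = k • Z.B (.inr d) := by
  refine Vs.induction (p := fun v => ∃ k : ℤ, v = k • Z.B (.inr d)) h ⟨0, by simp⟩ ?_ ?_
  · rintro (i | a) c e
    · exact (D.rt_ne d (Eq.symm e)).elim
    · exact ⟨c, by rw [D.inj e]⟩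
  · rintro _ _ ⟨k, rfl⟩ ⟨l, rfl⟩
    exact ⟨k + l, (add_smul _ _ _).symm⟩

theorem mon_e (F : RDF D) (a c : ι) : ∃ k : ℤ, k * k = 1 ∧
    Z.nz a (Z.B (.inr c)) = k • Z.B (.inr (D.rf a c)) ∧
    ∀ j, Z.nz a * Z.d c j = k ^ j • Z.d (D.rf a c) j * Z.nz a := by
  obtain ⟨k, hk⟩ := single Z (weight Z (v := Z.nz a (Z.B (.inr c))) (l := D.rt (D.rf a c))
    fun i _ => by
      conv_lhs => rw [← D.rf_rf a i, ← mon_h Z F, ← nz_lie Z F, Z.he, map_smul]
      congr 1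
      simp only [D.cv_rf, D.rt_rf, map_sub, map_zsmul, AddMonoidHom.sub_apply,
        AddMonoidHom.smul_apply, smul_eq_mul]
      ring)
  have h1 : Z.xz a (-1) * Z.xz (D.ng a) 1 * Z.xz a (-1) * Z.nz a = 1 := by
    rw [ZD.nz, mul_assoc (Z.xz a 1), mul_assoc _ (Z.xz a (-1)), ← mul_assoc (Z.xz a (-1)) (Z.xz a 1),
      xz_add Z F, neg_add_cancel, xz_zero, one_mul, mul_assoc, ← mul_assoc (Z.xz (D.ng a) 1),
      xz_add Z F, add_neg_cancel, xz_zero, one_mul, xz_add Z F, neg_add_cancel, xz_zero]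
  have h2 := congrArg (fun f : End ℤ L => Z.B.repr (f (Z.B (.inr c))) (.inr c)) h1
  simp only [End.mul_apply _ (Z.nz a), hk, map_smul, Finsupp.smul_apply, smul_eq_mul,
    End.one_apply, Basis.repr_self, Finsupp.single_eq_same] at h2
  refine ⟨k, by rcases Int.eq_one_or_neg_one_of_mul_eq_one h2 with e | e <;> simp [e], hk,
    fun j => cancelE Z j.factorial_ne_zero ?_⟩
  rw [← mul_smul_comm, ← smul_mul_assoc, smul_comm, Z.fac, Z.fac]
  induction j with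
  | zero => simp
  | succ j ih =>
    rw [pow_succ', ← mul_assoc, show Z.nz a * LieAlgebra.ad ℤ L (Z.B (.inr c)) =
      k • LieAlgebra.ad ℤ L (Z.B (.inr (D.rf a c))) * Z.nz a from LinearMap.ext fun v => by
        simp [nz_lie Z F, hk], mul_assoc, ih, ← mul_assoc, smul_mul_smul_comm, ← pow_succ',
      ← pow_succ']

end Zf

open Zf in
theorem zf : S_ZF := fun _ _ _ _ _ _ Z F =>
  ⟨h_mem Z, e0 Z, lie_wt Z, h_ext Z, h_rf Z, prim Z F, d_zero Z, d_one Z, d_van Z F, d_sp Z,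
    d2_ng Z, d_mul Z, d_lie Z, mon_h Z F, mon_e Z F⟩

end Pool.Agent.MP_983df8_al.CH

end
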