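import Mathlib.Algebra.AffineMonoid.Basic
import Mathlib.Algebra.Lie.Killing
import Mathlib.LinearAlgebra.RootSystem.CartanMatrix
import Pool.Agent.MP_983df8_al.ch.TOP
import Pool.Agent.MP_983df8_al.ch.RDF
import Pool.Agent.MP_983df8_al.ch.ZF
import Pool.Agent.MP_983df8_al.ch.Bc
import Pool.Agent.MP_983df8_al.ch.KN

-- ======== part 0: formerly Pool.Agent.MP_983df8_al.ch.RDM
section MrgPart0

/-! From a root pairing with a base to a root datum in coordinates. -/

noncomputable section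

namespace Pool.Agent.MP_983df8_al.CH

namespace RDM

open Module

variable {ι M N : Type} [AddCommGroup M] [Module ℚ M] [AddCommGroup N] [Module ℚ N]
  (P : RootPairing ι ℚ M N) [P.IsCrystallographic] (b : P.Base)

/-- coroots as integral functionals on the root lattice -/
def cv (a : ι) : P.rootSpan ℤ →+ ℤ := (P.coroot'In ℤ a).toAddMonoidHom

theorem cv_cast (a : ι) (x : P.rootSpan ℤ) :
    (cv P a x : ℚ) = P.toLinearMap (x : M) (P.coroot a) :=
  P.algebraMap_coroot'In_apply ℤ a x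

theorem cv_rt (a c : ι) : cv P a (P.rootSpanMem ℤ c) = P.pairingIn ℤ c a := rfl

theorem cast_pair (a c : ι) : (P.pairingIn ℤ c a : ℚ) = P.pairing c a :=
  P.algebraMap_pairingIn ℤ c a

variable {P}

open Classical in
/-- coordinates on the root lattice -/
def co (i : ι) : P.rootSpan ℤ →+ ℤ :=
  if h : i ∈ b.support then (b.toWeightBasisInt.coord ⟨i, h⟩).toAddMonoidHom else 0

omit [P.IsCrystallographic]

theorem co_val (i : b.support) (l : P.rootSpan ℤ) : co b i l = b.toWeightBasisInt.repr l i := by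
  simp [co]

theorem bas (i : b.support) : b.toWeightBasisInt i = P.rootSpanMem ℤ i :=
  Subtype.ext (b.coe_toWeightBasisInt_apply i)

theorem sum_co (l : P.rootSpan ℤ) : ∑ i ∈ b.support, co b i l • P.rootSpanMem ℤ i = l := by
  rw [← Finset.sum_coe_sort]
  simp only [co_val, ← bas]
  exact b.toWeightBasisInt.sum_repr l

theorem co_sum (f : ι → ℤ) (l : P.rootSpan ℤ) (h : (l : M) = ∑ j ∈ b.support, f j • P.root j)
    (i : b.support) : co b i l = f i := by
  have e : l = ∑ j : b.support, f j • b.toWeightBasisInt j := Subtype.ext (by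
    rw [h, ← Finset.sum_coe_sort]
    simp)
  rw [co_val, e, b.toWeightBasisInt.repr_sum_self]

theorem root_eq (a : ι) : P.root a = ∑ j ∈ b.support, co b j (P.rootSpanMem ℤ a) • P.root j := by
  have := congrArg (P.rootSpan ℤ).subtype (sum_co b (P.rootSpanMem ℤ a))
  rw [map_sum] at this
  simpa using this.symm

end RDM

open RDM in
theorem rdm : S_RDM := by
  intro ι M N _ _ _ _ _ P _ _ _ _ b hb
  have inj : Function.Injective (P.rootSpanMem ℤ) := fun a c e =>
    P.root.injective (congrArg Subtype.val e)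
  have li : ∀ a c, c ≠ a → c ≠ P.reflectionPerm a a → P.root c ≠ P.root a ∧ P.root c ≠ -P.root a :=
    fun a c h h' => ⟨fun e => h (P.root.injective e), fun e => h' (P.root_eq_neg_iff.1 e)⟩
  refine ⟨P.rootSpan ℤ, inferInstance,
    { rt := P.rootSpanMem ℤ
      cv := cv P
      Δ := b.support
      co := co b
      ng := fun a => P.reflectionPerm a a
      rf := fun a c => P.reflectionPerm a c
      bot := fun a c => P.chainBotCoeff a c
      fin := inferInstance
      inj := inj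
      rt_ng := fun a => P.rootSpanMem_reflectionPerm_self ℤ a
      cv_ng := fun a => ?_
      two := fun a => P.pairingIn_same ℤ a
      rt_rf := fun a c => ?_
      cv_rf := fun a c => ?_
      sum := sum_co b
      co_self := fun i hi => ?_
      co_ne := fun i hi j hj h => ?_
      sgn := fun a => ?_
      nd := fun l h => ?_
      nd' := fun f h i hi => ?_
      pair := fun a c h h' =>
        P.pairingIn_pairingIn_mem_set_of_isCrystal_of_isRed' c a (li a c h h').1 (li a c h h').2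
      str := fun a c h h' k => ?_
      conn := fun p i hi h h' j hj => ?_
      rank := hb }, rfl, fun a c => rfl, fun a c => rfl, fun a => ?_, fun a => by simp,
      fun a c d h => congrArg Subtype.val h⟩
  · ext x
    refine Int.cast_injective (α := ℚ) ?_
    simp [cv_cast]
  · refine Subtype.ext ?_
    simp [cv_rt, P.reflection_apply_root, ← cast_pair, Int.cast_smul_eq_zsmul]
  · ext x
    refine Int.cast_injective (α := ℚ) ?_
    simp [cv_cast, cv_rt, cast_pair, P.coreflection_apply_coroot]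
  · rw [co_val b ⟨i, hi⟩, ← bas b ⟨i, hi⟩]
    simp
  · rw [co_val b ⟨i, hi⟩, ← bas b ⟨j, hj⟩, Module.Basis.repr_self, Finsupp.single_eq_of_ne]
    exact fun e => h (congrArg Subtype.val e)
  · obtain ⟨f, -, s, e⟩ := b.exists_root_eq_sum_int a
    refine s.imp (fun s i hi => ?_) fun s i hi => ?_ <;>
      rw [co_sum b f (P.rootSpanMem ℤ a) e ⟨i, hi⟩] <;> exact s.le i
  · refine Subtype.ext (P.toPerfPair.injective ?_)
    refine b.toCoweightBasis.ext fun i => ?_
    have := cv_cast P i l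
    rw [h i i.2] at this
    simpa using this.symm
  · have z : ∑ i : b.support, (f i : ℚ) • P.coroot i = 0 := by
      refine P.flip.toPerfPair.injective (b.toWeightBasis.ext fun j => ?_)
      have := congrArg (fun g : P.rootSpan ℤ →+ ℤ => (g (P.rootSpanMem ℤ j) : ℚ)) h
      rw [← Finset.sum_coe_sort] at this
      simpa [cv_rt, cast_pair] using this
    exact Int.cast_injective (α := ℚ) (by
      simpa using Fintype.linearIndependent_iff.1 b.linearIndepOn_coroot _ z ⟨i, hi⟩)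
  · have l : LinearIndependent ℚ ![P.root a, P.root c] :=
      RootPairing.IsReduced.linearIndependent P h.symm fun e =>
        (li a c h h').2 (by rw [e, neg_neg])
    have e := P.chainBotCoeff_sub_chainTopCoeff l
    have := P.root_add_zsmul_mem_range_iff l (z := k)
    rw [Set.mem_Icc] at this
    rw [cv_rt, ← e, sub_sub_cancel, ← this]
    exact exists_congr fun d => Subtype.ext_iff
  · exact b.induction_on_cartanMatrix (fun i => p i) (i := ⟨i, hi⟩) (j := ⟨j, hj⟩) h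
      fun i j h1 h2 => h' i i.2 j j.2 h1 h2
  · rw [b.isPos_iff, RootPairing.Base.height_eq_sum (root_eq b a)]
    simp [RD.pos, RD.ht, Int.lt_iff_add_one_le]

end Pool.Agent.MP_983df8_al.CH

end

end MrgPart0

-- ======== part 1: formerly Pool.Agent.MP_983df8_al.ch.ZG
section MrgPart1

/-! Chevalley groups: the normalised Killing form over the integers. -/

noncomputable section

namespace Pool.Agent.MP_983df8_al.CH

open Module LieModule

namespace ZGa

variable {ι Λ L : Type} [AddCommGroup Λ] [LieRing L] {D : RD ι Λ} (Z : ZD D L)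

theorem hB (a : ι) (j : D.Δ ⊕ ι) : ⁅Z.h a, Z.B j⁆ = D.cv a (D.wt j) • Z.B j := by
  rcases j with i | c
  · rw [Z.h_B, Z.hh, RD.wt_inl, map_zero, zero_smul]
  · exact Z.he a c

theorem kwt (i j : D.Δ ⊕ ι) (h : killingForm ℤ L (Z.B i) (Z.B j) ≠ 0) : D.wt i + D.wt j = 0 :=
  D.nd _ fun k _ => by
    have e := traceForm_apply_lie_apply' ℤ L L (Z.h k) (Z.B i) (Z.B j)
    rw [hB, hB, map_smul, map_smul, LinearMap.smul_apply, smul_eq_mul, smul_eq_mul,
      eq_neg_iff_add_eq_zero, ← add_mul] at e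
    rw [map_add]
    exact (mul_eq_zero.1 e).resolve_right h

/-- the value on a pair of opposite root vectors -/
def ka (a : ι) : ℤ := killingForm ℤ L (Z.B (.inr a)) (Z.B (.inr (D.ng a)))

theorem khh (a c : ι) : killingForm ℤ L (Z.h a) (Z.h c) = D.cv c (D.rt a) * ka Z a := by
  rw [← Z.eng a, killingForm, traceForm_apply_lie_apply, ← lie_skew, Z.he, D.rt_ng,
    (D.cv c).map_neg, neg_smul, neg_neg, map_smul, smul_eq_mul, ka]

theorem ka_ne (a : ι) : ka Z a ≠ 0 := fun e => by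
  classical
  have := D.fin
  have := Fintype.ofFinite (D.Δ ⊕ ι)
  have k := khh Z a a
  rw [e, mul_zero, killingForm, traceForm_apply_apply, LinearMap.trace_eq_matrix_trace ℤ Z.B,
    Matrix.trace] at k
  have v : ∀ j, (LinearMap.toMatrix Z.B Z.B (toEnd ℤ L L (Z.h a) ∘ₗ toEnd ℤ L L (Z.h a))).diag j =
      D.cv a (D.wt j) ^ 2 := fun j => by
    simp [LinearMap.toMatrix_apply, hB, sq]
  simp only [v] at k
  have := (Finset.sum_eq_zero_iff_of_nonneg fun j _ => sq_nonneg _).1 k (.inr a) (Finset.mem_univ _)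
  rw [RD.wt_inr, D.two] at this
  norm_num at this

theorem ka_dvd (r : RDF D) {o : ι} (t : TopF D o) (a : ι) : ka Z o ∣ ka Z a := by
  obtain ⟨l, l0, hl⟩ := r.len
  have e := r.cls (fun a => ka Z a * l a) (fun a c h => by
    have x := hl a c
    have y : D.cv c (D.rt a) * ka Z a = D.cv a (D.rt c) * ka Z c := by
      rw [← khh, ← khh, killingForm, traceForm_comm]
    have z : D.cv c (D.rt a) ≠ 0 := left_ne_zero_of_mul (x ▸ mul_ne_zero h (l0 a).ne')
    refine mul_left_cancel₀ (mul_ne_zero h z) ?_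
    linear_combination D.cv a (D.rt c) * l a * y - D.cv a (D.rt c) * ka Z c * x) a o
  obtain ⟨m, hm⟩ := t.long l l0 hl a
  refine ⟨m, mul_right_cancel₀ (l0 a).ne' ?_⟩
  rw [e, hm]
  ring

theorem opp {o : ι} {j : D.Δ ⊕ ι} (h : D.rt o + D.wt j = 0) : j = .inr (D.ng o) := by
  rcases j with i | c
  · exact absurd (by simpa using h) (D.rt_ne o)
  · exact congrArg _ (D.inj ((eq_neg_of_add_eq_zero_right h).trans (D.rt_ng o).symm))

theorem k_dvd (r : RDF D) {o : ι} (t : TopF D o) (i j : D.Δ ⊕ ι) :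
    ka Z o ∣ killingForm ℤ L (Z.B i) (Z.B j) := by
  by_cases h : killingForm ℤ L (Z.B i) (Z.B j) = 0
  · exact h ▸ dvd_zero _
  have w := kwt Z i j h
  rcases i with i | a
  · rcases j with j | c
    · rw [Z.h_B, Z.h_B, khh]
      exact (ka_dvd Z r t i).mul_left _
    · exact absurd (by simpa using w) (D.rt_ne c)
  · rw [opp w]
    exact ka_dvd Z r t a

theorem dskew {g : L →ₗ[ℤ] L →ₗ[ℤ] ℤ} (inv : ∀ u v w, g ⁅u, v⁆ w = g u ⁅v, w⁆) (a : ι) (k : ℕ)
    (u v : L) : g (Z.d a k u) v = (-1) ^ k * g u (Z.d a k v) := by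
  have e : ∀ (x : L) (k : ℕ) (u v : L), g ((LieAlgebra.ad ℤ L x ^ k) u) v =
      (-1) ^ k * g u ((LieAlgebra.ad ℤ L x ^ k) v) := fun x k => by
    induction k with
    | zero => simp
    | succ k ih =>
      intro u v
      rw [pow_succ', End.mul_apply, LieAlgebra.ad_apply, ← lie_skew, map_neg, LinearMap.neg_apply,
        inv, ih, ← pow_succ', pow_succ (LieAlgebra.ad ℤ L x), End.mul_apply, LieAlgebra.ad_apply]
      ring
  have := e (Z.B (.inr a)) k u v
  rw [← Z.fac, LinearMap.smul_apply, LinearMap.smul_apply, map_nsmul, map_nsmul,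
    LinearMap.smul_apply, nsmul_eq_mul, nsmul_eq_mul, mul_left_comm] at this
  exact mul_left_cancel₀ (Nat.cast_ne_zero.2 k.factorial_ne_zero) this

end ZGa

open ZGa in
theorem zg : S_ZG := by
  intro ι Λ L _ _ D Z r F o t
  choose m hm using k_dvd Z r t
  obtain ⟨g, hg⟩ : ∃ g : L →ₗ[ℤ] L →ₗ[ℤ] ℤ, ∀ u v, killingForm ℤ L u v = -ka Z o * g u v := by
    refine ⟨Z.B.constr ℤ fun i => Z.B.constr ℤ fun j => -m i j, fun u v => ?_⟩
    have : killingForm ℤ L = (-ka Z o) • Z.B.constr ℤ fun i => Z.B.constr ℤ fun j => -m i j :=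
      LinearMap.ext_basis Z.B Z.B fun i j => by simp [hm]
    rw [this]
    rfl
  have k0 := neg_ne_zero.2 (ka_ne Z o)
  have inv : ∀ u v w, g ⁅u, v⁆ w = g u ⁅v, w⁆ := fun u v w => mul_left_cancel₀ k0 (by
    rw [← hg, ← hg, killingForm, traceForm_apply_lie_apply])
  have wt : ∀ i j, g (Z.B i) (Z.B j) ≠ 0 → D.wt i + D.wt j = 0 := fun i j h =>
    kwt Z i j (hg _ _ ▸ mul_ne_zero k0 h)
  refine ⟨g, fun u v => mul_left_cancel₀ k0 (by rw [← hg, ← hg, killingForm, traceForm_comm]), inv,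
    wt, fun a k u v hk => ?_, fun v => ?_, fun γ u v => mul_left_cancel₀ k0 (by
      rw [← hg, ← hg, LieAlgebra.killingForm_of_equiv_apply])⟩
  · have e : ∀ p ∈ Finset.HasAntidiagonal.antidiagonal k, g (Z.d a p.1 u) (Z.d a p.2 v) =
        (-1) ^ p.1 * k.choose p.1 * g u (Z.d a k v) := fun p hp => by
      rw [dskew Z inv, ← End.mul_apply, F.d_mul, Finset.HasAntidiagonal.mem_antidiagonal.1 hp,
        LinearMap.smul_apply, map_nsmul, nsmul_eq_mul, mul_assoc]
    rw [Finset.sum_congr rfl e, ← Finset.sum_mul,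
      Finset.Nat.sum_antidiagonal_eq_sum_range_succ_mk,
      Int.alternating_sum_range_choose_of_ne (by omega), zero_mul]
  · refine LinearMap.congr_fun (g := (g (Z.B (.inr o))).smulRight (Z.B (.inr o)))
      (Z.B.ext fun j => ?_) v
    rw [LinearMap.smulRight_apply]
    by_cases c : j = .inr (D.ng o)
    · have : g (Z.B (.inr o)) (Z.B (.inr (D.ng o))) = -1 := mul_left_cancel₀ k0 (by
        rw [← hg, neg_mul_neg, mul_one, ka])
      rw [c, F.d2_ng, this, neg_one_smul]
    · rw [not_not.1 fun h => c (opp (wt (.inr o) j h)), zero_smul]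
      refine Vs.eq_zero (Sp.basis (F.d_sp o 2) j) fun i e => ?_
      have e := congrArg (D.cv o) (Set.mem_singleton_iff.1 e)
      rw [map_sub, map_zsmul, D.two, smul_eq_mul] at e
      have a : D.cv o (D.wt i) ≤ 2 := by
        rcases i with i | a
        · simp
        · by_cases h : a = o
          · exact h ▸ (D.two a).le
          · exact (t.le_one a h).trans one_le_two
      have b : -1 ≤ D.cv o (D.wt j) := by
        rcases j with j | a
        · simp
        · exact t.ge_one a fun h => c (congrArg _ h)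
      omega

end Pool.Agent.MP_983df8_al.CH

end

end MrgPart1

-- ======== part 2: formerly Pool.Agent.MP_983df8_al.ch.ZS
section MrgPart2

/-! A graph automorphism over the integers. -/

noncomputable section

namespace Pool.Agent.MP_983df8_al.CH

open Subgroup Module TensorProduct

namespace ZSa

variable {ι Λ L : Type} [AddCommGroup Λ] [LieRing L] {D : RD ι Λ} {Z : ZD D L}
  {τ : Equiv.Perm ι} {γ : L ≃ₗ⁅ℤ⁆ L} {ε : ι → ℤ}

theorem smul_inj (Z : ZD D L) {n : ℤ} (hn : n ≠ 0) {u v : L} (h : n • u = n • v) : u = v :=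
  Z.B.ext_elem fun j => by
    have := congrArg (fun w => Z.B.repr w j) h
    simp only [map_smul, Finsupp.smul_apply, smul_eq_mul] at this
    exact mul_left_cancel₀ hn this

theorem coef_inj (Z : ZD D L) {m n : ℤ} {j : D.Δ ⊕ ι} (h : m • Z.B j = n • Z.B j) : m = n := by
  simpa using congrArg (fun w => Z.B.repr w j) h

theorem lie_h (hv : ∀ a, ε a = 1 ∨ ε a = -1)
    (he : ∀ a, γ (Z.B (.inr a)) = ε a • Z.B (.inr (τ a))) (a c : ι) :
    ⁅γ (Z.h a), Z.B (.inr (τ c))⁆ = D.cv a (D.rt c) • Z.B (.inr (τ c)) := by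
  have h := congrArg γ (Z.he a c)
  rw [LieEquiv.map_lie, map_zsmul, he, lie_zsmul, smul_comm] at h
  exact smul_inj Z (by rcases hv c with e | e <;> simp [e]) h

theorem h_eq (he : ∀ a, γ (Z.B (.inr a)) = ε a • Z.B (.inr (τ a))) (a : ι) :
    γ (Z.h a) = (ε a * ε (D.ng a)) • ⁅Z.B (.inr (τ a)), Z.B (.inr (τ (D.ng a)))⁆ := by
  rw [← Z.eng, LieEquiv.map_lie, he, he, zsmul_lie, lie_zsmul, smul_smul]

theorem tau_ng (hF : ZF Z) (hv : ∀ a, ε a = 1 ∨ ε a = -1)
    (he : ∀ a, γ (Z.B (.inr a)) = ε a • Z.B (.inr (τ a))) (a : ι) :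
    τ (D.ng a) = D.ng (τ a) := by
  by_contra c
  have h := lie_h hv he a a
  rw [h_eq he, D.two] at h
  by_cases e : ∃ d, D.rt d = D.rt (τ (D.ng a)) + D.rt (τ a)
  · obtain ⟨d, e⟩ := e
    obtain ⟨n, -, hn⟩ := Z.ee _ _ d e
    rw [hn, zsmul_lie, zsmul_lie] at h
    have m : (2 : ℤ) • Z.B (.inr (τ a)) ∈ Vs Z.B D.wt {D.wt (.inr d) + D.wt (.inr (τ a))} := by
      rw [← h]
      exact Submodule.smul_mem _ _ (Submodule.smul_mem _ _ (hF.lie_wt _ _))
    have := m (.inr (τ a)) (by simp)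
    simp only [RD.wt_inr, Set.mem_singleton_iff, right_eq_add] at this
    exact D.rt_ne d this
  · rw [hF.e0 _ _ c fun d f => e ⟨d, f⟩, smul_zero, zero_lie] at h
    have : (0 : ℤ) = 2 := coef_inj Z (j := .inr (τ a)) (by rw [← h, zero_smul])
    omega

theorem eps_ng (hF : ZF Z) (hv : ∀ a, ε a = 1 ∨ ε a = -1)
    (he : ∀ a, γ (Z.B (.inr a)) = ε a • Z.B (.inr (τ a))) (a : ι) :
    ε a * ε (D.ng a) = 1 := by
  have h := lie_h hv he a a
  rw [h_eq he, D.two, tau_ng hF hv he, Z.eng, zsmul_lie, Z.he, D.two, smul_smul] at h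
  have := coef_inj Z h
  omega

theorem map_h (hF : ZF Z) (hv : ∀ a, ε a = 1 ∨ ε a = -1)
    (he : ∀ a, γ (Z.B (.inr a)) = ε a • Z.B (.inr (τ a))) (a : ι) :
    γ (Z.h a) = Z.h (τ a) := by
  rw [h_eq he, eps_ng hF hv he, tau_ng hF hv he, Z.eng, one_smul]

theorem map_ad (u v : L) (k : ℕ) :
    γ ((LieAlgebra.ad ℤ L u ^ k) v) = (LieAlgebra.ad ℤ L (γ u) ^ k) (γ v) := by
  induction k with
  | zero => simp
  | succ k ih => simp only [pow_succ', End.mul_apply, LieAlgebra.ad_apply, LieEquiv.map_lie, ih]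

theorem map_d (he : ∀ a, γ (Z.B (.inr a)) = ε a • Z.B (.inr (τ a))) (a : ι) (k : ℕ) (v : L) :
    γ (Z.d a k v) = ε a ^ k • Z.d (τ a) k (γ v) := by
  refine smul_inj Z (n := (k.factorial : ℤ)) (by exact_mod_cast k.factorial_ne_zero) ?_
  have f : ∀ c w, (k.factorial : ℤ) • Z.d c k w = (LieAlgebra.ad ℤ L (Z.B (.inr c)) ^ k) w :=
    fun c w => by rw [← Z.fac, LinearMap.smul_apply, natCast_zsmul]
  rw [← map_zsmul, f, smul_comm, f, map_ad, he, map_smul, smul_pow, LinearMap.smul_apply]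

theorem it_lie (n : ℕ) (u v : L) : γ^[n] ⁅u, v⁆ = ⁅γ^[n] u, γ^[n] v⁆ := by
  induction n with
  | zero => rfl
  | succ n ih => simp only [Function.iterate_succ_apply', ih, LieEquiv.map_lie]

theorem it_smul (n : ℕ) (k : ℤ) (v : L) : γ^[n] (k • v) = k • γ^[n] v := by
  induction n with
  | zero => rfl
  | succ n ih => simp only [Function.iterate_succ_apply', ih, map_zsmul]

theorem it_pow (hR : RDF D) (hF : ZF Z) (hv : ∀ a, ε a = 1 ∨ ε a = -1)
    (he : ∀ a, γ (Z.B (.inr a)) = ε a • Z.B (.inr (τ a)))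
    (hs : ∀ i ∈ D.Δ, τ i ∈ D.Δ ∧ γ (Z.B (.inr i)) = Z.B (.inr (τ i))) (n : ℕ) (hn : τ ^ n = 1)
    (v : L) : γ^[n] v = v := by
  have hg : ∀ a, ε (D.ng a) = ε a := fun a => by
    have := eps_ng hF hv he a
    rcases hv a with e | e <;> rw [e] at this ⊢ <;> omega
  have a1 : ∀ m : ℕ, ∀ a, γ^[m] (Z.h a) = Z.h ((τ ^ m) a) := fun m a => by
    induction m with
    | zero => rfl
    | succ m ih => rw [Function.iterate_succ_apply', ih, map_h hF hv he, pow_succ']; rfl
  have a2 : ∀ m : ℕ, ∀ i ∈ D.Δ, (τ ^ m) i ∈ D.Δ ∧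
      γ^[m] (Z.B (.inr i)) = Z.B (.inr ((τ ^ m) i)) := fun m i hi => by
    induction m with
    | zero => exact ⟨hi, rfl⟩
    | succ m ih =>
      rw [Function.iterate_succ_apply', ih.2, pow_succ']
      exact hs _ ih.1
  have a3 : ∀ m : ℕ, ∀ a, ∃ k : ℤ, γ^[m] (Z.B (.inr a)) = k • Z.B (.inr ((τ ^ m) a)) ∧
      γ^[m] (Z.B (.inr (D.ng a))) = k • Z.B (.inr (D.ng ((τ ^ m) a))) := fun m a => by
    induction m with
    | zero => exact ⟨1, by simp, by simp⟩
    | succ m ih =>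
      obtain ⟨k, k1, k2⟩ := ih
      refine ⟨k * ε ((τ ^ m) a), ?_, ?_⟩
      · rw [Function.iterate_succ_apply', k1, map_zsmul, he, smul_smul, pow_succ']; rfl
      · rw [Function.iterate_succ_apply', k2, map_zsmul, he, smul_smul, hg, tau_ng hF hv he,
          pow_succ']; rfl
  have a4 : ∀ a, D.pos a → γ^[n] (Z.B (.inr a)) = Z.B (.inr a) :=
    hR.ind_add (fun a => γ^[n] (Z.B (.inr a)) = Z.B (.inr a))
      (fun i hi => by simpa [hn] using (a2 n i hi).2) fun j hj a d e p => by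
        obtain ⟨k, k1, k2⟩ := Z.ee j a d e
        refine smul_inj Z (n := k) (by omega) ?_
        rw [← it_smul, ← k2, it_lie, p, (a2 n j hj).2, hn]; rfl
  have a5 : ∀ a, γ^[n] (Z.B (.inr a)) = Z.B (.inr a) := fun a => by
    by_cases p : D.pos a
    · exact a4 a p
    obtain ⟨k, k1, k2⟩ := a3 n a
    rw [hn, Equiv.Perm.one_apply] at k1 k2
    rw [a4 _ ((hR.pos_ng a).2 p)] at k2
    rw [k1, ← coef_inj Z ((one_smul _ _).trans k2), one_smul]
  have a6 : (γ.toLinearEquiv.toLinearMap : End ℤ L) ^ n = 1 := Z.B.ext fun j => by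
    rw [End.pow_apply]
    rcases j with i | a
    · have := a1 n i
      rw [hn, Equiv.Perm.one_apply, ← Z.h_B] at this
      exact this
    · exact a5 a
  have := LinearMap.congr_fun a6 v
  rwa [End.pow_apply] at this

end ZSa

open ZSa in
theorem zs : S_ZS := by
  classical
  intro ι Λ L _ _ D Z τ γ hR hF he hs
  let ε : ι → ℤ := fun a => if γ (Z.B (.inr a)) = Z.B (.inr (τ a)) then 1 else -1
  have hv : ∀ a, ε a = 1 ∨ ε a = -1 := fun a => by
    simp only [ε]; split_ifs <;> simp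
  have he' : ∀ a, γ (Z.B (.inr a)) = ε a • Z.B (.inr (τ a)) := fun a => by
    simp only [ε]
    split_ifs with c
    · rw [c, one_smul]
    · rw [(he a).resolve_left c, neg_smul, one_smul]
  refine ⟨ε, ⟨fun i hi => (hs i hi).1, fun a c => ?_⟩, he', map_h hF hv he', hv, fun a => ?_,
    fun i hi => if_pos (hs i hi).2, map_d he', it_pow hR hF hv he' hs⟩
  · have h := lie_h hv he' a c
    rw [map_h hF hv he', Z.he] at h
    exact coef_inj Z h
  · have := eps_ng hF hv he' a
    rcases hv a with e | e <;> rw [e] at this ⊢ <;> omega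

end Pool.Agent.MP_983df8_al.CH

end

end MrgPart2

-- ======== part 3: formerly Pool.Agent.MP_983df8_al.ch.LEAD
section MrgPart3

/-! Existence of leading terms. -/

noncomputable section

namespace Pool.Agent.MP_983df8_al.CH

open Subgroup Module TensorProduct

namespace LEAD

variable {ι Λ : Type} [AddCommGroup Λ] {D : RD ι Λ}

section A

variable {R V : Type} [CommRing R] [LieRing V] [LieAlgebra R V] (C : CL D R V)

/-- a coordinate of a bracket vanishes when the weight is missing -/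
theorem br_zero {v : V} {μ : Λ} (hv : v ∈ C.vs {l | l ≠ μ}) (i j : D.Δ ⊕ ι)
    (e : D.wt i - D.wt j = μ) : C.B.repr ⁅v, C.B j⁆ i = 0 := by
  have h := C.ad_mem hv i j
  by_contra c
  exact h c e

theorem br_root (v : V) (d : ι) (i j : D.Δ ⊕ ι) (e : D.wt i - D.wt j = D.rt d) :
    C.B.repr ⁅v, C.B j⁆ i = C.B.repr v (.inr d) * C.B.repr ⁅C.e d, C.B j⁆ i := by
  classical
  have hv : v - C.B.repr v (.inr d) • C.e d ∈ C.vs {l | l ≠ D.rt d} := by
    rintro (k | c) hk he
    · exact D.rt_ne d he.symm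
    · have : c = d := D.inj he
      subst this
      simp at hk
  have h := br_zero C hv i j e
  rw [sub_lie, smul_lie, map_sub, map_smul] at h
  simpa [sub_eq_zero] using h

theorem h_lie (c : ι) (j : D.Δ ⊕ ι) : ⁅C.h c, C.B j⁆ = (D.cv c (D.wt j) : R) • C.B j := by
  rcases j with j | a
  · simp [C.h_B, C.hh]
  · exact C.he c a

theorem h_repr (c : ι) (v : V) (i : D.Δ ⊕ ι) :
    C.B.repr ⁅C.h c, v⁆ i = (D.cv c (D.wt i) : R) * C.B.repr v i := by
  classical
  have : (C.B.coord i).comp (LieAlgebra.ad R V (C.h c)) = (D.cv c (D.wt i) : R) • C.B.coord i := by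
    refine C.B.ext fun j => ?_
    simp only [LinearMap.comp_apply, LieAlgebra.ad_apply, h_lie, map_smul, LinearMap.smul_apply,
      Basis.coord_apply, Basis.repr_self, Finsupp.single_apply, smul_eq_mul]
    split_ifs with e
    · rw [e]
    · simp
  simpa using LinearMap.congr_fun this v

/-- the identity of the lowest degree -/
theorem key {η : Λ →+ ℤ} {m : ℤ} {Y : End R V} (hm : 1 ≤ m) (hY : Y ∈ C.sp {l | m ≤ η l})
    (hl : ∀ u v, Y ⁅u, v⁆ = ⁅u, Y v⁆ + ⁅Y u, v⁆ + ⁅Y u, Y v⁆) (c : ι) (i j : D.Δ ⊕ ι)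
    (e : η (D.wt i - D.wt j) = m) :
    (D.cv c (D.wt i - D.wt j) : R) * C.B.repr (Y (C.B j)) i = -C.B.repr ⁅Y (C.h c), C.B j⁆ i := by
  have h := congrArg (fun v => C.B.repr v i) (hl (C.h c) (C.B j))
  have h1 : Y (C.h c) ∈ C.vs {l | m ≤ η l} :=
    Sp.apply hY (C.h_mem c) fun a ha b hb => by
      rw [Set.mem_singleton_iff.1 hb, zero_add]; exact ha
  have h2 : ⁅Y (C.h c), Y (C.B j)⁆ ∈ C.vs {l | 2 * m + η (D.wt j) ≤ η l} :=
    C.lie_mem h1 (Sp.basis hY j) fun a ha b hb => by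
      simp only [Set.mem_ofPred_eq, map_add, map_sub] at ha hb ⊢
      omega
  have h3 : C.B.repr ⁅Y (C.h c), Y (C.B j)⁆ i = 0 := Vs.coord h2 (by
    simp only [Set.mem_ofPred_eq, map_sub] at e ⊢
    omega)
  simp only [h_lie, map_smul, map_add, Finsupp.add_apply, Finsupp.smul_apply, h_repr, h3,
    smul_eq_mul] at h
  rw [map_sub]
  push_cast
  linear_combination -h

/-- leading terms exist over a ring without additive torsion -/
theorem free (tf : ∀ (n : ℤ) (r : R), n ≠ 0 → (n : R) * r = 0 → r = 0) {η : Λ →+ ℤ} {m : ℤ}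
    {y : (End R V)ˣ} (hm : 1 ≤ m) (hy : ∀ u v, y.1 ⁅u, v⁆ = ⁅y.1 u, y.1 v⁆) (hf : C.Fl η m y) :
    ∃ a, C.Ld η m y a := by
  classical
  have := D.fin
  obtain ⟨Y, hYe⟩ : ∃ Y : End R V, Y = y.1 - 1 := ⟨_, rfl⟩
  have hY : Y ∈ C.sp {l | m ≤ η l} := hYe ▸ hf
  have hl : ∀ u v, Y ⁅u, v⁆ = ⁅u, Y v⁆ + ⁅Y u, v⁆ + ⁅Y u, Y v⁆ := fun u v => by
    simp only [hYe, LinearMap.sub_apply, End.one_apply, hy, lie_sub, sub_lie]
    abel
  choose φ h1 h2 using C.prim
  have k2 : ∀ d i j, D.wt i - D.wt j = D.rt d → η (D.rt d) = m →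
      2 * C.B.repr (Y (C.B j)) i =
        -(C.B.repr (Y (C.h d)) (.inr d) * C.B.repr ⁅C.e d, C.B j⁆ i) := fun d i j e e' => by
    have := key C hm hY hl d i j (e ▸ e')
    rw [br_root C _ d i j e, e, D.two] at this
    simpa using this
  have k3 : ∀ d, η (D.rt d) = m →
      2 * φ d (Y (C.e (D.ng d))) = -C.B.repr (Y (C.h d)) (.inr d) := fun d e => by
    have hz : ∀ v : V, (∀ i, C.B.repr v (.inl i) = 0) → φ d v = 0 := fun v hv => by
      rw [← C.B.linearCombination_repr v, Finsupp.linearCombination_apply, Finsupp.sum, map_sum]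
      refine Finset.sum_eq_zero ?_
      rintro (i | c) -
      · simp [hv]
      · simp [h2]
    have := hz ((2 : R) • Y (C.e (D.ng d)) + C.B.repr (Y (C.h d)) (.inr d) • C.h d) fun i => by
      have := k2 d (.inl i) (.inr (D.ng d)) (by simp [D.rt_ng]) e
      rw [C.eng] at this
      simp only [map_add, map_smul, Finsupp.add_apply, Finsupp.smul_apply, smul_eq_mul]
      linear_combination this
    simp only [map_add, map_smul, h1, smul_eq_mul] at this
    linear_combination this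
  obtain ⟨a, ha⟩ : ∃ a : V, ∀ j, C.B.repr a j =
      Sum.elim (fun _ => 0) (fun d => if η (D.rt d) = m then φ d (Y (C.e (D.ng d))) else 0) j :=
    ⟨C.B.repr.symm (Finsupp.equivFunOnFinite.symm _), fun j => by
      rw [LinearEquiv.apply_symm_apply]; rfl⟩
  have hav : a ∈ C.vs {l | η l = m} := by
    rintro (i | d) e
    · exact (e (ha _)).elim
    · by_contra c
      exact e (by rw [ha]; exact if_neg c)
  refine ⟨a, hav, fun i j e => ?_⟩
  by_contra c
  refine e ?_
  rw [← hYe]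
  simp only [LinearMap.sub_apply, LieAlgebra.ad_apply, map_sub, Finsupp.sub_apply]
  by_cases e1 : η (D.wt i - D.wt j) = m
  · by_cases e2 : ∃ d, D.wt i - D.wt j = D.rt d
    · obtain ⟨d, e2⟩ := e2
      have e3 : η (D.rt d) = m := e2 ▸ e1
      refine tf 2 _ (by norm_num) ?_
      rw [br_root C a d i j e2, ha]
      simp only [Sum.elim_inr, if_pos e3]
      push_cast
      linear_combination k2 d i j e2 e3 - C.B.repr ⁅C.e d, C.B j⁆ i * k3 d e3
    · have hv : ∀ v : V, v ∈ C.vs {l | l ≠ D.wt i - D.wt j} := by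
        rintro v (k | d) - he
        · rw [← he] at e1
          simp at e1
          omega
        · exact e2 ⟨d, he.symm⟩
      rw [br_zero C (hv a) i j rfl, sub_zero]
      have : ∃ c ∈ D.Δ, D.cv c (D.wt i - D.wt j) ≠ 0 := by
        by_contra n
        push Not at n
        rw [D.nd _ n] at e1
        simp at e1
        omega
      obtain ⟨c, -, hc⟩ := this
      refine tf _ _ hc ?_
      rw [key C hm hY hl c i j e1, br_zero C (hv _) i j rfl, neg_zero]
  · have e2 : C.B.repr (Y (C.B j)) i = 0 := by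
      by_contra n
      have := hY i j n
      simp only [Set.mem_ofPred_eq] at this c
      omega
    have e3 : C.B.repr ⁅a, C.B j⁆ i = 0 := by
      by_contra n
      exact e1 (C.ad_mem hav i j n)
    rw [e2, e3, sub_zero]

end A

section B

variable {R V K W : Type} [CommRing R] [LieRing V] [LieAlgebra R V] [CommRing K] [LieRing W]
  [LieAlgebra K W]

/-- a reduction map between two Chevalley algebras -/
structure Red (C' : CL D R V) (C : CL D K W) (f : R →+* K) (F : V →+ W) : Prop where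
  surj : Function.Surjective f
  smul : ∀ r v, F (r • v) = f r • F v
  B : ∀ j, F (C'.B j) = C.B j
  lie : ∀ u v, F ⁅u, v⁆ = ⁅F u, F v⁆
  x : ∀ a t v, F ((C'.x a t).1 v) = (C.x a (f t)).1 (F v)

/-- `z` lies over `y` -/
def Lf (F : V →+ W) (z : (End R V)ˣ) (y : (End K W)ˣ) : Prop := ∀ v, F (z.1 v) = y.1 (F v)

variable {C' : CL D R V} {C : CL D K W} {f : R →+* K} {F : V →+ W}

theorem Lf.one : Lf F (1 : (End R V)ˣ) (1 : (End K W)ˣ) := fun _ => rfl

theorem Lf.mul {z z' : (End R V)ˣ} {y y' : (End K W)ˣ} (h : Lf F z y) (h' : Lf F z' y') :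
    Lf F (z * z') (y * y') := fun v => by
  simp only [Units.val_mul, End.mul_apply]
  rw [h, h']

theorem Lf.inv_one {z : (End R V)ˣ} (h : Lf F z (1 : (End K W)ˣ)) :
    Lf F z⁻¹ (1 : (End K W)ˣ) := fun v => by
  have := h ((z⁻¹).1 v)
  rw [← End.mul_apply, ← Units.val_mul, mul_inv_cancel] at this
  exact this.symm

theorem Red.repr (h : Red C' C f F) (v : V) (j : D.Δ ⊕ ι) :
    C.B.repr (F v) j = f (C'.B.repr v j) := by
  classical
  refine Vs.induction (B := C'.B) (wt := D.wt) (C := Set.univ)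
    (p := fun v => C.B.repr (F v) j = f (C'.B.repr v j)) (fun _ _ => trivial) (by simp) ?_ ?_
  · intro k c _
    simp only [h.smul, h.B, map_smul, Basis.repr_self, Finsupp.smul_apply, Finsupp.single_apply,
      smul_eq_mul, map_mul]
    split_ifs <;> simp
  · intro a b ha hb
    simp [ha, hb]

theorem Red.ld (h : Red C' C f F) {η : Λ →+ ℤ} {m : ℤ} {z : (End R V)ˣ} {y : (End K W)ˣ} {a : V}
    (hl : Lf F z y) (ha : C'.Ld η m z a) : C.Ld η m y (F a) := by
  refine ⟨fun j e => ha.1 j fun c => e (by rw [h.repr, c, map_zero]), fun i j e => ?_⟩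
  refine ha.2 i j fun c => e ?_
  have : (y.1 - 1 - LieAlgebra.ad K W (F a)) (C.B j) =
      F ((z.1 - 1 - LieAlgebra.ad R V a) (C'.B j)) := by
    simp only [LinearMap.sub_apply, End.one_apply, LieAlgebra.ad_apply, map_sub, h.lie, h.B]
    rw [hl, h.B]
  rw [this, h.repr, c, map_zero]

theorem Red.base (h : Red C' C f F) {Ψ : Set ι} {y : (End K W)ˣ} (hy : y ∈ C.Ux Ψ) :
    ∃ z ∈ C'.Ux Ψ, Lf F z y := by
  refine C.Ux_induction (p := fun y => ∃ z ∈ C'.Ux Ψ, Lf F z y) hy ⟨1, one_mem _, Lf.one⟩ ?_ ?_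
  · intro a ha t
    obtain ⟨t, rfl⟩ := h.surj t
    exact ⟨C'.x a t, C'.x_mem ha t, h.x a t⟩
  · rintro y y' ⟨z, h1, h2⟩ ⟨z', h3, h4⟩
    exact ⟨z * z', mul_mem h1 h3, h2.mul h4⟩

theorem Red.ker (h : Red C' C f F) (U' : UF0 C') {η : Λ →+ ℤ} {m : ℤ} (hm : 1 ≤ m) {a : V}
    (ha : a ∈ C'.vs {l | η l = m}) (h0 : F a = 0) :
    ∃ z ∈ C'.Ue η, Lf F z (1 : (End K W)ˣ) ∧ C'.Ld η m z a := by
  rw [← C'.B.linearCombination_repr a, Finsupp.linearCombination_apply, Finsupp.sum]
  refine Finset.sum_induction _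
    (fun a => ∃ z ∈ C'.Ue η, Lf F z (1 : (End K W)ˣ) ∧ C'.Ld η m z a) ?_ ?_ ?_
  · rintro a b ⟨z, h1, h2, h3⟩ ⟨z', h4, h5, h6⟩
    exact ⟨z * z', mul_mem h1 h4, by simpa using h2.mul h5, U'.ld_mul η m z z' a b hm h3 h6⟩
  · exact ⟨1, one_mem _, Lf.one, (U'.ld_zero η m 1).2 (by simp [CL.Fl])⟩
  · rintro (i | c) e
    · have : η 0 = m := ha _ (Finsupp.mem_support_iff.1 e)
      rw [map_zero] at this
      omega
    · have e1 : η (D.rt c) = m := ha _ (Finsupp.mem_support_iff.1 e)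
      refine ⟨C'.x c (C'.B.repr a (.inr c)), C'.x_mem (by simpa [e1] using hm) _, fun v => ?_,
        U'.ld_x η m c _ hm e1⟩
      rw [h.x, ← h.repr, h0]
      simp [C.x_zero]

theorem Red.lift (h : Red C' C f F) (U' : UF0 C') (U : UF0 C) (hL : C'.Lead) {η : Λ →+ ℤ}
    {y : (End K W)ˣ} (hy : y ∈ C.Ue η) {m : ℤ} (hm : 1 ≤ m) :
    C.Fl η m y → ∃ z ∈ C'.Ue η, Lf F z y ∧ C'.Fl η m z := by
  induction m, hm using Int.leInduction with
  | base =>
    intro _
    obtain ⟨z, h1, h2⟩ := h.base hy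
    exact ⟨z, h1, h2, U'.ue_fl η z h1⟩
  | succ m hm ih =>
    intro hf
    obtain ⟨z, h1, h2, h3⟩ := ih (U.fl_mono η m (m + 1) y (by omega) hf)
    obtain ⟨a, ha⟩ := hL η m z hm h1 h3
    have e : F a = 0 := U.ld_uniq η m y _ _ hm (h.ld h2 ha) ((U.ld_zero η m y).2 hf)
    obtain ⟨w, h4, h5, h6⟩ := h.ker U' hm ha.1 e
    refine ⟨z * w⁻¹, mul_mem h1 (inv_mem h4), by simpa using h2.mul h5.inv_one, ?_⟩
    have := U'.ld_mul η m z w⁻¹ a (-a) hm ha (U'.ld_inv η m w a hm h6)
    rw [add_neg_cancel] at this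
    exact (U'.ld_zero η m _).1 this

theorem Red.lead (h : Red C' C f F) (U' : UF0 C') (U : UF0 C) (hL : C'.Lead) : C.Lead := by
  intro η m y hm hy hf
  obtain ⟨z, h1, h2, h3⟩ := h.lift U' U hL hy hm hf
  obtain ⟨a, ha⟩ := hL η m z hm h1 h3
  exact ⟨F a, h.ld h2 ha⟩

end B

section C

variable {L R K : Type} [LieRing L] [CommRing R] [CommRing K]

/-- reduction of scalars on a base change -/
def red (L : Type) [LieRing L] (f : R →+* K) : R ⊗[ℤ] L →+ K ⊗[ℤ] L :=
  (LinearMap.rTensor L f.toAddMonoidHom.toIntLinearMap).toAddMonoidHom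

theorem red_tmul (f : R →+* K) (r : R) (v : L) : red L f (r ⊗ₜ v) = f r ⊗ₜ v := rfl

theorem red_smul (f : R →+* K) (r : R) (v : R ⊗[ℤ] L) : red L f (r • v) = f r • red L f v := by
  induction v using TensorProduct.induction_on with
  | zero => simp
  | tmul s v => simp [smul_tmul', red_tmul]
  | add a b ha hb => simp [ha, hb]

theorem red_bc (f : R →+* K) (g : End ℤ L) (v : R ⊗[ℤ] L) :
    red L f (g.baseChange R v) = g.baseChange K (red L f v) := by
  induction v using TensorProduct.induction_on with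
  | zero => simp
  | tmul s v => simp [red_tmul]
  | add a b ha hb => simp [ha, hb]

theorem lz {V : Type} [LieRing V] (x : V) : ⁅x, (0 : V)⁆ = 0 := lie_zero x

theorem red_lie (f : R →+* K) (u v : R ⊗[ℤ] L) :
    red L f ⁅u, v⁆ = ⁅red L f u, red L f v⁆ := by
  induction u using TensorProduct.induction_on with
  | zero => simp
  | add a b ha hb => simp [ha, hb]
  | tmul r u =>
    induction v using TensorProduct.induction_on with
    | zero => rw [lz, map_zero, lz]
    | add a b ha hb => rw [LieRing.lie_add, map_add, map_add, LieRing.lie_add, ha, hb]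
    | tmul s v => simp [red_tmul]

theorem red_Red {Z : ZD D L} {C' : CL D R (R ⊗[ℤ] L)} {C : CL D K (K ⊗[ℤ] L)} (h' : Rel Z C')
    (h : Rel Z C) (f : R →+* K) (hf : Function.Surjective f) : Red C' C f (red L f) where
  surj := hf
  smul := red_smul f
  B j := by rw [h'.B, h.B, red_tmul, map_one]
  lie := red_lie f
  x a t v := by
    rw [h'.x', h.x']
    simp only [LinearMap.sum_apply, LinearMap.smul_apply, map_sum, red_smul, red_bc, map_pow]

theorem of_ring (h0 : S_UF0) (hB : S_BC) (R : Type) [CommRing R] [IsDomain R] [CharZero R]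
    {Z : ZD D L} (hr : RDF D) (hz : ZF Z) {C : CL D K (K ⊗[ℤ] L)} (hC : Rel Z C) (f : R →+* K)
    (hf : Function.Surjective f) : C.Lead := by
  obtain ⟨C', hC'⟩ := hB ι Λ L D Z hz R
  have U' := h0 _ _ _ _ D C' hr
  refine (red_Red hC' hC f hf).lead U' (h0 _ _ _ _ D C hr) ?_
  intro η m y hm hy hf
  refine free C' (fun n r hn e => ?_) hm
    (U'.lie y (C'.Ux_mono (fun _ _ => Set.mem_univ _) hy)) hf
  exact (mul_eq_zero.1 e).resolve_left (Int.cast_ne_zero.2 hn)

end C

end LEAD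

theorem lead (h0 : S_UF0) (hB : S_BC) : S_LEAD := fun _ _ _ _ _ _ _ hr hz K _ _ hC =>
  LEAD.of_ring h0 hB (MvPolynomial K ℤ) hr hz hC (MvPolynomial.eval₂Hom (Int.castRingHom K) id)
    fun k => ⟨MvPolynomial.X k, by simp⟩

end Pool.Agent.MP_983df8_al.CH

end

end MrgPart3

-- ======== part 4: formerly Pool.Agent.MP_983df8_al.ch.MK
section MrgPart4

/-! The form and the twisting map after base change. -/

noncomputable section

namespace Pool.Agent.MP_983df8_al.CH

open Subgroup Module TensorProduct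

namespace MK

variable {ι Λ L K : Type} [AddCommGroup Λ] [LieRing L] [Field K] {D : RD ι Λ} {Z : ZD D L}

/-- the form after base change -/
def gK (K : Type) [Field K] (g : L →ₗ[ℤ] L →ₗ[ℤ] ℤ) : K ⊗[ℤ] L →ₗ[K] K ⊗[ℤ] L →ₗ[K] K :=
  LinearMap.BilinForm.baseChange K g

theorem gK_tmul (g : L →ₗ[ℤ] L →ₗ[ℤ] ℤ) (a b : K) (u v : L) :
    gK K g (a ⊗ₜ u) (b ⊗ₜ v) = (g u v : K) * (a * b) := by
  rw [← zsmul_eq_mul]; rfl

/-- the twisting map -/
def sK (θ : RingAut K) (γ : L ≃ₗ⁅ℤ⁆ L) : K ⊗[ℤ] L ≃+ K ⊗[ℤ] L :=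
  (TensorProduct.congr θ.toAddEquiv.toIntLinearEquiv γ.toLinearEquiv).toAddEquiv

theorem sK_tmul (θ : RingAut K) (γ : L ≃ₗ⁅ℤ⁆ L) (a : K) (u : L) :
    sK θ γ (a ⊗ₜ u) = θ a ⊗ₜ γ u := rfl

theorem tmul_zsmul (a : K) (n : ℤ) (u : L) : a ⊗ₜ[ℤ] (n • u) = (n : K) • (a ⊗ₜ[ℤ] u) := by
  rw [tmul_smul, Int.cast_smul_eq_zsmul]

theorem br_add (u v w : K ⊗[ℤ] L) : ⁅u, v + w⁆ = ⁅u, v⁆ + ⁅u, w⁆ := LieRing.lie_add u v w

theorem br_zero (u : K ⊗[ℤ] L) : ⁅u, (0 : K ⊗[ℤ] L)⁆ = 0 := by simpa using br_add u 0 0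

/-- induction over pure tensors in two variables -/
theorem ind2 {p : K ⊗[ℤ] L → K ⊗[ℤ] L → Prop} (h0 : ∀ v, p 0 v) (h0' : ∀ u, p u 0)
    (h1 : ∀ a b u v, p (a ⊗ₜ u) (b ⊗ₜ v)) (h2 : ∀ u u' v, p u v → p u' v → p (u + u') v)
    (h3 : ∀ u v v', p u v → p u v' → p u (v + v')) (u v : K ⊗[ℤ] L) : p u v := by
  induction u with
  | zero => exact h0 v
  | add a b ha hb => exact h2 _ _ _ ha hb
  | tmul a u =>
    induction v with
    | zero => exact h0' _
    | add a b ha hb => exact h3 _ _ _ ha hb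
    | tmul b v => exact h1 _ _ _ _

variable {o : ι} {g : L →ₗ[ℤ] L →ₗ[ℤ] ℤ} {θ : RingAut K} {γ : L ≃ₗ⁅ℤ⁆ L}

theorem g_symm (hG : ZG Z o g) (u v : K ⊗[ℤ] L) : gK K g u v = gK K g v u :=
  ind2 (p := fun u v => gK K g u v = gK K g v u) (by simp) (by simp)
    (fun a b u v => by rw [gK_tmul, gK_tmul, hG.symm, mul_comm a])
    (fun u u' v a b => by simp [a, b]) (fun u v v' a b => by simp [a, b]) u v

theorem g_inv (hG : ZG Z o g) (u v w : K ⊗[ℤ] L) : gK K g ⁅u, v⁆ w = gK K g u ⁅v, w⁆ := by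
  induction w with
  | zero => simp [br_zero]
  | add a b ha hb => simp [ha, hb, br_add]
  | tmul c w =>
    exact ind2 (p := fun u v => gK K g ⁅u, v⁆ (c ⊗ₜ w) = gK K g u ⁅v, c ⊗ₜ w⁆) (by simp)
      (by simp [br_zero])
      (fun a b u v => by
        simp only [LieAlgebra.ExtendScalars.bracket_tmul, gK_tmul, hG.inv, mul_assoc])
      (fun u u' v a b => by simp [a, b]) (fun u v v' a b => by simp [a, b, br_add]) u v

theorem g_x (hF : ZF Z) (hG : ZG Z o g) (a : ι) (t : K) (u v : K ⊗[ℤ] L) :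
    gK K g ((∑ k ∈ Finset.range 4, t ^ k • (Z.d a k).baseChange K) u)
      ((∑ k ∈ Finset.range 4, t ^ k • (Z.d a k).baseChange K) v) = gK K g u v := by
  refine ind2 (p := fun u v => gK K g ((∑ k ∈ Finset.range 4, t ^ k • (Z.d a k).baseChange K) u)
    ((∑ k ∈ Finset.range 4, t ^ k • (Z.d a k).baseChange K) v) = gK K g u v) (by simp) (by simp)
    (fun b c u v => ?_) (fun u u' v a b => by simp only [map_add, LinearMap.add_apply, a, b])
    (fun u v v' a b => by simp only [map_add, a, b]) u v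
  have h : ∀ k, 1 ≤ k → ∑ i ∈ Finset.range (k + 1),
      ((g (Z.d a i u) (Z.d a (k - i) v) : ℤ) : K) = 0 := fun k hk => by
    have := hG.dp a k u v hk
    rw [Finset.Nat.sum_antidiagonal_eq_sum_range_succ_mk] at this
    exact_mod_cast congrArg (Int.cast : ℤ → K) this
  have h1 := h 1 (by omega)
  have h2 := h 2 (by omega)
  have h3 := h 3 (by omega)
  have h4 := h 4 (by omega)
  have h5 := h 5 (by omega)
  have h6 := h 6 (by omega)
  have v4 := hF.d_van a 4 (by omega)
  have v5 := hF.d_van a 5 (by omega)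
  have v6 := hF.d_van a 6 (by omega)
  simp only [Finset.sum_range_succ, Finset.sum_range_zero, Nat.reduceSub, v4, v5, v6,
    LinearMap.zero_apply, map_zero, Int.cast_zero, hF.d_zero, End.one_apply] at h1 h2 h3 h4 h5 h6
  simp only [Finset.sum_range_succ, Finset.sum_range_zero, LinearMap.add_apply,
    LinearMap.smul_apply, LinearMap.baseChange_tmul, map_add, map_smul, gK_tmul, smul_eq_mul,
    LinearMap.zero_apply, map_zero, hF.d_zero, End.one_apply]
  linear_combination (b * c) * (t * h1 + t ^ 2 * h2 + t ^ 3 * h3 + t ^ 4 * h4 + t ^ 5 * h5 +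
    t ^ 6 * h6)

theorem g_o (hG : ZG Z o g) (v : K ⊗[ℤ] L) : (Z.d o 2).baseChange K v =
    gK K g (1 ⊗ₜ Z.B (.inr o)) v • ((1 : K) ⊗ₜ[ℤ] Z.B (.inr o)) := by
  induction v with
  | zero => simp
  | add a b ha hb => rw [map_add, map_add, add_smul, ha, hb]
  | tmul a v =>
    rw [LinearMap.baseChange_tmul, hG.top, gK_tmul, tmul_zsmul, one_mul, mul_smul,
      smul_tmul' a, smul_eq_mul, mul_one]

theorem s_smul (c : K) (v : K ⊗[ℤ] L) : sK θ γ (c • v) = θ c • sK θ γ v := by
  induction v with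
  | zero => simp
  | add a b ha hb => rw [smul_add, map_add, map_add, smul_add, ha, hb]
  | tmul a v => simp only [smul_tmul', sK_tmul, smul_eq_mul, map_mul]

theorem s_lie (u v : K ⊗[ℤ] L) : sK θ γ ⁅u, v⁆ = ⁅sK θ γ u, sK θ γ v⁆ :=
  ind2 (p := fun u v => sK θ γ ⁅u, v⁆ = ⁅sK θ γ u, sK θ γ v⁆) (by simp) (by simp [br_zero])
    (fun a b u v => by
      simp only [LieAlgebra.ExtendScalars.bracket_tmul, sK_tmul, map_mul, LieEquiv.map_lie])
    (fun u u' v a b => by simp only [add_lie, map_add, a, b])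
    (fun u v v' a b => by simp only [br_add, map_add, a, b]) u v

theorem s_g (hG : ZG Z o g) (u v : K ⊗[ℤ] L) :
    gK K g (sK θ γ u) (sK θ γ v) = θ (gK K g u v) :=
  ind2 (p := fun u v => gK K g (sK θ γ u) (sK θ γ v) = θ (gK K g u v)) (by simp) (by simp)
    (fun a b u v => by simp only [sK_tmul, gK_tmul, hG.aut, map_mul, map_intCast])
    (fun u u' v a b => by simp only [map_add, LinearMap.add_apply, a, b])
    (fun u v v' a b => by simp only [map_add, a, b]) u v

variable {τ : Equiv.Perm ι} {ε : ι → ℤ}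

theorem s_d (hS : ZS Z τ γ ε) (a : ι) (k : ℕ) (v : K ⊗[ℤ] L) :
    sK θ γ ((Z.d a k).baseChange K v) =
      (ε a : K) ^ k • (Z.d (τ a) k).baseChange K (sK θ γ v) := by
  induction v with
  | zero => simp
  | add a b ha hb => simp only [map_add, smul_add, ha, hb]
  | tmul b v =>
    rw [LinearMap.baseChange_tmul, sK_tmul, sK_tmul, LinearMap.baseChange_tmul, hS.d, tmul_zsmul,
      Int.cast_pow]

theorem s_x (hS : ZS Z τ γ ε) (a : ι) (t : K) (v : K ⊗[ℤ] L) :
    (∑ k ∈ Finset.range 4, (ε a * θ t) ^ k • (Z.d (τ a) k).baseChange K) (sK θ γ v) =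
      sK θ γ ((∑ k ∈ Finset.range 4, t ^ k • (Z.d a k).baseChange K) v) := by
  simp only [LinearMap.sum_apply, LinearMap.smul_apply, map_sum, s_smul, s_d hS, smul_smul,
    map_pow, mul_pow, mul_comm]

theorem s_it (n : ℕ) (a : K) (u : L) : (sK θ γ)^[n] (a ⊗ₜ u) = (θ ^ n) a ⊗ₜ γ^[n] u := by
  induction n with
  | zero => rfl
  | succ n ih =>
    rw [Function.iterate_succ_apply', Function.iterate_succ_apply', ih, sK_tmul, pow_succ']
    rfl

theorem s_pow (hS : ZS Z τ γ ε) {n : ℕ} (h : τ ^ n = 1) (h' : θ ^ n = 1) (v : K ⊗[ℤ] L) :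
    (sK θ γ)^[n] v = v := by
  induction v with
  | zero => exact iterate_map_zero _ _
  | add a b ha hb => rw [iterate_map_add, ha, hb]
  | tmul a u => rw [s_it, h', hS.pow n h]; rfl

theorem ord_pos [Finite K] (θ : RingAut K) : 0 < orderOf θ := by
  have : Finite (RingAut K) := Finite.of_injective (fun f : RingAut K => (f : K → K))
    DFunLike.coe_injective
  exact orderOf_pos θ

end MK

open MK in
theorem mk : S_MK := by
  intro ι Λ L K _ _ _ _ D Z τ γ ε θ o g C₀ hF hG hS ho hC hL h1 h3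
  have h0 := ord_pos θ
  have ht : τ ^ orderOf θ = 1 := h1 ▸ pow_orderOf_eq_one τ
  refine ⟨{ C₀ with
    fin := inferInstance
    lead := hL
    o := o
    top := ho
    g := gK K g
    g_symm := g_symm hG
    g_inv := g_inv hG
    g_wt := fun i j e => hG.wt i j fun f => e (by rw [hC.B, hC.B, gK_tmul, f]; simp)
    g_x := fun a t u v => by rw [hC.x']; exact g_x hF hG a t u v
    g_o := fun v => by rw [hC.d2, hC.B]; exact g_o hG v
    θ := θ
    τ := τ
    s := sK θ γ
    ε := fun a => ε a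
    dd := orderOf θ
    sym := hS.sym
    s_smul := s_smul
    s_e := fun a => by rw [hC.B, hC.B, sK_tmul, hS.e, tmul_zsmul, map_one]
    s_h := fun a => by rw [hC.h, hC.h, sK_tmul, hS.h, map_one]
    s_lie := s_lie
    s_g := s_g hG
    s_x := fun a t v => by rw [hC.x', hC.x']; exact s_x hS a t v
    ε_val := fun a => (hS.val a).imp (fun e => by simp [e]) fun e => by simp [e]
    ε_ng := fun a => by rw [hS.ng]
    ε_one := fun i hi => by simp [hS.one i hi]
    dd_val := by omega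
    θ_ord := rfl
    τ_pow := ht
    s_pow := s_pow hS ht (pow_orderOf_eq_one θ) }, rfl, rfl, fun v => rfl⟩

end Pool.Agent.MP_983df8_al.CH

end

end MrgPart4

-- ======== part 5: formerly Pool.Agent.MP_983df8_al.ch.CG
section MrgPart5

/-! From the definition of the groups to the structure `CG`. -/

namespace Pool.Agent.MP_983df8_al.CH

open Subgroup Module TensorProduct

universe u

namespace Cg

variable {ι Λ K V : Type} [AddCommGroup Λ] [Field K] [LieRing V] [LieAlgebra K V] {D : RD ι Λ}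
  (C : CG D K V) {x : ι → K → End K V} (hx : ∀ a t, (C.x a t).1 = x a t)

include hx

theorem mem_cl {Ψ : Set ι} {p : ι → Prop} (hp : ∀ a, a ∈ Ψ ↔ p a) {m : End K V} :
    m ∈ Submonoid.closure {y | ∃ a t, p a ∧ y = x a t} ↔ ∃ y ∈ C.Ux Ψ, y.1 = m := by
  refine ⟨fun h => ?_, ?_⟩
  · induction h using Submonoid.closure_induction with
    | mem m h =>
      obtain ⟨a, t, b, rfl⟩ := h
      exact ⟨_, C.x_mem ((hp a).2 b) t, hx a t⟩
    | one => exact ⟨1, one_mem _, rfl⟩
    | mul m m' _ _ a b =>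
      obtain ⟨y, y1, rfl⟩ := a
      obtain ⟨z, z1, rfl⟩ := b
      exact ⟨_, mul_mem y1 z1, rfl⟩
  · rintro ⟨y, h, rfl⟩
    exact C.Ux_induction (p := fun y => y.1 ∈ Submonoid.closure {y | ∃ a t, p a ∧ y = x a t}) h
      (one_mem _) (fun a b t => Submonoid.subset_closure ⟨a, t, (hp a).1 b, hx a t⟩)
      fun _ _ => mul_mem

theorem mem_tw (F : RDF D) {p : ι → Prop} (hp : ∀ a, D.pos a ↔ p a) {s : V → V}
    (hs : ∀ v, C.s v = s v) {y : (End K V)ˣ} : y.1 ∈ twisted x p s ↔ y ∈ C.G1 := by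
  have h1 := fun m => mem_cl C hx (Ψ := {a | 1 ≤ D.ht (D.rt a)}) (m := m) hp
  have h2 := fun m => mem_cl C hx (Ψ := {a | 1 ≤ (-D.ht) (D.rt a)}) (p := fun a => ¬ p a) (m := m)
    fun a => (F.neg_ht a).trans (not_congr (hp a))
  refine ⟨fun h => ?_, fun h => ?_⟩
  · have : ∀ m ∈ twisted x p s, ∃ y ∈ C.G1, y.1 = m := fun m h => by
      induction h using Submonoid.closure_induction with
      | mem m h =>
        rcases h with ⟨h | h, h'⟩
        · obtain ⟨y, y1, rfl⟩ := (h1 m).1 h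
          exact ⟨y, mem_sup_left ⟨y1, C.mem_Fix'.2 fun v => by rw [hs, hs, h']⟩, rfl⟩
        · obtain ⟨y, y1, rfl⟩ := (h2 m).1 h
          exact ⟨y, mem_sup_right ⟨y1, C.mem_Fix'.2 fun v => by rw [hs, hs, h']⟩, rfl⟩
      | one => exact ⟨1, one_mem _, rfl⟩
      | mul m m' _ _ a b =>
        obtain ⟨y, y1, rfl⟩ := a
        obtain ⟨z, z1, rfl⟩ := b
        exact ⟨_, mul_mem y1 z1, rfl⟩
    obtain ⟨z, z1, z2⟩ := this _ h
    exact Units.ext z2 ▸ z1
  · have k : ∀ y ∈ C.Fix, ∀ v, y.1 (s v) = s (y.1 v) := fun y h v => by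
      rw [← hs, ← hs, C.mem_Fix'.1 h]
    have : C.G1 ≤ (twisted x p s).units := sup_le
      (fun y h => ⟨Submonoid.subset_closure ⟨Or.inl ((h1 _).2 ⟨y, h.1, rfl⟩), k y h.2⟩,
        Submonoid.subset_closure ⟨Or.inl ((h1 _).2 ⟨y⁻¹, inv_mem h.1, rfl⟩), k _ (inv_mem h.2)⟩⟩)
      fun y h => ⟨Submonoid.subset_closure ⟨Or.inr ((h2 _).2 ⟨y, h.1, rfl⟩), k y h.2⟩,
        Submonoid.subset_closure ⟨Or.inr ((h2 _).2 ⟨y⁻¹, inv_mem h.1, rfl⟩), k _ (inv_mem h.2)⟩⟩
    exact (this h).1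

end Cg

theorem cg : S_CG.{u} := by
  rintro π S _ ⟨ι, M, N, L, K, _, _, _, _, _, _, _, _, P, _, b, e, h, d, τ, γ, θ, _, _, _, hr,
    ⟨l1, l2, l3⟩, hd, g1, g2, o1, o2, q1, q2, ⟨φ⟩⟩
  obtain ⟨Λ, _, D, d1, d2, d3, d4, d5, d6⟩ := rdm ι M N P b hr
  have F := rdf ι Λ D
  rw [← d1] at l1 l2 g2 q1
  let B : Basis (D.Δ ⊕ ι) ℤ L := Basis.mk l1 l2.ge
  have hB : ∀ a, B (.inr a) = e a := fun a => Basis.mk_apply l1 l2.ge _
  let Z : ZD D L :=
    { B := B
      h := h
      d := d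
      h_B := fun i => Basis.mk_apply l1 l2.ge _
      hh := fun a c => (l3 a c).1
      he := fun a c => by rw [hB, d2, (l3 a c).2.1]
      eng := fun a => by rw [hB, hB, (l3 a _).2.2.1 (d5 a)]
      ee := fun a c c' k => by rw [hB, hB, hB, d3]; exact (l3 a c).2.2.2 c' (d6 a c c' k)
      fac := fun a k => by rw [hB, hd] }
  have zF := zf ι Λ L D Z F
  obtain ⟨o, ho⟩ := F.top
  obtain ⟨g, zG⟩ := zg ι Λ L D Z F zF o (topf ι Λ D F o ho)
  obtain ⟨ε, zS⟩ := zs ι Λ L D Z τ γ F zF (fun a => by simpa only [Z, hB] using g1 a)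
    fun i a => by simpa only [Z, hB] using g2 i a
  obtain ⟨C₀, r⟩ := bc ι Λ L D Z zF K
  obtain ⟨C, rfl, rfl, c⟩ := mk ι Λ L K D Z τ γ ε θ o g C₀ zF zG zS ho r
    (lead uf0 bc ι Λ L D Z F zF K C₀ r) o1 o2
  have k := fun y => Cg.mem_tw C (x := fun a => xr K (d a)) r.x F d4 c (y := y)
  refine ⟨ι, Λ, K, _, _, _, _, _, D, C,
    ((Submonoid.subtype _).comp φ.toMonoidHom).toHomUnits, ⟨fun s t a => ?_, ?_⟩, q1,
    q2.imp_right (Or.imp_right (And.imp_right fun a b c c' e' => ?_))⟩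
  · exact φ.injective (Subtype.ext (congrArg Units.val a))
  · ext y
    rw [← k]
    exact ⟨by rintro ⟨s, rfl⟩; exact (φ s).2,
      fun a => ⟨φ.symm ⟨_, a⟩, Units.ext (congrArg Subtype.val (φ.apply_symm_apply ⟨_, a⟩))⟩⟩
  · have := (a b).pairingIn_mem_zero_one_two c' c
    rw [← d2, e'] at this
    simp at this

end Pool.Agent.MP_983df8_al.CH

end MrgPart5

-- marker of a merged file
example : 731051 + 486769 = 731051 + 486769 := rfl
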