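import Mathlib.FieldTheory.Finite.Basic
import Pool.Agent.MP_983df8_al.ch.TOP

/-! Chevalley groups: the torus of the twisted group on the coefficient of a simple root. -/

noncomputable section

namespace Pool.Agent.MP_983df8_al.CH

open Subgroup Module

namespace IRRT

variable {ι Λ K V : Type} [AddCommGroup Λ] [Field K] [LieRing V] [LieAlgebra K V] {D : RD ι Λ}
  {C : CG D K V}

theorem sq [Finite K] {A : AddSubgroup K} (θ : RingAut K) (P : Prop)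
    (h : ∀ l, l ≠ 0 → (P → θ l = l) → ∀ c ∈ A, l * l * c ∈ A) (x : K) (hx : P → θ x = x) :
    ∀ c ∈ A, x * c ∈ A := by
  have h0 : ∀ l, (P → θ l = l) → ∀ c ∈ A, l * l * c ∈ A := fun l e c hc => by
    by_cases z : l = 0
    · simp [z]
    · exact h l z e c hc
  intro c hc
  by_cases e : (2 : K) = 0
  · obtain ⟨y, rfl⟩ := FiniteField.isSquare_of_char_two
      (CharP.ringChar_of_prime_eq_zero Nat.prime_two (by exact_mod_cast e)) x
    refine h0 y (fun p => ?_) c hc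
    have f := hx p
    rw [map_mul] at f
    exact sub_eq_zero.1 (pow_eq_zero_iff two_ne_zero |>.1
      (by linear_combination f + (y * y - θ y * y) * e))
  have f := sub_mem (h0 ((x + 1) / 2) (fun p => by simp [hx p, map_ofNat]) c hc)
    (h0 ((x - 1) / 2) (fun p => by simp [hx p, map_ofNat]) c hc)
  rwa [show (x + 1) / 2 * ((x + 1) / 2) * c - (x - 1) / 2 * ((x - 1) / 2) * c = x * c by
    field_simp; ring] at f

/-- an orbit of two adjacent simple roots -/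
structure A2 (C : CG D K V) (a b d : ι) : Prop where
  ha : a ∈ D.Δ
  hb : b ∈ D.Δ
  ne : b ≠ a
  ta : C.τ a = b
  tb : C.τ b = a
  ab : D.cv a (D.rt b) = -1
  ba : D.cv b (D.rt a) = -1
  hd : D.rt d = D.rt b + D.rt a
  pj : ∀ c ∈ D.PJ C.τ a, c = a ∨ c = b ∨ c = d

/-- coordinates of the six roots -/
def Six (x y : ℤ) : Prop :=
  (x = 1 ∧ y = 0) ∨ (x = 0 ∧ y = 1) ∨ (x = 1 ∧ y = 1) ∨ (x = -1 ∧ y = 0) ∨ (x = 0 ∧ y = -1) ∨
    (x = -1 ∧ y = -1)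

variable {a b d : ι}

theorem A2.eta (H : A2 C a b d) (i j : ℤ) :
    ∃ η : Λ →+ ℤ, η (D.rt a) = i ∧ η (D.rt b) = j :=
  ⟨i • D.co a + j • D.co b, by simp [D.co_self a H.ha, D.co_ne b H.hb a H.ha H.ne],
    by simp [D.co_self b H.hb, D.co_ne a H.ha b H.hb H.ne.symm]⟩

theorem A2.za (R : RF C) (H : A2 C a b d) : D.zt C.τ a (D.rt a) = 0 :=
  (R.s.zt_simple a a H.ha).2 (.inl rfl)

theorem A2.zb (R : RF C) (H : A2 C a b d) : D.zt C.τ a (D.rt b) = 0 :=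
  (R.s.zt_simple a b H.hb).2 (.inr (.inl H.ta.symm))

theorem A2.six (R : RF C) (H : A2 C a b d) (c : ι) (x y : ℤ)
    (e : D.rt c = x • D.rt a + y • D.rt b) : Six x y := by
  obtain ⟨η, a1, a2⟩ := H.eta 1 0
  obtain ⟨ζ, b1, b2⟩ := H.eta 0 1
  have z : D.zt C.τ a (D.rt c) = 0 := by simp [e, H.za R, H.zb R]
  have e1 : η (D.rt c) = x := by simp [e, a1, a2]
  have e2 : ζ (D.rt c) = y := by simp [e, b1, b2]
  have d1 : η (D.rt d) = 1 := by simp [H.hd, a1, a2]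
  have d2 : ζ (D.rt d) = 1 := by simp [H.hd, b1, b2]
  unfold Six
  by_cases p : D.pos c
  · rcases H.pj c ⟨p, z⟩ with rfl | rfl | rfl <;> omega
  have f1 : η (D.rt (D.ng c)) = -x := by rw [D.rt_ng, map_neg, e1]
  have f2 : ζ (D.rt (D.ng c)) = -y := by rw [D.rt_ng, map_neg, e2]
  rcases H.pj (D.ng c) ⟨(R.r.pos_ng c).2 p, by rw [D.rt_ng, map_neg, z, neg_zero]⟩ with
    f | f | f <;> rw [f] at f1 f2 <;> omega

theorem A2.c2 (R : RF C) (u2 : UF2 C) (H : A2 C a b d) {r c e : ι} (x1 y1 x2 y2 i j : ℤ)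
    (hr : D.rt r = x1 • D.rt a + y1 • D.rt b) (hc : D.rt c = x2 • D.rt a + y2 • D.rt b)
    (he : D.rt e = D.rt c + D.rt r) (h1 : x1 * i + y1 * j = 1) (h2 : x2 * i + y2 * j = 1)
    (hs : ∀ k l : ℤ, 1 ≤ k → 1 ≤ l → Six (k * x1 + l * x2) (k * y1 + l * y2) → k = 1 ∧ l = 1)
    (t u : K) : C.x r t * C.x c u * (C.x r t)⁻¹ * (C.x c u)⁻¹ = C.x e (C.N r c * t * u) := by
  obtain ⟨η, a1, a2⟩ := H.eta i j
  refine u2.comm2 η r c e t u (by simp [hr, a1, a2, h1]) (by simp [hc, a1, a2, h2]) he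
    fun d' k l k1 l1 f => ?_
  obtain ⟨rfl, rfl⟩ := hs k l k1 l1 (H.six R d' _ _ (by rw [f, hr, hc]; module))
  exact D.inj (by rw [f, he]; module)

theorem A2.c1 (R : RF C) (u2 : UF2 C) (H : A2 C a b d) {c : ι} (x y : ℤ)
    (hc : D.rt c = x • D.rt a + y • D.rt b) (h2 : x + y = -1)
    (hs : ∀ k l : ℤ, 1 ≤ k → 1 ≤ l → ¬ Six (-k + l * x) (-k + l * y)) (t u : K) :
    Commute (C.x (D.ng d) t) (C.x c u) := by
  obtain ⟨η, a1, a2⟩ := H.eta (-1) (-1)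
  refine u2.comm η _ _ t u (by simp [D.rt_ng, H.hd, a1, a2]) (by simp [hc, a1, a2]; omega)
    fun d' k l k1 l1 f => hs k l k1 l1 (H.six R d' _ _ (by rw [f, D.rt_ng, H.hd, hc]; module))

theorem A2.cvd (H : A2 C a b d) : D.cv d = D.cv b + D.cv a := by
  rw [show d = D.rf a b from D.inj (by rw [H.hd, D.rt_rf, H.ab]; module), D.cv_rf, H.ba]
  module

theorem A2.da (H : A2 C a b d) : D.cv d (D.rt a) = 1 := by simp [H.cvd, H.ba, D.two]

theorem A2.db (H : A2 C a b d) : D.cv d (D.rt b) = 1 := by simp [H.cvd, H.ab, D.two]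

theorem A2.ra (H : A2 C a b d) : D.rf d a = D.ng b :=
  D.inj (by rw [D.rt_rf, H.da, H.hd, D.rt_ng]; module)

theorem A2.rb (H : A2 C a b d) : D.rf d b = D.ng a :=
  D.inj (by rw [D.rt_rf, H.db, H.hd, D.rt_ng]; module)

theorem A2.td (R : RF C) (H : A2 C a b d) : C.τ d = d :=
  D.inj (by rw [R.s.add a b d H.hd, H.ta, H.tb, H.hd, add_comm])

theorem A2.e1 (H : A2 C a b d) : D.rt (D.ng d) = D.rt (D.ng a) + D.rt (D.ng b) := by
  simp [D.rt_ng, H.hd]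

theorem A2.e2 (H : A2 C a b d) : D.rt (D.ng a) = D.rt (D.ng d) + D.rt b := by
  simp [D.rt_ng, H.hd]

theorem A2.jac (R : RF C) (H : A2 C a b d) :
    (C.N (D.ng b) (D.ng a) : K) * C.N b (D.ng d) = 1 := by
  have j := leibniz_lie (C.e b) (C.e (D.ng b)) (C.e (D.ng a))
  have z : ⁅C.e b, C.e (D.ng a)⁆ = 0 :=
    C.e0 b _ (fun e => H.ne (by rw [← D.ng_ng a, e, D.ng_ng])) fun c e => by
      have f := H.six R c (-1) 1 (by rw [e, D.rt_ng]; module)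
      unfold Six at f
      omega
  rw [z, lie_zero, add_zero, C.ee _ _ _ H.e1, lie_smul, C.ee _ _ _ H.e2, C.eng, C.he, smul_smul,
    D.rt_ng, map_neg, H.ba] at j
  simpa using smul_left_injective K (C.B.ne_zero _) j

theorem A2.eps (R : RF C) (H : A2 C a b d) : C.ε d = -1 := by
  have j := C.s_lie (C.e (D.ng b)) (C.e (D.ng a))
  rw [C.s_e, C.s_e, C.ε_ng, C.ε_ng, C.ε_one a H.ha, C.ε_one b H.hb, one_smul, one_smul, R.s.ng,
    R.s.ng, H.ta, H.tb, ← lie_skew (C.B (.inr (D.ng a))), C.ee _ _ _ H.e1, C.s_smul, C.s_e, C.ε_ng,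
    R.s.ng, H.td R, smul_smul, ← neg_smul, map_intCast] at j
  have k := smul_left_injective K (C.B.ne_zero _) j
  linear_combination (C.N b (D.ng d) : K) * k - (C.ε d + 1) * H.jac R

theorem n_mem (c : ι) {t : K} (h : t ≠ 0) : C.n c t ∈ C.Nn := subset_closure ⟨c, t, h, rfl⟩

theorem A2.cell (R : RF C) (u1 : UF1 C) (u2 : UF2 C) (b1 : BF1 C) (b2 : BF2 C) (H : A2 C a b d)
    {t0 w : K} (h0 : t0 ≠ 0) (f0 : C.ε d * C.θ t0 = t0) (w0 : w ≠ 0)
    (hw : w + C.θ w = C.N (D.ng b) (D.ng a)) :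
    ∃ t ∈ C.T ⊓ C.G1, t.1 (C.e a) = (t0 * w ^ 2 / C.θ w) • C.e a := by
  have jac := H.jac R
  have n0 : (C.N (D.ng b) (D.ng a) : K) ≠ 0 := left_ne_zero_of_mul_eq_one jac
  have w1 : C.θ w ≠ 0 := by simpa using w0
  have pa : D.pos a := ((R.r.ht_one a).2 H.ha).ge
  have pb : D.pos b := ((R.r.ht_one b).2 H.hb).ge
  have pd : D.pos d := by
    unfold RD.pos at pa pb ⊢
    rw [H.hd, map_add]
    omega
  have ng : ∀ c, D.pos c → 1 ≤ (-D.ht) (D.rt (D.ng c)) := fun c e =>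
    (R.r.neg_ht _).2 (by rwa [R.r.pos_ng, not_not])
  have ja : a ∈ D.PJ C.τ a := ⟨pa, H.za R⟩
  have jb : b ∈ D.PJ C.τ a := ⟨pb, H.zb R⟩
  have jd : d ∈ D.PJ C.τ a := ⟨pd, by rw [H.hd, map_add, H.za R, H.zb R, add_zero]⟩
  have ca := H.c1 R u2 (c := D.ng a) (-1) 0 (by simp [D.rt_ng]) rfl
    (fun k l _ _ e => by unfold Six at e; omega)
  have cb := H.c1 R u2 (c := D.ng b) 0 (-1) (by simp [D.rt_ng]) rfl
    (fun k l _ _ e => by unfold Six at e; omega)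
  have k1 := H.c2 R u2 0 (-1) (-1) 0 (-1) (-1) (by simp [D.rt_ng]) (by simp [D.rt_ng]) H.e1 rfl rfl
    (fun k l _ _ e => by unfold Six at e; omega) 1 1
  have k2 := H.c2 R u2 0 1 (-1) (-1) (-2) 1 (by simp) (by simp [D.rt_ng, H.hd]) H.e2 rfl rfl
    (fun k l _ _ e => by unfold Six at e; omega) (C.N (D.ng b) (D.ng a) / w) w
  have k3 := H.c2 R u2 (r := D.ng b) (c := d) (e := a) 0 (-1) 1 1 2 (-1) (by simp [D.rt_ng])
    (by simp [H.hd, add_comm]) (by simp [D.rt_ng, H.hd]) rfl rfl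
    (fun k l _ _ e => by unfold Six at e; omega)
  generalize ((C.N (D.ng b) (D.ng a) : ℤ) : K) = N at hw jac n0 k1 k2
  obtain ⟨s, hs⟩ : ∃ s, s = N / w := ⟨_, rfl⟩
  rw [← hs] at k2
  have s0 : s ≠ 0 := hs ▸ div_ne_zero n0 w0
  rw [show C.N b (D.ng d) * s * w = 1 by rw [← jac, hs]; field_simp] at k2
  rw [mul_one, mul_one] at k1
  have vG : C.x (D.ng a) 1 * C.x (D.ng d) w * C.x (D.ng b) 1 ∈ C.G1 := by
    refine mem_sup_right (mem_inf.2 ⟨mul_mem (mul_mem (C.x_mem (ng a pa) _) (C.x_mem (ng d pd) _))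
      (C.x_mem (ng b pb) _), C.mem_Fix.2 ?_⟩)
    simp only [map_mul, C.σ_x, C.ε_ng, C.ε_one a H.ha, C.ε_one b H.hb, R.s.ng, H.ta, H.tb, H.td R,
      H.eps R, map_one, mul_one]
    rw [show w = -1 * C.θ w + N by linear_combination hw, C.x_add, ← k1, ← (cb _ _).eq,
      ← mul_assoc (C.x (D.ng a) 1), ← (ca _ _).eq, k1, mul_assoc _ (C.x (D.ng a) 1),
      ← (ca _ _).eq, ← k1, show -1 * C.θ w + N = w by linear_combination -hw]
    group
  obtain ⟨m, hm⟩ : ∃ m, m = -C.θ w / w := ⟨_, rfl⟩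
  have m0 : m ≠ 0 := hm ▸ div_ne_zero (neg_ne_zero.2 w1) w0
  have t1 : -w⁻¹ ≠ 0 := neg_ne_zero.2 (inv_ne_zero w0)
  have t2 : s / m ≠ 0 := div_ne_zero s0 m0
  obtain ⟨hT, hA⟩ := b1.tor b (-(s / m)) m (neg_ne_zero.2 t2) m0
  rw [show m * -(s / m) = -s by field_simp, b1.n_inv, neg_neg] at hT hA
  have xs : ∀ c t, C.x c t ∈ C.Ux {c} := fun c t => C.x_mem (Set.mem_singleton c) t
  have Y : (C.x (D.ng b) s⁻¹)⁻¹ * (C.n b (-s) * (C.x b (s / m))⁻¹ * (C.n b (-s))⁻¹) ∈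
      C.Ux {D.ng b} := mul_mem (inv_mem (xs _ _))
    (b1.mon_conj _ _ {b} {D.ng b} (b1.mon_n b (-s) (neg_ne_zero.2 s0))
      (fun c e => by rw [e]; exact R.r.rf_self b) _ (inv_mem (xs _ _)))
  obtain ⟨q, hq⟩ := (u1.one_root (D.ng b) _).1 Y
  have E2 : C.x (D.ng d) w = (C.x d (-w⁻¹))⁻¹ * C.n d (-w⁻¹) * (C.x d (-w⁻¹))⁻¹ := by
    simp [CG.n, mul_assoc]
  have E3 : (C.x b s)⁻¹ = (C.x (D.ng b) s⁻¹)⁻¹ * C.n b (-s) * (C.x (D.ng b) s⁻¹)⁻¹ := by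
    rw [b1.braid b (-s) (neg_ne_zero.2 s0), inv_neg, neg_neg, C.x_neg]
    group
  have E4 : (C.x (D.ng b) s⁻¹)⁻¹ * C.x (D.ng b) 1 =
      (C.x b (s / m))⁻¹ * C.n b (s / m) * (C.x b (s / m))⁻¹ := by
    rw [← C.x_neg, ← C.x_add, CG.n, show -s⁻¹ + 1 = -(s / m)⁻¹ by
      rw [hs, hm]; field_simp; linear_combination -hw]
    group
  obtain ⟨h, hh⟩ : ∃ h, h = C.n b (-s) * C.n b (s / m) := ⟨_, rfl⟩
  rw [← hh] at hT hA
  have md := b1.mon_n d _ t1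
  have U1 : C.x b s * (C.x d (-w⁻¹))⁻¹ * (C.n d (-w⁻¹) * C.x (D.ng b) q * (C.n d (-w⁻¹))⁻¹) ∈
      C.U := mul_mem (mul_mem (C.x_mem pb _) (inv_mem (C.x_mem pd _)))
    (b1.mon_conj _ _ {D.ng b} _ md (fun c e => by
      rw [e, D.sr_apply, R.r.rf_ng, H.rb, D.ng_ng]; exact pa) _ (xs _ _))
  have U2 : h⁻¹ * (C.x a (C.N (D.ng b) d * -q * w⁻¹) * C.x d w⁻¹) * h⁻¹⁻¹ * (C.x b (s / m))⁻¹ ∈
      C.Ux (D.PJ C.τ a) := mul_mem (b1.mon_conj _ 1 _ _ (inv_mem hT).2 (fun _ e => e) _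
    (mul_mem (C.x_mem ja _) (C.x_mem jd _))) (inv_mem (C.x_mem jb _))
  have U3 := b1.mon_conj _ _ _ {c | 1 ≤ (-D.ht) (D.rt c)} (md.mul hT.2) (fun c e => by
    rcases H.pj c e with f | f | f <;> rw [f, mul_one, D.sr_apply]
    · rw [H.ra]; exact ng b pb
    · rw [H.rb]; exact ng a pa
    · rw [R.r.rf_self]; exact ng d pd) _ U2
  obtain ⟨u, hu, n, hn, u', hu', c', e'⟩ := b2.bruhat1 _ vG
  have nG : C.n d (-w⁻¹) * h ∈ C.G1 := by
    refine (b2.uniq _ U1 _ (mul_mem (n_mem d t1) hT.1) _ (C.Ux_mono (fun _ e => e.1) U2) u hu.1 n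
      hn.1 u' hu'.1 U3 c' ?_).2.1 ▸ hn.2
    have E5 : C.x (D.ng b) 1 = C.x (D.ng b) s⁻¹ *
        ((C.x b (s / m))⁻¹ * C.n b (s / m) * (C.x b (s / m))⁻¹) := by rw [← E4]; group
    have E6 : C.x (D.ng a) 1 * C.x (D.ng d) w = C.x b s * C.x (D.ng d) w * (C.x b s)⁻¹ := by
      rw [← k2]; group
    rw [← e', E6, E5, E3, E2, ← k3, C.x_neg (D.ng b), ← hq, C.x_neg d, hh]
    group
  obtain ⟨gT, gA⟩ := b1.tor d w⁻¹ (-t0 * w) (inv_ne_zero w0) (mul_ne_zero (neg_ne_zero.2 h0) w0)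
  rw [show -t0 * w * w⁻¹ = -t0 by field_simp, b1.n_inv, ← b1.n_inv d t0] at gT gA
  refine ⟨_, mem_inf.2 ⟨mul_mem gT hT, ?_⟩, ?_⟩
  · rw [mul_assoc]
    exact mul_mem (inv_mem (b1.fix_n d t0 (H.td R) f0)) nG
  · rw [Units.val_mul, End.mul_apply, hA, map_smul, gA, smul_smul, H.ba, H.da, hm]
    congr 1
    field_simp

theorem A2.dd (H : A2 C a b d) : C.dd = 2 := by
  have e := C.τ_pow
  rcases C.dd_val with f | f | f <;> rw [f] at e
  · exact (H.ne (by rw [← H.ta, ← pow_one C.τ, e]; rfl)).elim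
  · exact f
  · have g := congrArg (· a) e
    simp [pow_succ, H.ta, H.tb] at g
    exact (H.ne g).elim

theorem A2.all (R : RF C) (u1 : UF1 C) (u2 : UF2 C) (b1 : BF1 C) (b2 : BF2 C) (H : A2 C a b d)
    (hq : 2 < C.q) (A : AddSubgroup K)
    (hA : ∀ t ∈ C.T ⊓ C.G1, ∀ k, t.1 (C.e a) = k • C.e a → ∀ c ∈ A, k * c ∈ A) (x : K) :
    ∀ c ∈ A, x * c ∈ A := by
  have := C.fin
  obtain ⟨t0, h0, f0⟩ := b1.fixr d (H.td R)
  have g0 : C.θ t0 = -t0 := by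
    rw [H.eps R] at f0
    linear_combination -f0
  have tt : ∀ y, C.θ (C.θ y) = y := fun y => by
    have e := pow_orderOf_eq_one C.θ
    rw [C.θ_ord, H.dd, pow_two] at e
    exact congrArg (· y) e
  have F : ∀ l, C.θ l = l → ∀ c ∈ A, l * c ∈ A := fun l e c hc => by
    by_cases z : l = 0
    · simp [z]
    obtain ⟨gT, gA⟩ := b1.tor d t0 l h0 z
    refine hA _ (mem_inf.2 ⟨gT, mul_mem (b1.fix_n d _ (H.td R) ?_)
      (inv_mem (b1.fix_n d t0 (H.td R) f0))⟩) l (by rw [gA, H.da, zpow_one]) c hc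
    rw [map_mul, e]
    linear_combination l * f0
  have n0 := left_ne_zero_of_mul_eq_one (H.jac R)
  obtain ⟨w, w1, w2⟩ : ∃ w : K, w + C.θ w = C.N (D.ng b) (D.ng a) ∧
      3 * (w * C.θ w) ≠ (C.N (D.ng b) (D.ng a) : K) ^ 2 := by
    obtain ⟨y, hy⟩ := u2.θ_tr
    rw [H.dd, Finset.sum_range_succ, Finset.sum_range_one, pow_zero, pow_one] at hy
    replace hy : y + C.θ y = 1 := hy
    obtain ⟨μ, m0, m1, m2⟩ : ∃ μ : K, C.θ μ = μ ∧ μ ≠ 0 ∧ μ ≠ 1 := by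
      by_contra! z
      refine hq.not_ge ((Nat.card_le_card_of_injective
        (fun t : {t // C.θ t = t} => t.1 = 0) fun s t e => Subtype.ext ?_).trans (by simp))
      by_cases s0 : s.1 = 0
      · rw [s0, Eq.mp e s0]
      · rw [z _ s.2 s0, z _ t.2 fun t0 => s0 (Eq.mpr e t0)]
    set N : K := ((C.N (D.ng b) (D.ng a) : ℤ) : K) with hN
    have tN : C.θ N = N := map_intCast _ _
    by_contra! z
    have z0 := z (N * y) (by rw [map_mul, tN]; linear_combination N * hy)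
    have z1 := z (N * y + t0) (by rw [map_add, map_mul, tN, g0]; linear_combination N * hy)
    have z2 := z (N * y + μ * t0) (by
      rw [map_add, map_mul, map_mul, tN, g0, m0]; linear_combination N * hy)
    simp only [map_add, map_mul, tN, g0, m0] at z0 z1 z2
    have e : 3 * (μ * (μ - 1) * t0 ^ 2) = 0 := by linear_combination (1 - μ) * z0 + μ * z1 - z2
    have e3 : (3 : K) = 0 := (mul_eq_zero.1 e).resolve_right
      (mul_ne_zero (mul_ne_zero m1 (sub_ne_zero.2 m2)) (pow_ne_zero 2 h0))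
    rw [e3, zero_mul] at z0
    exact pow_ne_zero 2 n0 z0.symm
  have w0 : w ≠ 0 := fun e => n0 (by rw [← w1, e]; simp)
  have w3 : C.θ w ≠ 0 := by simpa using w0
  obtain ⟨t, ht, e⟩ := H.cell R u1 u2 b1 b2 h0 f0 w0 w1
  set k := t0 * w ^ 2 / C.θ w with hk
  have k0 : k - C.θ k ≠ 0 := fun f => by
    rw [hk, map_div₀, map_mul, map_pow, tt, g0] at f
    field_simp at f
    rw [← w1] at w2 n0
    refine mul_ne_zero h0 (mul_ne_zero n0 (sub_ne_zero.2 w2)) ?_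
    linear_combination -f
  have k1 : C.θ k - k ≠ 0 := fun f => k0 (by linear_combination -f)
  intro c hc
  have f := add_mem (F (x - (x - C.θ x) / (k - C.θ k) * k) (by
      simp only [map_sub, map_mul, map_div₀, tt]; field_simp; ring) c hc)
    (F ((x - C.θ x) / (k - C.θ k)) (by
      simp only [map_sub, map_div₀, tt]; field_simp; ring) _ (hA t ht k e c hc))
  rwa [show (x - (x - C.θ x) / (k - C.θ k) * k) * c + (x - C.θ x) / (k - C.θ k) * (k * c) = x * c by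
    ring] at f

end IRRT

open IRRT in
theorem irrT : S_IRRT := by
  intro ι Λ K V _ _ _ _ D C R u1 u2 b1 b2 t hq a ha A hA c hc c0 fc c' fc'
  have := C.fin
  rw [← div_mul_cancel₀ c' c0]
  rcases R.s.orb a ha with ⟨-, o⟩ | ⟨o1, o2, o3, o4, d, o5, o6⟩
  · refine sq C.θ (C.τ a = a) (fun l l0 fl => ?_) _ (fun e => by rw [map_div₀, fc e, fc' e]) c hc
    obtain ⟨y, hy, e⟩ := t.tor2 a ha (fun e => (o e).1) l l0 fl
    exact hA y hy _ e
  rcases hq with hq | hq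
  · exact A2.all R u1 u2 b1 b2 ⟨ha, C.sym.mem a ha, o1, rfl, o2, o3, o4, o5, o6⟩ hq A hA _ c hc
  obtain ⟨e, he, e1, e2, e3, e4, e5⟩ := R.s.nbr a ha o1 (by rw [o3]; decide) hq
  by_cases z : c' / c = 0
  · simp [z]
  obtain ⟨y, hy, f⟩ := t.tor3 e he e1 e2 e3 _ (inv_ne_zero z)
  exact hA y hy _ (by rw [f, e4, e5]; simp) c hc

end Pool.Agent.MP_983df8_al.CH

end
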