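import Pool.Agent.MP_983df8_al.ch.TOP
import Pool.Agent.MP_983df8_al.ch.KN

-- ======== part 0: formerly Pool.Agent.MP_983df8_al.ch.TF
section MrgPart0

/-! Chevalley groups: rank one subgroups of the twisted group. -/

set_option linter.unusedSectionVars false

namespace Pool.Agent.MP_983df8_al.CH

open Subgroup Module

namespace TFA

variable {ι Λ K V : Type} [AddCommGroup Λ] [Field K] [LieRing V] [LieAlgebra K V] {D : RD ι Λ}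
  {C : CG D K V} {a : ι}

/-- the hypotheses -/
structure Hy (C : CG D K V) : Prop where
  r : RF C
  u1 : UF1 C
  u2 : UF2 C
  b1 : BF1 C
  b2 : BF2 C

theorem PJ_le : C.Ux (D.PJ C.τ a) ≤ C.U := C.Ux_mono fun _ h => h.1

theorem cm_Ux {Ψ Ψ' : Set ι} (h : ∀ i ∈ Ψ, ∀ j ∈ Ψ', ∀ t u, Commute (C.x i t) (C.x j u))
    {y z : (End K V)ˣ} (hy : y ∈ C.Ux Ψ) (hz : z ∈ C.Ux Ψ') : Commute y z :=
  C.Ux_induction (p := fun y => Commute y z) hy (.one_left _) (fun i hi t =>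
    C.Ux_induction (p := fun z => Commute (C.x i t) z) hz (.one_right _) (fun j hj => h i hi j hj t)
      fun _ _ => Commute.mul_right) fun _ _ => Commute.mul_left

/-- the group generated by the root elements of `Ψ` and `-Ψ` -/
def Sg (C : CG D K V) (Ψ : Set ι) : Subgroup (End K V)ˣ := C.Ux {c | c ∈ Ψ ∨ D.ng c ∈ Ψ}

/-- braid triples -/
structure Tr (C : CG D K V) (Ψ : Set ι) (X Y m : (End K V)ˣ) : Prop where
  hX : X ∈ C.Ux Ψ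
  hY : Y ∈ C.Ux {c | D.ng c ∈ Ψ}
  e1 : X * Y * X = m
  e2 : Y * X * Y = m
  hN : m ∈ C.Nn
  four : m ^ 4 = 1

variable {Ψ Ψ' Ψ'' : Set ι} {X Y m X' Y' m' : (End K V)ˣ}

theorem Tr.sX (h : Tr C Ψ X Y m) : X ∈ Sg C Ψ := C.Ux_mono (fun _ => Or.inl) h.hX

theorem Tr.sY (h : Tr C Ψ X Y m) : Y ∈ Sg C Ψ := C.Ux_mono (fun _ => Or.inr) h.hY

theorem Tr.sm (h : Tr C Ψ X Y m) : m ∈ Sg C Ψ := h.e1 ▸ mul_mem (mul_mem h.sX h.sY) h.sX

theorem Tr.mono (h : Tr C Ψ X Y m) (s : Ψ ⊆ Ψ') : Tr C Ψ' X Y m :=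
  ⟨C.Ux_mono (fun _ c => s c) h.hX, C.Ux_mono (fun a c => s (a := D.ng a) c) h.hY, h.e1, h.e2, h.hN, h.four⟩

theorem Tr.mul (h : Tr C Ψ X Y m) (h' : Tr C Ψ' X' Y' m')
    (c : ∀ y ∈ Sg C Ψ, ∀ z ∈ Sg C Ψ', Commute y z) (s : Ψ ⊆ Ψ'') (s' : Ψ' ⊆ Ψ'') :
    Tr C Ψ'' (X * X') (Y * Y') (m * m') := by
  refine ⟨mul_mem (h.mono s).hX (h'.mono s').hX, mul_mem (h.mono s).hY (h'.mono s').hY, ?_, ?_,
    mul_mem h.hN h'.hN, by rw [(c _ h.sm _ h'.sm).mul_pow, h.four, h'.four, mul_one]⟩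
  · rw [(c _ h.sY _ h'.sX).symm.mul_mul_mul_comm,
      (c _ h.sX _ (mul_mem h'.sX h'.sY)).symm.mul_mul_mul_comm, h.e1, h'.e1]
  · rw [(c _ h.sX _ h'.sY).symm.mul_mul_mul_comm,
      (c _ h.sY _ (mul_mem h'.sY h'.sX)).symm.mul_mul_mul_comm, h.e2, h'.e2]

theorem th2 (h : C.τ a ≠ a) (h2 : C.τ (C.τ a) = a) (l : K) : C.θ (C.θ l) = l := by
  have p := C.τ_pow
  have q := pow_orderOf_eq_one C.θ
  rw [C.θ_ord] at q
  rcases C.dd_val with e | e | e <;> rw [e] at p q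
  · exact absurd (by rw [← pow_one C.τ, p]; rfl) h
  · exact DFunLike.congr_fun q l
  · have : C.τ (C.τ (C.τ a)) = a := DFunLike.congr_fun p a
    rw [h2] at this
    exact absurd this h

theorem th3 (h2 : C.τ (C.τ a) ≠ a) :
    C.τ (C.τ (C.τ a)) = a ∧ ∀ l, C.θ (C.θ (C.θ l)) = l := by
  have p := C.τ_pow
  have q := pow_orderOf_eq_one C.θ
  rw [C.θ_ord] at q
  rcases C.dd_val with e | e | e <;> rw [e] at p q
  · exact absurd (by rw [← pow_one C.τ, p]; rfl) h2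
  · exact absurd (DFunLike.congr_fun p a) h2
  · exact ⟨DFunLike.congr_fun p a, DFunLike.congr_fun q⟩

namespace Hy

variable (H : Hy C)
include H

theorem NJ_le : C.Ux (D.NJ C.τ a) ≤ C.Um := C.Ux_mono fun c h => (H.r.r.neg_ht c).2 h.1

theorem zpos {c : ι} (h : 1 ≤ D.zt C.τ a (D.rt c)) : D.pos c := by
  by_contra e
  have := H.r.s.zt_neg a c e
  omega

theorem out_le (a : ι) : C.Ue (D.zt C.τ a) ≤ C.U := C.Ux_mono fun _ h => H.zpos h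

theorem mem_sp {η : Λ →+ ℤ} (h : ∀ c ∈ Ψ, 0 ≤ η (D.rt c)) {y : (End K V)ˣ} (hy : y ∈ C.Ux Ψ) :
    y.1 ∈ C.sp {l | 0 ≤ η l} := by
  have := add_mem (H.u1.ux_sp {l | 0 ≤ η l} Ψ
    (fun a p b q => by rw [Set.mem_ofPred_eq, map_add]; exact add_nonneg p q) h y hy)
    (Sp.one (C := {l | 0 ≤ η l}) (map_zero η).ge)
  rwa [sub_add_cancel] at this

theorem U_sp {y : (End K V)ˣ} (hy : y ∈ C.U) : y.1 ∈ C.sp {l | 0 ≤ D.zt C.τ a l} :=
  H.mem_sp (fun c h => H.r.s.zt_pos a c h) hy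

theorem out_norm (a : ι) : ∀ u ∈ C.U, ∀ z ∈ C.Ue (D.zt C.τ a), u * z * u⁻¹ ∈ C.Ue (D.zt C.τ a) :=
  fun u hu z hz => C.Ux_mono (fun _ h => h.2) (H.u2.sup D.ht {l | 1 ≤ D.zt C.τ a l}
    (fun a p b q => by simp only [Set.mem_ofPred_eq, map_add] at *; omega) _
    (mul_mem (mul_mem hu (H.out_le a hz)) (inv_mem hu))
    (H.u1.fl_conj _ 1 z u (H.U_sp hu) (H.U_sp (inv_mem hu)) (H.u1.ue_fl _ z hz)))

theorem ng_PJ {c : ι} (h : c ∈ D.NJ C.τ a) : D.ng c ∈ D.PJ C.τ a :=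
  ⟨(H.r.r.pos_ng c).2 h.1, by rw [D.rt_ng, map_neg, h.2, neg_zero]⟩

theorem NJ_of {c : ι} (h : D.ng c ∈ D.PJ C.τ a) : c ∈ D.NJ C.τ a :=
  ⟨(H.r.r.pos_ng c).1 h.1, by simpa [D.rt_ng] using h.2⟩

theorem spos {i : ι} (h : i ∈ D.Δ) : D.pos i := ((H.r.r.ht_one i).2 h).ge

theorem PJ_of {c : ι} (h : D.pos c) (h' : ¬ 1 ≤ D.zt C.τ a (D.rt c)) : c ∈ D.PJ C.τ a :=
  ⟨h, by have := H.r.s.zt_pos a c h; omega⟩

theorem orbit {y : (End K V)ˣ} {w : Equiv.Perm ι} (hy : y ∈ C.Fix) (M : C.Mon y w) {c : ι}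
    (hc : c ∈ D.PJ C.τ a) : ∀ i ∈ D.Δ, D.co i (D.rt c) ≠ 0 → (D.pos (w i) ↔ D.pos (w a)) := by
  have k : ∀ c, D.pos (w (C.τ c)) ↔ D.pos (w c) := fun c => by
    rw [H.b1.fix_comm y w hy M, RD.pos, H.r.s.ht, RD.pos]
  intro i hi e
  rcases (H.r.s.zt_zero a c).1 hc.2 i hi e with rfl | rfl | rfl
  exacts [Iff.rfl, k a, (k _).trans (k a)]

theorem W1 {w : Equiv.Perm ι} (hw : w ∈ D.W)
    (z : ∀ c, D.zt C.τ a (D.rt (w c)) = D.zt C.τ a (D.rt c))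
    (h : ∀ c ∈ D.PJ C.τ a, D.pos (w c)) : w = 1 :=
  H.r.r.W_one w hw fun i hi => by
    by_cases e : 1 ≤ D.zt C.τ a (D.rt i)
    exacts [H.zpos (z i ▸ e), h i (H.PJ_of (H.spos hi) e)]

theorem rf_inv (r : (End K V)ˣ) (h : C.Rf a r) : C.Rf a r⁻¹ := by
  obtain ⟨p, q, w, hw, M, z, n⟩ := h
  have z' : ∀ c, D.zt C.τ a (D.rt (w⁻¹ c)) = D.zt C.τ a (D.rt c) := fun c => by
    rw [← z (w⁻¹ c)]; simp
  exact ⟨inv_mem p, inv_mem q, w⁻¹, inv_mem hw, M.inv, z', fun c hc e =>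
    n _ ⟨e, (z' c).trans hc.2⟩ (by simpa using hc.1)⟩

theorem flip {w : Equiv.Perm ι} (hw : w ∈ D.W) (n : ∀ c ∈ D.PJ C.τ a, ¬ D.pos (w c)) {c : ι}
    (hc : c ∈ D.NJ C.τ a) : D.pos (w c) := by
  have := n _ (H.ng_PJ hc)
  rwa [H.r.r.W_ng w hw, H.r.r.pos_ng, not_not] at this

theorem rf_uniq (r r' : (End K V)ˣ) (h : C.Rf a r) (h' : C.Rf a r') : r * r'⁻¹ ∈ C.T := by
  obtain ⟨p, -, w, hw, M, z, n⟩ := h
  obtain ⟨p', -, w', hw', M', z', n'⟩ := H.rf_inv r' h'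
  exact ⟨mul_mem p p', H.W1 (mul_mem hw hw') (fun c => (z _).trans (z' c))
    (fun c hc => H.flip hw n ⟨n' c hc, (z' c).trans hc.2⟩) ▸ M.mul M'⟩

theorem rf_pos (r : (End K V)ˣ) (h : C.Rf a r) :
    ∀ x ∈ C.Ux (D.PJ C.τ a), r * x * r⁻¹ ∈ C.Ux (D.NJ C.τ a) :=
  let ⟨_, _, w, _, M, z, n⟩ := h
  H.b1.mon_conj r w _ _ M fun c hc => ⟨n c hc, (z c).trans hc.2⟩

theorem rf_neg (r : (End K V)ˣ) (h : C.Rf a r) :
    ∀ x ∈ C.Ux (D.NJ C.τ a), r * x * r⁻¹ ∈ C.Ux (D.PJ C.τ a) :=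
  let ⟨_, _, w, hw, M, z, n⟩ := h
  H.b1.mon_conj r w _ _ M fun c hc => ⟨H.flip hw n hc, (z c).trans hc.2⟩

theorem fac0 (a : ι) {u : (End K V)ˣ} (hu : u ∈ C.U) :
    ∃ z ∈ C.Ue (D.zt C.τ a), ∃ x ∈ C.Ux (D.PJ C.τ a), u = z * x :=
  let ⟨z, hz, x, hx, e⟩ := H.u2.fac D.ht (fun c => 1 ≤ D.zt C.τ a (D.rt c)) u hu
  ⟨z, C.Ux_mono (fun _ h => h.2) hz, x, C.Ux_mono (fun _ h => H.PJ_of h.1 h.2) hx, e⟩

theorem rf_out (r : (End K V)ˣ) (h : C.Rf a r) (u : (End K V)ˣ) (hu : u ∈ C.U) :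
    r * u * r⁻¹ ∈ C.U ↔ u ∈ C.Ue (D.zt C.τ a) := by
  have k : ∀ u ∈ C.Ue (D.zt C.τ a), r * u * r⁻¹ ∈ C.U := fun u hu =>
    let ⟨_, _, w, _, M, z, _⟩ := h
    H.out_le a (H.b1.mon_conj r w _ {c | 1 ≤ D.zt C.τ a (D.rt c)} M
      (fun c hc => by rwa [Set.mem_ofPred_eq, z c]) u hu)
  refine ⟨fun e => ?_, k u⟩
  obtain ⟨z, hz, x, hx, rfl⟩ := H.fac0 a hu
  have := H.u1.disj D.ht (r * x * r⁻¹) (by
    rw [show r * x * r⁻¹ = (r * z * r⁻¹)⁻¹ * (r * (z * x) * r⁻¹) by group]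
    exact mul_mem (inv_mem (k z hz)) e) (H.NJ_le (H.rf_pos r h x hx))
  rwa [conj_eq_one_iff.1 this, mul_one]

theorem fac1 (ha : a ∈ D.Δ) (u : (End K V)ˣ) (hu : u ∈ C.U ⊓ C.Fix) :
    ∃ z ∈ C.Ue (D.zt C.τ a) ⊓ C.Fix, ∃ x ∈ C.Ux (D.PJ C.τ a) ⊓ C.Fix, u = z * x := by
  obtain ⟨z, hz, x, hx, rfl⟩ := H.fac0 a hu.1
  have e : C.σ z * C.σ x = z * x := by rw [← map_mul]; exact hu.2
  have e' : z⁻¹ * C.σ z = x * (C.σ x)⁻¹ := by
    rw [inv_mul_eq_iff_eq_mul, ← mul_assoc, ← e, mul_inv_cancel_right]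
  have p : z⁻¹ * C.σ z ∈ C.Ue (D.zt C.τ a) := mul_mem (inv_mem hz)
    (H.u2.σ_ux _ {c | 1 ≤ D.zt C.τ a (D.rt c)}
      (fun c hc => by rwa [Set.mem_ofPred_eq, H.r.s.zt a ha c]) z hz)
  have q : z⁻¹ * C.σ z ∈ C.Ux (D.PJ C.τ a) := e' ▸ mul_mem hx (inv_mem (H.u2.σ_ux _ (D.PJ C.τ a)
    (fun c hc => ⟨hc.1.trans_eq (H.r.s.ht c).symm, (H.r.s.zt a ha c).trans hc.2⟩) x hx))
  have o : z⁻¹ * C.σ z = 1 := Units.ext (sub_eq_zero.1 (Sp.eq_zero (Sp.inter (H.u1.ue_fl _ _ p)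
    (H.u1.ux_sp {l | D.zt C.τ a l = 0} _
      (fun a p b q => by simp only [Set.mem_ofPred_eq, map_add] at *; omega) (fun _ h => h.2) _ q))
    fun i j h => by have := h.1.trans_eq h.2; omega))
  exact ⟨z, ⟨hz, (inv_mul_eq_one.1 o).symm⟩, x, ⟨hx, (mul_inv_eq_one.1 (e' ▸ o)).symm⟩, rfl⟩

theorem low (v : (End K V)ˣ) (hv : v ∈ C.Ux (D.NJ C.τ a) ⊓ C.Fix) (v1 : v ≠ 1) :
    ∃ u ∈ C.U ⊓ C.Fix, ∃ r, ∃ u' ∈ C.Ux (D.PJ C.τ a) ⊓ C.Fix, C.Rf a r ∧ v = u * r * u' := by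
  obtain ⟨u, hu, n, hn, u', hu', c, e⟩ :=
    H.b2.bruhat1 v (mem_sup_right ⟨H.NJ_le hv.1, hv.2⟩)
  obtain ⟨w, hw, M⟩ := H.b1.N_mon n hn.1
  have nf := (H.b2.G1_le n hn.2).2
  have ad : ∀ c ∈ {l | 0 ≤ D.zt C.τ a l}, ∀ c' ∈ {l | 0 ≤ D.zt C.τ a l},
      c + c' ∈ {l | 0 ≤ D.zt C.τ a l} := fun _ p _ q => by
    rw [Set.mem_ofPred_eq, map_add]; exact add_nonneg p q
  have z := H.b1.mon_zeta n w (D.zt C.τ a) M (by
    rw [show n = u⁻¹ * v * u'⁻¹ by rw [e]; group]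
    exact Sp.mul (Sp.mul (H.U_sp (inv_mem hu.1)) (H.mem_sp (fun _ h => h.2.ge) hv.1) ad)
      (H.U_sp (inv_mem hu'.1)) ad)
  by_cases p : D.pos (w a)
  · obtain rfl := H.W1 hw z fun c hc =>
      H.r.r.W_pos w hw c hc.1 fun i hi e => (H.orbit nf M hc i hi e).2 p
    obtain rfl := conj_eq_one_iff.1
      (H.u1.disj D.ht _ (H.b1.mon_conj n 1 _ _ M (fun _ h => h) u' hu'.1) c)
    exact absurd (H.b2.UV u⁻¹ (inv_mem hu.1) v (H.NJ_le hv.1) (by simpa [e] using hn.1)).2 v1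
  · exact ⟨u, hu, n, u', ⟨C.Ux_mono (fun c h => H.PJ_of h.1 fun q => h.2 (H.zpos (z c ▸ q)))
      (H.b2.inv_set n w M u' hu'.1 c), hu'.2⟩, ⟨hn.1, hn.2, w, hw, M, z, fun c hc =>
      H.r.r.W_neg w hw c hc.1 fun i hi e => (H.orbit nf M hc i hi e).not.2 p⟩, e⟩

theorem tr1 (i : ι) {l : K} (hl : l ≠ 0) :
    Tr C {i} (C.x i l) (C.x (D.ng i) (-l⁻¹)) (C.n i l) :=
  ⟨C.x_mem (Set.mem_singleton i) _, C.x_mem (a := D.ng i) (D.ng_ng i) _, rfl,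
    (H.b1.braid i l hl).symm,
    subset_closure ⟨i, l, hl, rfl⟩, H.b1.n_four i l hl⟩

theorem x_ne (i : ι) {l : K} (hl : l ≠ 0) : C.x i l ≠ 1 :=
  fun e => hl (H.u1.x_inj i l 0 (e.trans (C.x_zero i).symm))

theorem cm (hs : ∀ c ∈ D.PJ C.τ a, c ∈ D.Δ) (s : Ψ ⊆ D.PJ C.τ a) (s' : Ψ' ⊆ D.PJ C.τ a)
    (d : ∀ i ∈ Ψ, i ∉ Ψ') : ∀ y ∈ Sg C Ψ, ∀ z ∈ Sg C Ψ', Commute y z := by
  have h1 : ∀ i ∈ D.PJ C.τ a, D.ht (D.rt i) = 1 := fun i hi => (H.r.r.ht_one i).2 (hs i hi)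
  have pp : ∀ i ∈ D.PJ C.τ a, ∀ j ∈ D.PJ C.τ a, ∀ c (p q : ℤ), 1 ≤ p → 1 ≤ q →
      D.rt c ≠ p • D.rt i + q • D.rt j := fun i hi j hj c p q hp hq e => by
    have k : D.ht (D.rt c) = p + q := by simp [e, h1 i hi, h1 j hj]
    have := h1 c ⟨by rw [RD.pos, k]; omega, by simp [e, hi.2, hj.2]⟩
    omega
  have pm : ∀ i ∈ D.Δ, ∀ j, D.ng j ∈ D.Δ → i ≠ D.ng j → ∀ t u, Commute (C.x i t) (C.x j u) := by
    intro i hi j hj e t u
    have r : D.rt j = -D.rt (D.ng j) := by rw [D.rt_ng, neg_neg]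
    have c1 := D.co_self i hi
    have c2 := D.co_self _ hj
    have c3 := D.co_ne i hi _ hj e
    have c4 := D.co_ne _ hj i hi e.symm
    refine H.u2.comm (D.co i - D.co (D.ng j)) i j t u (by simp [c1, c4]) (by rw [r]; simp [c2, c3])
      fun c p q hp hq k => ?_
    rw [r] at k
    rcases D.sgn c with f | f
    · have := f _ hj
      simp [k, c2, c4] at this
      omega
    · have := f _ hi
      simp [k, c1, c3] at this
      omega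
  refine fun y hy z hz => cm_Ux ?_ hy hz
  rintro i (hi | hi) j (hj | hj) t u
  · exact H.u2.comm D.ht i j t u (s hi).1 (s' hj).1 (pp i (s hi) j (s' hj))
  · exact pm i (hs i (s hi)) j (hs _ (s' hj)) (fun e => d i hi (e ▸ hj)) t u
  · exact (pm j (hs j (s' hj)) i (hs _ (s hi)) (fun e => d _ hi (e ▸ hj)) u t).symm
  · refine H.u2.comm (-D.ht) i j t u ((H.r.r.neg_ht i).2 (H.NJ_of (s hi)).1)
      ((H.r.r.neg_ht j).2 (H.NJ_of (s' hj)).1) fun c p q hp hq k =>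
        pp _ (s hi) _ (s' hj) (D.ng c) p q hp hq ?_
    simp only [D.rt_ng, k, smul_neg, neg_add]

theorem σp {i : ι} (h : i ∈ D.Δ) (t : K) : C.σ (C.x i t) = C.x (C.τ i) (C.θ t) := by
  rw [C.σ_x, C.ε_one i h, one_mul]

theorem σm {i : ι} (h : i ∈ D.Δ) (t : K) :
    C.σ (C.x (D.ng i) (-t⁻¹)) = C.x (D.ng (C.τ i)) (-(C.θ t)⁻¹) := by
  rw [C.σ_x, C.ε_ng, C.ε_one i h, one_mul, H.r.s.ng, map_neg, map_inv₀]

theorem mem0 (ha : a ∈ D.Δ) : a ∈ D.PJ C.τ a ∧ C.τ a ∈ D.PJ C.τ a ∧ C.τ (C.τ a) ∈ D.PJ C.τ a :=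
  have b := C.sym.mem a ha
  have c := C.sym.mem _ b
  ⟨⟨H.spos ha, (H.r.s.zt_simple a _ ha).2 (.inl rfl)⟩,
    ⟨H.spos b, (H.r.s.zt_simple a _ b).2 (.inr (.inl rfl))⟩,
    H.spos c, (H.r.s.zt_simple a _ c).2 (.inr (.inr rfl))⟩

/-- the factors of the other roots of an orthogonal orbit -/
theorem rest (ha : a ∈ D.Δ) (h : C.τ a ≠ a) (hs : ∀ c ∈ D.PJ C.τ a, c ∈ D.Δ) :
    ∃ m : K → (End K V)ˣ, ∀ l, l ≠ 0 → (∃ X Y, Tr C (D.PJ C.τ a \ {a}) X Y (m l) ∧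
      C.x a l * X ∈ C.Fix ∧ C.x (D.ng a) (-l⁻¹) * Y ∈ C.Fix) ∧ m l * (m 1)⁻¹ ∈ C.T ∧
      ∀ d, C.τ (C.τ a) = a ∨ D.cv (C.τ (C.τ a)) (D.rt d) = 0 →
        (m l * (m 1)⁻¹).1 (C.e d) = C.θ l ^ D.cv (C.τ a) (D.rt d) • C.e d := by
  obtain ⟨a0, a1, a2⟩ := H.mem0 ha
  have b := C.sym.mem a ha
  have c := H.cm hs (Set.singleton_subset_iff.2 a0) (Ψ' := D.PJ C.τ a \ {a}) Set.sdiff_subset
    fun i hi e => e.2 hi
  have s1 : {C.τ a} ⊆ D.PJ C.τ a \ {a} := Set.singleton_subset_iff.2 ⟨a1, h⟩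
  have ne : ∀ {l : K}, l ≠ 0 → C.θ l ≠ 0 := fun hl => (map_ne_zero _).2 hl
  by_cases h2 : C.τ (C.τ a) = a
  · refine ⟨fun l => C.n (C.τ a) (C.θ l), fun l hl => ?_⟩
    have t := (H.tr1 (C.τ a) (ne hl)).mono s1
    have k := H.b1.tor (C.τ a) 1 (C.θ l) one_ne_zero (ne hl)
    simp only [mul_one, map_one] at k ⊢
    refine ⟨⟨_, _, t, ?_, ?_⟩, k.1, fun d _ => k.2 d⟩
    · rw [C.mem_Fix, map_mul, H.σp ha, H.σp b, h2, th2 h h2]
      exact (c _ (H.tr1 a hl).sX _ t.sX).symm.eq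
    · rw [C.mem_Fix, map_mul, H.σm ha, H.σm b, h2, th2 h h2]
      exact (c _ (H.tr1 a hl).sY _ t.sY).symm.eq
  · obtain ⟨h3, q⟩ := th3 h2
    have b' := C.sym.mem _ b
    have s2 : {C.τ (C.τ a)} ⊆ D.PJ C.τ a \ {a} := Set.singleton_subset_iff.2 ⟨a2, h2⟩
    have c' := H.cm hs (Set.singleton_subset_iff.2 a1) (Set.singleton_subset_iff.2 a2)
      fun i hi e => h (C.τ.injective ((Eq.symm e).trans hi))
    refine ⟨fun l => C.n (C.τ a) (C.θ l) * C.n (C.τ (C.τ a)) (C.θ (C.θ l)), fun l hl => ?_⟩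
    have t := (H.tr1 (C.τ a) (ne hl)).mul (H.tr1 (C.τ (C.τ a)) (ne (ne hl))) c' s1 s2
    have k := H.b1.tor (C.τ a) 1 (C.θ l) one_ne_zero (ne hl)
    have k' := H.b1.tor (C.τ (C.τ a)) 1 (C.θ (C.θ l)) one_ne_zero (ne (ne hl))
    simp only [mul_one, map_one] at k k' ⊢
    have o := one_ne_zero (α := K)
    rw [(c' _ (H.tr1 _ o).sm _ (H.tr1 _ o).sm).eq, mul_inv_rev,
      (c' _ (inv_mem (H.tr1 _ o).sm) _ (H.tr1 _ (ne (ne hl))).sm).symm.mul_mul_mul_comm]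
    refine ⟨⟨_, _, t, ?_, ?_⟩, mul_mem k.1 k'.1, fun d e => ?_⟩
    · rw [C.mem_Fix, map_mul, map_mul, H.σp ha, H.σp b, H.σp b', h3, q, ← mul_assoc]
      exact (c _ (H.tr1 a hl).sX _ t.sX).symm.eq
    · rw [C.mem_Fix, map_mul, map_mul, H.σm ha, H.σm b, H.σm b', h3, q, ← mul_assoc]
      exact (c _ (H.tr1 a hl).sY _ t.sY).symm.eq
    · rw [Units.val_mul, End.mul_apply, k'.2, e.resolve_left h2, zpow_zero, one_smul, k.2]

theorem G1_of (t : Tr C (D.PJ C.τ a) X Y m) (p : X ∈ C.Fix) (q : Y ∈ C.Fix) : m ∈ C.G1 :=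
  have x : X ∈ C.G1 := mem_sup_left ⟨PJ_le t.hX, p⟩
  t.e1 ▸ mul_mem (mul_mem x
    (mem_sup_right ⟨H.NJ_le (C.Ux_mono (fun _ h => H.NJ_of h) t.hY), q⟩)) x

theorem simple (ha : a ∈ D.Δ) (h : ∀ c ∈ D.PJ C.τ a, c = a ∨ c = C.τ a ∨ c = C.τ (C.τ a)) :
    ∀ c ∈ D.PJ C.τ a, c ∈ D.Δ := fun c hc => by
  rcases h c hc with rfl | rfl | rfl
  exacts [ha, C.sym.mem a ha, C.sym.mem _ (C.sym.mem a ha)]

theorem join (ha : a ∈ D.Δ) (hs : ∀ c ∈ D.PJ C.τ a, c ∈ D.Δ) {l : K} (hl : l ≠ 0)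
    (t : Tr C (D.PJ C.τ a \ {a}) X Y m) :
    Tr C (D.PJ C.τ a) (C.x a l * X) (C.x (D.ng a) (-l⁻¹) * Y) (C.n a l * m) ∧
      ∀ y ∈ Sg C {a}, Commute y m :=
  have s := Set.singleton_subset_iff.2 (H.mem0 ha).1
  have c := H.cm hs s (Ψ' := D.PJ C.τ a \ {a}) Set.sdiff_subset fun _ hi e => e.2 hi
  ⟨(H.tr1 a hl).mul t c s Set.sdiff_subset, fun y hy => c y hy m t.sm⟩

theorem torus (ha : a ∈ D.Δ) (h : C.τ a ≠ a) (o : D.cv a (D.rt (C.τ a)) = 0) {l : K} (hl : l ≠ 0) :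
    ∃ t ∈ C.T ⊓ C.G1, ∀ d, C.τ (C.τ a) = a ∨ D.cv (C.τ (C.τ a)) (D.rt d) = 0 → t.1 (C.e d) =
      (l ^ D.cv a (D.rt d) * C.θ l ^ D.cv (C.τ a) (D.rt d)) • C.e d := by
  have hs := H.simple ha ((H.r.s.orb a ha).resolve_right fun k => by have := k.2.2.1; omega).1
  obtain ⟨m, hm⟩ := H.rest ha h hs
  obtain ⟨⟨X, Y, t, p, q⟩, k1, k2⟩ := hm l hl
  obtain ⟨⟨X', Y', t', p', q'⟩, -⟩ := hm 1 one_ne_zero
  have j := H.join ha hs hl t
  have j' := H.join ha hs one_ne_zero t'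
  have k := H.b1.tor a 1 l one_ne_zero hl
  rw [mul_one] at k
  have s := (H.tr1 a one_ne_zero).sm
  have g := mul_mem (H.G1_of j.1 p q) (inv_mem (H.G1_of j'.1 p' q'))
  rw [(j'.2 _ s).eq, mul_inv_rev, (j.2 _ (inv_mem s)).symm.mul_mul_mul_comm] at g
  refine ⟨_, ⟨mul_mem k.1 k1, g⟩, fun d e => ?_⟩
  rw [Units.val_mul, End.mul_apply, k2 d e, map_smul, k.2, smul_smul, mul_comm]

theorem tor2 (ha : a ∈ D.Δ) (o : C.τ a ≠ a → D.cv a (D.rt (C.τ a)) = 0) (l : K) (hl : l ≠ 0)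
    (f : C.τ a = a → C.θ l = l) : ∃ t ∈ C.T ⊓ C.G1, t.1 (C.e a) = (l * l) • C.e a := by
  by_cases h : C.τ a = a
  · have k := H.b1.tor a 1 l one_ne_zero hl
    rw [mul_one] at k
    exact ⟨_, mem_inf.2 ⟨k.1, mul_mem (H.b1.fix_n a l h (by rw [C.ε_one a ha, one_mul, f h]))
      (inv_mem (H.b1.fix_n a 1 h (by rw [C.ε_one a ha, one_mul, map_one])))⟩,
      by rw [k.2, D.two, zpow_two]⟩
  · obtain ⟨t, ht, e⟩ := H.torus ha h (o h) hl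
    have z := (((H.r.s.orb a ha).resolve_right fun k => by
      have := k.2.2.1; have := o h; omega).2 h).2
    have := e a (or_iff_not_imp_left.2 fun h2 => by
      rw [← o h, ← C.sym.cv a, ← C.sym.cv (C.τ a), (th3 h2).1])
    exact ⟨t, ht, by rw [this, D.two, z, zpow_two, zpow_zero, mul_one]⟩

theorem orb (ha : a ∈ D.Δ) : ∃ x ∈ C.Ux (D.PJ C.τ a) ⊓ C.Fix, ∃ y ∈ C.Ux (D.NJ C.τ a) ⊓ C.Fix,
    x ≠ 1 ∧ y ≠ 1 ∧ x * y * x = y * x * y ∧ x * y * x ∈ C.Nn ∧ (x * y * x) ^ 4 = 1 := by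
  suffices ∃ X Y m, Tr C (D.PJ C.τ a) X Y m ∧ X ∈ C.Fix ∧ Y ∈ C.Fix ∧ X ≠ 1 ∧ Y ≠ 1 from
    let ⟨X, Y, _, t, p, q, x, y⟩ := this
    ⟨X, ⟨t.hX, p⟩, Y, ⟨C.Ux_mono (fun _ h => H.NJ_of h) t.hY, q⟩, x, y, t.e1.trans t.e2.symm,
      t.e1 ▸ t.hN, t.e1 ▸ t.four⟩
  have fx : ∀ d ∈ D.PJ C.τ a, C.τ d = d →
      ∃ X Y m, Tr C (D.PJ C.τ a) X Y m ∧ X ∈ C.Fix ∧ Y ∈ C.Fix ∧ X ≠ 1 ∧ Y ≠ 1 := fun d hd e => by
    obtain ⟨t, t0, ht⟩ := H.b1.fixr d e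
    refine ⟨_, _, _, (H.tr1 d t0).mono (Set.singleton_subset_iff.2 hd), ?_, ?_, H.x_ne _ t0,
      H.x_ne _ (neg_ne_zero.2 (inv_ne_zero t0))⟩
    · rw [C.mem_Fix, C.σ_x, e, ht]
    · rw [C.mem_Fix, C.σ_x, H.r.s.ng, e, C.ε_ng, map_neg, map_inv₀]
      congr 1
      conv_rhs => rw [← ht]
      rcases C.ε_val d with k | k <;> simp [k]
  obtain ⟨a0, a1, -⟩ := H.mem0 ha
  by_cases h : C.τ a = a
  · exact fx a a0 h
  rcases H.r.s.orb a ha with k | ⟨-, h2, -, -, d, e, -⟩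
  · have hs := H.simple ha k.1
    obtain ⟨m, hm⟩ := H.rest ha h hs
    obtain ⟨⟨X, Y, t, p, q⟩, -⟩ := hm 1 one_ne_zero
    have h1 : ∀ i ∈ D.Δ, D.ht (D.rt i) = 1 := fun i => (H.r.r.ht_one i).2
    have η1 : ((2 : ℤ) • D.co a - D.ht) (D.rt a) = 1 := by simp [D.co_self a ha, h1 a ha]
    have η2 : ∀ i ∈ D.PJ C.τ a \ {a}, ((2 : ℤ) • D.co a - D.ht) (D.rt i) = -1 := fun i hi => by
      simp [D.co_ne a ha i (hs i hi.1) (Ne.symm hi.2), h1 i (hs i hi.1)]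
    refine ⟨_, _, _, (H.join ha hs one_ne_zero t).1, p, q, fun e => ?_, fun e => ?_⟩
    · refine H.x_ne a one_ne_zero (H.u1.disj ((2 : ℤ) • D.co a - D.ht) _ (C.x_mem η1.ge _) ?_)
      rw [eq_inv_of_mul_eq_one_left e]
      refine inv_mem (C.Ux_mono (fun i hi => ?_) t.hX)
      rw [Set.mem_ofPred_eq, AddMonoidHom.neg_apply, η2 i hi, neg_neg]
    · refine H.x_ne (D.ng a) (neg_ne_zero.2 (inv_ne_zero one_ne_zero))
        (H.u1.disj ((2 : ℤ) • D.co a - D.ht) _ ?_ (C.x_mem ?_ _))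
      · rw [eq_inv_of_mul_eq_one_left e]
        refine inv_mem (C.Ux_mono (fun i hi => ?_) t.hY)
        have := η2 _ hi
        rw [D.rt_ng, map_neg, neg_inj] at this
        exact this.ge
      · rw [Set.mem_ofPred_eq, AddMonoidHom.neg_apply, D.rt_ng, map_neg, neg_neg, η1]
  · refine fx d ⟨?_, by rw [e, map_add, a0.2, a1.2, add_zero]⟩
      (D.inj (by rw [H.r.s.add a _ d e, h2, e, add_comm]))
    have := a0.1
    have := a1.1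
    simp only [RD.pos, e, map_add] at *
    omega

theorem norm (y : (End K V)ˣ) (hy : y ∈ C.G1) (h : ∀ u ∈ C.U ⊓ C.Fix, y * u * y⁻¹ ∈ C.U) :
    y ∈ C.U ⊔ C.T := by
  obtain ⟨u, hu, n, hn, u', hu', -, rfl⟩ := H.b2.bruhat1 y hy
  obtain ⟨w, hw, M⟩ := H.b1.N_mon n hn.1
  obtain rfl := H.r.r.W_one w hw fun a ha => by
    by_contra p
    obtain ⟨x, hx, -, -, x1, -⟩ := H.orb ha
    refine x1 (conj_eq_one_iff.1 (H.u1.disj D.ht (n * x * n⁻¹) ?_ (H.b1.mon_conj n w _ _ M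
      (fun c hc => (H.r.r.neg_ht _).2 (H.r.r.W_neg w hw c hc.1 fun i hi e =>
        (H.orbit (H.b2.G1_le n hn.2).2 M hc i hi e).not.2 p)) x hx.1)))
    rw [show n * x * n⁻¹ = u⁻¹ * (u * n * u' * (u'⁻¹ * x * u') * (u * n * u')⁻¹) * u by group]
    exact mul_mem (mul_mem (inv_mem hu.1)
      (h _ (mul_mem (mul_mem (inv_mem hu') ⟨PJ_le hx.1, hx.2⟩) hu'))) hu.1
  exact mul_mem (mul_mem (mem_sup_left hu.1) (mem_sup_right ⟨hn.1, M⟩)) (mem_sup_left hu'.1)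

end Hy

end TFA

theorem tf : S_TF := by
  intro ι Λ K V _ _ _ _ D C r u1 u2 b1 b2
  have H : TFA.Hy C := ⟨r, u1, u2, b1, b2⟩
  exact ⟨fun _ => H.orb, fun _ => H.tor2,
    fun c hc h h2 o l hl => (H.torus hc h o hl).imp fun _ k => ⟨k.1, fun d => k.2 d (.inl h2)⟩,
    fun _ _ => H.low, fun _ _ => H.rf_uniq, fun _ _ => H.rf_inv, fun _ _ => H.rf_pos,
    fun _ _ => H.rf_neg, fun _ _ => H.rf_out, H.out_le, H.out_norm, fun _ => H.fac1, H.norm⟩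

end Pool.Agent.MP_983df8_al.CH

end MrgPart0

-- ======== part 1: formerly Pool.Agent.MP_983df8_al.ch.BN
section MrgPart1

/-! Chevalley groups: the split saturated BN-pair of the twisted group. -/

noncomputable section

namespace Pool.Agent.MP_983df8_al.CH

open Subgroup Module

universe u

namespace BN

variable {ι Λ K V : Type} [AddCommGroup Λ] [Field K] [LieRing V] [LieAlgebra K V] {D : RD ι Λ}
  {C : CG D K V}

theorem U_G1 {x : (End K V)ˣ} (h : x ∈ C.U ⊓ C.Fix) : x ∈ C.G1 :=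
  (le_sup_left : C.U ⊓ C.Fix ≤ C.G1) h

theorem PJ_U {a : ι} {x : (End K V)ˣ} (h : x ∈ C.Ux (D.PJ C.τ a)) : x ∈ C.U :=
  C.Ux_mono (fun _ e => e.1) h

theorem NJ_Um (R : RF C) {a : ι} {x : (End K V)ˣ} (h : x ∈ C.Ux (D.NJ C.τ a)) : x ∈ C.Um :=
  C.Ux_mono (fun c e => (R.r.neg_ht c).2 e.1) h

theorem U_B {x : (End K V)ˣ} (h : x ∈ C.U) : x ∈ C.U ⊔ C.T := (le_sup_left : C.U ≤ _) h

theorem T_B {x : (End K V)ˣ} (h : x ∈ C.T) : x ∈ C.U ⊔ C.T := (le_sup_right : C.T ≤ _) h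

theorem pos_tau (R : RF C) (c : ι) : D.pos (C.τ c) ↔ D.pos c := by
  unfold RD.pos
  rw [R.s.ht]

theorem self_PJ (R : RF C) {a : ι} (ha : a ∈ D.Δ) : a ∈ D.PJ C.τ a :=
  ⟨((R.r.ht_one a).2 ha).ge, (R.s.zt_simple a a ha).2 (.inl rfl)⟩

theorem ng_PJ (R : RF C) {a c : ι} (h : c ∈ D.NJ C.τ a) : D.ng c ∈ D.PJ C.τ a :=
  ⟨(R.r.pos_ng c).2 h.1, by rw [D.rt_ng, map_neg, h.2, neg_zero]⟩

theorem all_pos (R : RF C) (b : BF1 C) {y : (End K V)ˣ} {w : Equiv.Perm ι} (hw : w ∈ D.W)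
    (hy : y ∈ C.Fix) (m : C.Mon y w) {a : ι} (h : D.pos (w a)) :
    ∀ c ∈ D.PJ C.τ a, D.pos (w c) := fun c hc =>
  R.r.W_pos w hw c hc.1 fun i hi e => by
    rcases (R.s.zt_zero a c).1 hc.2 i hi e with rfl | rfl | rfl
    · exact h
    · rwa [b.fix_comm y w hy m, pos_tau R]
    · rwa [b.fix_comm y w hy m, pos_tau R, b.fix_comm y w hy m, pos_tau R]

theorem all_neg (R : RF C) (b : BF1 C) {y : (End K V)ˣ} {w : Equiv.Perm ι} (hw : w ∈ D.W)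
    (hy : y ∈ C.Fix) (m : C.Mon y w) {a : ι} (h : ¬ D.pos (w a)) :
    ∀ c ∈ D.PJ C.τ a, ¬ D.pos (w c) := fun c hc =>
  R.r.W_neg w hw c hc.1 fun i hi e => by
    rcases (R.s.zt_zero a c).1 hc.2 i hi e with rfl | rfl | rfl
    · exact h
    · rwa [b.fix_comm y w hy m, pos_tau R]
    · rwa [b.fix_comm y w hy m, pos_tau R, b.fix_comm y w hy m, pos_tau R]

theorem flip_neg (R : RF C) {w : Equiv.Perm ι} (hw : w ∈ D.W) {a : ι}
    (h : ∀ c ∈ D.PJ C.τ a, ¬ D.pos (w c)) : ∀ c ∈ D.NJ C.τ a, D.pos (w c) := fun c hc => by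
  have e := h _ (ng_PJ R hc)
  rwa [R.r.W_ng w hw, R.r.pos_ng, not_not] at e

theorem flip_pos (R : RF C) {w : Equiv.Perm ι} (hw : w ∈ D.W) {a : ι}
    (h : ∀ c ∈ D.PJ C.τ a, D.pos (w c)) : ∀ c ∈ D.NJ C.τ a, ¬ D.pos (w c) := fun c hc => by
  have e := h _ (ng_PJ R hc)
  rwa [R.r.W_ng w hw, R.r.pos_ng] at e

/-- the number of inversions -/
def inv (D : RD ι Λ) (w : Equiv.Perm ι) : ℕ := {c | D.pos c ∧ ¬ D.pos (w c)}.ncard

theorem step (R : RF C) {w v : Equiv.Perm ι} (hw : w ∈ D.W) {a : ι} (ha : a ∈ D.Δ)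
    (h : ∀ c ∈ D.PJ C.τ a, ¬ D.pos (w c))
    (v1 : ∀ c, D.zt C.τ a (D.rt (v c)) = D.zt C.τ a (D.rt c))
    (v2 : ∀ c ∈ D.PJ C.τ a, ¬ D.pos (v c)) : inv D (w * v) < inv D w := by
  have := D.fin
  unfold inv
  rw [← Set.ncard_image_of_injective _ v.injective]
  have key : ∀ c, D.pos c → ¬ D.pos (w (v c)) → D.pos (v c) ∧ D.zt C.τ a (D.rt (v c)) ≠ 0 := by
    intro c c1 c2
    by_cases e : D.zt C.τ a (D.rt c) = 0
    · exact (c2 (flip_neg R hw h _ ⟨v2 c ⟨c1, e⟩, by rw [v1, e]⟩)).elim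
    refine ⟨not_not.1 fun f => ?_, by rwa [v1]⟩
    have f1 := R.s.zt_neg a _ f
    have f2 := R.s.zt_pos a _ c1
    rw [v1] at f1
    omega
  refine Set.ncard_lt_ncard ⟨?_, fun s => ?_⟩
  · rintro _ ⟨c, ⟨c1, c2⟩, rfl⟩
    exact ⟨(key c c1 c2).1, c2⟩
  obtain ⟨c, ⟨c1, c2⟩, e⟩ := s ⟨(self_PJ R ha).1, h a (self_PJ R ha)⟩
  exact (key c c1 c2).2 (by rw [e]; exact (self_PJ R ha).2)

theorem ex_rf (t : TF C) {a : ι} (ha : a ∈ D.Δ) : ∃ r, C.Rf a r := by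
  obtain ⟨_, _, y, hy, _, y1, _⟩ := t.orb a ha
  obtain ⟨_, _, r, _, _, hr, _⟩ := t.low a ha y hy y1
  exact ⟨r, hr⟩

theorem low_one (b : BF2 C) {v : (End K V)ˣ} (hv : v ∈ C.Um) (h : v ∈ C.U ⊔ C.T) : v = 1 := by
  obtain ⟨u, hu, t, ht, e⟩ := (b.mem_B v).1 h
  refine (b.UV u⁻¹ (inv_mem hu) v hv ?_).2
  rw [e, inv_mul_cancel_left]
  exact ht.1

theorem BN_T (b : BF2 C) {y : (End K V)ˣ} (h : y ∈ C.U ⊔ C.T) (hn : y ∈ C.Nn) : y ∈ C.T := by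
  obtain ⟨u, hu, t, ht, rfl⟩ := (b.mem_B y).1 h
  have e := (b.UV u hu 1 (one_mem _) (by
    simpa using mul_mem hn (inv_mem ht.1))).1
  rwa [e, one_mul]

theorem B_conj (b : BF1 C) (b2 : BF2 C) {y x : (End K V)ˣ} (h : y ∈ C.U ⊔ C.T) (hx : x ∈ C.U) :
    y * x * y⁻¹ ∈ C.U := by
  obtain ⟨u, hu, t, ht, rfl⟩ := (b2.mem_B y).1 h
  have e : t * x * t⁻¹ ∈ C.U := b.mon_conj t 1 _ _ ht.2 (fun _ e => e) x hx
  have f := mul_mem (mul_mem hu e) (inv_mem hu)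
  rwa [show u * (t * x * t⁻¹) * u⁻¹ = u * t * x * (u * t)⁻¹ by group] at f

/-- generation of the monomial group -/
theorem gen (R : RF C) (b : BF1 C) (b2 : BF2 C) (t : TF C) (H : Subgroup (End K V)ˣ)
    (h1 : ∀ a ∈ D.Δ, ∀ r, C.Rf a r → r ∈ H) (h2 : ∀ y ∈ C.T, y ∈ C.G1 → y ∈ H) (k : ℕ) :
    ∀ y ∈ C.Nn, y ∈ C.G1 → ∀ w ∈ D.W, C.Mon y w → inv D w = k → y ∈ H := by
  induction k using Nat.strong_induction_on with
  | _ k ih =>
  intro y y1 y2 w hw m e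
  by_cases p : ∀ i ∈ D.Δ, D.pos (w i)
  · exact h2 y ⟨y1, R.r.W_one w hw p ▸ m⟩ y2
  push Not at p
  obtain ⟨a, ha, p⟩ := p
  obtain ⟨r, hr⟩ := ex_rf t ha
  obtain ⟨r1, r2, v, hv, mv, v1, v2⟩ := id hr
  have s := step R hw ha (all_neg R b hw (b2.G1_le y y2).2 m p) v1 v2
  have q := ih _ (e ▸ s) (y * r) (mul_mem y1 r1) (mul_mem y2 r2) _ (mul_mem hw hv) (m.mul mv) rfl
  simpa using mul_mem q (inv_mem (h1 a ha r hr))

/-- the longest element -/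
theorem longest (R : RF C) (b : BF1 C) (b2 : BF2 C) (t : TF C) :
    ∃ y ∈ C.Nn, y ∈ C.G1 ∧ ∀ u ∈ C.U, y * u * y⁻¹ ∈ C.Um := by
  have := D.fin
  obtain ⟨w, ⟨hw, y, y1, y2, m⟩, mx⟩ := Set.exists_max_image
    {w | w ∈ D.W ∧ ∃ y ∈ C.Nn, y ∈ C.G1 ∧ C.Mon y w} (inv D) (Set.toFinite _)
    ⟨1, one_mem _, 1, one_mem _, one_mem _, C.mon_one⟩
  have p : ∀ a ∈ D.Δ, ¬ D.pos (w a) := fun a ha p => by
    obtain ⟨r, hr⟩ := ex_rf t ha
    obtain ⟨r1, r2, v, hv, mv, v1, v2⟩ := id hr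
    obtain ⟨-, -, v', -, mv', v3, v4⟩ := t.rf_inv a ha r hr
    have q := flip_pos R hw (all_pos R b hw (b2.G1_le y y2).2 m p)
    have s := step R (mul_mem hw hv) ha (fun c hc => q _ ⟨v2 c hc, by rw [v1, hc.2]⟩) v3 v4
    rw [b.mon_uniq _ _ _ mv' mv.inv, mul_inv_cancel_right] at s
    exact s.not_ge (mx _ ⟨mul_mem hw hv, y * r, mul_mem y1 r1, mul_mem y2 r2, m.mul mv⟩)
  exact ⟨y, y1, y2, b.mon_conj y w _ _ m fun c hc =>
    (R.r.neg_ht _).2 (R.r.W_neg w hw c hc fun i hi _ => p i hi)⟩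

/-- the product formula -/
theorem prod (R : RF C) (b : BF1 C) (b2 : BF2 C) (t : TF C) {a : ι} (ha : a ∈ D.Δ)
    {r y n : (End K V)ˣ} (hr : C.Rf a r) (y1 : y ∈ C.U ⊔ C.T) (y2 : y ∈ C.G1) (n1 : n ∈ C.Nn)
    (n2 : n ∈ C.G1) : ∃ c ∈ C.U ⊔ C.T, ∃ d ∈ C.U ⊔ C.T, d ∈ C.G1 ∧
      (r * y * n = c * (r * n) * d ∨ r * y * n = c * n * d) := by
  obtain ⟨u, hu, s, hs, rfl⟩ := b2.mem_B1 y y2 y1
  obtain ⟨z, hz, x, hx, rfl⟩ := t.fac1 a ha u hu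
  have z1 : r * z * r⁻¹ ∈ C.U ⊔ C.T := U_B ((t.rf_out a ha r hr z (t.out_le a hz.1)).2 hz.1)
  have s1 : r * s * r⁻¹ ∈ C.U ⊔ C.T := T_B (b.T_norm r hr.1 s hs.1)
  have m2 : s * n ∈ C.G1 := mul_mem hs.2 n2
  obtain ⟨w, hw, m⟩ := b.N_mon _ (inv_mem (mul_mem hs.1.1 n1))
  have fx := (b2.G1_le _ (inv_mem m2)).2
  have xG : x ∈ C.G1 := U_G1 ⟨PJ_U hx.1, hx.2⟩
  by_cases p : D.pos (w a)
  · refine ⟨_, mul_mem z1 s1, (s * n)⁻¹ * x * (s * n)⁻¹⁻¹,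
      U_B (b.mon_conj _ w _ _ m (all_pos R b hw fx m p) x hx.1),
      mul_mem (mul_mem (inv_mem m2) xG) (inv_mem (inv_mem m2)), .inl (by group)⟩
  by_cases e : r * x * r⁻¹ = 1
  · have x1 : x = 1 := by simpa using e
    exact ⟨_, mul_mem z1 s1, 1, one_mem _, one_mem _, .inl (by rw [x1]; group)⟩
  have rF := (b2.G1_le r hr.2.1).2
  obtain ⟨u1, h1, r', u', h2, hr', f⟩ := t.low a ha (r * x * r⁻¹)
    (mem_inf.2 ⟨t.rf_pos a ha r hr x hx.1, mul_mem (mul_mem rF hx.2) (inv_mem rF)⟩) e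
  have ri := t.rf_inv a ha r hr
  have rr := T_B (t.rf_uniq a ha r' r⁻¹ hr' ri)
  have uG : u' ∈ C.G1 := U_G1 ⟨PJ_U h2.1, h2.2⟩
  refine ⟨_, mul_mem (mul_mem (mul_mem z1 (U_B h1.1)) rr) (T_B hs.1),
    (s * n)⁻¹ * (r⁻¹ * u' * r⁻¹⁻¹) * (s * n)⁻¹⁻¹,
    U_B (b.mon_conj _ w _ _ m (flip_neg R hw (all_neg R b hw fx m p)) _
      (t.rf_pos a ha _ ri u' h2.1)),
    mul_mem (mul_mem (inv_mem m2) (mul_mem (mul_mem ri.2.1 uG) (inv_mem ri.2.1)))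
      (inv_mem (inv_mem m2)), .inr ?_⟩
  have g : x = r⁻¹ * (u1 * r' * u') * r := by rw [← f]; group
  rw [g]
  group

variable {S : Type u} [Group S] {f : S →* (End K V)ˣ}

theorem img (E : Emb C f) (s : S) : f s ∈ C.G1 := E.range ▸ ⟨s, rfl⟩

theorem pre (E : Emb C f) {y : (End K V)ˣ} (h : y ∈ C.G1) : ∃ s, f s = y := by
  rw [← E.range] at h
  exact h

theorem cj {H : Subgroup (End K V)ˣ} {n s : S} :
    s ∈ conjBy (H.comap f) n ↔ f n * f s * (f n)⁻¹ ∈ H := by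
  simp [conjBy]

end BN

open BN in
theorem bn : S_BN.{u} := by
  intro ι Λ K V _ _ _ _ D C R u1 _ b b2 t S _ _ f E p _ _
  have h3 : (C.U ⊔ C.T).comap f ⊓ C.Nn.comap f = C.T.comap f :=
    le_antisymm (fun s hs => BN_T b2 hs.1 hs.2) fun s hs => ⟨T_B hs, hs.1⟩
  refine ⟨⟨?_, ?_, ?_, ?_⟩, ⟨?_, ?_, ?_, ?_, ?_, ?_⟩, h3⟩
  · refine eq_top_iff.2 fun s _ => ?_
    obtain ⟨u, hu, n, hn, u', hu', -, e⟩ := b2.bruhat1 _ (img E s)
    obtain ⟨x, rfl⟩ := pre E (U_G1 hu)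
    obtain ⟨y, rfl⟩ := pre E hn.2
    obtain ⟨z, rfl⟩ := pre E (U_G1 hu')
    rw [← map_mul, ← map_mul] at e
    rw [E.inj e]
    exact mul_mem (mul_mem (mem_sup_left (U_B hu.1)) (mem_sup_right hn.1))
      (mem_sup_left (U_B hu'.1))
  · rw [h3]
    exact fun n hn s hs => cj.2 (T_B (b.T_norm _ hn _ hs))
  · rw [h3]
    refine le_antisymm (sup_le ((closure_le _).2 fun r ⟨_, _, hr⟩ => hr.1) fun s hs => hs.1)
      fun s hs => ?_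
    obtain ⟨w, hw, m⟩ := b.N_mon _ hs
    obtain ⟨x, hx, e⟩ := gen R b b2 t ((closure (RS C f) ⊔ C.T.comap f).map f)
      (fun a ha r hr => by
        obtain ⟨r, rfl⟩ := pre E hr.2.1
        exact ⟨r, mem_sup_left (subset_closure ⟨a, ha, hr⟩), rfl⟩)
      (fun y y1 y2 => by
        obtain ⟨y, rfl⟩ := pre E y2
        exact ⟨y, mem_sup_right y1, rfl⟩) _ _ hs (img E s) w hw m rfl
    exact E.inj e ▸ hx
  · rintro r ⟨a, ha, hr⟩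
    refine ⟨?_, fun h => ?_, fun y hy n hn => ?_⟩
    · have e := T_B (t.rf_uniq a ha _ _ hr (t.rf_inv a ha _ hr))
      rwa [inv_inv, ← map_mul] at e
    · obtain ⟨x, hx, -, -, x1, -⟩ := t.orb a ha
      obtain ⟨s, rfl⟩ := pre E (U_G1 ⟨PJ_U hx.1, hx.2⟩)
      have e := low_one b2 (NJ_Um R (t.rf_pos a ha _ hr _ hx.1)) (cj.1 (h (U_B (PJ_U hx.1))))
      exact x1 (by simpa using e)
    obtain ⟨c, hc, d, hd, d1, e⟩ := prod R b b2 t ha hr hy (img E y) hn (img E n)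
    obtain ⟨d, rfl⟩ := pre E d1
    rcases e with e | e
    · refine ⟨r * y * n * d⁻¹ * (r * n)⁻¹, ?_, d, hd, .inl (by group)⟩
      rw [mem_comap]
      simp only [map_mul, map_inv, e]
      rwa [mul_inv_cancel_right, mul_inv_cancel_right]
    · refine ⟨r * y * n * d⁻¹ * n⁻¹, ?_, d, hd, .inr (by group)⟩
      rw [mem_comap]
      simp only [map_mul, map_inv, e]
      simpa using hc
  · exact (u1.pgroup p D.ht).comap_of_injective f E.inj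
  · rw [h3]
    refine le_antisymm (sup_le (fun s hs => U_B hs) fun s hs => T_B hs) fun s hs => ?_
    obtain ⟨u, hu, y, hy, e⟩ := b2.mem_B1 _ (img E s) hs
    obtain ⟨u, rfl⟩ := pre E (U_G1 hu)
    obtain ⟨y, rfl⟩ := pre E hy.2
    rw [← map_mul] at e
    rw [E.inj e]
    exact mul_mem (mem_sup_left hu.1) (mem_sup_right hy.1)
  · intro s hs
    rw [mem_normalizer_iff]
    refine fun x => ⟨fun hx => ?_, fun hx => ?_⟩
    · have e := B_conj b b2 hs hx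
      rwa [← map_inv, ← map_mul, ← map_mul] at e
    · have e := B_conj b b2 (inv_mem hs) hx
      rw [← map_inv, ← map_inv, ← map_mul, ← map_mul] at e
      simpa [mul_assoc] using e
  · rw [h3]
    exact ⟨⟨fun x y => Subtype.ext (E.inj (by
      simpa using b.T_comm _ x.2 _ y.2))⟩⟩
  · rw [h3]
    intro h
    obtain ⟨x, hx⟩ := exists_prime_orderOf_dvd_card' p h
    have e : (f x.1) ^ p = 1 := by
      rw [← map_pow, ← Subgroup.coe_pow, ← hx, pow_orderOf_eq_one]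
      simp
    have x1 : x = 1 := Subtype.ext (E.inj (by simpa using b.T_pow p _ x.2 e))
    rw [x1, orderOf_one] at hx
    exact (Fact.out : p.Prime).one_lt.ne hx
  · intro s hs
    simp only [mem_iInf] at hs
    obtain ⟨y, y1, y2, y3⟩ := longest R b b2 t
    obtain ⟨n, rfl⟩ := pre E y2
    have s1 := cj.1 (hs 1 (one_mem _))
    rw [map_one, one_mul, inv_one, mul_one] at s1
    obtain ⟨u, hu, z, hz, e⟩ := (b2.mem_B _).1 s1
    have s2 := mul_mem (cj.1 (hs n y1)) (inv_mem (T_B (b.T_norm _ y1 z hz)))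
    rw [e, show f n * (u * z) * (f n)⁻¹ * (f n * z * (f n)⁻¹)⁻¹ = f n * u * (f n)⁻¹ by group] at s2
    have u0 : u = 1 := by simpa using low_one b2 (y3 u hu) s2
    rw [mem_comap, e, u0, one_mul]
    exact hz.1

end Pool.Agent.MP_983df8_al.CH

end

end MrgPart1

-- ======== part 2: formerly Pool.Agent.MP_983df8_al.ch.IRR
section MrgPart2

/-! The greatest proper torus-invariant overgroup; order divisible by three. -/

noncomputable section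

namespace Pool.Agent.MP_983df8_al.CH

open Subgroup Module

universe u

namespace IRR

variable {ι Λ K V : Type} [AddCommGroup Λ] [Field K] [LieRing V] [LieAlgebra K V] {D : RD ι Λ}
  {C : CG D K V}

/-- `c` is the coefficient of `e a` in the leading term of `y` -/
def P (C : CG D K V) (a : ι) (y : (End K V)ˣ) (c : K) : Prop :=
  ∃ v, C.Ld D.ht 1 y v ∧ C.B.repr v (.inr a) = c

theorem P.ex (h1 : UF1 C) (a : ι) {y : (End K V)ˣ} (hy : y ∈ C.U) : ∃ c, P C a y c := by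
  obtain ⟨v, hv⟩ := C.lead D.ht 1 y le_rfl hy (h1.ue_fl _ y hy)
  exact ⟨_, v, hv, rfl⟩

theorem P.uniq (h1 : UF1 C) {a : ι} {y : (End K V)ˣ} {c c' : K} (h : P C a y c)
    (h' : P C a y c') : c = c' := by
  obtain ⟨v, hv, rfl⟩ := h
  obtain ⟨v', hv', rfl⟩ := h'
  rw [h1.ld_uniq _ _ _ _ _ le_rfl hv hv']

theorem P.mul (h1 : UF1 C) {a : ι} {y z : (End K V)ˣ} {c c' : K} (h : P C a y c)
    (h' : P C a z c') : P C a (y * z) (c + c') := by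
  obtain ⟨v, hv, rfl⟩ := h
  obtain ⟨v', hv', rfl⟩ := h'
  exact ⟨v + v', h1.ld_mul _ _ _ _ _ _ le_rfl hv hv', by simp⟩

theorem P.inv (h1 : UF1 C) {a : ι} {y : (End K V)ˣ} {c : K} (h : P C a y c) :
    P C a y⁻¹ (-c) := by
  obtain ⟨v, hv, rfl⟩ := h
  exact ⟨-v, h1.ld_inv _ _ _ _ le_rfl hv, by simp⟩

theorem P.one (h1 : UF1 C) (a : ι) : P C a 1 0 :=
  ⟨0, (h1.ld_zero _ _ _).2 (by simp [CL.Fl]), by simp⟩

theorem tor_repr {t : (End K V)ˣ} (ht : t ∈ C.T) {a : ι} {k : K} (hk : t.1 (C.e a) = k • C.e a)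
    (v : V) : C.B.repr (t.1 v) (.inr a) = k * C.B.repr v (.inr a) := by
  classical
  have : (C.B.coord (.inr a)).comp t.1 = k • C.B.coord (.inr a) := C.B.ext fun j => by
    rcases j with i | c
    · have e := ht.2.1 i
      rw [Equiv.Perm.one_apply, ← C.h_B] at e
      simp [e]
    · by_cases e : c = a
      · subst e
        simp [hk]
      · obtain ⟨l, -, hl, -⟩ := ht.2.2 c
        rw [Equiv.Perm.one_apply] at hl
        simp [hl, e]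
  simpa using LinearMap.congr_fun this v

theorem P.conj (h1 : UF1 C) (hB : BF1 C) {a : ι} {y t : (End K V)ˣ} {c k : K} (ht : t ∈ C.T)
    (hk : t.1 (C.e a) = k • C.e a) (h : P C a y c) : P C a (t * y * t⁻¹) (k * c) := by
  obtain ⟨v, hv, rfl⟩ := h
  exact ⟨t.1 v, h1.ld_conj _ _ _ _ t (hB.N_le t ht.1) (hB.T_sp t ht) (hB.T_sp _ (inv_mem ht)) hv,
    tor_repr ht hk v⟩

theorem tor_U (hB : BF1 C) {y t : (End K V)ˣ} (ht : t ∈ C.T) (hy : y ∈ C.U) :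
    t * y * t⁻¹ ∈ C.U :=
  hB.mon_conj t 1 _ _ ht.2 (fun _ h => h) y hy

theorem inv_ht (hR : RF C) : C.Inv D.ht := hR.s.ht

theorem ld_fix (hR : RF C) (h1 : UF1 C) (h2 : UF2 C) {m : ℤ} (hm : 1 ≤ m) {y : (End K V)ˣ}
    {v : V} (hy : y ∈ C.Fix) (h : C.Ld D.ht m y v) (c : ι) :
    C.B.repr v (.inr (C.τ c)) = C.ε c * C.θ (C.B.repr v (.inr c)) := by
  have e := h2.ld_σ _ _ _ _ (inv_ht hR) h
  rw [C.mem_Fix.1 hy] at e
  rw [← h2.s_repr, h1.ld_uniq _ _ _ _ _ hm e h]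

theorem P.fix (hR : RF C) (h1 : UF1 C) (h2 : UF2 C) {a : ι} (ha : a ∈ D.Δ) {y : (End K V)ˣ}
    {c : K} (hy : y ∈ C.Fix) (h : P C a y c) (e : C.τ a = a) : C.θ c = c := by
  obtain ⟨v, hv, rfl⟩ := h
  have := ld_fix hR h1 h2 le_rfl hy hv a
  rw [e, C.ε_one a ha, one_mul] at this
  exact this.symm

theorem P.out (hR : RF C) (h1 : UF1 C) (hT : TF C) {a : ι} (ha : a ∈ D.Δ) {z : (End K V)ˣ}
    (hz : z ∈ C.Ue (D.zt C.τ a)) : P C a z 0 := by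
  obtain ⟨c, v, hv, rfl⟩ := P.ex h1 a (hT.out_le a hz)
  refine ⟨v, hv, not_not.1 fun e => ?_⟩
  have := h1.coef _ _ _ _ _ le_rfl hv (h1.ue_fl _ z hz) a e
  rw [Set.mem_ofPred_eq, (hR.s.zt_simple a a ha).2 (Or.inl rfl)] at this
  omega

theorem PJ_le (a : ι) : C.Ux (D.PJ C.τ a) ≤ C.U := C.Ux_mono fun _ h => h.1

theorem PJ_sp (h1 : UF1 C) (a : ι) {x : (End K V)ˣ} (hx : x ∈ C.Ux (D.PJ C.τ a)) :
    x.1 - 1 ∈ C.sp {l | D.zt C.τ a l = 0} :=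
  h1.ux_sp _ _ (fun b hb c hc => by
    simp only [Set.mem_ofPred_eq] at *
    rw [map_add, hb, hc, add_zero]) (fun _ h => h.2) x hx

/-- the support of a leading term inside the rank one subgroup -/
theorem ld_supp (hR : RF C) (h1 : UF1 C) {a : ι} {x : (End K V)ˣ} (hx : x ∈ C.Ux (D.PJ C.τ a))
    {v : V} (hv : C.Ld D.ht 1 x v) (j : D.Δ ⊕ ι) (e : C.B.repr v j ≠ 0) :
    j = .inr a ∨ j = .inr (C.τ a) ∨ j = .inr (C.τ (C.τ a)) := by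
  have b := hv.1 j e
  rcases j with i | c
  · simp at b
  · have := (hR.s.zt_simple a c ((hR.r.ht_one c).1 b)).1
      (h1.coef _ _ _ _ _ le_rfl hv (PJ_sp h1 a hx) c e)
    simpa using this

theorem deep (h1 : UF1 C) (h2 : UF2 C) {a : ι} {x : (End K V)ˣ} (hx : x ∈ C.Ux (D.PJ C.τ a))
    (h : C.Fl D.ht 2 x) : x ∈ C.Ux {c | c ∈ D.PJ C.τ a ∧ 2 ≤ D.ht (D.rt c)} := by
  have := h2.sup D.ht _ (fun b hb c hc => by
    simp only [Set.mem_inter_iff, Set.mem_ofPred_eq, map_add] at *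
    omega) x (PJ_le a hx) (Sp.inter h (PJ_sp h1 a hx))
  refine C.Ux_mono (fun _ b => ?_) this
  exact ⟨⟨b.1, b.2.2⟩, b.2.1⟩

theorem fl_two (hR : RF C) (h1 : UF1 C) (h2 : UF2 C) {a : ι} {x : (End K V)ˣ}
    (hx : x ∈ C.Ux (D.PJ C.τ a)) (hf : x ∈ C.Fix) (h : P C a x 0) : C.Fl D.ht 2 x := by
  obtain ⟨v, hv, e⟩ := h
  have e1 := ld_fix hR h1 h2 le_rfl hf hv a
  rw [e, map_zero, mul_zero] at e1
  have e2 := ld_fix hR h1 h2 le_rfl hf hv (C.τ a)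
  rw [e1, map_zero, mul_zero] at e2
  have : v = 0 := C.B.ext_elem fun j => by
    by_contra b
    rw [map_zero, Finsupp.zero_apply] at b
    rcases ld_supp hR h1 hx hv j b with rfl | rfl | rfl <;> contradiction
  exact (h1.ld_zero _ _ _).1 (this ▸ hv)

/-- the leading term in the unitary case -/
theorem ld_two (hR : RF C) (h1 : UF1 C) (h2 : UF2 C) {a : ι} (ha : a ∈ D.Δ) (n : C.τ a ≠ a)
    (n' : C.τ (C.τ a) = a) {x : (End K V)ˣ} (hx : x ∈ C.Ux (D.PJ C.τ a)) (hf : x ∈ C.Fix) {c : K}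
    (h : P C a x c) : C.Ld D.ht 1 x (c • C.e a + C.θ c • C.e (C.τ a)) := by
  classical
  obtain ⟨v, hv, e⟩ := h
  have e1 := ld_fix hR h1 h2 le_rfl hf hv a
  rw [e, C.ε_one a ha, one_mul] at e1
  have : v = c • C.e a + C.θ c • C.e (C.τ a) := C.B.ext_elem fun j => by
    by_cases b : j = .inr a
    · subst b
      simp [e, n]
    by_cases b' : j = .inr (C.τ a)
    · subst b'
      simp [e1, n.symm]
    have : C.B.repr v j = 0 := not_not.1 fun g => by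
      rcases ld_supp hR h1 hx hv j g with g | g | g
      exacts [b g, b' g, b (n' ▸ g)]
    simp [this, Ne.symm b, Ne.symm b']
  exact this ▸ hv

theorem N_sq (hR : RF C) {a c d : ι} (ha : a ∈ D.Δ) (hc : c ∈ D.Δ) (n : c ≠ a)
    (hd : D.rt d = D.rt c + D.rt a) : (C.N a c : K) * C.N a c = 1 := by
  have a1 := (hR.r.ht_one a).2 ha
  have c1 := (hR.r.ht_one c).2 hc
  have n' : c ≠ D.ng a := fun e => by
    rw [e, D.rt_ng, map_neg] at c1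
    omega
  have b : D.bot a c = 0 := by
    by_contra b
    have b1 := (D.str a c n n' 1).1 ⟨d, by simpa using hd⟩
    obtain ⟨d', e⟩ := (D.str a c n n' (-1)).2 (by omega)
    have e0 : D.ht (D.rt d') = 0 := by
      rw [e, map_add, map_zsmul, a1, c1]
      rfl
    have := hR.r.neg_ht d'
    rw [RD.pos, AddMonoidHom.neg_apply] at this
    omega
  have := C.N_abs a c d hd
  rw [b] at this
  rcases Int.natAbs_eq_iff.1 this with e | e <;> simp [e]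

theorem tau_d (hR : RF C) {a d : ι} (n' : C.τ (C.τ a) = a)
    (hd : D.rt d = D.rt (C.τ a) + D.rt a) : C.τ d = d := D.inj (by
  rw [hR.s.add a _ d hd, n', hd, add_comm])

theorem lie_sw {a d : ι} (hd : D.rt d = D.rt (C.τ a) + D.rt a) :
    ⁅C.e (C.τ a), C.e a⁆ = -((C.N a (C.τ a) : K) • C.e d) := by
  rw [← lie_skew, C.ee a _ d hd]

theorem eps_d (hR : RF C) {a d : ι} (ha : a ∈ D.Δ) (n : C.τ a ≠ a) (n' : C.τ (C.τ a) = a)
    (hd : D.rt d = D.rt (C.τ a) + D.rt a) : C.ε d = -1 := by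
  have hb := C.sym.mem a ha
  have e := C.s_lie (C.e a) (C.e (C.τ a))
  rw [C.ee a _ d hd, C.s_smul, C.s_e, C.s_e, C.s_e, C.ε_one a ha, C.ε_one _ hb, n', one_smul,
    one_smul, tau_d hR n' hd, lie_sw hd, map_intCast, smul_smul, ← neg_smul] at e
  have e' := congrArg (fun v => C.B.repr v (.inr d)) e
  simp only [map_smul, Basis.repr_self, Finsupp.smul_apply, Finsupp.single_eq_same, smul_eq_mul,
    mul_one] at e'
  have := N_sq (C := C) hR ha hb n hd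
  linear_combination (C.N a (C.τ a) : K) * e' - (C.ε d + 1) * this

theorem tr_one (h2 : UF2 C) {a : ι} (n : C.τ a ≠ a) (n' : C.τ (C.τ a) = a) :
    ∃ w : K, w + C.θ w = 1 := by
  obtain ⟨w, hw⟩ := h2.θ_tr
  have p := C.τ_pow
  rcases C.dd_val with e | e | e <;> rw [e] at p hw
  · exact (n (by rw [pow_one] at p; simp [p])).elim
  · exact ⟨w, by simpa [Finset.sum_range_succ] using hw⟩
  · have := congrArg (fun g : Equiv.Perm ι => g a) p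
    simp only [pow_succ, pow_zero, one_mul, Equiv.Perm.mul_apply, n', Equiv.Perm.one_apply] at this
    exact (n this).elim

theorem U_G1 {y : (End K V)ˣ} (h : y ∈ C.U) (h' : y ∈ C.Fix) : y ∈ C.G1 :=
  mem_sup_left (S := C.U ⊓ C.Fix) ⟨h, h'⟩

/-- a subgroup of the twisted group above the complement with all coefficients is everything -/
theorem all (hR : RF C) (h1 : UF1 C) (h2 : UF2 C) (hT : TF C) {a : ι} (ha : a ∈ D.Δ)
    (Y : Subgroup (End K V)ˣ) (hY : Y ≤ C.U ⊓ C.Fix) (hZ : C.Ue (D.zt C.τ a) ⊓ C.Fix ≤ Y)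
    (hA : ∀ c, (C.τ a = a → C.θ c = c) → ∃ y ∈ Y, P C a y c) : C.U ⊓ C.Fix ≤ Y := by
  have key : ∀ u ∈ C.U ⊓ C.Fix, ∀ c, P C a u c →
      ∃ x ∈ C.Ux (D.PJ C.τ a) ⊓ C.Fix, P C a x c ∧ (u ∈ Y ↔ x ∈ Y) := fun u hu c hc => by
    obtain ⟨z, hz, x, hx, rfl⟩ := hT.fac1 a ha u hu
    refine ⟨x, hx, ?_, Y.mul_mem_cancel_left (hZ hz)⟩
    simpa using ((P.out hR h1 hT ha hz.1).inv h1).mul h1 hc
  intro u hu
  obtain ⟨c, hc⟩ := P.ex h1 a hu.1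
  obtain ⟨y, hy, hy'⟩ := hA c (hc.fix hR h1 h2 ha hu.2)
  rw [← Y.mul_mem_cancel_left (inv_mem hy)]
  obtain ⟨x, hx, h0, e⟩ := key _ (mul_mem (inv_mem (hY hy)) hu) _ ((hy'.inv h1).mul h1 hc)
  rw [neg_add_cancel] at h0
  rw [e]
  have hd := deep h1 h2 hx.1 (fl_two hR h1 h2 hx.1 hx.2 h0)
  have a1 := (hR.r.ht_one a).2 ha
  have a2 := hR.s.ht a
  have a3 := hR.s.ht (C.τ a)
  rcases hR.s.orb a ha with ⟨o, -⟩ | ⟨n, n', -, -, d, hd', o⟩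
  · refine C.Ux_induction hd (one_mem _) (fun b hb => ?_) fun _ _ => mul_mem
    have := hb.2
    rcases o b hb.1 with rfl | rfl | rfl <;> omega
  have one : ∀ g ∈ C.Ux {c | c ∈ D.PJ C.τ a ∧ 2 ≤ D.ht (D.rt c)}, ∃ t, g = C.x d t :=
    fun g hg => (h1.one_root d g).1 (C.Ux_mono (fun b hb => by
      have := hb.2
      rcases o b hb.1 with rfl | rfl | rfl
      exacts [by omega, by omega, rfl]) hg)
  obtain ⟨t, rfl⟩ := one x hd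
  have ht : C.θ t = -t := by
    have := C.mem_Fix.1 hx.2
    rw [C.σ_x, tau_d hR n' hd', eps_d hR ha n n' hd'] at this
    linear_combination -h1.x_inj _ _ _ this
  obtain ⟨w, hw⟩ := tr_one h2 n n'
  obtain ⟨y1, b1, c1⟩ := hA 1 fun g => (n g).elim
  obtain ⟨y2, b2, c2⟩ := hA (-(C.N a (C.τ a) * w * t)) fun g => (n g).elim
  obtain ⟨x1, p1, q1, r1⟩ := key y1 (hY b1) _ c1
  obtain ⟨x2, p2, q2, r2⟩ := key y2 (hY b2) _ c2
  have l := h1.ld_comm _ _ _ _ _ _ _ le_rfl le_rfl (ld_two hR h1 h2 ha n n' p1.1 p1.2 q1)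
    (ld_two hR h1 h2 ha n n' p2.1 p2.2 q2)
  obtain ⟨t', e'⟩ := one _ (deep h1 h2
    (mul_mem (mul_mem (mul_mem p1.1 p2.1) (inv_mem p1.1)) (inv_mem p2.1)) (h1.ld_fl _ _ _ _ l))
  have d2 : D.ht (D.rt d) = 1 + 1 := by
    rw [hd', map_add]
    omega
  have l' := h1.ld_uniq _ _ _ _ _ (by norm_num) (h1.ld_x _ _ d t' (by norm_num) d2) (e' ▸ l)
  simp only [add_lie, lie_add, smul_lie, lie_smul, lie_self, smul_zero, zero_add, add_zero,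
    lie_sw hd', C.ee a _ d hd'] at l'
  have l2 := congrArg (fun v => C.B.repr v (.inr d)) l'
  simp only [map_smul, map_add, map_neg, Basis.repr_self, Finsupp.smul_apply, Finsupp.add_apply,
    Finsupp.neg_apply, Finsupp.single_eq_same, smul_eq_mul, mul_one, map_one, map_mul, map_intCast,
    ht] at l2
  have sq := N_sq (C := C) hR ha (C.sym.mem a ha) n hd'
  have : t = t' := by
    linear_combination -l2 - t * (w + C.θ w) * sq - t * hw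
  rw [this, ← e']
  exact mul_mem (mul_mem (mul_mem (r1.1 b1) (r2.1 b2)) (inv_mem (r1.1 b1))) (inv_mem (r2.1 b2))

variable {S : Type u} [Group S] {f : S →* (End K V)ˣ}

theorem pre (E : Emb C f) {y : (End K V)ˣ} (h : y ∈ C.G1) : ∃ s, f s = y := by
  rwa [← E.range] at h

theorem fix (hB : BF2 C) (E : Emb C f) (s : S) : f s ∈ C.Fix :=
  (hB.G1_le _ (E.range ▸ ⟨s, rfl⟩)).2

theorem mem_conjBy {H : Subgroup (End K V)ˣ} {r s : S} :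
    s ∈ conjBy (H.comap f) r ↔ f r * f s * (f r)⁻¹ ∈ H := by
  simp [conjBy]

theorem Z_eq (hT : TF C) {a : ι} (ha : a ∈ D.Δ) {r : S} (hr : C.Rf a (f r)) :
    C.U.comap f ⊓ conjBy (C.U.comap f) r = (C.Ue (D.zt C.τ a)).comap f := by
  ext s
  rw [mem_inf, mem_conjBy, mem_comap, mem_comap]
  exact ⟨fun h => (hT.rf_out a ha _ hr _ h.1).1 h.2,
    fun h => ⟨hT.out_le a h, (hT.rf_out a ha _ hr _ (hT.out_le a h)).2 h⟩⟩

theorem le_norm {A H : Subgroup S} (h : ∀ u ∈ A, ∀ z ∈ H, u * z * u⁻¹ ∈ H) :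
    A ≤ normalizer (H : Set S) := fun u hu => mem_normalizer_iff.2 fun z =>
  ⟨h u hu z, fun b => by simpa [mul_assoc] using h u⁻¹ (inv_mem hu) _ b⟩

/-- the kernel of the coefficient -/
def M (h1 : UF1 C) (f : S →* (End K V)ˣ) (a : ι) : Subgroup S where
  carrier := {s | f s ∈ C.U ∧ P C a (f s) 0}
  one_mem' := by simpa using P.one h1 a
  mul_mem' b c := ⟨by rw [map_mul]; exact mul_mem b.1 c.1, by simpa using b.2.mul h1 c.2⟩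
  inv_mem' b := ⟨by rw [map_inv]; exact inv_mem b.1, by simpa using b.2.inv h1⟩

theorem nz (hR : RF C) (h2 : UF2 C) {a : ι} (ha : a ∈ D.Δ) :
    ∃ y ∈ C.U ⊓ C.Fix, ∃ c, c ≠ 0 ∧ P C a y c := by
  by_contra b
  have : C.B.coord (.inr a) (C.e a) = 0 := h2.tr_sep _ _ fun t => by
    obtain ⟨y, y1, y2, y3⟩ := h2.lift D.ht 1 (C.tr (t • C.e a)) (inv_ht hR) le_rfl
      (h2.tr_vs _ _ _ (inv_ht hR) (Submodule.smul_mem _ _ (Vs.basis ((hR.r.ht_one a).2 ha))))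
      (h2.tr_fix _)
    exact not_not.1 fun e => b ⟨y, ⟨y1, y2⟩, _, e, _, y3, rfl⟩
  simp at this

theorem part1 (hR : RF C) (h1 : UF1 C) (h2 : UF2 C) (hB : BF1 C) (hB2 : BF2 C) (hT : TF C)
    (hI : IrrT C) (E : Emb C f) {a : ι} (ha : a ∈ D.Δ) :
    Irr (C.T.comap f) (C.U.comap f) ((C.Ue (D.zt C.τ a)).comap f) := by
  refine ⟨le_norm fun u hu z hz => ?_, M h1 f a, ⟨fun s hs => ?_, ⟨fun s hs => hs.1, fun b => ?_⟩,
    le_norm fun t ht s hs => ?_⟩, fun Y hY s hs => ?_⟩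
  · simpa using hT.out_norm a _ hu _ hz
  · exact ⟨hT.out_le a hs, P.out hR h1 hT ha hs⟩
  · obtain ⟨y, hy, c, c0, hc⟩ := nz hR h2 ha
    obtain ⟨s, rfl⟩ := pre E (U_G1 hy.1 hy.2)
    exact c0 (hc.uniq h1 (b hy.1).2)
  · obtain ⟨k, -, hk, -⟩ := ht.2.2 a
    exact ⟨by simpa using tor_U hB ht hs.1, by simpa using hs.2.conj h1 hB ht hk⟩
  refine ⟨hY.2.1.le hs, ?_⟩
  obtain ⟨c, hc⟩ := P.ex h1 a (hY.2.1.le hs)
  by_contra b
  let A : AddSubgroup K :=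
    { carrier := {c | ∃ y ∈ Y.map f, P C a y c}
      zero_mem' := ⟨1, one_mem _, P.one h1 a⟩
      add_mem' := fun ⟨y, b, c⟩ ⟨z, b', c'⟩ => ⟨y * z, mul_mem b b', c.mul h1 c'⟩
      neg_mem' := fun ⟨y, b, c⟩ => ⟨y⁻¹, inv_mem b, c.inv h1⟩ }
  have := all hR h1 h2 hT ha (Y.map f) (by
      rintro _ ⟨y, hy, rfl⟩
      exact ⟨hY.2.1.le hy, fix hB2 E y⟩)
    (fun z hz => by
      obtain ⟨y, rfl⟩ := pre E (U_G1 (hT.out_le a hz.1) hz.2)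
      exact ⟨y, hY.1 hz.1, rfl⟩)
    (hI a ha A (by
      rintro t ht k hk c ⟨_, ⟨y, hy, rfl⟩, hc⟩
      obtain ⟨t, rfl⟩ := pre E ht.2
      exact ⟨_, ⟨t * y * t⁻¹, (mem_normalizer_iff.1 (hY.2.2 ht.1) y).1 hy, by simp⟩,
        hc.conj h1 hB ht.1 hk⟩) c ⟨_, ⟨s, hs, rfl⟩, hc⟩ (fun e => b (e ▸ hc))
      (hc.fix hR h1 h2 ha (fix hB2 E s)))
  refine hY.2.1.not_ge fun u hu => ?_
  obtain ⟨y, hy, e⟩ := this ⟨hu, fix hB2 E u⟩
  exact E.inj e ▸ hy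

theorem part2 (hR : RF C) (hB2 : BF2 C) (hT : TF C) (E : Emb C f) :
    Wild (C.U.comap f) (RS C f) := by
  rintro r ⟨a, ha, hr⟩
  obtain ⟨x, hx, y, hy, -, y1, e, n, p⟩ := hT.orb a ha
  have ym : y ∈ C.Um := C.Ux_mono (fun c h => (hR.r.neg_ht c).2 h.1) hy.1
  obtain ⟨x, rfl⟩ := pre E (U_G1 (PJ_le a hx.1) hx.2)
  obtain ⟨y, rfl⟩ := pre E (mem_sup_right (T := C.Um ⊓ C.Fix) ⟨ym, hy.2⟩)
  have o : orderOf ((x * y) ^ 2) = 3 := by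
    have := Fact.mk Nat.prime_three
    refine orderOf_eq_prime (E.inj ?_) fun b => y1 ?_
    · rw [map_one, ← p]
      calc f (((x * y) ^ 2) ^ 3)
          = (f x * f y * f x * (f y * f x * f y)) ^ 2 := by
            simp only [map_mul, pow_succ, pow_zero, one_mul, mul_assoc]
        _ = _ := by
            rw [← e]
            simp only [pow_succ, pow_zero, one_mul, mul_assoc]
    · have : f x * f y * f x = 1 * (f y)⁻¹ := by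
        rw [one_mul, eq_inv_iff_mul_eq_one, ← map_one f, ← b]
        simp only [map_mul, pow_succ, pow_zero, one_mul, mul_assoc]
      exact inv_eq_one.1 (hB2.UV 1 (one_mem _) _ (inv_mem ym) (this ▸ n)).2
  refine Or.inr (o ▸ Subgroup.orderOf_dvd_natCard _ (pow_mem (mul_mem (mem_sup_left ?_)
    (mem_sup_right ?_)) 2))
  · exact PJ_le a hx.1
  · exact mem_conjBy.2 (PJ_le a (hT.rf_neg a ha _ hr _ hy.1))

end IRR

theorem irr : S_IRR.{u} := by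
  intro ι Λ K V _ _ _ _ D C hR h1 h2 hB hB2 hT hI S _ _ f E
  refine ⟨?_, IRR.part2 hR hB2 hT E⟩
  rintro r ⟨a, ha, hr⟩
  rw [IRR.Z_eq hT ha hr]
  exact IRR.part1 hR h1 h2 hB hB2 hT hI E ha

end Pool.Agent.MP_983df8_al.CH

end

end MrgPart2

-- ======== part 3: formerly Pool.Agent.MP_983df8_al.ch.KU
section MrgPart3

/-! Chevalley groups: automorphisms that fix a Sylow subgroup elementwise. -/

noncomputable section

namespace Pool.Agent.MP_983df8_al.CH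

open Subgroup Module

universe u

namespace KU

open BN

variable {ι Λ K V : Type} [AddCommGroup Λ] [Field K] [LieRing V] [LieAlgebra K V] {D : RD ι Λ}
  {C : CG D K V}

theorem lng (A : AF C) {n : (End K V)ˣ} {w : Equiv.Perm ι} (hw : w ∈ D.W) (n2 : n ∈ C.G1)
    (m : C.Mon n w) (h : ∀ x ∈ C.U ⊓ C.Fix, n * x * n⁻¹ ∈ C.U → x = 1) :
    ∀ c, D.pos c → ¬ D.pos (w c) := fun c hc =>
  A.r.r.W_neg w hw c hc fun a ha _ p => by
    obtain ⟨x, hx, -, -, x1, -⟩ := A.t.orb a ha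
    exact x1 (h x ⟨PJ_U hx.1, hx.2⟩ (A.b1.mon_conj n w _ _ m
      (all_pos A.r A.b1 hw (A.b2.G1_le n n2).2 m p) x hx.1))

theorem back (A : AF C) {w : Equiv.Perm ι} (hw : w ∈ D.W) (h : ∀ c, D.pos c → ¬ D.pos (w c)) :
    ∀ d, D.pos (w⁻¹ d) ↔ ¬ D.pos d := fun d => by
  obtain ⟨c, rfl⟩ := w.surjective d
  rw [show w⁻¹ (w c) = c by simp]
  refine ⟨h c, fun e => not_not.1 fun e' => ?_⟩
  have g := h _ ((A.r.r.pos_ng c).2 e')
  rw [A.r.r.W_ng w hw, A.r.r.pos_ng] at g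
  exact g e

theorem two (A : AF C) {n m : (End K V)ˣ} {w v : Equiv.Perm ι} (hw : w ∈ D.W) (hv : v ∈ D.W)
    (n1 : n ∈ C.Nn) (m1 : m ∈ C.Nn) (a : C.Mon n w) (b : C.Mon m v)
    (h : ∀ c, D.pos c → ¬ D.pos (w c)) (h' : ∀ c, D.pos c → ¬ D.pos (v c)) : n⁻¹ * m ∈ C.T :=
  ⟨mul_mem (inv_mem n1) m1, A.r.r.W_one _ (mul_mem (inv_mem hw) hv) (fun i hi =>
    (back A hw h (v i)).2 (h' i ((A.r.r.ht_one i).2 hi).ge)) ▸ a.inv.mul b⟩

theorem opp (A : AF C) {n b : (End K V)ˣ} (n1 : n ∈ C.Nn) (n3 : ∀ u ∈ C.U, n * u * n⁻¹ ∈ C.Um)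
    (h : b ∈ C.U ⊔ C.T) (h' : n * b * n⁻¹ ∈ C.U ⊔ C.T) : b ∈ C.T := by
  obtain ⟨u, hu, t, ht, rfl⟩ := (A.b2.mem_B b).1 h
  have e := mul_mem h' (inv_mem (T_B (A.b1.T_norm n n1 t ht)))
  rw [show n * (u * t) * n⁻¹ * (n * t * n⁻¹)⁻¹ = n * u * n⁻¹ by group] at e
  have u0 : u = 1 := by simpa using low_one A.b2 (n3 u hu) e
  rwa [u0, one_mul]

variable {S : Type u} [Group S] {f : S →* (End K V)ˣ} {β : MulAut S}

theorem iter {g u b : S} (h : β g = u * g * b) (hu : β u = u) (hb : β b = b) (j : ℕ) :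
    (β ^ j) g = u ^ j * g * b ^ j := by
  induction j with
  | zero => simp
  | succ j ih =>
    rw [pow_succ', MulAut.mul_apply, ih, map_mul, map_mul, map_pow, map_pow, hu, hb, h, pow_succ,
      pow_succ' b]
    simp only [mul_assoc]

theorem iter' {g u b : S} (h : β g = u * g * b) (hu : β u = u) (hb : β b = b) :
    g = u ^ orderOf β * g * b ^ orderOf β := by
  rw [← iter h hu hb, pow_orderOf_eq_one, MulAut.one_apply]

theorem pw (A : AF C) (E : Emb C f) {p : ℕ} [Fact p.Prime] [CharP K p] {k : ℕ} (hk : ¬ p ∣ k)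
    {z : S} (hz : f z ∈ C.U) (h : z ^ k = 1) : z = 1 := by
  obtain ⟨j, e⟩ := A.u1.pgroup p D.ht ⟨f z, hz⟩
  have e' : z ^ p ^ j = 1 := E.inj (by simpa using congrArg Subtype.val e)
  exact orderOf_eq_one_iff.1 (Nat.eq_one_of_dvd_coprimes
    (((Fact.out : p.Prime).coprime_iff_not_dvd.2 hk).pow_left j) (orderOf_dvd_of_pow_eq_one e')
    (orderOf_dvd_of_pow_eq_one h))

/-- the hypotheses on the automorphism -/
structure Hy (C : CG D K V) (f : S →* (End K V)ˣ) (β : MulAut S) : Prop where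
  A : AF C
  E : Emb C f
  cen : ∀ y ∈ C.G1, (∀ z ∈ C.U ⊓ C.Fix, Commute y z) → y ∈ C.U
  pw : ∀ z, f z ∈ C.U → z ^ orderOf β = 1 → z = 1
  fx : ∀ s, f s ∈ C.U → β s = s

theorem bor (H : Hy C f β) {t : S} (ht : f t ∈ C.U ⊔ C.T) : β t = t := by
  have hz : f (t⁻¹ * β t) ∈ C.U := H.cen _ (img H.E _) fun z hz => by
    obtain ⟨s, rfl⟩ := pre H.E (U_G1 hz)
    have e := H.fx (t * s * t⁻¹) (by simpa using B_conj H.A.b1 H.A.b2 ht hz.1)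
    rw [map_mul, map_mul, map_inv, H.fx s hz.1] at e
    refine Commute.map (show _ * _ = _ * _ from ?_) f
    calc t⁻¹ * β t * s = t⁻¹ * (β t * s * (β t)⁻¹) * β t := by group
      _ = _ := by rw [e]; group
  have e := iter' (g := t) (u := 1) (by group) (map_one β) (H.fx _ hz)
  have z := H.pw _ hz (by simpa using e.symm)
  exact (inv_mul_eq_one.1 z).symm

theorem low (H : Hy C f β) :
    ∃ t ∈ C.T, ∀ v, f v ∈ C.Um → f (β v) = t * f v * t⁻¹ := by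
  have A := H.A
  obtain ⟨n0, n1, n2, n3⟩ := longest A.r A.b1 A.b2 A.t
  obtain ⟨g, rfl⟩ := pre H.E n2
  obtain ⟨w0, hw0, m0⟩ := A.b1.N_mon _ n1
  have p0 := lng A hw0 n2 m0 fun x hx e => by
    simpa using A.u1.disj D.ht _ e (n3 x hx.1)
  obtain ⟨u, hu, n, hn, u', hu', -, e⟩ := A.b2.bruhat1 _ (img H.E (β g))
  obtain ⟨w, hw, m⟩ := A.b1.N_mon _ hn.1
  have p := lng A hw hn.2 m fun x hx q => by
    have x1 : u'⁻¹ * x * u' ∈ C.U ⊓ C.Fix := mul_mem (mul_mem (inv_mem hu') hx) hu'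
    obtain ⟨s, hs⟩ := pre H.E (U_G1 x1)
    have s1 : f s ∈ C.U := hs ▸ x1.1
    have z1 : f (β (g * s * g⁻¹)) ∈ C.U := by
      simp only [map_mul, map_inv, H.fx s s1, e, hs]
      have r := C.U.mul_mem (C.U.mul_mem hu.1 q) (C.U.inv_mem hu.1)
      rwa [show u * (n * x * n⁻¹) * u⁻¹ = u * n * u' * (u'⁻¹ * x * u') * (u * n * u')⁻¹ by group]
        at r
    rw [β.injective (H.fx _ z1), map_mul, map_mul, map_inv] at z1
    have z2 : f s = 1 := by simpa using A.u1.disj D.ht _ z1 (n3 _ s1)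
    rw [hs, mul_eq_one_iff_eq_inv, inv_mul_eq_iff_eq_mul] at z2
    simpa using z2
  have tw := two A hw0 hw n1 hn.1 m0 m p0 p
  obtain ⟨a, ea⟩ := pre H.E (U_G1 hu)
  rw [← ea] at e hu
  have hb : f (g⁻¹ * a⁻¹ * β g) ∈ C.U ⊔ C.T := by
    have r := mul_mem (T_B tw) (U_B hu'.1)
    simp only [map_mul, map_inv, e]
    rwa [show (f g)⁻¹ * n * u' = (f g)⁻¹ * (f a)⁻¹ * (f a * n * u') by group] at r
  obtain ⟨b, eb⟩ : ∃ b, b = g⁻¹ * a⁻¹ * β g := ⟨_, rfl⟩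
  rw [← eb] at hb
  have e1 : β g = a * g * b := by rw [eb]; group
  have e2 := iter' e1 (H.fx a hu.1) (bor H hb)
  have e3 : f g * f b ^ orderOf β * (f g)⁻¹ = (f a ^ orderOf β)⁻¹ := by
    rw [← map_pow, ← map_pow, ← map_inv, ← map_inv, ← map_mul, ← map_mul]
    congr 1
    calc g * b ^ orderOf β * g⁻¹ =
        (a ^ orderOf β)⁻¹ * (a ^ orderOf β * g * b ^ orderOf β) * g⁻¹ := by group
      _ = _ := by rw [← e2]; group
  have k1 : (f a ^ orderOf β)⁻¹ ∈ C.U := inv_mem (C.U.pow_mem hu.1 _)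
  have k2 := A.b1.T_norm _ n1 _ (opp A n1 n3 (pow_mem hb _) (e3 ▸ U_B k1))
  have k3 := (A.b2.UV _ k1 1 (one_mem _) (by rw [mul_one, ← e3]; exact k2.1)).1
  have a1 : a = 1 := H.pw a hu.1 (H.E.inj (by simpa using k3))
  rw [a1, one_mul] at e1
  have p1 : ∀ c, D.pos c → ¬ D.pos (w0⁻¹ c) := fun c hc q => (back A hw0 p0 c).1 q hc
  have gT : f (g * g) ∈ C.U ⊔ C.T := T_B (by
    simpa using two A (inv_mem hw0) hw0 (inv_mem n1) n1 m0.inv m0 p1 p0)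
  have g2 := bor H gT
  have g3 : g * b * g⁻¹ = g * g * b⁻¹ * (g * g)⁻¹ := by
    rw [map_mul, e1] at g2
    calc g * b * g⁻¹ = g * b * (g * b) * b⁻¹ * (g * g)⁻¹ := by group
      _ = _ := by rw [g2]
  have bT : f b ∈ C.T := opp A n1 n3 hb (by
    rw [← map_inv, ← map_mul, ← map_mul, g3, map_mul, map_mul, map_inv, map_inv]
    exact mul_mem (mul_mem gT (inv_mem hb)) (inv_mem gT))
  refine ⟨_, A.b1.T_norm _ n1 _ bT, fun v hv => ?_⟩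
  have s1 : f (g⁻¹ * v * g) ∈ C.U := by
    have k : (f g)⁻¹ * f v * (f g)⁻¹⁻¹ ∈ C.U := A.b1.mon_conj _ _ _ _ m0.inv
      (fun c hc => (back A hw0 p0 c).2 ((A.r.r.neg_ht c).1 hc)) _ hv
    simpa using k
  have s2 := H.fx _ s1
  rw [map_mul, map_mul, map_inv, e1] at s2
  have s3 : β v = g * b * g⁻¹ * v * (g * b * g⁻¹)⁻¹ :=
    calc β v = g * b * ((g * b)⁻¹ * β v * (g * b)) * (g * b)⁻¹ := by group
      _ = _ := by rw [s2]; group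
  rw [s3]
  simp only [map_mul, map_inv]

theorem rf (H : Hy C f β) {a : ι} (ha : a ∈ D.Δ) {r : S} (hr : C.Rf a (f r)) : β r = r := by
  have A := H.A
  obtain ⟨t, ht, h⟩ := low H
  obtain ⟨-, -, y, hy, -, y1, -⟩ := A.t.orb a ha
  obtain ⟨u, hu, r0, u', hu', h0, e⟩ := A.t.low a ha y hy y1
  obtain ⟨q, rfl⟩ := pre H.E h0.2.1
  obtain ⟨c, rfl⟩ := pre H.E (U_G1 hu)
  obtain ⟨d, rfl⟩ := pre H.E (U_G1 ⟨PJ_U hu'.1, hu'.2⟩)
  have hb : f (q⁻¹ * β q) ∈ C.U ⊔ C.T := A.t.norm _ (img H.E _) fun v hv => by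
    obtain ⟨z, hz, x, hx, rfl⟩ := A.t.fac1 a ha v hv
    have z0 := A.t.out_le a hz.1
    obtain ⟨z, rfl⟩ := pre H.E (U_G1 ⟨z0, hz.2⟩)
    obtain ⟨x, rfl⟩ := pre H.E (U_G1 ⟨PJ_U hx.1, hx.2⟩)
    have z1 := H.fx (q * z * q⁻¹) (by simpa using (A.t.rf_out a ha _ h0 _ z0).2 hz.1)
    have x0 := A.t.rf_pos a ha _ h0 _ hx.1
    have x1 := h (q * x * q⁻¹) (by simpa using NJ_Um A.r x0)
    have x2 := PJ_U (A.t.rf_neg a ha _ (A.t.rf_inv a ha _ h0) _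
      (A.b1.mon_conj t 1 _ _ ht.2 (fun _ e => e) _ x0))
    replace z1 := congrArg f z1
    simp only [map_mul, map_inv, H.fx z z0, H.fx x (PJ_U hx.1)] at z1 x1 ⊢
    rw [← x1] at x2
    have k := mul_mem z0 x2
    rwa [show f z * ((f q)⁻¹ * (f (β q) * f x * (f (β q))⁻¹) * (f q)⁻¹⁻¹) =
      (f q)⁻¹ * (f q * f z * (f q)⁻¹) * (f (β q) * f x * (f (β q))⁻¹) * f q by group, ← z1,
      show (f q)⁻¹ * (f (β q) * f z * (f (β q))⁻¹) * (f (β q) * f x * (f (β q))⁻¹) * f q =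
      (f q)⁻¹ * f (β q) * (f z * f x) * ((f q)⁻¹ * f (β q))⁻¹ by group] at k
  have y2 : f (c * q * d) ∈ C.Um := by simpa [← e] using NJ_Um A.r hy.1
  have y3 : f (β (c * q * d)) ∈ C.Um := by
    rw [h _ y2]
    exact A.b1.mon_conj t 1 _ _ ht.2 (fun _ e => e) _ y2
  have d0 := PJ_U hu'.1
  have y4 := low_one A.b2 (mul_mem (inv_mem y2) y3) (by
    have k := mul_mem (mul_mem (inv_mem (U_B d0)) hb) (U_B d0)
    simp only [map_mul, map_inv, H.fx c hu.1, H.fx d d0] at k ⊢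
    rwa [show (f d)⁻¹ * ((f q)⁻¹ * f (β q)) * f d =
      (f c * f q * f d)⁻¹ * (f c * f (β q) * f d) by group] at k)
  have y5 := H.E.inj (inv_mul_eq_one.1 y4)
  rw [map_mul, map_mul, H.fx c hu.1, H.fx d d0, mul_left_inj, mul_right_inj] at y5
  have k := bor H (t := r * q⁻¹) (T_B (by simpa using A.t.rf_uniq a ha _ _ hr h0))
  rwa [map_mul, map_inv, ← y5, mul_left_inj] at k

end KU

open BN KU in
theorem ku : S_KU.{u} := by
  intro ι Λ K V _ _ _ _ D C A cen S _ _ f E p _ _ β hk fx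
  have H : Hy C f β := ⟨A, E, cen, fun z hz => pw A E hk hz, fx⟩
  refine MulEquiv.ext fun s => ?_
  obtain ⟨u, hu, n, hn, u', hu', -, e⟩ := A.b2.bruhat1 _ (img E s)
  obtain ⟨x, rfl⟩ := pre E (U_G1 hu)
  obtain ⟨z, rfl⟩ := pre E (U_G1 hu')
  obtain ⟨w, hw, m⟩ := A.b1.N_mon _ hn.1
  obtain ⟨y, hy, rfl⟩ := gen A.r A.b1 A.b2 A.t
    ((β.toMonoidHom.eqLocus (MonoidHom.id S)).map f)
    (fun a ha r hr => by
      obtain ⟨r, rfl⟩ := pre E hr.2.1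
      exact ⟨r, rf H ha hr, rfl⟩)
    (fun y y1 y2 => by
      obtain ⟨y, rfl⟩ := pre E y2
      exact ⟨y, bor H (T_B y1), rfl⟩) _ _ hn.1 hn.2 w hw m rfl
  rw [← map_mul, ← map_mul] at e
  have hy' : β y = y := hy
  rw [E.inj e, map_mul, map_mul, fx x hu.1, fx z hu'.1, hy', MulAut.one_apply]

end Pool.Agent.MP_983df8_al.CH

end

end MrgPart3

-- marker of a merged file
example : 731051 + 358313 = 731051 + 358313 := rfl
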