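import Pool.Agent.MP_983df8_al.ch.KN

/-! Descent to the fixed field and the fixed Lie algebra. -/

noncomputable section

namespace Pool.Agent.MP_983df8_al.CH

open Subgroup Module RIG

universe u

namespace RT

variable {ι Λ K V : Type} [AddCommGroup Λ] [Field K] [LieRing V] [LieAlgebra K V] {D : RD ι Λ}
  (C : CG D K V) {S : Type u} [Group S]

/-- the fixed field -/
abbrev K0 : Subfield K := RingHom.eqLocusField (C.θ : K →+* K) (RingHom.id K)

/-- restriction of scalars -/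
abbrev res (F : Subfield K) : LieAlgebra F V where
  lie_smul t x y := lie_smul (t : K) x y

attribute [local instance] res

/-- the fixed Lie algebra -/
def L0 : LieSubalgebra (K0 C) V where
  carrier := {v | C.s v = v}
  zero_mem' := map_zero C.s
  add_mem' {a b} (ha : C.s a = a) (hb : C.s b = b) := show C.s (a + b) = _ by rw [map_add, ha, hb]
  smul_mem' c a (ha : C.s a = a) := show C.s ((c : K) • a) = (c : K) • a by
    rw [C.s_smul, ha, show C.θ c = c from c.2]
  lie_mem' {a b} (ha : C.s a = a) (hb : C.s b = b) := show C.s ⁅a, b⁆ = _ by rw [C.s_lie, ha, hb]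

/-- the form on the fixed Lie algebra -/
def g0 : L0 C →ₗ[K0 C] L0 C →ₗ[K0 C] K0 C :=
  LinearMap.mk₂ (K0 C)
    (fun u v => ⟨C.g u v, show C.θ _ = C.g u v by
      rw [← C.s_g, show C.s u = u from u.2, show C.s v = v from v.2]⟩)
    (fun _ _ _ => Subtype.ext (by simp))
    (fun c u v => Subtype.ext (show C.g ((c : K) • u.1) v = c * C.g u v by simp))
    (fun _ _ _ => Subtype.ext (by simp))
    (fun c u v => Subtype.ext (show C.g u ((c : K) • v.1) = c * C.g u v by simp))

/-- the action on the fixed Lie algebra -/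
def ρ0 (f : S →* (End K V)ˣ) (h : ∀ s, f s ∈ C.Fix) : S →* End (K0 C) (L0 C) where
  toFun s :=
    { toFun := fun v => ⟨(f s).1 v, show C.s _ = _ by
        rw [← C.mem_Fix'.1 (h s), show C.s v = v from v.2]⟩
      map_add' := fun _ _ => Subtype.ext (by simp)
      map_smul' := fun c v => Subtype.ext (map_smul (f s).1 (c : K) v.1) }
  map_one' := LinearMap.ext fun v => Subtype.ext (by simp)
  map_mul' s t := LinearMap.ext fun v => Subtype.ext (by simp)

variable {C}

theorem cn (m : (End K V)ˣ) (v : V) : m.1 ((m⁻¹).1 v) = v := by simp [← End.mul_apply]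

theorem ext_e (t : K) : IsExt C.g (t • C.e C.o) := by
  refine ⟨g_zero (A := {l | D.cv C.o l = 2}) (A' := {l | D.cv C.o l = 2})
    (Submodule.smul_mem _ _ (Vs.basis (D.two _))) (Submodule.smul_mem _ _ (Vs.basis (D.two _)))
    fun a a' b b' g => ?_, fun v => ?_, fun u v => ?_⟩
  · have := congrArg (D.cv C.o) g
    simp at a' b' this; omega
  · rw [smul_lie, smul_lie, lie_smul, C.d2_two, C.g_o]
    simp only [map_smul, LinearMap.smul_apply, smul_eq_mul]
    module
  · have := C.d2_lie C.o u v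
    rw [C.g_o, C.g_o, C.g_o, smul_lie, lie_smul, ← lie_skew u (C.B _)] at this
    simp only [map_smul, LinearMap.smul_apply, smul_eq_mul, smul_lie, lie_smul]
    linear_combination (norm := module) -(t * t) • this

theorem ext_act (F : UF1 C) {y : (End K V)ˣ} (hy : y ∈ C.G) {x : V} (h : IsExt C.g x) :
    IsExt C.g (y.1 x) := by
  obtain ⟨a, b⟩ := F.aut y hy
  refine ⟨by rw [b, h.1], fun v => ?_, fun u v => ?_⟩
  · rw [← cn y v, ← a, ← a, b, h.2.1, map_smul]
  · rw [← cn y u, ← cn y v]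
    simp only [← a, b]
    rw [h.2.2]
    simp

theorem ext_desc {x : L0 C} (h : IsExt C.g x.1) : IsExt (g0 C) x :=
  ⟨Subtype.ext h.1, fun v => Subtype.ext (h.2.1 v), fun u v => Subtype.ext (h.2.2 u v)⟩

theorem ext_fix (U : UF2 C) {y z : (End K V)ˣ} (h : ∀ v, C.s v = v → y.1 v = z.1 v) : y = z :=
  Units.ext (LinearMap.ext fun v => C.B.ext_elem fun j => by
    have := U.tr_sep (C.B.coord j ∘ₗ (y.1 - z.1)) v fun t => by simp [h _ (U.tr_fix _)]
    simpa [sub_eq_zero] using this)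

theorem span {v : V} (h : v ∈ AddSubgroup.closure (LR C)) :
    ∃ w : L0 C, w ∈ Submodule.span (K0 C) {x : L0 C | x.1 ∈ LR C} ∧ w.1 = v := by
  induction h using AddSubgroup.closure_induction with
  | mem v h => exact ⟨⟨v, h.1⟩, Submodule.subset_span h, rfl⟩
  | zero => exact ⟨0, zero_mem _, rfl⟩
  | add a b _ _ ha hb =>
    obtain ⟨a, ha, rfl⟩ := ha
    obtain ⟨b, hb, rfl⟩ := hb
    exact ⟨a + b, add_mem ha hb, rfl⟩
  | neg a _ ha =>
    obtain ⟨a, ha, rfl⟩ := ha
    exact ⟨-a, neg_mem ha, rfl⟩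

variable (R : RF C)
include R

theorem fix_iff (t : K) : C.s (t • C.e C.o) = t • C.e C.o ↔ C.ε C.o * C.θ t = t := by
  rw [C.s_smul, C.s_e, τ_o R, smul_smul, mul_comm]
  exact (smul_left_injective K (e_ne _)).eq_iff

variable (F : UF1 C) (U : UF2 C) (B : BF2 C) {f : S →* (End K V)ˣ} (h : ∀ s, f s ∈ C.Fix)
include F U B

theorem acts {y : (End K V)ˣ} (hy : y ∈ C.G1) {t : K} {x : L0 C} (e : x.1 = y.1 (t • C.e C.o))
    (s : S) : ActsExp (g0 C) (ρ0 C f h) s x ↔ f s = y * C.x C.o t * y⁻¹ := by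
  have k : ∀ v, (y * C.x C.o t * y⁻¹).1 v = v + ⁅x.1, v⁆ + C.g x v • x.1 := fun v => by
    obtain ⟨a, b⟩ := F.aut y (B.G1_le y hy).1
    rw [Units.val_mul, Units.val_mul, End.mul_apply, End.mul_apply, x_o R, e]
    conv_rhs => rw [← cn y v, ← a, b, ← map_smul y.1, ← map_add, ← map_add]
    congr 1
    simp only [map_smul, LinearMap.smul_apply, smul_eq_mul, smul_lie]
    module
  refine ⟨fun a => ext_fix U fun v hv => ?_, fun a v => Subtype.ext ?_⟩
  · rw [k]
    exact congrArg Subtype.val (a ⟨v, hv⟩)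
  · exact (congrArg (fun z : (End K V)ˣ => z.1 v) a).trans (k v)

omit F U in
theorem fix_t {y : (End K V)ˣ} (hy : y ∈ C.G1) {t : K} {x : L0 C} (e : x.1 = y.1 (t • C.e C.o)) :
    C.ε C.o * C.θ t = t := by
  have := show C.s x = x from x.2
  rw [e, ← C.mem_Fix'.1 (B.G1_le y hy).2] at this
  exact (fix_iff R t).1 (by simpa [← End.mul_apply] using congrArg (y⁻¹).1 this)

theorem root_set {r : S} (hr : f r ∈ C.G1) {t : K} (t0 : t ≠ 0)
    {x : L0 C} (e : x.1 = (f r).1 (t • C.e C.o)) :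
    {s | ∃ k : K0 C, ActsExp (g0 C) (ρ0 C f h) s (k • x)} = MulAut.conj r '' X0 C f := by
  have e' : ∀ k : K0 C, (k • x).1 = (f r).1 (((k : K) * t) • C.e C.o) := fun k => by
    rw [mul_smul, map_smul, ← e]; rfl
  ext s
  constructor
  · rintro ⟨k, a⟩
    rw [acts R F U B h hr (e' k)] at a
    exact ⟨r⁻¹ * s * r, ⟨k * t, by simp [a, mul_assoc]⟩, by simp [mul_assoc]⟩
  · rintro ⟨s, ⟨c, a⟩, rfl⟩
    have e1 := fix_t R B hr e
    have e2 := C.mem_Fix.1 (h s)
    rw [a, C.σ_x, τ_o R] at e2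
    have e2 := F.x_inj _ _ _ e2
    have e3 : C.ε C.o ≠ 0 := fun g => t0 (by rw [← e1, g, zero_mul])
    refine ⟨⟨c / t, show C.θ _ = c / t by
      rw [map_div₀, ← mul_div_mul_left _ _ e3, e1, e2]⟩, (acts R F U B h hr (e' _) _).2 ?_⟩
    simp [a, t0]

end RT

attribute [local instance] RT.res

open RT in
theorem rt (h1 : S_PST.{u}) (h2 : S_RIG) (h3 : S_RTW.{u}) : S_RT.{u} := by
  intro ι Λ K V _ _ _ _ D C R F U N B T hq S _ _ _ f hf p hp _ π pπ hπ
  have := C.fin
  have := D.fin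
  have : Module.Finite K V := Module.Finite.of_basis C.B
  have : Finite V := Module.finite_of_finite K
  have G1 : ∀ s, f s ∈ C.G1 := fun s => hf.range ▸ ⟨s, rfl⟩
  have sur : ∀ y ∈ C.G1, ∃ s, f s = y := fun y hy => by rwa [← hf.range] at hy
  have h : ∀ s, f s ∈ C.Fix := fun s => (B.G1_le _ (G1 s)).2
  have au := fun s => F.aut _ (B.G1_le _ (G1 s)).1
  refine h3 π p S (K0 C) (L0 C) (g0 C) (ρ0 C f h) {x | x.1 ∈ LR C} hq
    (fun a b => Subtype.ext (C.g_symm _ _)) (fun a b c => Subtype.ext (C.g_inv _ _ _))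
    (fun s a b => Subtype.ext ((au s).1 _ _)) (fun s a b => Subtype.ext ((au s).2 _ _))
    (fun x hx => ?_) ?_ (fun p5 β hβ x hx => ?_) fun π2 => ?_
  · obtain ⟨-, y, hy, t, e⟩ := id hx
    refine ⟨ext_desc (e ▸ ext_act F (B.G1_le y hy).1 (ext_e t)),
      fun k => ⟨(k • x).2, y, hy, k * t, by rw [mul_smul, map_smul, ← e]; rfl⟩,
      fun s => lr_act B (G1 s) hx, ?_⟩
    have hx : C.x C.o t ∈ C.G1 :=
      U_G1 (C.x_mem R.t.pos t) (by rw [C.mem_Fix, C.σ_x, τ_o R, fix_t R B hy e])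
    obtain ⟨s, e'⟩ := sur _ (mul_mem (mul_mem hy hx) (inv_mem hy))
    exact ⟨s, (acts R F U B h hy e s).2 e'⟩
  · obtain ⟨t, t', e, hx, hy, -⟩ := pair R N
    refine ⟨⟨_, hx.1⟩, hx, ⟨_, hy.1⟩, hy, fun g => ?_⟩
    have g : C.g (t • C.e C.o) (t' • C.e (D.ng C.o)) = 0 := congrArg Subtype.val g
    simp only [map_smul, LinearMap.smul_apply, g_oo, smul_eq_mul] at g
    exact one_ne_zero (α := K) (by linear_combination e + g)
  · obtain ⟨-, y, hy, t, e⟩ := id hx
    by_cases t0 : t = 0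
    · have : {s | ∃ k : K0 C, ActsExp (g0 C) (ρ0 C f h) s (k • x)} = {1} := by
        have e' : ∀ k : K0 C, (k • x).1 = y.1 ((0 : K) • C.e C.o) := fun k => by
          rw [show (k • x).1 = (k : K) • x.1 from rfl, e, t0]; simp
        ext s
        simp [acts R F U B h hy (e' _), C.x_zero, map_eq_one_iff f hf.inj]
      exact ⟨x, hx, by rw [this]; simp⟩
    obtain ⟨r, rfl⟩ := sur y hy
    obtain ⟨s, es⟩ := h1 ι Λ K V D C R F U N B T hq S f hf p β (by
      by_cases π2 : 2 ∈ π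
      · refine Or.inr fun c g => (hπ.resolve_left (not_not.2 π2)).2 ?_ c C.o ?_
        · have := hp.out.two_le
          have : p ≠ 2 := fun g => pπ (g ▸ π2)
          have : p ≠ 4 := fun g => absurd hp.out (by rw [g]; decide)
          omega
        · have := hp.out.two_le
          have : p ≠ 2 := fun g => pπ (g ▸ π2)
          have : p ≠ 4 := fun g => absurd hp.out (by rw [g]; decide)
          rw [(R.t.exc_val p hp.out c g).2]
          omega
      · exact Or.inl (Nat.not_even_iff_odd.1 fun g =>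
          π2 (hβ 2 Nat.prime_two (Nat.card_zpowers β ▸ g.two_dvd))))
    have hx' := lr_act B (G1 (β r * s)) (lr_o ((fix_iff R t).2 (fix_t R B hy e)))
    refine ⟨⟨_, hx'.1⟩, hx', ?_⟩
    rw [root_set R F U B h hy t0 e, root_set R F U B h (G1 _) t0 rfl, map_mul,
      MulAut.coe_mul, Set.image_comp, ← es, Set.image_image, Set.image_image]
    simp
  obtain ⟨q32, h33⟩ := hπ.resolve_left (not_not.2 π2)
  have nz : ∀ r : ℕ, r.Prime → (r : K) = 0 → p = r := fun r a b =>
    (Nat.prime_dvd_prime_iff_eq hp.out a).1 ((CharP.cast_eq_zero_iff K p r).1 b)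
  have two : (2 : K) ≠ 0 := fun g => pπ (nz 2 Nat.prime_two g ▸ π2)
  obtain ⟨⟨x, hx, y, hy, e, a, ha, b, hb, e'⟩, rg⟩ := h2 ι Λ K V D C R F U N B two fun c e g => by
    have a := R.t.dual c e
    have b := (R.r.bound c C.o).2
    obtain d | d | d : D.cv c (D.rt C.o) = 1 ∨ D.cv c (D.rt C.o) = 2 ∨ D.cv c (D.rt C.o) = 3 := by
      omega
    · simp [d] at g
    · exact two (by simpa [d] using g)
    · exact h33 (nz 3 Nat.prime_three (by simpa [d] using g)) _ _ d
  obtain ⟨a, ha', rfl⟩ := RT.span ha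
  obtain ⟨b, hb', rfl⟩ := RT.span hb
  refine ⟨q32, fun g => two (congrArg Subtype.val g), ⟨⟨x, hx.1⟩, hx, ⟨y, hy.1⟩, hy, Subtype.ext e,
    a, ha', b, hb', fun g => e'.1 (congrArg Subtype.val g), Subtype.ext e'.2.1, Subtype.ext e'.2.2.1,
    Subtype.ext e'.2.2.2⟩, fun _ x hx y hy z hz e g => Subtype.ext
      (rg _ hx _ hy _ hz (congrArg Subtype.val e) fun w hw => ?_)⟩
  obtain ⟨w, hw', rfl⟩ := RT.span hw
  exact congrArg Subtype.val (g w hw')

end Pool.Agent.MP_983df8_al.CH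

end
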