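import Mathlib.Algebra.BigOperators.Field
import Mathlib.LinearAlgebra.Quotient.Bilinear
import Pool.Agent.MP_983df8_al.ch.TOP
import Pool.Agent.MP_983df8_al.ch.CG
import Pool.Agent.MP_983df8_al.ch.BF1
import Pool.Agent.MP_983df8_al.ch.KU
import Pool.Agent.MP_983df8_al.ch.KN
import Pool.Agent.MP_983df8_al.ch.IRRT
import Pool.Agent.MP_983df8_al.ch.Rt
import Pool.Agent.MP_983df8_al.Defs13

-- ======== part 0: formerly Pool.Agent.MP_983df8_al.ch.SYM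
section MrgPart0

/-! Diagram symmetries of order at most three. -/

namespace Pool.Agent.MP_983df8_al.CH

namespace SYM

open Classical

variable {ι Λ : Type} [AddCommGroup Λ] {D : RD ι Λ} {τ : Equiv.Perm ι}

/-- order at most three -/
def Ord (τ : Equiv.Perm ι) : Prop := (∀ a, τ (τ a) = a) ∨ ∀ a, τ (τ (τ a)) = a

theorem ord (h : τ ^ 2 = 1 ∨ τ ^ 3 = 1) : Ord τ :=
  h.imp (fun h a => by simpa [pow_succ] using congrArg (fun f : Equiv.Perm ι => f a) h)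
    fun h a => by simpa [pow_succ] using congrArg (fun f : Equiv.Perm ι => f a) h

theorem mem_iff (S : D.Sym τ) (h : Ord τ) (i : ι) : i ∈ D.Δ ↔ τ i ∈ D.Δ :=
  ⟨S.mem i, fun e => h.elim (fun h => h i ▸ S.mem _ e) fun h => h i ▸ S.mem _ (S.mem _ e)⟩

theorem expand (f : Λ →+ ℤ) (l : Λ) : f l = ∑ i ∈ D.Δ, D.co i l * f (D.rt i) := by
  conv_lhs => rw [← D.sum l]
  simp [map_sum, map_zsmul]

theorem co_ext {l l' : Λ} (h : ∀ i ∈ D.Δ, D.co i l = D.co i l') : l = l' := by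
  rw [← D.sum l, ← D.sum l']
  exact Finset.sum_congr rfl fun i hi => by rw [h i hi]

/-- the linear map of the symmetry -/
noncomputable def phi (D : RD ι Λ) (τ : Equiv.Perm ι) : Λ →+ Λ :=
  ∑ i ∈ D.Δ, (zmultiplesHom Λ (D.rt (τ i))).comp (D.co i)

theorem phi_map (f : Λ →+ ℤ) (l : Λ) :
    f (phi D τ l) = ∑ i ∈ D.Δ, D.co i l * f (D.rt (τ i)) := by
  simp [phi, map_sum, map_zsmul]

theorem co_phi (S : D.Sym τ) {i : ι} (hi : i ∈ D.Δ) (l : Λ) :
    D.co (τ i) (phi D τ l) = D.co i l := by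
  rw [phi_map, Finset.sum_eq_single_of_mem i hi, D.co_self _ (S.mem i hi), mul_one]
  intro j hj e
  rw [D.co_ne _ (S.mem i hi) _ (S.mem j hj) fun c => e (τ.injective c).symm, mul_zero]

theorem rt_phi (S : D.Sym τ) (_h : Ord τ) (c : ι) : D.rt (τ c) = phi D τ (D.rt c) := by
  refine sub_eq_zero.1 (D.nd _ fun j hj => ?_)
  obtain ⟨j, rfl⟩ := τ.surjective j
  rw [map_sub, S.cv, phi_map, expand (D := D) (D.cv j) (D.rt c), sub_eq_zero]
  exact Finset.sum_congr rfl fun i _ => by rw [S.cv]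

theorem phi_inj (S : D.Sym τ) : Function.Injective (phi D τ) := fun l l' e =>
  co_ext (D := D) fun i hi => by rw [← co_phi S hi, e, co_phi S hi]

theorem co_τ (S : D.Sym τ) (h : Ord τ) {i : ι} (hi : i ∈ D.Δ) (c : ι) :
    D.co (τ i) (D.rt (τ c)) = D.co i (D.rt c) := by rw [rt_phi S h, co_phi S hi]

theorem ht_τ (S : D.Sym τ) (h : Ord τ) (c : ι) : D.ht (D.rt (τ c)) = D.ht (D.rt c) := by
  simp only [RD.ht, AddMonoidHom.finsetSum_apply]
  exact (Finset.sum_equiv τ (mem_iff S h) fun i hi => (co_τ S h hi c).symm).symm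

theorem str_τ (S : D.Sym τ) (h : Ord τ) (a c d : ι) (k : ℤ) :
    D.rt (τ d) = D.rt (τ c) + k • D.rt (τ a) ↔ D.rt d = D.rt c + k • D.rt a := by
  rw [rt_phi S h, rt_phi S h, rt_phi S h, ← map_zsmul, ← map_add, (phi_inj S).eq_iff]

theorem ng_τ (S : D.Sym τ) (h : Ord τ) (a : ι) : τ (D.ng a) = D.ng (τ a) :=
  D.inj (by rw [D.rt_ng, rt_phi S h, rt_phi S h, D.rt_ng, map_neg])

theorem bot_τ (S : D.Sym τ) (h : Ord τ) {a c : ι} (h1 : c ≠ a) (h2 : c ≠ D.ng a) :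
    D.bot (τ a) (τ c) = D.bot a c := by
  have A := D.str a c h1 h2
  have B := D.str (τ a) (τ c) (τ.injective.ne h1) (ng_τ S h a ▸ τ.injective.ne h2)
  have C : ∀ k : ℤ, (∃ d, D.rt d = D.rt (τ c) + k • D.rt (τ a)) ↔
      ∃ d, D.rt d = D.rt c + k • D.rt a := fun k => by
    rw [τ.surjective.exists]
    exact exists_congr fun d => str_τ S h a c d k
  have a0 := (A 0).1 ⟨c, by simp⟩
  have b0 := (B 0).1 ⟨τ c, by simp⟩
  have a1 := (B _).1 ((C _).2 ((A (-(D.bot a c : ℤ))).2 ⟨le_rfl, by omega⟩))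
  have b1 := (A _).1 ((C _).1 ((B (-(D.bot (τ a) (τ c) : ℤ))).2 ⟨le_rfl, by omega⟩))
  omega

theorem zt_zero (a c : ι) : D.zt τ a (D.rt c) = 0 ↔
    ∀ i ∈ D.Δ, D.co i (D.rt c) ≠ 0 → i = a ∨ i = τ a ∨ i = τ (τ a) := by
  have : (∀ i ∈ D.Δ, i ≠ a ∧ i ≠ τ a ∧ i ≠ τ (τ a) → D.co i (D.rt c) = 0) ↔
      ∀ i ∈ D.Δ, D.co i (D.rt c) ≠ 0 → i = a ∨ i = τ a ∨ i = τ (τ a) :=
    forall₂_congr fun i _ => by tauto
  rw [← this]
  simp only [RD.zt, AddMonoidHom.finsetSum_apply]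
  rcases D.sgn c with s | s
  · rw [Finset.sum_eq_zero_iff_of_nonneg fun i hi => s i (Finset.mem_of_mem_filter i hi)]
    simp only [Finset.mem_filter, and_imp]
  · rw [Finset.sum_eq_zero_iff_of_nonpos fun i hi => s i (Finset.mem_of_mem_filter i hi)]
    simp only [Finset.mem_filter, and_imp]

theorem zt_τ (S : D.Sym τ) (h : Ord τ) (a c : ι) :
    D.zt τ a (D.rt (τ c)) = D.zt τ a (D.rt c) := by
  simp only [RD.zt, AddMonoidHom.finsetSum_apply]
  refine (Finset.sum_equiv τ (fun i => ?_)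
    fun i hi => (co_τ S h (Finset.mem_of_mem_filter i hi) c).symm).symm
  simp only [Finset.mem_filter, ← mem_iff S h, ne_eq, τ.injective.eq_iff]
  refine and_congr_right fun _ => ?_
  rcases h with h | h
  · have : τ i = a ↔ i = τ a := ⟨fun e => by rw [← e, h], fun e => by rw [e, h]⟩
    rw [this, h]
    tauto
  · have : τ i = a ↔ i = τ (τ a) := ⟨fun e => by rw [← e, h], fun e => by rw [e, h]⟩
    rw [this]
    tauto

section R

variable (R : RDF D)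
include R

theorem spos {i : ι} (hi : i ∈ D.Δ) : D.pos i := ((R.ht_one i).2 hi).ge

theorem key {i c : ι} (hi : i ∈ D.Δ) (hc : D.pos c) (e : c ≠ i) :
    D.cv i (D.rt c) ≤ D.co i (D.rt c) := by
  have := (R.pos_iff _).1 (R.pos_rf i hi c hc e) i hi
  rw [D.rt_rf, map_sub, map_zsmul, D.co_self i hi, smul_eq_mul] at this
  omega

theorem simp_le {i j : ι} (hi : i ∈ D.Δ) (hj : j ∈ D.Δ) (e : j ≠ i) : D.cv i (D.rt j) ≤ 0 :=
  D.co_ne i hi j hj e.symm ▸ key R hi (spos R hj) e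

theorem zero_symm {a c : ι} (h : D.cv a (D.rt c) = 0) : D.cv c (D.rt a) = 0 := by
  obtain ⟨l, l1, l2⟩ := R.len
  have := l2 a c
  rw [h, zero_mul] at this
  exact (mul_eq_zero.1 this).resolve_right (l1 c).ne'

theorem pr {c d : ι} (hc : D.pos c) (hd : D.pos d) (h : D.cv c (D.rt d) < 0) :
    D.cv d (D.rt c) < 0 ∧ (D.cv c (D.rt d) = -1 ∨ D.cv d (D.rt c) = -1) := by
  have := D.pair c d (fun e => by rw [e, D.two] at h; omega)
    fun e => (R.pos_ng c).1 (e ▸ hd) hc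
  simp only [Set.mem_insert_iff, Set.mem_singleton_iff, Prod.mk.injEq] at this
  omega

theorem orth {O : ι → Prop} {c : ι} (hc : D.pos c) (h0 : ∀ j ∈ D.Δ, D.co j (D.rt c) ≠ 0 → O j)
    (ho : ∀ i j, O i → O j → i ≠ j → D.cv i (D.rt j) = 0) : O c := by
  by_contra n
  refine D.rt_ne c (co_ext (D := D) fun i hi => ?_)
  rw [map_zero]
  by_contra e
  have a := key R hi hc fun f => n (f ▸ h0 i hi e)
  have b := (R.pos_iff c).1 hc i hi
  rw [expand (D := D) (D.cv i), Finset.sum_eq_single_of_mem i hi fun j hj f => ?_, D.two] at a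
  · omega
  by_cases g : D.co j (D.rt c) = 0
  · rw [g, zero_mul]
  · rw [ho i j (h0 i hi e) (h0 j hj g) f.symm, mul_zero]

theorem two_span {a b c : ι} (ha : a ∈ D.Δ) (hb : b ∈ D.Δ) (e : b ≠ a)
    (h1 : D.cv a (D.rt b) = -1) (h2 : D.cv b (D.rt a) = -1) (hc : D.pos c)
    (h0 : ∀ j ∈ D.Δ, D.co j (D.rt c) ≠ 0 → j = a ∨ j = b) : c = a ∨ c = b ∨ c = D.rf a b := by
  by_contra n
  simp only [not_or] at n
  have hd : D.rt (D.rf a b) = D.rt b + D.rt a := by simp [D.rt_rf, h1]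
  have s : D.rt c = D.co a (D.rt c) • D.rt a + D.co b (D.rt c) • D.rt b :=
    co_ext (D := D) fun i hi => by
      simp only [map_add, map_zsmul, smul_eq_mul]
      by_cases f : i = a
      · simp [f, D.co_self a ha, D.co_ne a ha b hb e.symm]
      by_cases g : i = b
      · simp [g, D.co_self b hb, D.co_ne b hb a ha e]
      rw [D.co_ne i hi a ha f, D.co_ne i hi b hb g, not_not.1 fun z => (h0 i hi z).elim f g]
      simp
  have k1 := key R ha hc n.1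
  have k2 := key R hb hc n.2.1
  have k3 := (R.bound (D.rf a b) c).2
  have k4 := (R.pos_iff c).1 hc a ha
  have k5 := D.two (D.rf a b)
  generalize D.co a (D.rt c) = x at *
  generalize D.co b (D.rt c) = y at *
  rw [s] at k1 k2 k3
  simp only [map_add, map_zsmul, smul_eq_mul, D.two, h1, h2, hd] at k1 k2 k3 k5
  obtain rfl : x = y := by omega
  rw [← mul_add, add_comm, k5] at k3
  obtain rfl | rfl : x = 0 ∨ x = 1 := by omega
  · exact D.rt_ne c (by simpa using s)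
  · exact n.2.2 (D.inj (by simp [s, hd, add_comm]))

theorem adj (S : D.Sym τ) (h : Ord τ) {a : ι} (ha : a ∈ D.Δ) (e : τ a ≠ a)
    (n : D.cv a (D.rt (τ a)) ≠ 0) : (∀ x, τ (τ x) = x) ∧ D.cv a (D.rt (τ a)) = -1 ∧
      D.cv (τ a) (D.rt a) = -1 := by
  have hb := S.mem a ha
  have m0 : D.cv a (D.rt (τ a)) < 0 := lt_of_le_of_ne (simp_le R ha hb e) n
  have p := pr R (spos R ha) (spos R hb) m0
  rcases h with h | h
  · have := S.cv a (τ a)
    rw [h] at this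
    exact ⟨h, by omega⟩
  exfalso
  have q1 := S.cv a (τ a)
  have q2 := S.cv (τ a) (τ (τ a))
  have q3 := S.cv (τ a) a
  have q4 := S.cv (τ (τ a)) (τ a)
  rw [h] at q2 q4
  have r1 : D.cv (τ (τ a)) (D.rt (D.rf a (τ a))) ≤ -2 := by
    simp only [D.rt_rf, map_sub, map_zsmul, smul_eq_mul, q2, q1, q3]
    nlinarith [p.1]
  have r2 : D.cv (D.rf a (τ a)) (D.rt (τ (τ a))) ≤ -2 := by
    simp only [D.cv_rf, AddMonoidHom.sub_apply, AddMonoidHom.smul_apply, smul_eq_mul, q4, q1, q3]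
    nlinarith [p.1]
  have := pr R (spos R (S.mem _ hb)) (R.pos_rf a ha _ (spos R hb) e) (by omega)
  omega

theorem orb (S : D.Sym τ) (h : Ord τ) (a : ι) (ha : a ∈ D.Δ) :
    ((∀ c ∈ D.PJ τ a, c = a ∨ c = τ a ∨ c = τ (τ a)) ∧
      (τ a ≠ a → D.cv a (D.rt (τ a)) = 0 ∧ D.cv (τ a) (D.rt a) = 0)) ∨
    (τ a ≠ a ∧ τ (τ a) = a ∧ D.cv a (D.rt (τ a)) = -1 ∧ D.cv (τ a) (D.rt a) = -1 ∧
      ∃ d, D.rt d = D.rt (τ a) + D.rt a ∧ ∀ c ∈ D.PJ τ a, c = a ∨ c = τ a ∨ c = d) := by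
  by_cases e : τ a = a
  · refine Or.inl ⟨fun c hc => orth R (O := fun j => j = a ∨ j = τ a ∨ j = τ (τ a)) hc.1
      ((zt_zero a c).1 hc.2) fun i j hi hj f => ?_, fun f => (f e).elim⟩
    simp only [e, or_self] at hi hj
    exact (f (hi.trans hj.symm)).elim
  by_cases n : D.cv a (D.rt (τ a)) = 0
  · have n2 := (S.cv a (τ a)).trans n
    have n3 : τ (τ a) ≠ a → D.cv (τ (τ a)) (D.rt a) = 0 := fun f => by
      have := S.cv (τ a) (τ (τ a))
      rw [(h.resolve_left fun h => f (h a)) a] at this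
      exact this.trans n2
    refine Or.inl ⟨fun c hc => orth R (O := fun j => j = a ∨ j = τ a ∨ j = τ (τ a)) hc.1
      ((zt_zero a c).1 hc.2) ?_, fun _ => ⟨n, zero_symm R n⟩⟩
    rintro i j (hi | hi | hi) (hj | hj | hj) f <;> rw [hi, hj] at f ⊢
    exacts [(f rfl).elim, n, zero_symm R (n3 f.symm), zero_symm R n, (f rfl).elim, n2, n3 f,
      zero_symm R n2, (f rfl).elim]
  obtain ⟨h2, h3, h4⟩ := adj R S h ha e n
  refine Or.inr ⟨e, h2 a, h3, h4, D.rf a (τ a), by simp [D.rt_rf, h3], fun c hc => ?_⟩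
  refine two_span R ha (S.mem a ha) e h3 h4 hc.1 fun j hj f => ?_
  have := (zt_zero a c).1 hc.2 j hj f
  rw [h2] at this
  tauto

theorem nbr (S : D.Sym τ) (h : Ord τ) (a : ι) (ha : a ∈ D.Δ) (e : τ a ≠ a)
    (n : D.cv a (D.rt (τ a)) ≠ 0) (hr : 2 < D.Δ.card) : ∃ c ∈ D.Δ, τ c ≠ c ∧
    τ (τ c) = c ∧ D.cv c (D.rt (τ c)) = 0 ∧ D.cv c (D.rt a) = -1 ∧ D.cv (τ c) (D.rt a) = 0 := by
  classical
  obtain ⟨h2, h3, h4⟩ := adj R S h ha e n
  have hb := S.mem a ha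
  have sw : ∀ x y, D.cv (τ x) (D.rt y) = D.cv x (D.rt (τ y)) := fun x y => by
    rw [← S.cv x (τ y), h2]
  obtain ⟨c, hc, c1, c2, c3⟩ : ∃ c ∈ D.Δ, c ≠ a ∧ c ≠ τ a ∧ D.cv a (D.rt c) ≠ 0 := by
    by_contra! f
    have g := D.conn (fun x => x = a ∨ x = τ a) a ha (Or.inl rfl) fun i _ j hj hi z => by
      by_contra! y
      rcases hi with hi | hi <;> rw [hi] at z
      · exact z (f j hj y.1 y.2)
      · exact z (sw a j ▸ f _ (S.mem j hj) (fun w => y.2 (by rw [← w, h2])) (τ.injective.ne y.1))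
    have : D.Δ ⊆ {a, τ a} := fun j hj => by simpa using g j hj
    have := (Finset.card_le_card this).trans Finset.card_le_two
    omega
  have pa := spos R ha
  have pc := spos R hc
  have pc' := spos R (S.mem c hc)
  have pδ := R.pos_rf a ha _ (spos R hb) e
  have rδ : D.rt (D.rf a (τ a)) = D.rt (τ a) + D.rt a := by simp [D.rt_rf, h3]
  have vδ : D.cv (D.rf a (τ a)) = D.cv (τ a) + D.cv a := by simp [D.cv_rf, h4]
  generalize D.rf a (τ a) = δ at pδ rδ vδ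
  have n0 : D.cv a (D.rt c) < 0 := lt_of_le_of_ne (simp_le R ha hc c1) c3
  have p1 := pr R pa pc n0
  have u0 := simp_le R hb hc c2
  have v0 := simp_le R hc hb c2.symm
  have p2 := pr R pc pδ (by rw [rδ, map_add]; omega)
  rw [rδ, vδ, map_add, AddMonoidHom.add_apply] at p2
  have v1 : D.cv c (D.rt (τ a)) = 0 := by
    by_contra f
    have : D.cv (τ a) (D.rt c) ≠ 0 := fun g => f (zero_symm R g)
    omega
  have u1 := zero_symm R v1
  have v2 := (sw c a).trans v1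
  have u2 := (sw a c).symm.trans u1
  have ne : τ c ≠ c := fun f => by rw [f] at v2; omega
  have k : D.cv c (D.rt (τ c)) = 0 := by
    by_contra f
    obtain ⟨-, k3, k4⟩ := adj R S h hc ne f
    have pγ := R.pos_rf c hc _ pc' ne
    have rγ : D.rt (D.rf c (τ c)) = D.rt (τ c) + D.rt c := by simp [D.rt_rf, k3]
    have vγ : D.cv (D.rf c (τ c)) = D.cv (τ c) + D.cv c := by simp [D.cv_rf, k4]
    have := pr R pγ pδ
    simp only [rδ, vδ, rγ, vγ, map_add, AddMonoidHom.add_apply, S.cv, u1, u2, v1, v2] at this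
    omega
  refine ⟨c, hc, ne, h2 c, k, ?_, v2⟩
  by_contra f
  have n1 : D.cv a (D.rt c) = -1 := p1.2.resolve_right f
  have rρ : D.rt (D.rf δ c) = D.rt c + D.rt δ := by simp [D.rt_rf, vδ, u1, n1]
  have pρ : D.pos (D.rf δ c) := by
    unfold RD.pos at *
    rw [rρ, map_add]
    omega
  have := pr R pc' pρ
  simp only [rρ, D.cv_rf, rδ, vδ, map_add, AddMonoidHom.add_apply, AddMonoidHom.sub_apply,
    AddMonoidHom.smul_apply, smul_eq_mul, S.cv, u2, v1, v2, k, n1, zero_symm R k] at this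
  omega

end R

end SYM

open SYM Classical in
theorem symf : S_SYM := fun _ _ _ D R T τ S h0 => by
  have h := ord h0
  have top : ∀ o, D.Top o → τ o = o := fun o ho => (T o ho).uniq _ (ht_τ S h o)
  refine ⟨ng_τ S h, ⟨phi D τ, rt_phi S h, fun i hi => co_phi S hi⟩, ht_τ S h, fun a c d e => ?_,
    top, fun p o c ho hc => ⟨?_, fun e => hc.2.1 (τ.injective (e.trans (top o ho).symm)),
      fun a d ha e => ?_⟩, fun a _ => zt_τ S h a, fun a c hc => ?_, fun a c hc => ?_, zt_zero,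
    fun a i hi => ?_, orb R S h, nbr R S h⟩
  · simpa using (str_τ S h a c d 1).2 (by simpa using e)
  · exact hc.1.trans_eq (ht_τ S h c).symm
  · obtain ⟨a, rfl⟩ := τ.surjective a
    obtain ⟨d, rfl⟩ := τ.surjective d
    have e' : D.rt d = D.rt c + D.rt a := by simpa using (str_τ S h a c d 1).1 (by simpa using e)
    rw [bot_τ S h (fun f => ?_) fun f => D.rt_ne d (by simp [e', f, D.rt_ng])]
    · exact hc.2.2 a d (ha.trans_eq (ht_τ S h a)) e'
    have := (R.bound a d).2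
    rw [e', f, map_add, D.two] at this
    omega
  · simp only [RD.zt, AddMonoidHom.finsetSum_apply]
    exact Finset.sum_nonneg fun i hi => (R.pos_iff c).1 hc i (Finset.mem_of_mem_filter i hi)
  · simp only [RD.zt, AddMonoidHom.finsetSum_apply]
    exact Finset.sum_nonpos fun i hi => (D.sgn c).resolve_left (mt (R.pos_iff c).2 hc) i
      (Finset.mem_of_mem_filter i hi)
  · rw [zt_zero]
    exact ⟨fun f => f i hi (by simp [D.co_self i hi]),
      fun f j hj g => (not_not.1 fun e => g (D.co_ne j hj i hi e)) ▸ f⟩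

end Pool.Agent.MP_983df8_al.CH

end MrgPart0

-- ======== part 1: formerly Pool.Agent.MP_983df8_al.ch.UF2
section MrgPart1

/-! Chevalley groups: supports, factorisations, fixed points. -/

noncomputable section

namespace Pool.Agent.MP_983df8_al.CH

open Subgroup Module Finset

namespace UF2Row

variable {ι Λ : Type} [AddCommGroup Λ] {D : RD ι Λ}

section R

variable {R V : Type} [CommRing R] [LieRing V] [LieAlgebra R V] {C : CL D R V}

theorem down (U : UF0 C) (η : Λ →+ ℤ) {P : ℤ → Prop}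
    (h0 : ∀ M, (∀ y, C.Fl η M y → y = 1) → P M) (hs : ∀ m, 1 ≤ m → P (m + 1) → P m) (n : ℤ)
    (hn : 1 ≤ n) : P n := by
  obtain ⟨M, hM⟩ := U.big η
  have key : ∀ k : ℕ, P (max M n - k) ∨ max M n - k < 1 := by
    intro k
    induction k with
    | zero =>
      exact Or.inl (h0 _ fun y hy => hM y (U.fl_mono η _ _ y (by simp) hy))
    | succ k ih =>
      by_cases c : max M n - (k + 1 : ℕ) < 1
      · exact Or.inr c
      · refine Or.inl (hs _ (not_lt.1 c) ?_)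
        rw [show max M n - (k + 1 : ℕ) + 1 = max M n - k by push_cast; ring]
        exact ih.resolve_right (by omega)
  have e : max M n - ((max M n - n).toNat : ℕ) = n := by omega
  have := key (max M n - n).toNat
  rw [e] at this
  exact this.resolve_right (by omega)

theorem sup (U : UF0 C) (hL : C.Lead) (η : Λ →+ ℤ) (A : Set Λ)
    (hA : ∀ a ∈ A, ∀ b ∈ A, a + b ∈ A) (y : (End R V)ˣ) (hy : y ∈ C.Ue η) (h : y.1 - 1 ∈ C.sp A) :
    y ∈ C.Ux {a | 1 ≤ η (D.rt a) ∧ D.rt a ∈ A} := by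
  refine down U η (P := fun m => ∀ y ∈ C.Ue η, y.1 - 1 ∈ C.sp A → C.Fl η m y →
    y ∈ C.Ux {a | 1 ≤ η (D.rt a) ∧ D.rt a ∈ A}) ?_ ?_ 1 le_rfl y hy h (U.ue_fl η y hy)
  · intro M hM y _ _ f
    rw [hM y f]; exact one_mem _
  intro m hm ih y hy h f
  obtain ⟨a, ha⟩ := hL η m y hm hy f
  obtain ⟨z, hz, hza⟩ := U.ld_surj η m a {c | D.rt c ∈ A} hm ha.1 (U.coef η m y a A hm ha h)
  have z1 : z ∈ C.Ux {a | 1 ≤ η (D.rt a) ∧ D.rt a ∈ A} :=
    C.Ux_mono (fun c hc => And.intro (hm.trans hc.2.ge) hc.1) hz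
  have z2 := U.ux_sp A _ hA (fun c hc => hc.2) _ (inv_mem z1)
  have l := U.ld_mul η m _ _ _ _ hm (U.ld_inv η m z a hm hza) ha
  rw [neg_add_cancel, U.ld_zero] at l
  have := ih (z⁻¹ * y) (mul_mem (C.Ux_mono (fun c hc => hc.1) (inv_mem z1)) hy) (by
    rw [show (z⁻¹ * y).1 - 1 = ((z⁻¹).1 - 1) * (y.1 - 1) + ((z⁻¹).1 - 1) + (y.1 - 1) by
      rw [Units.val_mul]; noncomm_ring]
    exact add_mem (add_mem (Sp.mul z2 h hA) z2) h) l
  simpa using mul_mem z1 this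

theorem split (p : ι → Prop) (A : Set Λ) (a : V) (ha : a ∈ C.vs A) : ∃ a1 ∈ C.vs A,
    (∀ c, C.B.repr a1 (.inr c) ≠ 0 → p c) ∧ ∀ c, C.B.repr (a - a1) (.inr c) ≠ 0 → ¬ p c := by
  classical
  refine ⟨C.B.repr.symm ((C.B.repr a).filter fun j => Sum.elim (fun _ => True) p j),
    fun j e => ha j fun f => e ?_, fun c e => ?_, fun c e q => e ?_⟩
  · simp [Finsupp.filter_apply, f]
  · by_contra q
    simp [q] at e
  · simp [Finsupp.filter_apply, q]

theorem fac (U : UF0 C) (hL : C.Lead) (η : Λ →+ ℤ) (p : ι → Prop) (y : (End R V)ˣ)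
    (hy : y ∈ C.Ue η) : ∃ y1 ∈ C.Ux {a | 1 ≤ η (D.rt a) ∧ p a},
      ∃ y2 ∈ C.Ux {a | 1 ≤ η (D.rt a) ∧ ¬ p a}, y = y1 * y2 := by
  refine down U η (P := fun m => ∀ y ∈ C.Ue η, C.Fl η m y →
    ∃ y1 ∈ C.Ux {a | 1 ≤ η (D.rt a) ∧ p a}, ∃ y2 ∈ C.Ux {a | 1 ≤ η (D.rt a) ∧ ¬ p a},
      y = y1 * y2) ?_ ?_ 1 le_rfl y hy (U.ue_fl η y hy)
  · intro M hM y _ f
    exact ⟨1, one_mem _, 1, one_mem _, by rw [hM y f, one_mul]⟩
  intro m hm ih y hy f
  obtain ⟨a, ha⟩ := hL η m y hm hy f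
  obtain ⟨a1, b1, b2, b3⟩ := split p _ a ha.1
  obtain ⟨z, hz, hza⟩ := U.ld_surj η m a1 {c | p c} hm b1 b2
  obtain ⟨w, hw, hwa⟩ := U.ld_surj η m (a - a1) {c | ¬ p c} hm (sub_mem ha.1 b1) b3
  have z1 : z ∈ C.Ux {a | 1 ≤ η (D.rt a) ∧ p a} :=
    C.Ux_mono (fun c hc => And.intro (hm.trans hc.2.ge) hc.1) hz
  have w1 : w ∈ C.Ux {a | 1 ≤ η (D.rt a) ∧ ¬ p a} :=
    C.Ux_mono (fun c hc => And.intro (hm.trans hc.2.ge) hc.1) hw
  have l := U.ld_mul η m _ _ _ _ hm (U.ld_mul η m _ _ _ _ hm (U.ld_inv η m z _ hm hza) ha)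
    (U.ld_inv η m w _ hm hwa)
  rw [show -a1 + a + -(a - a1) = 0 by abel, U.ld_zero] at l
  obtain ⟨y1, h1, y2, h2, e⟩ := ih _ (mul_mem (mul_mem
    (C.Ux_mono (fun c hc => hc.1) (inv_mem z1)) hy) (C.Ux_mono (fun c hc => hc.1) (inv_mem w1))) l
  refine ⟨z * y1, mul_mem z1 h1, y2 * w, mul_mem h2 w1, ?_⟩
  rw [mul_assoc, ← mul_assoc y1, ← e]
  group

/-- a shifted cone spanned by two weights -/
def cone (a c : Λ) (i j : ℤ) : Set Λ := {l | ∃ i' j' : ℤ, i ≤ i' ∧ j ≤ j' ∧ l = i' • a + j' • c}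

theorem cone_add {a c : Λ} {i j i' j' k l : ℤ} (h : k ≤ i + i') (h' : l ≤ j + j') :
    ∀ x ∈ cone a c i j, ∀ y ∈ cone a c i' j', x + y ∈ cone a c k l := by
  rintro _ ⟨p, q, h1, h2, rfl⟩ _ ⟨p', q', h3, h4, rfl⟩
  exact ⟨p + p', q + q', by omega, by omega, by module⟩

theorem comm_id {A : Type} [Ring A] (X Y : Aˣ) : (X * Y * X⁻¹ * Y⁻¹).1 - 1 =
    ((X.1 - 1) * (Y.1 - 1) - (Y.1 - 1) * (X.1 - 1)) * (X⁻¹).1 * (Y⁻¹).1 := by
  rw [show (X.1 - 1) * (Y.1 - 1) - (Y.1 - 1) * (X.1 - 1) = X.1 * Y.1 - Y.1 * X.1 by noncomm_ring,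
    sub_mul, sub_mul]
  simp

theorem cone_mul {a c : Λ} {i j i' j' : ℤ} (k l : ℤ) {f g : End R V}
    (hf : f ∈ C.sp (cone a c i j)) (hg : g ∈ C.sp (cone a c i' j')) (h : k ≤ i + i')
    (h' : l ≤ j + j') : f * g ∈ C.sp (cone a c k l) := Sp.mul hf hg (cone_add h h')

theorem cone_one {a c : Λ} {i j : ℤ} {f : End R V} (hf : f - 1 ∈ C.sp (cone a c i j))
    (hi : 0 ≤ i) (hj : 0 ≤ j) : f ∈ C.sp (cone a c 0 0) := by
  have h1 : f - 1 ∈ C.sp (cone a c 0 0) := Sp.mono hf (by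
    rintro _ ⟨p, q, h1, h2, rfl⟩; exact ⟨p, q, by omega, by omega, rfl⟩)
  have h2 : (1 : End R V) ∈ C.sp (cone a c 0 0) := Sp.one ⟨0, 0, le_rfl, le_rfl, by simp⟩
  simpa using add_mem h1 h2

theorem comm_mem (U : UF0 C) (hL : C.Lead) (η : Λ →+ ℤ) (a c : ι) (t u : R)
    (ha : 1 ≤ η (D.rt a)) (hc : 1 ≤ η (D.rt c)) :
    C.x a t * C.x c u * (C.x a t)⁻¹ * (C.x c u)⁻¹ ∈
      C.Ux {d | 1 ≤ η (D.rt d) ∧ D.rt d ∈ cone (D.rt a) (D.rt c) 1 1} := by
  have xa : C.x a t ∈ C.Ue η := C.x_mem ha t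
  have xc : C.x c u ∈ C.Ue η := C.x_mem hc u
  refine sup U hL η _ (cone_add (by omega) (by omega)) _
    (mul_mem (mul_mem (mul_mem xa xc) (inv_mem xa)) (inv_mem xc)) ?_
  have sa : ∀ y ∈ C.Ux {a}, y.1 - 1 ∈ C.sp (cone (D.rt a) (D.rt c) 1 0) :=
    U.ux_sp _ _ (cone_add (by omega) (by omega)) (by
      rintro _ rfl; exact ⟨1, 0, le_rfl, le_rfl, by simp⟩)
  have sc : ∀ y ∈ C.Ux {c}, y.1 - 1 ∈ C.sp (cone (D.rt a) (D.rt c) 0 1) :=
    U.ux_sp _ _ (cone_add (by omega) (by omega)) (by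
      rintro _ rfl; exact ⟨0, 1, le_rfl, le_rfl, by simp⟩)
  have ma : C.x a t ∈ C.Ux {a} := C.x_mem (Set.mem_singleton a) t
  have mc : C.x c u ∈ C.Ux {c} := C.x_mem (Set.mem_singleton c) u
  have h1 := cone_mul 1 1 (sa _ ma) (sc _ mc) (by omega) (by omega)
  have h2 := cone_mul 1 1 (sc _ mc) (sa _ ma) (by omega) (by omega)
  have h3 := cone_one (sa _ (inv_mem ma)) (by omega) le_rfl
  have h4 := cone_one (sc _ (inv_mem mc)) le_rfl (by omega)
  rw [comm_id]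
  exact cone_mul 1 1 (cone_mul 1 1 (sub_mem h1 h2) h3 (by omega) (by omega)) h4 (by omega)
    (by omega)

theorem comm (U : UF0 C) (hL : C.Lead) (η : Λ →+ ℤ) (a c : ι) (t u : R)
    (ha : 1 ≤ η (D.rt a)) (hc : 1 ≤ η (D.rt c))
    (h : ∀ d (i j : ℤ), 1 ≤ i → 1 ≤ j → D.rt d ≠ i • D.rt a + j • D.rt c) :
    Commute (C.x a t) (C.x c u) := by
  have := C.Ux_induction (p := fun y => y = 1) (comm_mem U hL η a c t u ha hc) rfl
    (fun d ⟨_, i, j, hi, hj, e⟩ _ => (h d i j hi hj e).elim) fun y z hy hz => by rw [hy, hz, one_mul]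
  exact commutatorElement_eq_one_iff_commute.1 this

theorem comm2 (U : UF0 C) (hL : C.Lead) (η : Λ →+ ℤ) (a c d : ι) (t u : R)
    (ha : η (D.rt a) = 1) (hc : η (D.rt c) = 1) (hd : D.rt d = D.rt c + D.rt a)
    (h : ∀ d' (i j : ℤ), 1 ≤ i → 1 ≤ j → D.rt d' = i • D.rt a + j • D.rt c → d' = d) :
    C.x a t * C.x c u * (C.x a t)⁻¹ * (C.x c u)⁻¹ = C.x d (C.N a c * t * u) := by
  obtain ⟨r, e⟩ := (U.one_root d _).1 (C.Ux_mono (by
    rintro d' ⟨_, i, j, hi, hj, e⟩; exact h d' i j hi hj e) (comm_mem U hL η a c t u ha.ge hc.ge))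
  have l := U.ld_comm η 1 1 _ _ _ _ le_rfl le_rfl (U.ld_x η 1 a t le_rfl ha)
    (U.ld_x η 1 c u le_rfl hc)
  rw [e] at l ⊢
  have q := U.ld_uniq η (1 + 1) _ _ _ (by omega) l
    (U.ld_x η (1 + 1) d r (by omega) (by rw [hd, map_add, ha, hc]))
  rw [smul_lie, lie_smul, C.ee a c d hd] at q
  have := congrArg (fun v => C.B.repr v (.inr d)) q
  simp only [map_smul, Basis.repr_self, Finsupp.smul_apply, Finsupp.single_eq_same, smul_eq_mul,
    mul_one] at this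
  rw [← this]
  congr 1
  ring

end R

theorem shift {M : Type} [AddCommGroup M] (f : ℕ → M) (n : ℕ) (h : f n = f 0) :
    ∑ i ∈ range n, f (i + 1) = ∑ i ∈ range n, f i := by
  have := sum_range_succ' f n
  rw [sum_range_succ, h] at this
  exact (add_right_cancel this).symm

variable {K V : Type} [Field K] [LieRing V] [LieAlgebra K V] (C : CG D K V)

theorem dd_pos : 0 < C.dd := by have := C.dd_val; omega

theorem θ_succ (i : ℕ) (t : K) : (C.θ ^ (i + 1)) t = C.θ ((C.θ ^ i) t) := by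
  rw [pow_succ']; rfl

theorem θ_dd (t : K) : (C.θ ^ C.dd) t = t := by
  rw [← C.θ_ord, pow_orderOf_eq_one]; rfl

theorem ded (c : ℕ → K) (h : ∀ t, ∑ i ∈ range C.dd, (C.θ ^ i) t * c i = 0) : c 0 = 0 := by
  have li := (linearIndependent_monoidHom K K).comp
    (fun i : Fin C.dd => ((C.θ ^ i.1 : RingAut K) : K →* K)) fun i j e => by
      refine Fin.ext (pow_injOn_Iio_orderOf (x := C.θ) ?_ ?_ (RingEquiv.ext fun t => ?_))
      · simp [C.θ_ord]
      · simp [C.θ_ord]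
      · exact DFunLike.congr_fun e t
  refine Fintype.linearIndependent_iff.1 li (fun i => c i) (funext fun t => ?_) ⟨0, dd_pos C⟩
  rw [Finset.sum_apply, Pi.zero_apply, ← h t, ← Fin.sum_univ_eq_sum_range
    fun i => (C.θ ^ i) t * c i]
  exact sum_congr rfl fun i _ => mul_comm _ _

theorem θ_tr : ∃ w : K, ∑ i ∈ range C.dd, (C.θ ^ i) w = 1 := by
  obtain ⟨t, ht⟩ : ∃ t, ∑ i ∈ range C.dd, (C.θ ^ i) t ≠ 0 := by
    by_contra c
    exact one_ne_zero (ded C (fun _ => 1) fun t => by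
      simpa only [mul_one] using not_not.1 fun q => c ⟨t, q⟩)
  have f : C.θ (∑ i ∈ range C.dd, (C.θ ^ i) t) = ∑ i ∈ range C.dd, (C.θ ^ i) t := by
    rw [map_sum, ← shift (fun i => (C.θ ^ i) t) C.dd (θ_dd C t)]
    exact sum_congr rfl fun i _ => (θ_succ C i t).symm
  generalize hT : ∑ i ∈ range C.dd, (C.θ ^ i) t = T at ht f
  have g : ∀ i : ℕ, (C.θ ^ i) T = T := fun i => by
    induction i with
    | zero => rfl
    | succ i ih => rw [θ_succ, ih, f]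
  exact ⟨t / T, by simp only [map_div₀, g]; rw [← sum_div, hT, div_self ht]⟩

theorem h_repr (a c : ι) : C.B.repr (C.h a) (.inr c) = 0 := Vs.coord (C.h_mem a) (D.rt_ne c)

theorem s_repr (v : V) (c : ι) :
    C.B.repr (C.s v) (.inr (C.τ c)) = C.ε c * C.θ (C.B.repr v (.inr c)) := by
  classical
  refine Vs.induction (B := C.B) (wt := D.wt) (C := Set.univ)
    (p := fun v => C.B.repr (C.s v) (.inr (C.τ c)) = C.ε c * C.θ (C.B.repr v (.inr c)))
    (fun _ _ => trivial) (by simp) ?_ fun a b ha hb => by simp [ha, hb, mul_add]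
  rintro (i | a) k -
  · simp [C.s_smul, C.h_B, C.s_h, h_repr]
  · by_cases e : a = c
    · simp [C.s_smul, C.s_e, e, mul_comm]
    · simp [C.s_smul, C.s_e, e]

theorem s_vs {η : Λ →+ ℤ} (hη : C.Inv η) (q : ℤ → Prop) {v : V} (h : v ∈ C.vs {l | q (η l)}) :
    C.s v ∈ C.vs {l | q (η l)} := by
  refine Vs.induction (p := fun v => C.s v ∈ C.vs {l | q (η l)}) h (by simp) ?_
    fun a b ha hb => by rw [map_add]; exact add_mem ha hb
  rintro (i | a) k e <;> rw [C.s_smul] <;> refine Submodule.smul_mem _ _ ?_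
  · rw [C.h_B, C.s_h]
    exact Vs.mono (C.h_mem _) (by rintro _ rfl; exact e)
  · rw [C.s_e]
    exact Submodule.smul_mem _ _ (Vs.basis (show q _ from (hη a).symm ▸ e))

theorem it_vs {η : Λ →+ ℤ} (hη : C.Inv η) (q : ℤ → Prop) {v : V} (h : v ∈ C.vs {l | q (η l)})
    (n : ℕ) : C.s^[n] v ∈ C.vs {l | q (η l)} := by
  induction n with
  | zero => exact h
  | succ n ih => rw [Function.iterate_succ_apply']; exact s_vs C hη q ih

theorem symm_eq (v : V) : C.s.symm v = C.s^[C.dd - 1] v := by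
  rw [AddEquiv.symm_apply_eq, ← Function.iterate_succ_apply' C.s, Nat.succ_eq_add_one,
    Nat.sub_add_cancel (dd_pos C), C.s_pow]

theorem σ_sp {η : Λ →+ ℤ} (hη : C.Inv η) {m : ℤ} {f g : End K V} (hf : f ∈ C.sp {l | m ≤ η l})
    (h : ∀ v, g (C.s v) = C.s (f v)) : g ∈ C.sp {l | m ≤ η l} := fun i j e => by
  have a : C.s.symm (C.B j) ∈ C.vs {l | η l = η (D.wt j)} := by
    rw [symm_eq]
    exact it_vs C hη (fun k => k = η (D.wt j)) (Vs.basis rfl) _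
  have b := s_vs C hη (fun k => η (D.wt j) + m ≤ k) (Sp.apply hf a fun c hc l hl => by
    simp only [Set.mem_ofPred_eq, map_add] at *; omega)
  rw [← h, AddEquiv.apply_symm_apply] at b
  have := b i e
  simp only [Set.mem_ofPred_eq, map_sub] at *
  omega

theorem ld_σ {η : Λ →+ ℤ} {m : ℤ} {y : (End K V)ˣ} {a : V} (hη : C.Inv η) (h : C.Ld η m y a) :
    C.Ld η m (C.σ y) (C.s a) :=
  ⟨s_vs C hη (fun k => k = m) h.1, σ_sp C hη h.2 fun v => by
    simp [C.σ_apply, C.s_lie]⟩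

theorem σ_ux (Ψ Ψ' : Set ι) (h : ∀ a ∈ Ψ, C.τ a ∈ Ψ') (y : (End K V)ˣ) (hy : y ∈ C.Ux Ψ) :
    C.σ y ∈ C.Ux Ψ' :=
  C.Ux_induction (p := fun y => C.σ y ∈ C.Ux Ψ') hy (by rw [map_one]; exact one_mem _)
    (fun a ha t => by rw [C.σ_x]; exact C.x_mem (h a ha) _)
    fun y z hy hz => by rw [map_mul]; exact mul_mem hy hz

theorem s_sum (v : V) (n : ℕ) :
    C.s (∑ i ∈ range n, C.s^[i] v) = ∑ i ∈ range n, C.s^[i + 1] v := by
  simp only [map_sum, Function.iterate_succ_apply']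

theorem tr_fix (v : V) : C.s (C.tr v) = C.tr v := by
  rw [CG.tr, s_sum, shift (fun i => C.s^[i] v) _ (C.s_pow v)]

theorem it_smul (t : K) (v : V) (i : ℕ) : C.s^[i] (t • v) = (C.θ ^ i) t • C.s^[i] v := by
  induction i with
  | zero => rfl
  | succ i ih => rw [Function.iterate_succ_apply', ih, C.s_smul, θ_succ,
      Function.iterate_succ_apply']

theorem tr_sep (φ : V →ₗ[K] K) (v : V) (h : ∀ t : K, φ (C.tr (t • v)) = 0) : φ v = 0 :=
  ded C (fun i => φ (C.s^[i] v)) fun t => by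
    simpa only [CG.tr, map_sum, it_smul, map_smul, smul_eq_mul] using h t

theorem σ_dd (y : (End K V)ˣ) : C.σ^[C.dd] y = y := by
  have : ∀ (n : ℕ) v, (C.σ^[n] y).1 (C.s^[n] v) = C.s^[n] (y.1 v) := fun n v => by
    induction n with
    | zero => rfl
    | succ n ih => simp only [Function.iterate_succ_apply', C.σ_apply, ih]
  exact Units.ext (LinearMap.ext fun v => by simpa only [C.s_pow] using this C.dd v)

theorem h90 {η : Λ →+ ℤ} (hη : C.Inv η) {k : ℤ} {b : V} (hb : b ∈ C.vs {l | η l = k})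
    (h : C.tr b = 0) : ∃ v ∈ C.vs {l | η l = k}, -v + b + C.s v = 0 := by
  obtain ⟨w, hw⟩ := θ_tr C
  refine ⟨∑ i ∈ range C.dd, (C.θ ^ i) w • ∑ j ∈ range i, C.s^[j] b,
    sum_mem fun i _ => Submodule.smul_mem _ _
      (sum_mem fun j _ => it_vs C hη (fun x => x = k) hb j), ?_⟩
  have e : ∀ i ∈ range C.dd, C.s ((C.θ ^ i) w • ∑ j ∈ range i, C.s^[j] b) =
      (C.θ ^ (i + 1)) w • ∑ j ∈ range (i + 1), C.s^[j] b - (C.θ ^ (i + 1)) w • b := fun i _ => by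
    rw [C.s_smul, s_sum, sum_range_succ', θ_succ, smul_add]
    exact (add_sub_cancel_right _ _).symm
  rw [map_sum, sum_congr rfl e, sum_sub_distrib, ← sum_smul,
    shift (fun i => (C.θ ^ i) w) _ (θ_dd C w), hw,
    shift (fun i => (C.θ ^ i) w • ∑ j ∈ range i, C.s^[j] b) _ (by
      rw [show ∑ j ∈ range C.dd, C.s^[j] b = 0 from h]; simp), one_smul]
  abel

theorem lift (U : UF0 C.toCL) (η : Λ →+ ℤ) (m : ℤ) (a : V) (hη : C.Inv η) (hm : 1 ≤ m)
    (ha : a ∈ C.vs {l | η l = m}) (hs : C.s a = a) :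
    ∃ y ∈ C.Ue η, y ∈ C.Fix ∧ C.Ld η m y a := by
  have ue : ∀ {k : ℤ} {z}, 1 ≤ k → z ∈ C.Ux {c | c ∈ Set.univ ∧ η (D.rt c) = k} → z ∈ C.Ue η :=
    fun hk hz => C.Ux_mono (fun c hc => hk.trans hc.2.ge) hz
  obtain ⟨y, hy, ly⟩ := U.ld_surj η m a Set.univ hm ha fun _ _ => trivial
  have l0 := U.ld_mul η m _ _ _ _ hm (U.ld_inv η m y a hm ly) (ld_σ C hη ly)
  rw [hs, neg_add_cancel, U.ld_zero] at l0
  refine down U η (P := fun k => m + 1 ≤ k → ∀ y ∈ C.Ue η, C.Ld η m y a →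
    C.Fl η k (y⁻¹ * C.σ y) → ∃ y ∈ C.Ue η, y ∈ C.Fix ∧ C.Ld η m y a) ?_ ?_ (m + 1) (by omega)
    le_rfl y (ue hm hy) ly l0
  · intro M hM _ y hy ly f
    exact ⟨y, hy, (inv_mul_eq_one.1 (hM _ f)).symm, ly⟩
  intro k hk ih hmk y hy ly f
  have sy : C.σ y ∈ C.Ue η :=
    σ_ux C _ _ (fun c (hc : 1 ≤ η (D.rt c)) => show 1 ≤ η (D.rt (C.τ c)) from (hη c).symm ▸ hc) y hy
  obtain ⟨b, lb⟩ := C.lead η k _ hk (mul_mem (inv_mem hy) sy) f
  have one : C.Ld η k 1 0 := (U.ld_zero η k 1).2 (by simp [CL.Fl])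
  have co : ∀ n : ℕ, C.Ld η k (y⁻¹ * C.σ^[n] y) (∑ i ∈ range n, C.s^[i] b) := fun n => by
    induction n with
    | zero => simpa using one
    | succ n ih =>
      have := U.ld_mul η k _ _ _ _ hk lb (ld_σ C hη ih)
      rwa [map_mul, map_inv, mul_assoc, mul_inv_cancel_left, ← Function.iterate_succ_apply' C.σ,
        s_sum, add_comm, ← show _ = _ + b from sum_range_succ' (fun i => C.s^[i] b) n] at this
  have t := co C.dd
  rw [σ_dd, inv_mul_cancel] at t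
  obtain ⟨v, hv, ev⟩ := h90 C hη lb.1 (U.ld_uniq η k 1 _ _ hk t one)
  obtain ⟨z, hz, lz⟩ := U.ld_surj η k v Set.univ hk hv fun _ _ => trivial
  have l1 := U.ld_mul η k _ _ _ _ hk (U.ld_mul η k _ _ _ _ hk (U.ld_inv η k z v hk lz) lb)
    (ld_σ C hη lz)
  rw [ev, U.ld_zero] at l1
  refine ih (by omega) (y * z) (mul_mem hy (ue hk hz)) ?_ ?_
  · simpa using U.ld_mul η m _ _ _ _ hm ly
      ((U.ld_zero η m z).2 (U.fl_mono η _ _ z hmk (U.ld_fl η k z v lz)))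
  · simpa only [map_mul, mul_inv_rev, mul_assoc] using l1

end UF2Row

open UF2Row in
theorem uf2 : S_UF2 := fun _ _ _ _ _ _ _ _ _ C _ U =>
  { sup := sup U.toUF0 C.lead
    fac := fac U.toUF0 C.lead
    comm := comm U.toUF0 C.lead
    comm2 := comm2 U.toUF0 C.lead
    σ_ux := σ_ux C
    s_repr := s_repr C
    s_vs := fun _ m _ hη h => s_vs C hη (fun k => k = m) h
    ld_σ := fun _ _ _ _ hη h => ld_σ C hη h
    θ_tr := θ_tr C
    tr_fix := tr_fix C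
    tr_vs := fun _ m _ hη h => sum_mem fun i _ => it_vs C hη (fun k => k = m) h i
    tr_sep := tr_sep C
    lift := lift C U.toUF0 }

end Pool.Agent.MP_983df8_al.CH

end

end MrgPart1

-- ======== part 2: formerly Pool.Agent.MP_983df8_al.ch.BF2
section MrgPart2

/-! Chevalley groups: the Bruhat decomposition. -/

noncomputable section

namespace Pool.Agent.MP_983df8_al.CH

open Subgroup Module

namespace BF2A

variable {ι Λ K V : Type} [AddCommGroup Λ] [Field K] [LieRing V] [LieAlgebra K V] {D : RD ι Λ}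
  {C : CG D K V}

theorem n_mem (a : ι) {t : K} (h : t ≠ 0) : C.n a t ∈ C.Nn := subset_closure ⟨a, t, h, rfl⟩

theorem sp_of_fl {η : Λ →+ ℤ} {y : (End K V)ˣ} (h : C.Fl η 1 y) : y.1 ∈ C.sp {l | 0 ≤ η l} := by
  have := add_mem (Sp.mono (C' := {l | 0 ≤ η l}) h fun l (a : 1 ≤ η l) => le_trans zero_le_one a)
    (Sp.one (by simp))
  rwa [sub_add_cancel] at this

theorem eq_one {η : Λ →+ ℤ} {y : (End K V)ˣ} (h : C.Fl η 1 y) (h' : y.1 ∈ C.sp {l | 0 ≤ (-η) l}) :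
    y = 1 :=
  Units.ext (sub_eq_zero.1 (Sp.eq_zero (Sp.inter h (sub_mem h' (Sp.one (by simp))))
    fun i j e => by
      have a : 1 ≤ η (D.wt i - D.wt j) := e.1
      have b : 0 ≤ -η (D.wt i - D.wt j) := e.2
      omega))

variable (r : RF C) (f1 : UF1 C) (f2 : UF2 C) (b1 : BF1 C)
include r f1 b1

theorem UV (u : (End K V)ˣ) (hu : u ∈ C.U) (v : (End K V)ˣ) (hv : v ∈ C.Um) (h : u * v ∈ C.Nn) :
    u = 1 ∧ v = 1 := by
  obtain ⟨w, hw, m⟩ := b1.N_mon _ h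
  have s1 := sp_of_fl (f1.ue_fl _ _ (inv_mem hu))
  have e : v = u⁻¹ * (u * v) := by group
  have le : ∀ c, (-D.ht) (D.rt c) ≤ (-D.ht) (D.rt (w c)) := fun c => by
    obtain ⟨k, -, k2, -⟩ := m.2 c
    have a : C.B.repr ((v.1 - 1) (C.e c)) (.inr c) = 0 :=
      not_not.1 fun a => by simpa using f1.ue_fl _ _ hv _ _ a
    have b : v.1 (C.e c) = k • (u⁻¹).1 (C.e (w c)) := by
      rw [← map_smul, ← k2, ← End.mul_apply, ← Units.val_mul, ← e]
    have d : C.B.repr ((u⁻¹).1 (C.e (w c))) (.inr c) ≠ 0 := fun d => by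
      simp [b, -Units.val_inv_eq_inv_val, d] at a
    have := s1 _ _ d
    simp only [Set.mem_ofPred_eq, RD.wt_inr, map_sub, AddMonoidHom.neg_apply] at this ⊢
    omega
  have w1 : w = 1 := r.r.W_one w hw fun i hi => by
    have := r.r.perm_eq w _ le i
    simp only [AddMonoidHom.neg_apply, neg_inj] at this
    rw [RD.pos, this, (r.r.ht_one i).2 hi]
  have t0 := b1.T_sp (u * v) ⟨h, w1 ▸ m⟩
  have v1 : v = 1 := eq_one (f1.ue_fl _ _ hv) (by
    rw [e, neg_neg, Units.val_mul]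
    exact Sp.mul s1 t0 fun c a c' a' => by rwa [Set.mem_singleton_iff.1 a', add_zero])
  rw [v1, mul_one] at t0
  exact ⟨eq_one (f1.ue_fl _ _ hu) (Sp.mono t0 fun l a => by simp [Set.mem_singleton_iff.1 a]), v1⟩

include f2

omit f1 in
/-- factorisation along a monomial element -/
theorem fac {y u : (End K V)ˣ} {w : Equiv.Perm ι} (m : C.Mon y w) (hu : u ∈ C.U) :
    ∃ y1 ∈ C.U, ∃ y2 ∈ C.Ux {a | D.pos a ∧ ¬ D.pos (w a)}, y2 ∈ C.U ∧ y * y1 * y⁻¹ ∈ C.U ∧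
      y * y2 * y⁻¹ ∈ C.Um ∧ u = y1 * y2 := by
  obtain ⟨y1, h1, y2, h2, e⟩ := f2.fac D.ht (fun a => D.pos (w a)) u hu
  exact ⟨y1, C.Ux_mono (fun _ a => a.1) h1, y2, h2, C.Ux_mono (fun _ a => a.1) h2,
    b1.mon_conj y w _ _ m (fun _ a => a.2) _ h1,
    b1.mon_conj y w _ _ m (fun _ a => (r.r.neg_ht _).2 a.2) _ h2, e⟩

theorem inv_set (y : (End K V)ˣ) (w : Equiv.Perm ι) (m : C.Mon y w) (u : (End K V)ˣ)
    (hu : u ∈ C.U) (h : y * u * y⁻¹ ∈ C.Um) : u ∈ C.Ux {a | D.pos a ∧ ¬ D.pos (w a)} := by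
  obtain ⟨y1, -, y2, h2, -, h3, h4, rfl⟩ := fac r f2 b1 m hu
  have e : y * y1 * y⁻¹ = y * (y1 * y2) * y⁻¹ * (y * y2 * y⁻¹)⁻¹ := by group
  have := f1.disj _ _ h3 (e ▸ mul_mem h (inv_mem h4))
  rwa [conj_eq_one_iff.1 this, one_mul]

theorem uniq (u : (End K V)ˣ) (hu : u ∈ C.U) (n : (End K V)ˣ) (hn : n ∈ C.Nn) (u' : (End K V)ˣ)
    (hu' : u' ∈ C.U) (v : (End K V)ˣ) (hv : v ∈ C.U) (m : (End K V)ˣ) (hm : m ∈ C.Nn)
    (v' : (End K V)ˣ) (hv' : v' ∈ C.U) (h1 : n * u' * n⁻¹ ∈ C.Um) (h2 : m * v' * m⁻¹ ∈ C.Um)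
    (e : u * n * u' = v * m * v') : u = v ∧ n = m ∧ u' = v' := by
  obtain ⟨w, -, hw⟩ := b1.N_mon _ (inv_mem hm)
  obtain ⟨z1, -, z2, -, -, k1, k2, ez⟩ := fac r f2 b1 hw (mul_mem (inv_mem hv) hu)
  have e1 : u = v * (z1 * z2) := by rw [← ez]; group
  have e2 : v' = m⁻¹ * v⁻¹ * (u * n * u') := by rw [e]; group
  have e3 : u' * v'⁻¹ * (m⁻¹ * z1 * m⁻¹⁻¹) * (m⁻¹ * z2 * m⁻¹⁻¹) = n⁻¹ * m := by
    rw [e2, e1]; group
  obtain ⟨a, b⟩ := UV r f1 b1 _ (mul_mem (mul_mem hu' (inv_mem hv')) k1) _ k2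
    (e3 ▸ mul_mem (inv_mem hn) hm)
  rw [a, b, one_mul, eq_comm, inv_mul_eq_one] at e3
  subst e3
  have e4 : v⁻¹ * u = n * v' * n⁻¹ * (n * u' * n⁻¹)⁻¹ := by
    rw [show u = v * n * v' * u'⁻¹ * n⁻¹ by rw [← e]; group]; group
  have := f1.disj _ _ (mul_mem (inv_mem hv) hu) (e4 ▸ mul_mem h2 (inv_mem h1))
  obtain rfl := inv_mul_eq_one.1 this
  exact ⟨rfl, rfl, mul_left_cancel e⟩

omit r f1 f2 b1 in
/-- the union of the double cosets -/
def UNU (C : CG D K V) (y : (End K V)ˣ) : Prop := ∃ u ∈ C.U, ∃ n ∈ C.Nn, ∃ u' ∈ C.U, y = u * n * u'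

omit r f1 f2 b1 in
theorem UNU.left {y u : (End K V)ˣ} (h : UNU C y) (hu : u ∈ C.U) : UNU C (u * y) := by
  obtain ⟨v, hv, n, hn, v', hv', rfl⟩ := h
  exact ⟨u * v, mul_mem hu hv, n, hn, v', hv', by group⟩

omit r f1 f2 in
theorem move {m u : (End K V)ˣ} {w : Equiv.Perm ι} (hm : m ∈ C.Nn) (h : C.Mon m w) {a : ι}
    (ha : D.pos (w⁻¹ a)) (t : K) {n : (End K V)ˣ} (hn : n ∈ C.Nn) (hu : u ∈ C.U) :
    UNU C (n * C.x a t * m * u) := by
  have k : m⁻¹ * C.x a t * m⁻¹⁻¹ ∈ C.U :=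
    b1.mon_conj m⁻¹ w⁻¹ {a} {a | 1 ≤ D.ht (D.rt a)} h.inv
      (fun c e => by rw [Set.mem_singleton_iff.1 e]; exact ha) _
      (C.x_mem (Set.mem_singleton a) t)
  exact ⟨1, one_mem _, n * m, mul_mem hn hm, _, mul_mem k hu, by group⟩

theorem UNU.refl {i : ι} (hi : i ∈ D.Δ) {t : K} (ht : t ≠ 0) {y : (End K V)ˣ} (h : UNU C y) :
    UNU C (C.n i t * y) := by
  obtain ⟨u, hu, n, hn, u', hu', rfl⟩ := h
  obtain ⟨w, hw, m⟩ := b1.N_mon n hn
  obtain ⟨u1, h1, u2, h2, rfl⟩ := f2.fac D.ht (fun a => a ≠ i) u hu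
  obtain ⟨s, rfl⟩ := (f1.one_root i u2).1 (C.Ux_mono (fun _ a => not_not.1 a.2) h2)
  have mi := b1.mon_n i t ht
  have pi : D.pos i := ((r.r.ht_one i).2 hi).ge
  rw [show C.n i t * (u1 * C.x i s * n * u') =
    C.n i t * u1 * (C.n i t)⁻¹ * (C.n i t * C.x i s * n * u') by group]
  refine UNU.left ?_ (b1.mon_conj _ _ _ _ mi (fun a e => r.r.pos_rf i hi a e.1 e.2) _ h1)
  by_cases p : D.pos (w⁻¹ i)
  · exact move b1 hn m p s (n_mem i ht) hu'
  obtain ⟨k, -, -, hk⟩ := mi.2 i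
  have e := hk s
  rw [RD.sr_apply, r.r.rf_self, mul_inv_eq_iff_eq_mul] at e
  rw [e]
  by_cases z : k * s = 0
  · exact ⟨1, one_mem _, C.n i t * n, mul_mem (n_mem i ht) hn, u', hu', by
      rw [z, C.x_zero]; group⟩
  have z' : -(k * s)⁻¹ ≠ 0 := neg_ne_zero.2 (inv_ne_zero z)
  have e' : C.x (D.ng i) (k * s) = (C.x i (-(k * s)⁻¹))⁻¹ * C.n i (-(k * s)⁻¹) *
      (C.x i (-(k * s)⁻¹))⁻¹ := by
    rw [CG.n, inv_neg, inv_inv, neg_neg]; group
  have := (move b1 (mul_mem (n_mem i ht) hn) (mi.mul m) (a := i) (by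
    rw [mul_inv_rev, Equiv.Perm.mul_apply, show (D.sr i)⁻¹ i = D.ng i from r.r.rf_self i,
      r.r.W_ng _ (inv_mem hw), r.r.pos_ng]
    exact p) (- -(k * s)⁻¹) (n_mem i z') hu').left (inv_mem (C.x_mem (a := i) pi (-(k * s)⁻¹)))
  rw [C.x_neg i (-(k * s)⁻¹)] at this
  rw [e']
  simpa only [mul_assoc] using this

theorem bruhat (y : (End K V)ˣ) (hy : y ∈ C.G) :
    ∃ u ∈ C.U, ∃ n ∈ C.Nn, ∃ u' ∈ C.U, n * u' * n⁻¹ ∈ C.Um ∧ y = u * n * u' := by
  have hx : ∀ a t z, UNU C z → UNU C (C.x a t * z) := fun a => by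
    refine r.r.ind (fun a => ∀ t z, UNU C z → UNU C (C.x a t * z))
      (fun i hi t z h => h.left (C.x_mem ((r.r.ht_one i).2 hi).ge t)) (fun j hj a ih t z h => ?_) a
    obtain ⟨k, k0, -, hk⟩ := (b1.mon_n j 1 one_ne_zero).2 a
    have e := hk (k⁻¹ * t)
    rw [mul_inv_cancel_left₀ k0, RD.sr_apply, b1.n_inv] at e
    rw [← e, mul_assoc, mul_assoc]
    exact (ih _ _ (h.refl r f1 f2 b1 hj (neg_ne_zero.2 one_ne_zero))).refl r f1 f2 b1 hj one_ne_zero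
  have := C.Ux_induction (p := fun g => ∀ z, UNU C z → UNU C (g * z)) hy
    (fun z h => by rwa [one_mul]) (fun a _ => hx a) (fun g g' h h' z hz => by
      rw [mul_assoc]; exact h _ (h' _ hz)) 1 ⟨1, one_mem _, 1, one_mem _, 1, one_mem _, by simp⟩
  obtain ⟨u, hu, n, hn, u', hu', e⟩ := this
  obtain ⟨w, -, m⟩ := b1.N_mon n hn
  obtain ⟨y1, -, y2, -, h2, h3, h4, rfl⟩ := fac r f2 b1 m hu'
  exact ⟨u * (n * y1 * n⁻¹), mul_mem hu h3, n, hn, y2, h2, h4, by rw [← mul_one y, e]; group⟩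

omit r f1 f2 b1 in
theorem G1_le (y : (End K V)ˣ) (hy : y ∈ C.G1) : y ∈ C.G ∧ y ∈ C.Fix :=
  (sup_le (inf_le_inf_right _ (C.Ux_mono fun _ _ => trivial))
    (inf_le_inf_right _ (C.Ux_mono fun _ _ => trivial)) : C.G1 ≤ C.G ⊓ C.Fix) hy

theorem bruhat1 (y : (End K V)ˣ) (hy : y ∈ C.G1) : ∃ u ∈ C.U ⊓ C.Fix, ∃ n ∈ C.Nn ⊓ C.G1,
    ∃ u' ∈ C.U ⊓ C.Fix, n * u' * n⁻¹ ∈ C.Um ∧ y = u * n * u' := by
  obtain ⟨u, hu, n, hn, u', hu', h, e⟩ := bruhat r f1 f2 b1 y (G1_le y hy).1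
  have s1 : ∀ z ∈ C.U, C.σ z ∈ C.U := f2.σ_ux _ _ fun a p => by
    simpa only [Set.mem_ofPred_eq, r.s.ht] using p
  have s2 : C.σ (n * u' * n⁻¹) ∈ C.Um := f2.σ_ux _ _ (fun a p => by
    simpa only [Set.mem_ofPred_eq, AddMonoidHom.neg_apply, r.s.ht] using p) _ h
  rw [map_mul, map_mul, map_inv] at s2
  obtain ⟨a, -, c⟩ := uniq r f1 f2 b1 _ (s1 u hu) _ (b1.σ_N n hn) _ (s1 u' hu') u hu n hn u' hu' s2 h
    (by rw [← map_mul, ← map_mul, ← e, C.mem_Fix.1 (G1_le y hy).2])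
  have le : ∀ z ∈ C.U, z ∈ C.Fix → z ∈ C.G1 := fun z p q => mem_sup_left ⟨p, q⟩
  refine ⟨u, ⟨hu, a⟩, n, ⟨hn, ?_⟩, u', ⟨hu', c⟩, h, e⟩
  rw [show n = u⁻¹ * y * u'⁻¹ by rw [e]; group]
  exact C.G1.mul_mem (C.G1.mul_mem (C.G1.inv_mem (le u hu a)) hy) (C.G1.inv_mem (le u' hu' c))

omit r f1 f2 in
theorem mem_B (y : (End K V)ˣ) : y ∈ C.U ⊔ C.T ↔ ∃ u ∈ C.U, ∃ t ∈ C.T, y = u * t := by
  have cj : ∀ t ∈ C.T, ∀ u ∈ C.U, t * u * t⁻¹ ∈ C.U := fun t ht =>
    b1.mon_conj t 1 _ _ ht.2 fun _ a => a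
  let H : Subgroup (End K V)ˣ :=
    { carrier := {y | ∃ u ∈ C.U, ∃ t ∈ C.T, y = u * t}
      one_mem' := ⟨1, one_mem _, 1, one_mem _, by simp⟩
      mul_mem' := by
        rintro _ _ ⟨u, hu, t, ht, rfl⟩ ⟨u', hu', t', ht', rfl⟩
        exact ⟨u * (t * u' * t⁻¹), mul_mem hu (cj t ht u' hu'), t * t', mul_mem ht ht', by group⟩
      inv_mem' := by
        rintro _ ⟨u, hu, t, ht, rfl⟩
        exact ⟨t⁻¹ * u⁻¹ * t⁻¹⁻¹, cj _ (inv_mem ht) _ (inv_mem hu), t⁻¹, inv_mem ht, by group⟩ }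
  refine ⟨fun h => (sup_le (fun u hu => ⟨u, hu, 1, one_mem _, by simp⟩)
    (fun t ht => ⟨1, one_mem _, t, ht, by simp⟩) : C.U ⊔ C.T ≤ H) h, ?_⟩
  rintro ⟨u, hu, t, ht, rfl⟩
  exact mul_mem_sup hu ht

theorem mem_B1 (y : (End K V)ˣ) (hy : y ∈ C.G1) (h : y ∈ C.U ⊔ C.T) :
    ∃ u ∈ C.U ⊓ C.Fix, ∃ t ∈ C.T ⊓ C.G1, y = u * t := by
  obtain ⟨u, hu, t, ht, e⟩ := (mem_B b1 y).1 h
  obtain ⟨v, hv, m, hm, v', hv', h', e'⟩ := bruhat1 r f1 f2 b1 y hy
  obtain ⟨rfl, rfl, -⟩ := uniq r f1 f2 b1 u hu t ht.1 1 (one_mem _) v hv.1 m hm.1 v' hv'.1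
    (by simp) h' (by rw [mul_one, ← e, e'])
  exact ⟨u, hv, t, ⟨ht, hm.2⟩, e⟩

end BF2A

open BF2A in
theorem bf2 : S_BF2 := fun _ _ _ _ _ _ _ _ _ _ r f1 f2 b1 =>
  ⟨UV r f1 b1, inv_set r f1 f2 b1, G1_le, bruhat r f1 f2 b1, uniq r f1 f2 b1, bruhat1 r f1 f2 b1,
    mem_B b1, mem_B1 r f1 f2 b1⟩

end Pool.Agent.MP_983df8_al.CH

end

end MrgPart2

-- ======== part 3: formerly Pool.Agent.MP_983df8_al.ch.Asm
section MrgPart3

/-! Chevalley and Steinberg groups belong to the abstract classes. -/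

namespace Pool.Agent.MP_983df8_al.CH

open Subgroup

universe u

variable {ι Λ K V : Type} [AddCommGroup Λ] [Field K] [LieRing V] [LieAlgebra K V] {D : RD ι Λ}
  (C : CG D K V)

theorem rf : RF C := by
  have F := rdf ι Λ D
  refine ⟨F, topf ι Λ D F _ C.top, symf ι Λ D F (topf ι Λ D F) _ C.sym ?_⟩
  have := C.τ_pow
  rcases C.dd_val with e | e | e <;> rw [e] at this
  · exact Or.inl (by rw [pow_one] at this; rw [this, one_pow])
  exacts [Or.inl this, Or.inr this]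

theorem all_facts : RF C ∧ UF1 C ∧ UF2 C ∧ BF1 C ∧ BF2 C ∧ TF C :=
  have r := rf C
  have u1 := uf1 _ _ _ _ D C (uf0 _ _ _ _ D C.toCL r.r)
  have u2 := uf2 _ _ _ _ D C r u1
  have b1 := bf1 _ _ _ _ D C r u1
  have b2 := bf2 _ _ _ _ D C r u1 u2 b1
  ⟨r, u1, u2, b1, b2, tf _ _ _ _ D C r u1 u2 b1 b2⟩

theorem lie_class (hI : S_IRRT) (hR : S_RT.{u}) {π : Set ℕ} {S : Type u} [Group S] [Finite S]
    [IsSimpleGroup S] (h : IsLie π S) :
    ∃ p : ℕ, p.Prime ∧ ((p ∈ π ∧ IsBN3 p S) ∨ (p ∉ π ∧ Rt π p S)) := by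
  obtain ⟨ι, Λ, K, V, _, _, _, _, D, C, f, E, q1, q2⟩ := cg π S h
  obtain ⟨r, u1, u2, b1, b2, t⟩ := all_facts C
  have := C.fin
  have hp := CharP.char_is_prime K (ringChar K)
  have := Fact.mk hp
  refine ⟨_, hp, (em (ringChar K ∈ π)).imp (fun a => ⟨a, ?_⟩) fun a => ⟨a, ?_⟩⟩
  · obtain ⟨k1, k2, k3⟩ := bn _ _ _ _ D C r u1 u2 b1 b2 t S f E (ringChar K)
    obtain ⟨k4, k5⟩ := irr _ _ _ _ D C r u1 u2 b1 b2 t
      (hI _ _ _ _ D C r u1 u2 b1 b2 t (q1.imp_right And.right)) S f E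
    exact ⟨_, _, _, _, k1, k2, k3 ▸ k4, k5⟩
  · exact hR _ _ _ _ D C r u1 u2 b1 b2 t (q1.resolve_right fun b => a b.1) S f E _ π a
      (q2.resolve_left a)

theorem known_comps (hI : S_IRRT) (hR : S_RT.{u}) {π : Set ℕ} {G : Type u} [Group G] [Finite G]
    (h : Known π G) : Comps π G := fun S a b c => by
  refine (h S a b c).imp_right (Or.imp_right (Or.imp_right (And.imp_right (Or.imp_right ?_))))
  rintro (e | e | e | ⟨p, hp, e⟩)
  · obtain ⟨p, hp, e⟩ := lie_class hI hR e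
    exact Or.inr (Or.inr ⟨p, hp, e.imp_right (And.imp_right Or.inl)⟩)
  exacts [Or.inl e, Or.inr (Or.inl e), Or.inr (Or.inr ⟨p, hp, e.imp_right (And.imp_right Or.inr)⟩)]

end Pool.Agent.MP_983df8_al.CH

end MrgPart3

-- ======== part 4: formerly Pool.Agent.MP_983df8_al.ch.RTW
section MrgPart4

/-! Passage to the quotient of the span of the extremal elements by the radical of the form. -/

noncomputable section

namespace Pool.Agent.MP_983df8_al.CH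

open Subgroup Module

universe u

namespace RTW

variable {K L S : Type*} [Field K] [LieRing L] [LieAlgebra K L] [Group S]

/-- the data before the passage to the quotient -/
structure Pre (π : Set ℕ) (p : ℕ) (g : L →ₗ[K] L →ₗ[K] K) (ρ : S →* End K L) (E : Set L)
    (e : L → S) : Prop where
  sym : ∀ a b, g a b = g b a
  inv : ∀ a b c, g ⁅a, b⁆ c = g a ⁅b, c⁆
  rg : ∀ s a b, g (ρ s a) (ρ s b) = g a b
  ex : IsExpSet g ρ E e
  nz : ∃ x ∈ E, ∃ y ∈ E, g x y ≠ 0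
  clo : closure (e '' E) = ⊤
  st : p < 5 → PiStable π K E e
  two : 2 ∈ π → 32 < Nat.card K ∧ (2 : K) ≠ 0 ∧
    (∃ x ∈ E, ∃ y ∈ E, g x y = 1 ∧ ∃ a ∈ Submodule.span K E, ∃ b ∈ Submodule.span K E,
      g a b ≠ 0 ∧ g a x = 0 ∧ g a y = 0 ∧ g a ⁅x, y⁆ = 0) ∧
    (p = 3 → ∀ x ∈ E, ∀ y ∈ E, ∀ z ∈ E, g x y = 1 →
      (∀ w ∈ Submodule.span K E, g (⁅x, y⁆ - ⁅x, z⁆) w = 0) → y = z)

theorem mov {g : L →ₗ[K] L →ₗ[K] K} {ρ : S →* End K L} (inv : ∀ a b c, g ⁅a, b⁆ c = g a ⁅b, c⁆)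
    {s : S} {x y : L} (h : ActsExp g ρ s x) (n : g x y ≠ 0) : ρ s ≠ 1 := by
  intro e
  have k := congrArg (fun v => g v y) (h y)
  simp only [e, End.one_apply, map_add, LinearMap.add_apply, inv, lie_self, map_zero, map_smul,
    LinearMap.smul_apply, smul_eq_mul, add_zero] at k
  exact n (mul_self_eq_zero.1 (by linear_combination -k))

theorem inj [IsSimpleGroup S] {ρ : S →* End K L} {s : S} (n : ρ s ≠ 1) : Function.Injective ρ := by
  rcases (inferInstance : ρ.toHomUnits.ker.Normal).eq_bot_or_eq_top with h | h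
  · intro a b e
    exact (MonoidHom.ker_eq_bot_iff _).1 h (Units.ext e)
  · exact absurd (congrArg Units.val (MonoidHom.mem_ker.1 (h ▸ mem_top s : s ∈ ρ.toHomUnits.ker))) n

theorem uniq {g : L →ₗ[K] L →ₗ[K] K} {ρ : S →* End K L} (i : Function.Injective ρ) {s t : S}
    {x : L} (h : ActsExp g ρ s x) (k : ActsExp g ρ t x) : s = t :=
  i (LinearMap.ext fun y => (h y).trans (k y).symm)

theorem canc (ρ : S →* End K L) (s : S) (y : L) : ρ s (ρ s⁻¹ y) = y := by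
  rw [← End.mul_apply, ← map_mul, mul_inv_cancel, map_one, End.one_apply]

theorem dim [Finite L] {g : L →ₗ[K] L →ₗ[K] K} (sym : ∀ a b, g a b = g b a)
    (inv : ∀ a b c, g ⁅a, b⁆ c = g a ⁅b, c⁆) (two : (2 : K) ≠ 0) {x y a b : L} (hx : IsExt g x)
    (hy : IsExt g y) (h : g x y = 1) (h0 : g a b ≠ 0) (h1 : g a x = 0) (h2 : g a y = 0)
    (h3 : g a ⁅x, y⁆ = 0) : 3 < finrank K L := by
  have : Module.Finite K L := Module.Finite.of_finite
  have e1 : g x ⁅x, y⁆ = 0 := by rw [← inv, lie_self, map_zero, LinearMap.zero_apply]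
  have e2 : g ⁅x, y⁆ y = 0 := by rw [inv, lie_self, map_zero]
  have e3 : g ⁅x, y⁆ ⁅x, y⁆ = -2 := by
    rw [inv, ← lie_skew x y, lie_neg, hy.2.1, sym y x, h, map_neg, map_smul, h]
    simp
  have li : LinearIndependent K ![x, y, ⁅x, y⁆, a] := by
    rw [Fintype.linearIndependent_iff]
    intro c hc
    simp only [Fin.sum_univ_four, Matrix.cons_val_zero, Matrix.cons_val_one, Matrix.cons_val] at hc
    have k : ∀ w, c 0 * g x w + c 1 * g y w + c 2 * g ⁅x, y⁆ w + c 3 * g a w = 0 := fun w => by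
      simpa using congrArg (fun v => g v w) hc
    have c0 : c 0 = 0 := by simpa [h, hy.1, e2, h2] using k y
    have c1 : c 1 = 0 := by simpa [sym y x, h, hx.1, sym ⁅x, y⁆ x, e1, h1] using k x
    have c2 : c 2 = 0 := by simpa [c0, c1, e3, h3, two] using k ⁅x, y⁆
    have c3 : c 3 = 0 := by simpa [c0, c1, c2, h0] using k b
    intro i
    fin_cases i <;> assumption
  exact (Fintype.card_fin 4).symm.trans_le li.fintype_card_le_finrank

/-- the choice of the group elements -/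
theorem pre0 [IsSimpleGroup S] {g : L →ₗ[K] L →ₗ[K] K} {ρ : S →* End K L} {E : Set L}
    (inv : ∀ a b c, g ⁅a, b⁆ c = g a ⁅b, c⁆) (rl : ∀ s a b, ρ s ⁅a, b⁆ = ⁅ρ s a, ρ s b⁆)
    (rg : ∀ s a b, g (ρ s a) (ρ s b) = g a b)
    (ex : ∀ x ∈ E, IsExt g x ∧ (∀ t : K, t • x ∈ E) ∧ (∀ s, ρ s x ∈ E) ∧ ∃ s, ActsExp g ρ s x)
    (nz : ∃ x ∈ E, ∃ y ∈ E, g x y ≠ 0) : ∃ e : L → S, IsExpSet g ρ E e ∧ closure (e '' E) = ⊤ ∧
      ∀ x ∈ E, {s | ∃ t : K, ActsExp g ρ s (t • x)} = Set.range fun t : K => e (t • x) := by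
  have : ∀ x, ∃ s, x ∈ E → ActsExp g ρ s x := fun x => by
    by_cases h : x ∈ E
    · exact (ex x h).2.2.2.imp fun _ k _ => k
    · exact ⟨1, fun k => absurd k h⟩
  choose e he using this
  obtain ⟨x, hx, y, -, n⟩ := nz
  have m := mov inv (he x hx) n
  have i := inj m
  refine ⟨e, fun x h => ⟨(ex x h).1, (ex x h).2.1, (ex x h).2.2.1, he x h⟩, ?_, fun x h => ?_⟩
  · have N : (closure (e '' E)).Normal := by
      refine ⟨fun a ha s => ?_⟩
      have : closure (e '' E) ≤ (closure (e '' E)).comap (MulAut.conj s).toMonoidHom := by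
        rw [closure_le]
        rintro _ ⟨z, hz, rfl⟩
        refine subset_closure ⟨ρ s z, (ex z hz).2.2.1 s, uniq i (he _ ((ex z hz).2.2.1 s)) ?_⟩
        intro w
        change ρ (s * e z * s⁻¹) w = _
        rw [map_mul, map_mul, End.mul_apply, End.mul_apply, he z hz, map_add, map_add, rl, canc,
          map_smul, ← rg s z, canc]
      exact this ha
    refine N.eq_bot_or_eq_top.resolve_left fun b => m ?_
    rw [mem_bot.1 (b ▸ subset_closure ⟨x, hx, rfl⟩ : e x ∈ (⊥ : Subgroup S)), map_one]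
  · ext s
    exact ⟨fun ⟨t, k⟩ => ⟨t, uniq i (he _ ((ex x h).2.1 t)) k⟩,
      fun ⟨t, k⟩ => ⟨t, k ▸ he _ ((ex x h).2.1 t)⟩⟩

section

variable {π : Set ℕ} {p : ℕ} {g : L →ₗ[K] L →ₗ[K] K} {ρ : S →* End K L} {E : Set L} {e : L → S}

theorem stab (h : Pre π p g ρ E e) (s : S) :
    ∀ y ∈ Submodule.span K E, ρ s y ∈ Submodule.span K E := fun _ hy =>
  (Submodule.span_le (p := (Submodule.span K E).comap (ρ s))).2
    (fun z hz => Submodule.subset_span ((h.ex z hz).2.2.1 s)) hy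

/-- the span of the extremal elements -/
def sp (h : Pre π p g ρ E e) : LieSubalgebra K L :=
  { Submodule.span K E with
    lie_mem' := fun {x y} hx hy => by
      change ⁅x, y⁆ ∈ Submodule.span K E
      induction hx using Submodule.span_induction with
      | mem z hz =>
        have : ⁅z, y⁆ = ρ (e z) y - y - g z y • z := by
          rw [(h.ex z hz).2.2.2 y]
          abel
        rw [this]
        exact sub_mem (sub_mem (stab h _ y hy) hy) (Submodule.smul_mem _ _ (Submodule.subset_span hz))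
      | zero => simp
      | add a b _ _ ha hb => exact add_lie a b y ▸ add_mem ha hb
      | smul t a _ ha => exact smul_lie t a y ▸ Submodule.smul_mem _ _ ha }

/-- the action on the span -/
def rs (h : Pre π p g ρ E e) : S →* End K (sp h) where
  toFun s := (ρ s).restrict (p := Submodule.span K E) (stab h s)
  map_one' := by
    ext y
    exact congrArg (fun f : End K L => f y) (map_one ρ)
  map_mul' s t := by
    ext y
    exact congrArg (fun f : End K L => f y) (map_mul ρ s t)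

theorem pre1 (h : Pre π p g ρ E e) : ∃ (G : sp h →ₗ[K] sp h →ₗ[K] K),
    Pre π p G (rs h) (Subtype.val ⁻¹' E) (e ∘ Subtype.val) ∧
      Submodule.span K (Subtype.val ⁻¹' E : Set (sp h)) = ⊤ := by
  have T : Submodule.span K (Subtype.val ⁻¹' E : Set (sp h)) = ⊤ :=
    Submodule.span_span_coe_preimage
  have m : ∀ x ∈ E, x ∈ sp h := fun x hx => Submodule.subset_span hx
  refine ⟨g.compl₁₂ (sp h).incl.toLinearMap (sp h).incl.toLinearMap,
    ⟨fun a b => h.sym a b, fun a b c => h.inv a b c, fun s a b => h.rg s a b, fun x hx => ?_, ?_,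
      ?_, fun k β b x hx => ?_, fun k => ?_⟩, T⟩
  · obtain ⟨⟨a, b, c⟩, d, f, k⟩ := h.ex x hx
    exact ⟨⟨a, fun y => Subtype.ext (b y), fun y z => Subtype.ext (c y z)⟩, d, f,
      fun y => Subtype.ext (k y)⟩
  · obtain ⟨x, hx, y, hy, n⟩ := h.nz
    exact ⟨⟨x, m x hx⟩, hx, ⟨y, m y hy⟩, hy, n⟩
  · rw [Set.image_comp, Set.image_preimage_eq_of_subset, h.clo]
    exact fun x hx => ⟨⟨x, m x hx⟩, rfl⟩
  · obtain ⟨y, hy, r⟩ := h.st k β b x hx
    exact ⟨⟨y, m y hy⟩, hy, r⟩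
  · obtain ⟨a, b, ⟨x, hx, y, hy, n, c, hc, d, hd, r⟩, f⟩ := h.two k
    refine ⟨a, b, ⟨⟨x, m x hx⟩, hx, ⟨y, m y hy⟩, hy, n, ⟨c, hc⟩, T ▸ trivial, ⟨d, hd⟩,
      T ▸ trivial, r⟩, fun q x hx y hy z hz n r => Subtype.ext (f q x hx y hy z hz n ?_)⟩
    exact fun w hw => r ⟨w, hw⟩ (T ▸ trivial)

/-- the radical -/
def rad (h : Pre π p g ρ E e) : LieIdeal K L :=
  { LinearMap.ker g with
    lie_mem := fun {x a} ha => by
      change g ⁅x, a⁆ = 0
      ext b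
      rw [← lie_skew, map_neg, LinearMap.neg_apply, h.inv, show g a = 0 from ha]
      simp }

theorem rad_le (h : Pre π p g ρ E e) (s : S) :
    (rad h).toSubmodule ≤ (rad h).toSubmodule.comap (ρ s) := fun a ha => by
  change g (ρ s a) = 0
  ext b
  rw [← canc ρ s b, h.rg, show g a = 0 from ha]
  simp

/-- the action on the quotient -/
def rq (h : Pre π p g ρ E e) : S →* End K (L ⧸ rad h) where
  toFun s := Submodule.mapQ _ _ (ρ s) (rad_le h s)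
  map_one' := by
    refine LinearMap.ext fun y => ?_
    obtain ⟨y, rfl⟩ := Submodule.Quotient.mk_surjective _ y
    exact congrArg (fun f : End K L => Submodule.Quotient.mk (f y)) (map_one ρ)
  map_mul' s t := by
    refine LinearMap.ext fun y => ?_
    obtain ⟨y, rfl⟩ := Submodule.Quotient.mk_surjective _ y
    exact congrArg (fun f : End K L => Submodule.Quotient.mk (f y)) (map_mul ρ s t)

theorem exq (h : Pre π p g ρ E e) : ∃ (φ : L →ₗ[K] L ⧸ rad h)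
    (G : (L ⧸ rad h) →ₗ[K] (L ⧸ rad h) →ₗ[K] K), Function.Surjective φ ∧
      (∀ a b, φ ⁅a, b⁆ = ⁅φ a, φ b⁆) ∧ (∀ a b, G (φ a) (φ b) = g a b) ∧
      (∀ s a, rq h s (φ a) = φ (ρ s a)) ∧ ∀ a, g a = 0 → φ a = 0 :=
  ⟨(rad h).toSubmodule.mkQ, g.liftQ₂ (rad h).toSubmodule (rad h).toSubmodule le_rfl
    (fun a ha => LinearMap.ext fun b => (h.sym b a).trans (LinearMap.congr_fun ha b)),
    Submodule.mkQ_surjective _, fun _ _ => rfl, fun _ _ => rfl, fun _ _ => rfl,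
    fun _ ha => (Submodule.Quotient.mk_eq_zero _).2 ha⟩

end

theorem push [IsSimpleGroup S] {π : Set ℕ} {p : ℕ} {K Q : Type} [Field K] [Finite K] [CharP K p]
    [LieAlgebra K L] [LieRing Q] [LieAlgebra K Q] [Finite Q] {g : L →ₗ[K] L →ₗ[K] K}
    {ρ : S →* End K L} {E : Set L} {e : L → S} (h : Pre π p g ρ E e) (c : 3 ≤ Nat.card K)
    (T : Submodule.span K E = ⊤) (φ : L →ₗ[K] Q) (G : Q →ₗ[K] Q →ₗ[K] K) (r : S →* End K Q)
    (su : Function.Surjective φ) (fl : ∀ a b, φ ⁅a, b⁆ = ⁅φ a, φ b⁆)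
    (fg : ∀ a b, G (φ a) (φ b) = g a b) (fr : ∀ s a, r s (φ a) = φ (ρ s a))
    (ke : ∀ a, g a = 0 → φ a = 0) : Rt π p S := by
  have sym : ∀ a b, G a b = G b a := su.forall₂.2 fun a b => by rw [fg, fg, h.sym]
  have inv : ∀ a b c, G ⁅a, b⁆ c = G a ⁅b, c⁆ :=
    su.forall₃.2 fun a b c => by rw [← fl, ← fl, fg, fg, h.inv]
  have ac : ∀ x ∈ E, ActsExp G r (e x) (φ x) := fun x hx => su.forall.2 fun y => by
    rw [fr, (h.ex x hx).2.2.2 y, map_add, map_add, fl, map_smul, fg]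
  have xt : ∀ x ∈ E, IsExt G (φ x) := fun x hx => by
    obtain ⟨a, b, d⟩ := (h.ex x hx).1
    refine ⟨(fg x x).trans a, su.forall.2 fun y => ?_, su.forall₂.2 fun y z => ?_⟩
    · rw [← fl, ← fl, b, map_smul, fg]
    · simp only [← fl, d y z, map_sub, map_add, map_smul, fg]
  have i : Function.Injective r := by
    obtain ⟨x, hx, y, -, n⟩ := h.nz
    exact inj (mov inv (ac x hx) (fg x y ▸ n))
  have : ∀ v, ∃ s, ∀ x ∈ E, φ x = v → s = e x := fun v => by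
    by_cases k : ∃ x ∈ E, φ x = v
    · obtain ⟨x, hx, rfl⟩ := k
      exact ⟨e x, fun y hy q => uniq i (ac x hx) (q ▸ ac y hy)⟩
    · exact ⟨1, fun x hx q => absurd ⟨x, hx, q⟩ k⟩
  choose ε hε using this
  have ee : ∀ x ∈ E, ε (φ x) = e x := fun x hx => hε _ x hx rfl
  have et : ∀ x ∈ E, (fun t : K => ε (t • φ x)) = fun t => e (t • x) := fun x hx =>
    funext fun t => by rw [← map_smul, ee _ ((h.ex x hx).2.1 t)]
  refine ⟨K, Q, inferInstance, inferInstance, inferInstance, inferInstance, inferInstance, G, r,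
    φ '' E, ε, c, ⟨sym, inv, su.forall.2 fun a k => ke a ?_⟩, i, ?_, ?_, ?_, fun k β b => ?_,
    fun k => ?_⟩
  · ext b
    rw [← fg, k]
    rfl
  · rw [Submodule.span_image, T, Submodule.map_top, LinearMap.range_eq_top.2 su]
  · rw [Set.image_image, Set.image_congr ee, h.clo]
  · rintro _ ⟨x, hx, rfl⟩
    exact ⟨xt x hx, fun t => ⟨_, (h.ex x hx).2.1 t, map_smul ..⟩,
      fun s => ⟨_, (h.ex x hx).2.2.1 s, (fr s x).symm⟩, (ee x hx).symm ▸ ac x hx⟩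
  · rintro _ ⟨x, hx, rfl⟩
    obtain ⟨y, hy, q⟩ := h.st k β b x hx
    exact ⟨_, ⟨y, hy, rfl⟩, by rw [et x hx, et y hy, q]⟩
  · obtain ⟨a, b, ⟨x, hx, y, hy, n, u, -, v, -, r0, r1, r2, r3⟩, f⟩ := h.two k
    refine ⟨a, dim sym inv b (xt x hx) (xt y hy) ((fg x y).trans n) (fg u v ▸ r0)
      ((fg u x).trans r1) ((fg u y).trans r2) (by rw [← fl, fg, r3]), fun q => ?_⟩
    rintro _ ⟨x, hx, rfl⟩ _ ⟨y, hy, rfl⟩ _ ⟨z, hz, rfl⟩ n s
    rw [f q x hx y hy z hz (fg x y ▸ n) fun w _ => ?_]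
    rw [← fg, map_sub, fl, fl, s, sub_self, map_zero, LinearMap.zero_apply]

end RTW

theorem rtw : S_RTW.{u} := by
  intro π p S _ _ K L _ _ _ _ _ _ g ρ E c sym inv rl rg ex nz st two
  obtain ⟨e, he, clo, q⟩ := RTW.pre0 inv rl rg ex nz
  have h : RTW.Pre π p g ρ E e := ⟨sym, inv, rg, he, nz, clo, fun k β b x hx => by
    obtain ⟨y, hy, r⟩ := st k β b x hx
    exact ⟨y, hy, by rw [← q x hx, ← q y hy, r]⟩, two⟩
  obtain ⟨G, h1, T⟩ := RTW.pre1 h
  obtain ⟨φ, G', su, fl, fg, fr, ke⟩ := RTW.exq h1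
  have := Finite.of_surjective φ su
  exact RTW.push h1 c T φ G' (RTW.rq h1) su fl fg fr ke

end Pool.Agent.MP_983df8_al.CH

end

end MrgPart4

-- ======== part 5: formerly Pool.Agent.MP_983df8_al.ch.KA
section MrgPart5

/-! Characteristic `p` type: assembly. -/

namespace Pool.Agent.MP_983df8_al.CH

open Subgroup Module
open scoped Pointwise

universe u

namespace Ka

variable {ι Λ K V : Type} [AddCommGroup Λ] [Field K] [LieRing V] [LieAlgebra K V] {D : RD ι Λ}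
  {C : CG D K V} {S : Type u} [Group S] {f : S →* (End K V)ˣ}

theorem emb_conj (E : Emb C f) (s : S) : Emb C (f.comp (MulAut.conj s).toMonoidHom) :=
  ⟨E.inj.comp (MulAut.conj s).injective, by
    rw [MonoidHom.range_comp, MonoidHom.range_eq_top.2 (MulAut.conj s).surjective,
      ← MonoidHom.range_eq_map, E.range]⟩

theorem cop [Finite S] {p : ℕ} (hp : p.Prime) {β : MulAut S} (hβ : ¬ p ∣ orderOf β) {s : S} {k : ℕ}
    (h : β (s⁻¹ * β s) = s⁻¹ * β s) (e : (s⁻¹ * β s) ^ p ^ k = 1) : β s = s := by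
  have a : ∀ n : ℕ, (β ^ n) s = s * (s⁻¹ * β s) ^ n := fun n => by
    induction n with
    | zero => simp
    | succ n ih =>
      rw [pow_succ', MulAut.mul_apply, ih, map_mul, map_pow, h, pow_succ', ← mul_assoc,
        mul_inv_cancel_left]
  have b := a (orderOf β)
  rw [pow_orderOf_eq_one, MulAut.one_apply, left_eq_mul] at b
  exact (inv_mul_eq_one.1 (orderOf_eq_one_iff.1 (Nat.eq_one_of_dvd_coprimes
    ((hp.coprime_iff_not_dvd.2 hβ).pow_left k) (orderOf_dvd_of_pow_eq_one e)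
    (orderOf_dvd_of_pow_eq_one b)))).symm

theorem le_U (A : AF C) {ζ : Λ →+ ℤ} (h : Dom C ζ) : C.Ue ζ ≤ C.U :=
  C.Ux_mono fun a e => by
    by_contra c
    have := h.nonneg _ ((A.r.r.pos_ng a).2 c)
    rw [D.rt_ng, map_neg] at this
    simp only [Set.mem_setOf_eq] at e
    omega

end Ka

open Ka in
theorem ka (h1 : S_KBT) (h2 : S_KC) (h3 : S_KU.{u}) (h4 : S_KG.{u}) : S_KA.{u} := by
  intro ι Λ K V _ _ _ _ D C A S _ _ f E p hp _
  refine h4 S p hp.1 fun R r1 r2 => ?_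
  obtain ⟨U, hU⟩ := Pst.sylow (p := p) (C.U.comap f)
    ((A.u1.pgroup p _).comap_of_injective f E.inj) fun q hq => by
      obtain ⟨u, hu, ht⟩ := Pst.nm_split A.b2 A.t E hq
      refine ⟨u, hu, fun k hk => ?_⟩
      induction k with
      | zero => simpa only [pow_zero, pow_one] using hk
      | succ k ih =>
        refine ih (E.inj ?_)
        rw [map_one, map_pow]
        refine A.b1.T_pow p _ (pow_mem ht _) ?_
        rw [← pow_mul, ← pow_succ, ← map_pow, hk, map_one]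
  obtain ⟨P, hP⟩ := r2.exists_le_sylow
  obtain ⟨s, rfl⟩ := MulAction.exists_smul_eq S U P
  have a1 : ∀ r ∈ R, f.comp (MulAut.conj s⁻¹).toMonoidHom r ∈ C.U := fun r e => by
    have := hP e
    rw [Sylow.coe_subgroup_smul, hU, mem_pointwise_smul_iff_inv_smul_mem] at this
    simpa using this
  have E1 := emb_conj E s⁻¹
  generalize f.comp (MulAut.conj s⁻¹).toMonoidHom = f at a1 E1
  obtain ⟨g, g1, ζ, hζ, k1, k2⟩ := h1 _ _ _ _ D C A (R.map f)
    (by rintro _ ⟨r, e, rfl⟩; exact ⟨a1 r e, (A.b2.G1_le _ (Pst.g1 E1 r)).2⟩)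
    fun e => r1 ((map_eq_bot_iff_of_injective _ E1.inj).1 e)
  obtain ⟨g, rfl⟩ := Pst.pull E1 g1
  have E2 := emb_conj E1 g⁻¹
  have a2 : ∀ x, f.comp (MulAut.conj g⁻¹).toMonoidHom x = (f g)⁻¹ * f x * f g := fun x => by simp
  generalize f.comp (MulAut.conj g⁻¹).toMonoidHom = f' at a2 E2
  have pg := (A.u1.pgroup p ζ).comap_of_injective f' E2.inj
  obtain ⟨c1, c2⟩ := h2 _ _ _ _ D C A ζ hζ
  refine ⟨(C.Ue ζ).comap f', pg, fun r e => mem_comap.2 (a2 r ▸ k1 _ ⟨r, e, rfl⟩),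
    fun y e => mem_normalizer_fintype fun x b => ?_, fun β b1 b2 => h3 _ _ _ _ D C A
      (h2 _ _ _ _ D C A D.ht ⟨A.r.s.ht, fun a e => zero_le_one.trans e, _, A.r.t.pos⟩).2
      S f' E2 p β b1 fun s e => ?_⟩
  · have := k2 _ (Pst.g1 E1 y) (by
      rintro _ ⟨r, c, rfl⟩
      exact ⟨_, (mem_normalizer_iff''.1 e r).1 c, by simp⟩) _ b
    rw [← a2] at this
    exact mem_comap.2 (by simpa using this)
  · have a3 : s⁻¹ * β s ∈ (C.Ue ζ).comap f' := c2 _ (Pst.g1 E2 _) fun z c => by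
      obtain ⟨x, rfl⟩ := Pst.pullU E2 (le_U A hζ c.1) c.2
      refine Commute.map ?_ f'
      have := b2 (s * x * s⁻¹) (mem_comap.2 (by simpa using c1 _ e _ c.1))
      rw [map_mul, map_mul, map_inv, b2 x c.1] at this
      calc s⁻¹ * β s * x = s⁻¹ * (β s * x * (β s)⁻¹) * β s := by group
        _ = _ := by rw [this]; group
    obtain ⟨k, hk⟩ := pg ⟨_, a3⟩
    exact cop hp.1 b1 (b2 _ a3) (congrArg Subtype.val hk)

end Pool.Agent.MP_983df8_al.CH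

end MrgPart5

-- ======== part 6: formerly Pool.Agent.MP_983df8_al.ch.CG2
section MrgPart6

/-! Groups of Lie type belong to the abstract classes. -/

namespace Pool.Agent.MP_983df8_al.CH

open Subgroup Module TensorProduct

universe u

theorem cg2 {π : Set ℕ} {S : Type u} [Group S] (h : LieType π S) :
    ∃ (ι Λ K V : Type) (_ : AddCommGroup Λ) (_ : Field K) (_ : LieRing V) (_ : LieAlgebra K V)
      (D : RD ι Λ) (C : CG D K V) (f : S →* (End K V)ˣ), Emb C f ∧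
      ((ringChar K ∈ π ∧ (2 < C.q ∨ 2 < D.Δ.card)) ∨ (ringChar K ∉ π ∧
        (Syl π (ringChar K) S ∨ (2 ∉ π ∧ (2 < C.q ∨ 3 ∉ π)) ∨
          (32 < C.q ∧ (ringChar K = 3 → ∀ a c, D.cv a (D.rt c) ≠ 3))))) := by
  obtain ⟨ι, M, N, L, _, _, _, _, _, _, P, _, b, e, h, τ, γ, _, _, _, _, _, hr,
    ⟨l1, l2, l3⟩, ⟨g1, g2⟩, o2, ⟨K, _, _, θ, d, hd, o1, rfl, rfl, ⟨φ⟩⟩, q1⟩ := h
  obtain ⟨Λ, _, D, d1, d2, d3, d4, d5, d6⟩ := rdm ι M N P b hr
  have F := rdf ι Λ D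
  rw [← d1] at l1 l2 g2 q1
  let B : Basis (D.Δ ⊕ ι) ℤ L := Basis.mk l1 l2.ge
  have hB : ∀ a, B (.inr a) = e a := fun a => Basis.mk_apply l1 l2.ge _
  let Z : ZD D L :=
    { B := B
      h := h
      d := d
      h_B := fun i => Basis.mk_apply l1 l2.ge _
      hh := fun a c => (l3 a c).1
      he := fun a c => by rw [hB, d2, (l3 a c).2.1]
      eng := fun a => by rw [hB, hB, (l3 a _).2.2.1 (d5 a)]
      ee := fun a c c' k => by rw [hB, hB, hB, d3]; exact (l3 a c).2.2.2 c' (d6 a c c' k)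
      fac := fun a k => by rw [hB, hd] }
  have zF := zf ι Λ L D Z F
  obtain ⟨o, ho⟩ := F.top
  obtain ⟨g, zG⟩ := zg ι Λ L D Z F zF o (topf ι Λ D F o ho)
  obtain ⟨ε, zS⟩ := zs ι Λ L D Z τ γ F zF (fun a => by simpa only [Z, hB] using g1 a)
    fun i a => by simpa only [Z, hB] using g2 i a
  obtain ⟨C₀, r⟩ := bc ι Λ L D Z zF K
  obtain ⟨C, rfl, rfl, c⟩ := mk ι Λ L K D Z τ γ ε θ o g C₀ zF zG zS ho r
    (lead uf0 bc ι Λ L D Z F zF K C₀ r) o1 (o1 ▸ o2)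
  have k := fun y => Cg.mem_tw C (x := fun a => xr K (d a)) r.x F d4 (s := tw C.θ γ) c (y := y)
  refine ⟨ι, Λ, K, _, _, _, _, _, D, C,
    ((Submonoid.subtype _).comp φ.toMonoidHom).toHomUnits, ⟨fun s t a => ?_, ?_⟩,
    q1.imp_right (And.imp_right (Or.imp_right (Or.imp_right (And.imp_right
      fun a b c c' e' => ?_))))⟩
  · exact φ.injective (Subtype.ext (congrArg Units.val a))
  · ext y
    rw [← k]
    exact ⟨by rintro ⟨s, rfl⟩; exact (φ s).2,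
      fun a => ⟨φ.symm ⟨_, a⟩, Units.ext (congrArg Subtype.val (φ.apply_symm_apply ⟨_, a⟩))⟩⟩
  · have := (a b).pairingIn_mem_zero_one_two c' c
    rw [← d2, e'] at this
    simp at this

/-- the abstract classes -/
def Abs (π : Set ℕ) (S : Type u) [Group S] : Prop :=
  IsAlt S ∨ IsL2 S ∨ IsSz S ∨ ((2 ∉ π ∨ 3 ∉ π) ∧
    (IsLn S ∨ Cnt π S ∨ Gen4 π S ∨ ∃ p : ℕ, p.Prime ∧ ((p ∈ π ∧ IsBN3 p S) ∨ (p ∉ π ∧ (Rt π p S ∨
      (IsChar p S ∧ (Syl π p S ∨ (p = 2 ∧ NoInv π S))))))))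

theorem abs_of (hA : S_KA.{u}) (hN : S_KN.{u}) {π : Set ℕ} {S : Type u} [Group S] [Finite S]
    [IsSimpleGroup S] (h : Cls π S) : Abs π S := by
  refine h.imp_right (Or.imp_right (Or.imp_right (And.imp_right (Or.imp_right ?_))))
  rintro (e | e | e | ⟨p, hp, e⟩)
  rotate_left
  exacts [Or.inl e, Or.inr (Or.inl e), Or.inr (Or.inr ⟨p, hp, Or.inl e⟩), by
    obtain ⟨ι, Λ, K, V, _, _, _, _, D, C, f, E, q⟩ := cg2 e
    obtain ⟨r, u1, u2, b1, b2, t⟩ := all_facts C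
    have := C.fin
    have hp := CharP.char_is_prime K (ringChar K)
    have := Fact.mk hp
    have c := hA _ _ _ _ D C ⟨r, u1, u2, b1, b2, t⟩ S f E (ringChar K)
    have R := fun a => rt pst rig rtw _ _ _ _ D C r u1 u2 b1 b2 t a S f E (ringChar K) π
    refine Or.inr (Or.inr ⟨_, hp, q.imp (And.imp_right fun a => ?_) fun ⟨a, b⟩ => ⟨a, ?_⟩⟩)
    · obtain ⟨k1, k2, k3⟩ := bn _ _ _ _ D C r u1 u2 b1 b2 t S f E (ringChar K)
      obtain ⟨k4, k5⟩ := irr _ _ _ _ D C r u1 u2 b1 b2 t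
        (irrT _ _ _ _ D C r u1 u2 b1 b2 t a) S f E
      exact ⟨_, _, _, _, k1, k2, k3 ▸ k4, k5⟩
    rcases b with b | ⟨b, d⟩ | b
    · exact Or.inr ⟨c, Or.inl b⟩
    · by_cases e : 2 < C.q
      · exact Or.inl (R e a (Or.inl b))
      · exact Or.inr ⟨c, Or.inr (hN _ _ _ _ D C ⟨r, u1, u2, b1, b2, t⟩ (not_lt.1 e) S f E π b
          (d.resolve_left e))⟩
    · exact Or.inl (R (by omega) a (Or.inr b))]

end Pool.Agent.MP_983df8_al.CH

end MrgPart6

-- marker of a merged file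
example : 731051 + 469423 = 731051 + 469423 := rfl
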