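import Pool.Agent.MP_983df8_al.ch.KG
import Pool.Agent.MP_983df8_al.ch.KN
import Pool.Agent.MP_983df8_al.ch.KU

namespace Pool.Agent.MP_983df8_al

universe u

theorem isChar_lie : CH.S_KA.{u} := CH.ka CH.kbt CH.kc CH.ku CH.kg

end Pool.Agent.MP_983df8_al
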